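import Pool.Agent.Helper37.WC.Cliq

/-!
WC-4 (MP_b5afc9_al, project WC). Orders of clique groups.

* `two_pow`: a member has exponent two, so it is a `2`-group (`IsPGroup`): its order `q` is a power of `2`.
* `isP`: a clique group has exponent two (`Cl.sq`).
* `count`: the members of `S` contained in `M` intersect pairwise trivially and cover `M`; so `card M - 1 = ncard * (q - 1)`.
  (For instance the map `{x ∈ M | x ≠ 1} → {E | E ∈ S ∧ E ≤ M}` has all fibres of size `q - 1`.)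
* `card`: `card M = 2 ^ s`, `q = 2 ^ m`, and `q - 1 ∣ card M - 1` by `count`. `Nat.pow_sub_one_gcd_pow_sub_one` gives
  `gcd (2^m - 1) (2^s - 1) = 2^(gcd m s) - 1`, so `m ∣ s` and `card M = q ^ (s / m)`.
* `odd_members`: `ncard * (q - 1) + 1 = card M` is even (power of two bigger than one) and so `ncard` is odd.
* `card_dvd`: subgroups of `M` (Lagrange), `card_two_pow`.
* `card_ge`: `card M = q ^ k`, `k ≥ 2` as `card M > q`.
-/

namespace Pool.Agent.Helper37.WC

variable {G : Type*} [Group G] [Finite G] {S : Set (Subgroup G)} {q : ℕ} {A B E M N X : Subgroup G}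

omit [Finite G] in
private theorem pg56 {A : Subgroup G} (h : ∀ x ∈ A, x * x = 1) : IsPGroup 2 A := by
  intro g
  refine ⟨1, ?_⟩
  rw [pow_one, pow_two]
  exact Subtype.ext (h g g.2)

private theorem pc56 {A : Subgroup G} (h : IsPGroup 2 A) : ∃ m, Nat.card A = 2 ^ m := by
  have hp : Fact (Nat.Prime 2) := ⟨Nat.prime_two⟩
  exact IsPGroup.iff_card.1 h

theorem Sys.two_pow (h : Sys S q) (hA : A ∈ S) : ∃ m, 1 ≤ m ∧ q = 2 ^ m := by
  obtain ⟨m, hm⟩ := pc56 (pg56 (h.sq A hA))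
  rw [h.card A hA] at hm
  refine ⟨m, ?_, hm⟩
  rcases Nat.eq_zero_or_pos m with hm0 | hm0
  · have := h.q1
    rw [hm, hm0, pow_zero] at this
    exact absurd this (lt_irrefl _)
  · exact hm0

theorem Sys.isP (h : Sys S q) (hA : A ∈ S) : IsPGroup 2 A := pg56 (h.sq A hA)

theorem Cl.isP (h : Sys S q) (hM : Cl S M) : IsPGroup 2 M := pg56 (hM.sq h)

theorem Cl.card_two_pow (h : Sys S q) (hM : Cl S M) {L : Subgroup G} (hL : L ≤ M) : ∃ k, Nat.card L = 2 ^ k :=
  pc56 ((hM.isP h).to_le hL)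

theorem Cl.count (h : Sys S q) (hM : Cl S M) : {E | E ∈ S ∧ E ≤ M}.ncard * (q - 1) + 1 = Nat.card M := by
  classical
  set F : Subgroup G → Finset G := fun E => (Set.toFinite ((E : Set G) \ {1})).toFinset with hF
  have hmem : ∀ (E : Subgroup G) (x : G), x ∈ F E ↔ x ∈ E ∧ x ≠ 1 := by
    intro E x
    rw [hF, Set.Finite.mem_toFinset]
    rfl
  have hcard : ∀ E : Subgroup G, (F E).card + 1 = Nat.card E := by
    intro E
    have h1 : (F E).card = ((E : Set G) \ {1}).ncard := (Set.ncard_eq_toFinset_card _ _).symm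
    have h2 := Set.ncard_sdiff_singleton_add_one (s := (E : Set G)) (a := 1) E.one_mem
    rw [h1, h2, ← Nat.card_coe_set_eq]
    rfl
  set T : Finset (Subgroup G) := (Set.toFinite {E | E ∈ S ∧ E ≤ M}).toFinset with hT
  have hTm : ∀ E, E ∈ T ↔ E ∈ S ∧ E ≤ M := by
    intro E
    rw [hT, Set.Finite.mem_toFinset]
    rfl
  have h1 : F M = T.biUnion F := by
    ext x
    rw [Finset.mem_biUnion, hmem]
    constructor
    · rintro ⟨hx, hx1⟩
      obtain ⟨E, hE, hxE, hEM⟩ := hM.mem x hx hx1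
      exact ⟨E, (hTm E).2 ⟨hE, hEM⟩, (hmem E x).2 ⟨hxE, hx1⟩⟩
    · rintro ⟨E, hE, hxE⟩
      exact ⟨((hTm E).1 hE).2 ((hmem E x).1 hxE).1, ((hmem E x).1 hxE).2⟩
  have h2 : (T.biUnion F).card = ∑ E ∈ T, (F E).card := by
    refine Finset.card_biUnion ?_
    intro E hE E' hE' hne
    rw [Function.onFun, Finset.disjoint_left]
    intro x hx hx'
    exact hne (h.eq ((hTm E).1 hE).1 ((hTm E').1 hE').1 ((hmem E x).1 hx).1 ((hmem E' x).1 hx').1 ((hmem E x).1 hx).2)
  have h3 : ∀ E ∈ T, (F E).card = q - 1 := by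
    intro E hE
    have h4 := hcard E
    rw [h.card E ((hTm E).1 hE).1] at h4
    omega
  rw [← h1, Finset.sum_congr rfl h3, Finset.sum_const, smul_eq_mul] at h2
  rw [← hcard M, h2, Set.ncard_eq_toFinset_card _ (Set.toFinite _)]

theorem Cl.card (h : Sys S q) (hM : Cl S M) : ∃ k, Nat.card M = q ^ k := by
  by_cases hb : ∀ x ∈ M, x = 1
  · refine ⟨0, ?_⟩
    rw [(Subgroup.eq_bot_iff_forall M).2 hb, Subgroup.card_bot, pow_zero]
  · push Not at hb
    obtain ⟨x, hx, hx1⟩ := hb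
    obtain ⟨E, hE, -, -⟩ := hM.mem x hx hx1
    obtain ⟨m, hm1, hm⟩ := h.two_pow hE
    obtain ⟨s, hs⟩ := hM.card_two_pow h (le_refl M)
    have hc := hM.count h
    have hd : 2 ^ m - 1 ∣ 2 ^ s - 1 := by
      refine ⟨{E | E ∈ S ∧ E ≤ M}.ncard, ?_⟩
      rw [← hm, ← hs, ← hc, mul_comm]
      rfl
    have hg := Nat.pow_sub_one_gcd_pow_sub_one 2 m s
    rw [Nat.gcd_eq_left hd] at hg
    have h1 : 1 ≤ 2 ^ m := Nat.one_le_two_pow
    have h2 : 1 ≤ 2 ^ Nat.gcd m s := Nat.one_le_two_pow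
    have h3 : 2 ^ m = 2 ^ Nat.gcd m s := by omega
    have h4 : m = Nat.gcd m s := Nat.pow_right_injective (le_refl 2) h3
    have h5 : m ∣ s := by
      rw [h4]
      exact Nat.gcd_dvd_right m s
    obtain ⟨k, hk⟩ := h5
    refine ⟨k, ?_⟩
    rw [hs, hk, pow_mul, ← hm]

private theorem le_card56 (h : Sys S q) (hA : A ∈ S) (hAM : A ≤ M) : q ≤ Nat.card M := by
  rw [← h.card A hA]
  exact Subgroup.card_le_of_le hAM

theorem Cl.odd_members (h : Sys S q) (hM : Cl S M) (hA : A ∈ S) (hAM : A ≤ M) : Odd {E | E ∈ S ∧ E ≤ M}.ncard := by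
  obtain ⟨s, hs⟩ := hM.card_two_pow h (le_refl M)
  have hc := hM.count h
  have h1 := le_card56 h hA hAM
  have h2 := h.q1
  have h3 : Even (Nat.card M) := by
    rcases Nat.eq_zero_or_pos s with h0 | h0
    · rw [hs, h0, pow_zero] at h1
      omega
    · rw [hs]
      exact (Nat.even_pow.2 ⟨even_two, by omega⟩)
  rw [← hc] at h3
  have h4 : Odd ({E | E ∈ S ∧ E ≤ M}.ncard * (q - 1)) := by
    by_contra hn
    rw [Nat.not_odd_iff_even] at hn
    exact (Nat.not_even_iff_odd.2 hn.add_one) h3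
  exact (Nat.odd_mul.1 h4).1

theorem Cl.card_ge (h : Sys S q) (hM : Cl S M) (hA : A ∈ S) (hAM : A ≤ M) {x : G} (hx : x ∈ M) (hxA : x ∉ A) :
    q ^ 2 ≤ Nat.card M := by
  obtain ⟨k, hk⟩ := hM.card h
  have h1 := le_card56 h hA hAM
  have h2 := h.q1
  have h3 : Nat.card M ≠ q := by
    intro h4
    have h5 : A = M := by
      apply SetLike.coe_injective
      apply Set.eq_of_subset_of_ncard_le hAM _ (Set.toFinite _)
      rw [← Nat.card_coe_set_eq, ← Nat.card_coe_set_eq]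
      exact (h4.trans (h.card A hA).symm).le
    rw [h5] at hxA
    exact hxA hx
  rw [hk] at h1 h3 ⊢
  have h4 : 2 ≤ k := by
    rcases k with _ | _ | k
    · rw [pow_zero] at h1
      omega
    · exact absurd (pow_one q) h3
    · omega
  exact Nat.pow_le_pow_right (by omega) h4

end Pool.Agent.Helper37.WC
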