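import Pool.Agent.Helper37.WC.L1

/-!
WC-2 (MP_b5afc9_al, project WC). Basic facts on a pair `(A, B)` of non-root type.

Throughout `[a, y] = a*y*a⁻¹*y⁻¹`. Members have exponent two and are abelian (`Sys.sq`, `Sys.comm`).
* `ne`: `A = B` would give `Cm A B` by `Sys.comm`. `one_of`: then `Sys.ne_one`.
* `exists_out`: otherwise `A ≤ nz B` and `Cm A B` by `Sys.comm_of_nz`.
* `cent`: `[a, b] ∈ A` (as `b ∈ nz A`) and `∈ B` (as `a ∈ nz B`), so `= 1`.
* `symm`: take `x ∈ A`, `x ≠ 1`, `x ∈ nz B` from `ex`. `x` acts on `B` by conjugation as an involution; for `y ∈ B` the element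
  `(x*y*x⁻¹)*y ∈ B` commutes with `x`. If it is `≠ 1` for some `y`, it is a nontrivial element of `B` commuting with `x ≠ 1`, `x ∈ A`, so in `nz A`
  (`Sys.nz_of_comm`). If it is `1` for all `y` then `x` commutes with all of `B`, and any nontrivial element of `B` (`Sys.exists_ne`) is in `nz A`.
* `comm_mem`: `[a, y] ∈ B` commutes with `a`; if `a ≠ 1` use `Sys.nz_of_comm`; if `a = 1` it is `1`.
* `nz_of_comm'`: immediate from `Sys.nz_of_comm`.
* `card_le` (auxiliary, stated for all pairs): take `y ∈ B`, `y ∉ nz A` (`exists_out` for the symmetric pair). The map `nn A B → nn B A`, `a ↦ [a, y]` is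
  injective: if `[a, y] = [a', y]` then `a'⁻¹*a` commutes with `y ∈ B`; if `a'⁻¹*a ≠ 1` then `y ∈ nz A` by `Sys.nz_of_comm`, contradiction. So `card (nn A B) ≤ card (nn B A)`;
  `card_eq` by symmetry.
* `card_pos`: by `ex`. `card_lt`: `nn A B < A` by `exists_out`.
* `surj`: the injective map `nn A B → nn B A`, `a ↦ [a, y]` between finite sets of the same cardinality is surjective.
* `card_sq`: take `x ∈ nn A B`, `x ≠ 1`. The map `B → nn B A`, `y ↦ [x, y]` has all fibres of size at most `card (nn B A)`: if `[x,y] = [x,y']` then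
  `y'*y` (`= y'⁻¹*y`) commutes with `x`, so lies in `nn B A` (`Sys.nz_of_comm`). So `q = card B ≤ card (nn B A) * card (nn B A)`.
* `NR.cj'`: by `Sys.conj`, `Cm.cj'` (apply it with `g⁻¹` and `cj_inv_cj`), `nz_cj`, `conj_mem_cj`.
* `nr_or`: by definition.
-/

namespace Pool.Agent.Helper37.WC

variable {G : Type*} [Group G] [Finite G] {S : Set (Subgroup G)} {q : ℕ} {A B : Subgroup G}

theorem NR.ne_of (h : Sys S q) (n : NR S A B) : A ≠ B := by
  intro hAB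
  apply n.nc
  intro a ha b hb
  rw [← hAB] at hb
  exact h.comm n.hA a ha b hb

theorem NR.one_of (h : Sys S q) (n : NR S A B) {x : G} (hxA : x ∈ A) (hxB : x ∈ B) : x = 1 := by
  exact h.ne_one n.hA n.hB (n.ne_of h) hxA hxB

theorem NR.exists_out (h : Sys S q) (n : NR S A B) : ∃ a ∈ A, a ∉ nz B := by
  by_contra hc
  push Not at hc
  exact n.nc (h.comm_of_nz n.hA n.hB hc)

theorem NR.cent (h : Sys S q) (n : NR S A B) {a b : G} (ha : a ∈ A) (ha' : a ∈ nz B) (hb : b ∈ B) (hb' : b ∈ nz A) :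
    a * b = b * a := by
  have h1 : a * b * a⁻¹ * b⁻¹ ∈ B := B.mul_mem (nz_conj_mem ha' hb) (B.inv_mem hb)
  have h2 : a * (b * a⁻¹ * b⁻¹) ∈ A := A.mul_mem ha (nz_conj_mem hb' (A.inv_mem ha))
  have h3 : a * b * a⁻¹ * b⁻¹ = a * (b * a⁻¹ * b⁻¹) := by group
  rw [← h3] at h2
  have h4 := n.one_of h h2 h1
  rw [mul_inv_eq_one, mul_inv_eq_iff_eq_mul] at h4
  exact h4

private theorem comm_z65 (h : Sys S q) (hA : A ∈ S) (hB : B ∈ S) {a y : G} (ha : a ∈ A) (ha' : a ∈ nz B)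
    (hy : y ∈ B) : (a * y * a⁻¹ * y⁻¹) * a = a * (a * y * a⁻¹ * y⁻¹) := by
  have h1 := nz_conj_mem ha' hy
  have h2 := h.comm hB _ h1 _ hy
  have h3 := h.sq A hA a ha
  rw [h.inv hB hy, h.inv hA ha] at *
  calc a * y * a * y * a = (y * (a * y * a)) * a := by rw [← h2]
    _ = y * a * y * (a * a) := by group
    _ = (a * a) * y * a * y := by rw [h3]; group
    _ = a * (a * y * a * y) := by group

theorem NR.symm (h : Sys S q) (n : NR S A B) : NR S B A := by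
  refine ⟨n.hB, n.hA, fun hc => n.nc hc.symm, ?_⟩
  obtain ⟨x, hx, hx1, hxB⟩ := n.ex
  by_cases hall : ∀ y ∈ B, x * y = y * x
  · obtain ⟨y, hy, hy1⟩ := h.exists_ne n.hB
    exact ⟨y, hy, hy1, h.nz_of_comm n.hA hx hx1 (hall y hy).symm⟩
  · push Not at hall
    obtain ⟨y, hy, hxy⟩ := hall
    refine ⟨x * y * x⁻¹ * y⁻¹, B.mul_mem (nz_conj_mem hxB hy) (B.inv_mem hy), ?_,
      h.nz_of_comm n.hA hx hx1 (comm_z65 h n.hA n.hB hx hxB hy)⟩
    intro h1
    rw [mul_inv_eq_one, mul_inv_eq_iff_eq_mul] at h1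
    exact hxy h1

theorem NR.comm_mem (h : Sys S q) (n : NR S A B) {a y : G} (ha : a ∈ A) (ha' : a ∈ nz B) (hy : y ∈ B) :
    a * y * a⁻¹ * y⁻¹ ∈ nn B A := by
  refine ⟨B.mul_mem (nz_conj_mem ha' hy) (B.inv_mem hy), ?_⟩
  by_cases ha1 : a = 1
  · rw [ha1]
    have : (1 : G) * y * 1⁻¹ * y⁻¹ = 1 := by group
    rw [this]
    exact (nz A).one_mem
  · exact h.nz_of_comm n.hA ha ha1 (comm_z65 h n.hA n.hB ha ha' hy)

private theorem inj65 (h : Sys S q) (n : NR S A B) {y : G} (hy : y ∈ B) (hy' : y ∉ nz A) :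
    Function.Injective (fun a : nn A B =>
      (⟨(a : G) * y * (a : G)⁻¹ * y⁻¹, n.comm_mem h a.2.1 a.2.2 hy⟩ : nn B A)) := by
  intro a b hab
  have h1 : (a : G) * y * (a : G)⁻¹ * y⁻¹ = (b : G) * y * (b : G)⁻¹ * y⁻¹ := congrArg Subtype.val hab
  have h2 : (a : G) * y * (a : G)⁻¹ = (b : G) * y * (b : G)⁻¹ := mul_right_cancel h1
  by_contra hne
  have h3 : ((b : G)⁻¹ * (a : G)) ∈ A := A.mul_mem (A.inv_mem b.2.1) a.2.1
  have h4 : ((b : G)⁻¹ * (a : G)) ≠ 1 := by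
    intro h5
    rw [inv_mul_eq_one] at h5
    exact hne (Subtype.ext h5.symm)
  apply hy'
  refine h.nz_of_comm n.hA h3 h4 ?_
  calc y * ((b : G)⁻¹ * a) = (b : G)⁻¹ * ((b : G) * y * (b : G)⁻¹) * a := by group
    _ = (b : G)⁻¹ * ((a : G) * y * (a : G)⁻¹) * a := by rw [h2]
    _ = (b : G)⁻¹ * a * y := by group

theorem NR.card_le (h : Sys S q) (n : NR S A B) : Nat.card (nn A B) ≤ Nat.card (nn B A) := by
  obtain ⟨y, hy, hy'⟩ := (n.symm h).exists_out h
  exact Nat.card_le_card_of_injective _ (inj65 h n hy hy')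

theorem NR.card_eq (h : Sys S q) (n : NR S A B) : Nat.card (nn A B) = Nat.card (nn B A) := by
  exact le_antisymm (n.card_le h) ((n.symm h).card_le h)

theorem NR.card_pos (h : Sys S q) (n : NR S A B) : 1 < Nat.card (nn A B) := by
  rw [Subgroup.one_lt_card_iff_ne_bot, Ne, Subgroup.eq_bot_iff_forall]
  intro hc
  obtain ⟨x, hx, hx1, hxB⟩ := n.ex
  exact hx1 (hc x ⟨hx, hxB⟩)

theorem NR.card_lt (h : Sys S q) (n : NR S A B) : Nat.card (nn A B) < q := by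
  obtain ⟨a, ha, ha'⟩ := n.exists_out h
  rw [← h.card A n.hA]
  have h1 : (nn A B : Set G) ⊂ (A : Set G) := by
    refine ⟨fun x hx => hx.1, fun hc => ha' (hc ha).2⟩
  have h2 := Set.ncard_lt_ncard h1 (Set.toFinite _)
  rw [← Nat.card_coe_set_eq, ← Nat.card_coe_set_eq] at h2
  exact h2

theorem NR.card_sq (h : Sys S q) (n : NR S A B) : q ≤ Nat.card (nn A B) ^ 2 := by
  obtain ⟨x, hx, hx1, hxB⟩ := n.ex
  let f : B →* G := MonoidHom.mk' (fun y => x * (y : G) * x⁻¹ * (y : G)⁻¹) (by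
    intro y z
    have h1 : (x * (z : G) * x⁻¹ * (z : G)⁻¹) ∈ B :=
      B.mul_mem (nz_conj_mem hxB z.2) (B.inv_mem z.2)
    have h2 := h.comm n.hB _ h1 _ (B.inv_mem y.2)
    calc x * ((y * z : B) : G) * x⁻¹ * ((y * z : B) : G)⁻¹
        = (x * (y : G) * x⁻¹) * ((x * (z : G) * x⁻¹ * (z : G)⁻¹) * (y : G)⁻¹) := by
          push_cast; group
      _ = (x * (y : G) * x⁻¹) * ((y : G)⁻¹ * (x * (z : G) * x⁻¹ * (z : G)⁻¹)) := by rw [h2]
      _ = _ := by group)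
  have hf : ∀ y : B, f y = x * (y : G) * x⁻¹ * (y : G)⁻¹ := fun y => rfl
  have h1 := Subgroup.card_mul_index f.ker
  rw [Subgroup.index_ker, h.card B n.hB] at h1
  have h2 : Nat.card f.range ≤ Nat.card (nn B A) := by
    apply Subgroup.card_le_of_le
    rintro _ ⟨y, rfl⟩
    rw [hf]
    exact n.comm_mem h hx hxB y.2
  have h3 : Nat.card f.ker ≤ Nat.card (nn B A) := by
    rw [← Subgroup.card_map_of_injective (f := B.subtype) B.subtype_injective]
    apply Subgroup.card_le_of_le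
    rintro _ ⟨y, hy, rfl⟩
    refine ⟨y.2, ?_⟩
    have h4 : f y = 1 := hy
    rw [hf, mul_inv_eq_one, mul_inv_eq_iff_eq_mul] at h4
    exact h.nz_of_comm n.hA hx hx1 h4.symm
  rw [← h1, sq, n.card_eq h]
  exact Nat.mul_le_mul h3 h2

theorem NR.surj (h : Sys S q) (n : NR S A B) {y b : G} (hy : y ∈ B) (hy' : y ∉ nz A) (hb : b ∈ B) (hb' : b ∈ nz A) :
    ∃ a ∈ A, a ∈ nz B ∧ a * y * a⁻¹ * y⁻¹ = b := by
  have h1 := (inj65 h n hy hy').bijective_of_nat_card_le (n.card_eq h).ge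
  obtain ⟨a, ha⟩ := h1.2 ⟨b, hb, hb'⟩
  exact ⟨a, a.2.1, a.2.2, congrArg Subtype.val ha⟩

theorem NR.cj' (h : Sys S q) (n : NR S A B) (g : G) : NR S (cj g A) (cj g B) := by
  refine ⟨h.conj A n.hA g, h.conj B n.hB g, fun hc => ?_, ?_⟩
  · have h1 := hc.cj' g⁻¹
    rw [cj_inv_cj, cj_inv_cj] at h1
    exact n.nc h1
  · obtain ⟨x, hx, hx1, hxB⟩ := n.ex
    refine ⟨g * x * g⁻¹, conj_mem_cj hx, ?_, ?_⟩
    · intro h1
      rw [mul_inv_eq_one, mul_eq_left] at h1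
      exact hx1 h1
    · rw [nz_cj]
      exact conj_mem_cj hxB

theorem Sys.nr_or (h : Sys S q) (hA : A ∈ S) (hB : B ∈ S) {x : G} (hx : x ∈ A) (hx1 : x ≠ 1) (hxB : x ∈ nz B) :
    Cm A B ∨ NR S A B := by
  by_cases hc : Cm A B
  · exact Or.inl hc
  · exact Or.inr ⟨hA, hB, hc, x, hx, hx1, hxB⟩

end Pool.Agent.Helper37.WC
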