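import Pool.Agent.Helper37.WC.Defs

/-!
WC-6 (MP_b5afc9_al, project WC). Parity tools.

* `even_of_free`: a finite set with a fixed point free involution has even cardinality (for instance `Finset.card_involution`-like lemmas, `Finset.sum_involution`, or strong induction).
* `par_fix`: a `2`-group `P` acting (by `cj`) on a finite set `T` of subgroups: the number of elements of `T` and the number of fixed ones have the same parity
  (`IsPGroup.card_modEq_card_fixedPoints` for the action of `↥P` on `↥T`).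
-/

namespace Pool.Agent.Helper37.WC

theorem even_of_free {α : Type*} (T : Set α) (hT : T.Finite) (f : α → α) (h1 : ∀ x ∈ T, f x ∈ T)
    (h2 : ∀ x ∈ T, f (f x) = x) (h3 : ∀ x ∈ T, f x ≠ x) : Even T.ncard := by
  classical
  rw [Set.ncard_eq_toFinset_card T hT]
  have h := Finset.sum_involution (s := hT.toFinset) (f := fun _ => (1 : ZMod 2)) (fun a _ => f a)
    (by intro a _; decide) (by intro a ha _; exact h3 a (hT.mem_toFinset.1 ha))
    (by intro a ha; exact hT.mem_toFinset.2 (h1 a (hT.mem_toFinset.1 ha)))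
    (by intro a ha; exact h2 a (hT.mem_toFinset.1 ha))
  rw [Finset.sum_const, nsmul_eq_mul, mul_one] at h
  exact even_iff_two_dvd.2 ((ZMod.natCast_eq_zero_iff _ _).1 h)

theorem par_fix {G : Type*} [Group G] [Finite G] (P : Subgroup G) (hP : IsPGroup 2 P) (T : Set (Subgroup G))
    (hT : ∀ p ∈ P, ∀ Y ∈ T, cj p Y ∈ T) : T.ncard % 2 = {Y | Y ∈ T ∧ ∀ p ∈ P, cj p Y = Y}.ncard % 2 := by
  classical
  have : Fact (Nat.Prime 2) := ⟨Nat.prime_two⟩
  let act : MulAction P T :=
    { smul := fun p Y => ⟨cj p.1 Y.1, hT p.1 p.2 Y.1 Y.2⟩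
      one_smul := by
        intro Y
        apply Subtype.ext
        exact cj_one Y.1
      mul_smul := by
        intro p r Y
        apply Subtype.ext
        exact cj_mul p.1 r.1 Y.1 }
  have : Finite T := inferInstance
  have h := @IsPGroup.card_modEq_card_fixedPoints 2 P _ hP _ T act _
  have h1 : Nat.card T = T.ncard := Nat.card_coe_set_eq T
  have h2 : Nat.card (@MulAction.fixedPoints P T _ act) = {Y | Y ∈ T ∧ ∀ p ∈ P, cj p Y = Y}.ncard := by
    rw [← Nat.card_coe_set_eq]
    refine Nat.card_congr ⟨fun Y => ⟨Y.1.1, Y.1.2, fun p hp => ?_⟩, fun Y => ⟨⟨Y.1, Y.2.1⟩, fun p => ?_⟩, ?_, ?_⟩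
    · exact congrArg Subtype.val (Y.2 ⟨p, hp⟩)
    · apply Subtype.ext
      exact Y.2.2 p.1 p.2
    · intro Y
      rfl
    · intro Y
      rfl
  rw [h1, h2] at h
  exact h

end Pool.Agent.Helper37.WC
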