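import Pool.Agent.Helper37.WC.YA
import Pool.Agent.Helper37.WC.Pair
import Pool.Agent.Helper37.WC.CliqCard
import Pool.Agent.Helper37.WC.Par

/-!
WC-10 (MP_b5afc9_al, project WC). If `(A, B)` is of non-root type and a member `D` commutes with both `A` and `B` then `YA S A` has odd cardinality. `[x, y] = x*y*x⁻¹*y⁻¹`.

`D ≠ A` and `D ≠ B` (otherwise `Cm A B`), `D ⊓ A` trivial. Take `b ∈ B`, `b ≠ 1`, `b ∈ nz A`, and `P := D ⊔ zpowers b` (elements `d` and `d*b`; commuting elements of order two: a group of exponent two, so a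
`2`-group), which normalises `A`, so acts on `YA S A` (`YA_cj_mem`). By `par_fix` it is enough to show that `Fix = {Y ∈ YA S A | ∀ p ∈ P, cj p Y = Y}` has odd cardinality.

(1) Let `Y = A ⊔ zpowers y ∈ Fix`. Claim: `y` commutes with `D`. For `d ∈ D`: `cj d Y = Y`, `d` commutes with `A`; `d*y*d⁻¹ ∈ Y \ A` (if it were in `A` then `y ∈ A`), so `[d, y] ∈ A` by `mem_sup_zp` (`y*y = 1`).
Suppose `d*y ≠ y*d` for some `d ∈ D`. Let `F = cj y D ∈ S`. For `d' ∈ D`: `y*d'*y⁻¹ = a'*d'` with `a' = [y, d'] ∈ A`. So every element of `F` is of the form `a'*d'`, `a' ∈ A`, `d' ∈ D`.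
 - `F ≠ D`: otherwise `[y, d] ∈ A ⊓ D = 1`. So `F ⊓ D = 1`. `F ≠ A` since `F = A` gives `D = cj y⁻¹ A = A` (`y` commutes with `A`).
 - `cj b F = F`: `cj b F = cj (b*y*b⁻¹) (cj b D) = cj (b*y*b⁻¹) D` (`b` commutes with `D`), and `b*y*b⁻¹ ∈ Y \ A`, so `b*y*b⁻¹ = a''*y` with `a'' ∈ A`, and `cj a'' F = F` as all elements of `F` (products
   of elements of `A` and `D`) commute with `A`.
 - For `f = a'*d' ∈ F`: `b*f*b⁻¹ = (b*a'*b⁻¹)*d' ∈ F`, so `b*f*b⁻¹*f⁻¹ = b*a'*b⁻¹*a'⁻¹ ∈ F ⊓ A = 1`. So `b` commutes with `a'`. The map `D → A`, `d' ↦ [y, d']` is injective (if `[y, d'] = [y, d'']` then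
   `(y*d'*y⁻¹)*(y*d''*y⁻¹)⁻¹ = d'*d''⁻¹ ∈ F ⊓ D = 1`), and `card D = card A`, so it is surjective and `b` commutes with all of `A`; then `A ≤ nz B` (`Sys.nz_of_comm`) and `Cm A B`: contradiction.
(2) Fix `d0 ∈ D`, `d0 ≠ 1`, `Y0 = A ⊔ zpowers d0`. `Y0 ∈ Fix`. For `Y ∈ Fix`, `Y ≠ Y0`, put `τ Y = {x | x ∈ A ∨ x*d0 ∈ Y \ A}`, i.e. `τ (A ⊔ zpowers y) = A ⊔ zpowers (y*d0)`. If `Y = A ⊔ zpowers y ∈ Fix` then `y` commutes
with `D` by (1), so `y*d0` is `≠ 1` (as `y ∉ Y0`) and lies in a member (`y ∈ E`, `Cm D E` by `Sys.cm_of_elem`, `Sys.C`), commutes with `A`, is not in `A` (otherwise `y ∈ Y0` and `Y = Y0`). `A ⊔ zpowers (y*d0)` is fixed by `P`. It is `≠ Y0` (else `y ∈ A`),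
and `≠ Y` (else `d0 ∈ A`). `τ` is an involution. So `Fix \ {Y0}` is even by `even_of_free` (define `τ Y` as `A ⊔ zpowers (y*d0)` for a chosen `y`; it does not depend on `y`: another choice is `a*y`, `a ∈ A`) and `Fix` is odd.
-/

namespace Pool.Agent.Helper37.WC

variable {G : Type*} [Group G] [Finite G] {S : Set (Subgroup G)} {q : ℕ} {A B D : Subgroup G}

/-- an element commuting with a subgroup normalises it -/
private theorem cj_of_ct10 {g : G} {F : Subgroup G} (hg : g ∈ ct F) : cj g F = F := by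
  refine mem_nz.1 (mem_nz_of fun x hx => ?_)
  have h1 : g * x * g⁻¹ = x := by rw [hg x hx, mul_inv_cancel_right]
  rw [h1]
  exact hx

/-- step (1) -/
theorem YA_fix_comm (h : Sys S q) (n : NR S A B) (hD : D ∈ S) (hDA : Cm D A) (hDB : Cm D B) {b y : G} (hb : b ∈ B) (hb1 : b ≠ 1)
    (hb' : b ∈ nz A) (hyS : ∃ E ∈ S, y ∈ E) (hyA : y ∉ A) (hyc : y ∈ ct A) (hfD : ∀ d ∈ D, d * y * d⁻¹ * y⁻¹ ∈ A)
    (hfb : b * y * b⁻¹ * y⁻¹ ∈ A) : y ∈ ct D := by
  by_contra hcon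
  have hcon' : ∃ d ∈ D, y * d ≠ d * y := by
    by_contra hc
    push Not at hc
    exact hcon (mem_ct.2 hc)
  obtain ⟨d, hd, hdy⟩ := hcon'
  have hA := n.hA
  have hB := n.hB
  -- commutators
  have hcA : ∀ d' ∈ D, y * d' * y⁻¹ * d'⁻¹ ∈ A := by
    intro d' hd'
    have h1 := A.inv_mem (hfD d' hd')
    have h2 : (d' * y * d'⁻¹ * y⁻¹)⁻¹ = y * d' * y⁻¹ * d'⁻¹ := by group
    rwa [h2] at h1
  have hDneA : D ≠ A := by
    intro h0
    apply n.nc
    rw [← h0]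
    exact hDB
  have hF : cj y D ∈ S := h.conj D hD y
  have hFD : cj y D ≠ D := by
    intro h0
    have h1 : y * d * y⁻¹ ∈ D := by rw [← h0]; exact conj_mem_cj hd
    have h2 : y * d * y⁻¹ * d⁻¹ ∈ D := D.mul_mem h1 (D.inv_mem hd)
    have h3 := h.ne_one hD hA hDneA h2 (hcA d hd)
    apply hdy
    have h4 : y * d = (y * d * y⁻¹ * d⁻¹) * d * y := by group
    rw [h4, h3, one_mul]
  have hFA : cj y D ≠ A := by
    intro h0
    apply hDneA
    rw [← cj_inv_cj y D, h0]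
    exact cj_of_ct10 ((ct A).inv_mem hyc)
  have hbD : cj b D = D := cj_of_ct10 (fun x hx => (hDB x hx b hb).symm)
  have hbF : cj b (cj y D) = cj y D := by
    have h1 : b * y = (b * y * b⁻¹ * y⁻¹) * (y * b) := by group
    rw [← cj_mul, h1, cj_mul _ (y * b), cj_mul y b, hbD]
    refine cj_of_ct10 (fun x hx => ?_)
    rw [mem_cj] at hx
    have h2 := hDA _ hx _ hfb
    have h3 := hyc _ hfb
    generalize b * y * b⁻¹ * y⁻¹ = c at h2 h3 hfb
    have h4 : x = y * (y⁻¹ * x * y) * y⁻¹ := by group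
    have h5 : c * y⁻¹ = y⁻¹ * c := (((ct A).inv_mem hyc) _ hfb).symm
    calc c * x = c * (y * (y⁻¹ * x * y) * y⁻¹) := by rw [← h4]
      _ = (c * y) * (y⁻¹ * x * y) * y⁻¹ := by group
      _ = y * (c * (y⁻¹ * x * y)) * y⁻¹ := by rw [← h3]; group
      _ = y * ((y⁻¹ * x * y) * c) * y⁻¹ := by rw [h2]
      _ = y * (y⁻¹ * x * y) * (c * y⁻¹) := by group
      _ = y * (y⁻¹ * x * y) * y⁻¹ * c := by rw [h5]; group
      _ = x * c := by rw [← h4]
  have hba : ∀ d' ∈ D, b * (y * d' * y⁻¹ * d'⁻¹) = (y * d' * y⁻¹ * d'⁻¹) * b := by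
    intro d' hd'
    have h1 := hcA d' hd'
    set a' := y * d' * y⁻¹ * d'⁻¹ with ha'
    have h2 : y * d' * y⁻¹ ∈ cj y D := conj_mem_cj hd'
    have h3 : y * d' * y⁻¹ = a' * d' := by rw [ha']; group
    rw [h3] at h2
    have h4 : b * (a' * d') * b⁻¹ ∈ cj y D := by
      rw [← hbF]
      exact conj_mem_cj h2
    have h5 : b * (a' * d') * b⁻¹ * (a' * d')⁻¹ ∈ cj y D := (cj y D).mul_mem h4 ((cj y D).inv_mem h2)
    have h6 : b * (a' * d') * b⁻¹ * (a' * d')⁻¹ = b * a' * b⁻¹ * a'⁻¹ := by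
      have h7 : d' * b⁻¹ = b⁻¹ * d' := by
        have := hDB d' hd' b⁻¹ (B.inv_mem hb)
        exact this
      calc b * (a' * d') * b⁻¹ * (a' * d')⁻¹ = b * a' * (d' * b⁻¹) * d'⁻¹ * a'⁻¹ := by group
        _ = b * a' * (b⁻¹ * d') * d'⁻¹ * a'⁻¹ := by rw [h7]
        _ = b * a' * b⁻¹ * a'⁻¹ := by group
    rw [h6] at h5
    have h8 : b * a' * b⁻¹ * a'⁻¹ ∈ A := A.mul_mem (nz_conj_mem hb' h1) (A.inv_mem h1)
    have h9 := h.ne_one hF hA hFA h5 h8
    have h10 : b * a' = (b * a' * b⁻¹ * a'⁻¹) * (a' * b) := by group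
    rw [h10, h9, one_mul]
  -- the map is bijective
  let f : D → A := fun x => ⟨y * x * y⁻¹ * (x : G)⁻¹, hcA x x.2⟩
  have hinj : Function.Injective f := by
    intro x x' hxx
    have h1 : y * x * y⁻¹ * (x : G)⁻¹ = y * x' * y⁻¹ * (x' : G)⁻¹ := congrArg Subtype.val hxx
    have h2 : (y * x * y⁻¹) * (y * x' * y⁻¹)⁻¹ = x * (x' : G)⁻¹ := by
      have h3 : y * (x : G) * y⁻¹ = (y * x * y⁻¹ * (x : G)⁻¹) * x := by group
      have h4 : y * (x' : G) * y⁻¹ = (y * x' * y⁻¹ * (x' : G)⁻¹) * x' := by group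
      have h5 := hDA _ (D.mul_mem x.2 (D.inv_mem x'.2)) _ (hcA x x.2)
      rw [h4, ← h1]
      nth_rewrite 1 [h3]
      generalize y * (x : G) * y⁻¹ * (x : G)⁻¹ = c at h5
      calc c * x * (c * x')⁻¹ = c * (x * (x' : G)⁻¹) * c⁻¹ := by group
        _ = (x * (x' : G)⁻¹ * c) * c⁻¹ := by rw [h5]
        _ = x * (x' : G)⁻¹ := by group
    have h3 : (x : G) * (x' : G)⁻¹ ∈ cj y D := by
      rw [← h2]
      exact (cj y D).mul_mem (conj_mem_cj x.2) ((cj y D).inv_mem (conj_mem_cj x'.2))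
    have h4 := h.ne_one hF hD hFD h3 (D.mul_mem x.2 (D.inv_mem x'.2))
    exact Subtype.ext (mul_inv_eq_one.1 h4)
  have hbij := hinj.bijective_of_nat_card_le (by rw [h.card A hA, h.card D hD])
  have hbA : ∀ a ∈ A, a * b = b * a := by
    intro a ha
    obtain ⟨x, hx⟩ := hbij.2 ⟨a, ha⟩
    have h1 : y * x * y⁻¹ * (x : G)⁻¹ = a := congrArg Subtype.val hx
    have h2 := hba x x.2
    rw [h1] at h2
    exact h2.symm
  exact n.nc (h.comm_of_nz hA hB fun a ha => h.nz_of_comm hB hb hb1 (hbA a ha))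

theorem YA_odd (h : Sys S q) (n : NR S A B) (hD : D ∈ S) (hDA : Cm D A) (hDB : Cm D B) : Odd (YA S A).ncard := by
  classical
  have hA := n.hA
  have hB := n.hB
  have hDneA : D ≠ A := by
    intro h0
    apply n.nc
    rw [← h0]
    exact hDB
  obtain ⟨b, hb, hb1, hb'⟩ := (n.symm h).ex
  have hbD : b ∈ ct D := fun x hx => (hDB x hx b hb).symm
  have hbb : b * b = 1 := h.sq B hB b hb
  set P : Subgroup G := D ⊔ Subgroup.zpowers b with hP
  have hmemP : ∀ x, x ∈ P ↔ x ∈ D ∨ x * b ∈ D := fun x => mem_sup_zp h hB hb hbD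
  have hDP : D ≤ P := le_sup_left
  have hbP : b ∈ P := Subgroup.mem_sup_right (Subgroup.mem_zpowers b)
  -- elements of P commute with D
  have hPct : P ≤ ct D := sup_le (fun x hx => h.comm hD x hx) (by rw [Subgroup.zpowers_le]; exact hbD)
  have hPnz : P ≤ nz A := by
    refine sup_le (fun x hx => ?_) (by rw [Subgroup.zpowers_le]; exact hb')
    exact cj_of_ct10 (fun a ha => hDA x hx a ha)
  have hPP : IsPGroup 2 P := by
    rintro ⟨p, hp⟩
    refine ⟨1, ?_⟩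
    apply Subtype.ext
    simp only [pow_one, SubmonoidClass.mk_pow, OneMemClass.coe_one]
    rw [pow_two]
    rcases (hmemP p).1 hp with h1 | h1
    · exact h.sq D hD p h1
    · have h2 : p = (p * b) * b := by rw [mul_assoc, hbb, mul_one]
      have h3 := hbD _ h1
      have h4 := h.sq D hD _ h1
      generalize p * b = c at h1 h2 h3 h4
      rw [h2]
      calc c * b * (c * b) = c * (b * c) * b := by group
        _ = (c * c) * (b * b) := by rw [h3]; group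
        _ = 1 := by rw [h4, hbb, one_mul]
  have hpar := par_fix P hPP (YA S A) (fun p hp Y hY => YA_cj_mem h (hPnz hp) hY)
  set Fix : Set (Subgroup G) := {Y | Y ∈ YA S A ∧ ∀ p ∈ P, cj p Y = Y} with hFix
  -- good elements
  let gd : G → Prop := fun x => x ∉ A ∧ (∃ E ∈ S, x ∈ E) ∧ x ∈ ct A
  let Z : G → Subgroup G := fun x => A ⊔ Subgroup.zpowers x
  have hYA : ∀ Y, Y ∈ YA S A ↔ ∃ x, gd x ∧ Y = Z x := by
    intro Y
    constructor
    · rintro ⟨x, h1, h2, h3, h4⟩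
      exact ⟨x, ⟨h1, h2, h3⟩, h4⟩
    · rintro ⟨x, ⟨h1, h2, h3⟩, h4⟩
      exact ⟨x, h1, h2, h3, h4⟩
  have hsq : ∀ x, gd x → x * x = 1 := by
    rintro x ⟨-, ⟨E, hE, hxE⟩, -⟩
    exact h.sq E hE x hxE
  have hinv : ∀ x, gd x → x⁻¹ = x := fun x hx => inv_eq_of_mul_eq_one_right (hsq x hx)
  have hmemZ : ∀ x, gd x → ∀ w, w ∈ Z x ↔ w ∈ A ∨ w * x ∈ A := by
    rintro x ⟨-, ⟨E, hE, hxE⟩, hxc⟩ w
    exact mem_sup_zp h hE hxE hxc
  have hAZ : ∀ x, A ≤ Z x := fun x => le_sup_left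
  have hxZ : ∀ x, x ∈ Z x := fun x => Subgroup.mem_sup_right (Subgroup.mem_zpowers x)
  have hZeq : ∀ x x', gd x → gd x' → x' ∈ Z x → Z x' = Z x := by
    intro x x' hx hx' hm
    apply le_antisymm
    · exact sup_le le_sup_left (by rw [Subgroup.zpowers_le]; exact hm)
    · refine sup_le le_sup_left ?_
      rw [Subgroup.zpowers_le, hmemZ x' hx']
      right
      have h1 := ((hmemZ x hx x').1 hm).resolve_left hx'.1
      have h2 := A.inv_mem h1
      rw [mul_inv_rev, hinv x hx, hinv x' hx'] at h2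
      exact h2
  have hZne : ∀ x x', gd x → gd x' → Z x' = Z x → x' * x ∈ A := by
    intro x x' hx hx' he
    have h1 : x' ∈ Z x := by rw [← he]; exact hxZ x'
    exact ((hmemZ x hx x').1 h1).resolve_left hx'.1
  have hfix : ∀ x, gd x → ((∀ p ∈ P, cj p (Z x) = Z x) ↔ ∀ p ∈ P, p * x * p⁻¹ * x⁻¹ ∈ A) := by
    intro x hx
    constructor
    · intro hp p hpP
      have h1 : p * x * p⁻¹ ∈ Z x := by
        rw [← hp p hpP]
        exact conj_mem_cj (hxZ x)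
      rcases (hmemZ x hx _).1 h1 with h2 | h2
      · exfalso
        apply hx.1
        have h3 : cj p A = A := mem_nz.1 (hPnz hpP)
        rw [← h3, conj_mem_cj_iff] at h2
        exact h2
      · rwa [hinv x hx]
    · intro hp p hpP
      refine mem_nz.1 (mem_nz_of fun w hw => ?_)
      rcases (hmemZ x hx w).1 hw with h1 | h1
      · exact hAZ x (nz_conj_mem (hPnz hpP) h1)
      · have h2 : p * w * p⁻¹ = (p * (w * x) * p⁻¹) * ((p * x * p⁻¹ * x⁻¹) * x) := by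
          have h3 : w = (w * x) * x := by rw [mul_assoc, hsq x hx, mul_one]
          calc p * w * p⁻¹ = p * ((w * x) * x) * p⁻¹ := by rw [← h3]
            _ = _ := by group
        rw [h2]
        exact (Z x).mul_mem (hAZ x (nz_conj_mem (hPnz hpP) h1))
          ((Z x).mul_mem (hAZ x (hp p hpP)) (hxZ x))
  have hctD : ∀ x, gd x → (∀ p ∈ P, cj p (Z x) = Z x) → x ∈ ct D := by
    intro x hx hp
    have h1 := (hfix x hx).1 hp
    exact YA_fix_comm h n hD hDA hDB hb hb1 hb' hx.2.1 hx.1 hx.2.2 (fun d hd => h1 d (hDP hd))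
      (h1 b hbP)
  -- the distinguished element
  obtain ⟨d0, hd0, hd01⟩ := h.exists_ne hD
  have hd0A : d0 ∉ A := fun hc => hd01 (h.ne_one hD hA hDneA hd0 hc)
  have hd0g : gd d0 := ⟨hd0A, ⟨D, hD, hd0⟩, fun a ha => hDA d0 hd0 a ha⟩
  have hY0 : Z d0 ∈ Fix := by
    refine ⟨(hYA _).2 ⟨d0, hd0g, rfl⟩, (hfix d0 hd0g).2 fun p hp => ?_⟩
    have h1 : p * d0 * p⁻¹ * d0⁻¹ = 1 := by
      rw [hPct hp d0 hd0]; group
    rw [h1]
    exact A.one_mem
  -- multiplication by d0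
  have hkey : ∀ x, gd x → (∀ p ∈ P, cj p (Z x) = Z x) → Z x ≠ Z d0 →
      gd (x * d0) ∧ (∀ p ∈ P, cj p (Z (x * d0)) = Z (x * d0)) ∧ Z (x * d0) ≠ Z d0 ∧
        Z (x * d0) ≠ Z x := by
    intro x hx hp hne
    have hxD := hctD x hx hp
    have hnA : x * d0 ∉ A := by
      intro hc
      apply hne
      exact hZeq d0 x hd0g hx ((hmemZ d0 hd0g x).2 (Or.inr hc))
    have hxd1 : x * d0 ≠ 1 := fun h0 => hnA (by rw [h0]; exact A.one_mem)
    have hx1 : x ≠ 1 := fun h0 => hx.1 (by rw [h0]; exact A.one_mem)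
    obtain ⟨E, hE, hxE⟩ := hx.2.1
    have hDE : Cm D E := h.cm_of_elem hD hE hxE hx1 hxD
    have hg : gd (x * d0) := by
      refine ⟨hnA, ?_, (ct A).mul_mem hx.2.2 hd0g.2.2⟩
      obtain ⟨K, hK, hK'⟩ := h.C D hD E hE hDE d0 hd0 x hxE (by rw [hDE d0 hd0 x hxE]; exact hxd1)
      exact ⟨K, hK, by rw [← hDE d0 hd0 x hxE]; exact hK'⟩
    refine ⟨hg, (hfix _ hg).2 fun p hpP => ?_, ?_, ?_⟩
    · have h1 : p * (x * d0) * p⁻¹ * (x * d0)⁻¹ = p * x * p⁻¹ * x⁻¹ := by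
        have h2 : d0 * p⁻¹ = p⁻¹ * d0 := by
          have := hPct (P.inv_mem hpP) d0 hd0
          exact this.symm
        calc p * (x * d0) * p⁻¹ * (x * d0)⁻¹ = p * x * (d0 * p⁻¹) * d0⁻¹ * x⁻¹ := by group
          _ = p * x * (p⁻¹ * d0) * d0⁻¹ * x⁻¹ := by rw [h2]
          _ = p * x * p⁻¹ * x⁻¹ := by group
      rw [h1]
      exact (hfix x hx).1 hp p hpP
    · intro he
      have h1 := hZne d0 (x * d0) hd0g hg he
      rw [mul_assoc, hsq d0 hd0g, mul_one] at h1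
      exact hx.1 h1
    · intro he
      have h1 := hZne x (x * d0) hx hg he
      rw [mul_assoc, ← hxD d0 hd0, ← mul_assoc, hsq x hx, one_mul] at h1
      exact hd0A h1
  let τ : Subgroup G → Subgroup G := fun Y => if hY : ∃ x, gd x ∧ Y = Z x then Z (hY.choose * d0) else Y
  have hτ : ∀ Y, ∀ hY : Y ∈ YA S A, ∃ x, gd x ∧ Y = Z x ∧ τ Y = Z (x * d0) := by
    intro Y hY
    have hY' := (hYA Y).1 hY
    refine ⟨hY'.choose, hY'.choose_spec.1, hY'.choose_spec.2, ?_⟩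
    simp only [τ]
    rw [dif_pos hY']
  have hev : Even (Fix \ {Z d0}).ncard := by
    refine even_of_free _ (Set.toFinite _) τ ?_ ?_ ?_
    · rintro Y ⟨hY, hY0'⟩
      obtain ⟨x, hx, rfl, hτx⟩ := hτ Y hY.1
      obtain ⟨k1, k2, k3, k4⟩ := hkey x hx hY.2 hY0'
      rw [hτx]
      exact ⟨⟨(hYA _).2 ⟨_, k1, rfl⟩, k2⟩, k3⟩
    · rintro Y ⟨hY, hY0'⟩
      obtain ⟨x, hx, rfl, hτx⟩ := hτ Y hY.1
      obtain ⟨k1, k2, k3, k4⟩ := hkey x hx hY.2 hY0'
      rw [hτx]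
      obtain ⟨x', hx', hZ', hτx'⟩ := hτ (Z (x * d0)) ((hYA _).2 ⟨_, k1, rfl⟩)
      rw [hτx']
      have hfx' : ∀ p ∈ P, cj p (Z x') = Z x' := by rw [← hZ']; exact k2
      have hne' : Z x' ≠ Z d0 := by rw [← hZ']; exact k3
      obtain ⟨l1, -, -, -⟩ := hkey x' hx' hfx' hne'
      refine hZeq x (x' * d0) hx l1 ?_
      rw [hmemZ x hx]
      right
      have h1 := hZne (x * d0) x' k1 hx' hZ'.symm
      have h2 : x' * d0 * x = x' * (x * d0) := by
        rw [mul_assoc, ← (hctD x hx hY.2) d0 hd0]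
      rw [h2]
      exact h1
    · rintro Y ⟨hY, hY0'⟩
      obtain ⟨x, hx, rfl, hτx⟩ := hτ Y hY.1
      obtain ⟨k1, k2, k3, k4⟩ := hkey x hx hY.2 hY0'
      rw [hτx]
      exact k4
  have hcard : (Fix \ {Z d0}).ncard + 1 = Fix.ncard := Set.ncard_sdiff_singleton_add_one hY0 (Set.toFinite _)
  rw [Nat.odd_iff, hpar, ← hcard]
  obtain ⟨k, hk⟩ := hev
  omega

end Pool.Agent.Helper37.WC
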