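import Pool.Agent.Helper37.WC.YAeven
import Pool.Agent.Helper37.WC.YAodd

/-!
WC-11 (MP_b5afc9_al, project WC). If some pair of non-root type has a common commuting member, then every pair of non-root type has one and all `YA S A` are odd.

`YA_odd`, `YA_even`, `YA_cj`, `Sys.trans`.
-/

namespace Pool.Agent.Helper37.WC

variable {G : Type*} [Group G] [Finite G] {S : Set (Subgroup G)} {q : ℕ} {A B D : Subgroup G}

theorem caseII (h : Sys S q) (n : NR S A B) (hD : D ∈ S) (hDA : Cm D A) (hDB : Cm D B) :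
    (∀ A' ∈ S, Odd (YA S A').ncard) ∧ ∀ A' B', NR S A' B' → ∃ D' ∈ S, Cm D' A' ∧ Cm D' B' := by
  have hodd := YA_odd h n hD hDA hDB
  have hall : ∀ A' ∈ S, Odd (YA S A').ncard := by
    intro A' hA'
    obtain ⟨g, rfl⟩ := h.trans A n.hA A' hA'
    rw [YA_cj h]
    exact hodd
  refine ⟨hall, ?_⟩
  intro A' B' n'
  by_contra hno
  push Not at hno
  have := YA_even h n' (fun D' hD' h1 h2 => hno D' hD' h1 h2)
  exact (Nat.not_even_iff_odd.2 (hall A' n'.hA)) this

end Pool.Agent.Helper37.WC
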