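import Pool.Agent.Helper37.WC.L1

/-!
WC-3 (MP_b5afc9_al, project WC). Clique groups: abelian subgroups partitioned by members of `S`.

* `cl_self`: clear. `Cl.inf`: `x ∈ M ⊓ N`, `x ≠ 1` lies in a member `E ≤ M` and in a member `F ≤ N`; `E = F` by `Sys.eq`.
* `cm_of_elem`: `A` commutes with `x ∈ E`, `x ≠ 1`, so `A ≤ nz E` by `Sys.nz_of_comm`, then `Sys.comm_of_nz`.
* `Cl.inf_ct`: `x ∈ M ⊓ ct B`, `x ≠ 1`, `x ∈ E ≤ M`: `B` commutes with `E` by `cm_of_elem`.
* `Cl.cj'`: clear from `Sys.conj`.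
* `exists_cl`: the set of `U : Set (Subgroup G)` with `T ⊆ U`, all elements of `U` in `S`, pairwise commuting, is finite and nonempty: take a maximal `U`.
  Let `N = sSup U` (the subgroup generated by the members of `U`). `N` is abelian (`Subgroup.closure`-induction / pairwise commuting generators). Claim: every `x ∈ N`,
  `x ≠ 1` lies in a member of `U`. Let `W = {x | x = 1 ∨ ∃ E ∈ U, x ∈ E}`. `W` is closed under multiplication: for `x ∈ E`, `y ∈ F`, `E, F ∈ U`, with `x*y ≠ 1`, condition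
  `Sys.C` gives `H ∈ S` with `x*y ∈ H`. Every `D ∈ U` commutes with `x` and with `y`, so with `x*y ∈ H`, so with `H` by `cm_of_elem`; by maximality (`insert H U`)
  `H ∈ U`. `W` is closed under inverses (`Sys.inv`). So `W` is (the carrier of) a subgroup containing all `E ∈ U` and `N ≤ W`.
* `clo S X` is the intersection of all clique groups containing `X`. `clo_cl`: if `X` is contained in some clique group then `clo S X` is one: abelian since contained in
  `M`; if `x ∈ clo S X`, `x ≠ 1`, let `E` be the member containing `x`, `E ≤ M`; for every clique group `N ≥ X`, `E ≤ N` by `Cl.le`. So `E ≤ clo S X`.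
* `clo_cj`: `M ↦ cj g M` is a bijection between clique groups containing `X` and clique groups containing `cj g X` (use `cj_le_iff`, `cj_cj_inv`).
* `cm_clo`: `E` commutes with `X ≤ M`. The set `T = {E} ∪ {F ∈ S | ∃ x ∈ X, x ≠ 1, x ∈ F}` consists of pairwise commuting members: each such `F ≤ M` (`Cl.le`), so they commute with each
  other, and `E` commutes with them by `cm_of_elem`. By `exists_cl` there is a clique group `N` containing all, so `X ≤ N`, `clo S X ≤ N`, `E ≤ N` and `N` is abelian.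
* `join2`: `exists_cl` for `{A, E}` (use `Sys.comm` for `Cm A A`).
-/

namespace Pool.Agent.Helper37.WC

variable {G : Type*} [Group G] [Finite G] {S : Set (Subgroup G)} {q : ℕ} {A B E M N X : Subgroup G}

theorem Sys.cl_self (h : Sys S q) (hA : A ∈ S) : Cl S A := by
  exact ⟨h.comm hA, fun x hx _ => ⟨A, hA, hx, le_rfl⟩⟩

theorem Cl.inf (h : Sys S q) (hM : Cl S M) (hN : Cl S N) : Cl S (M ⊓ N) := by
  refine ⟨fun x hx y hy => hM.comm x hx.1 y hy.1, fun x hx hx1 => ?_⟩
  obtain ⟨E, hE, hxE, hEM⟩ := hM.mem x hx.1 hx1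
  exact ⟨E, hE, hxE, le_inf hEM (hN.le h hE hx.2 hxE hx1)⟩

theorem Sys.cm_of_elem (h : Sys S q) (hA : A ∈ S) (hE : E ∈ S) {x : G} (hx : x ∈ E) (hx1 : x ≠ 1) (hc : x ∈ ct A) :
    Cm A E := by
  exact h.comm_of_nz hA hE (fun a ha => h.nz_of_comm hE hx hx1 (hc a ha).symm)

theorem Cl.inf_ct (h : Sys S q) (hM : Cl S M) (hB : B ∈ S) : Cl S (M ⊓ ct B) := by
  refine ⟨fun x hx y hy => hM.comm x hx.1 y hy.1, fun x hx hx1 => ?_⟩
  obtain ⟨E, hE, hxE, hEM⟩ := hM.mem x hx.1 hx1
  exact ⟨E, hE, hxE, le_inf hEM (cm_iff_le_ct.1 (h.cm_of_elem hB hE hxE hx1 hx.2).symm)⟩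

theorem Cl.cj' (h : Sys S q) (hM : Cl S M) (g : G) : Cl S (cj g M) := by
  refine ⟨fun x hx y hy => ?_, fun x hx hx1 => ?_⟩
  · have h1 : Cm M M := fun a ha b hb => hM.comm a ha b hb
    exact h1.cj' g x hx y hy
  · have hx' := mem_cj.1 hx
    have hne : g⁻¹ * x * g ≠ 1 := by
      intro h1
      refine hx1 ?_
      have h2 : g * (g⁻¹ * x * g) * g⁻¹ = x := by group
      rw [← h2, h1, mul_one, mul_inv_cancel]
    obtain ⟨E, hE, hxE, hEM⟩ := hM.mem _ hx' hne
    exact ⟨cj g E, h.conj E hE g, mem_cj.2 hxE, cj_mono hEM⟩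

theorem Sys.exists_cl (h : Sys S q) (T : Set (Subgroup G)) (hT : ∀ A ∈ T, A ∈ S) (hc : ∀ A ∈ T, ∀ B ∈ T, Cm A B) :
    ∃ N, Cl S N ∧ ∀ A ∈ T, A ≤ N := by
  set Fam : Set (Set (Subgroup G)) := {U | T ⊆ U ∧ (∀ A ∈ U, A ∈ S) ∧ ∀ A ∈ U, ∀ B ∈ U, Cm A B}
    with hFam
  obtain ⟨U, hU⟩ := (Set.toFinite Fam).exists_maximal ⟨T, subset_rfl, hT, hc⟩
  obtain ⟨hTU, hUS, hUc⟩ := hU.prop
  have hmul : ∀ E ∈ U, ∀ F ∈ U, ∀ x ∈ E, ∀ y ∈ F, x * y ≠ 1 → ∃ H ∈ U, x * y ∈ H := by
    intro E hE F hF x hx y hy hxy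
    obtain ⟨H, hH, hxyH⟩ := h.C E (hUS E hE) F (hUS F hF) (hUc E hE F hF) x hx y hy hxy
    have hDH : ∀ D ∈ U, Cm D H := by
      intro D hD
      refine h.cm_of_elem (hUS D hD) hH hxyH hxy (fun a ha => ?_)
      have h1 := hUc E hE D hD x hx a ha
      have h2 := hUc F hF D hD y hy a ha
      rw [mul_assoc, h2, ← mul_assoc, h1, mul_assoc]
    have hmem : insert H U ∈ Fam := by
      refine ⟨hTU.trans (Set.subset_insert H U), ?_, ?_⟩
      · intro A hA
        rcases Set.mem_insert_iff.1 hA with rfl | hA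
        · exact hH
        · exact hUS A hA
      · intro A hA B hB
        rcases Set.mem_insert_iff.1 hA with hA1 | hA1
        · rcases Set.mem_insert_iff.1 hB with hB1 | hB1
          · rw [hA1, hB1]
            exact h.comm hH
          · rw [hA1]
            exact (hDH B hB1).symm
        · rcases Set.mem_insert_iff.1 hB with hB1 | hB1
          · rw [hB1]
            exact hDH A hA1
          · exact hUc A hA1 B hB1
    exact ⟨H, hU.le_of_ge hmem (Set.subset_insert H U) (Set.mem_insert H U), hxyH⟩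
  let W : Subgroup G :=
    { carrier := {x | x = 1 ∨ ∃ E ∈ U, x ∈ E}
      one_mem' := Or.inl rfl
      mul_mem' := by
        intro x y hx hy
        rcases hx with hx | ⟨E, hE, hxE⟩
        · rw [hx, one_mul]
          exact hy
        · rcases hy with hy | ⟨F, hF, hyF⟩
          · rw [hy, mul_one]
            exact Or.inr ⟨E, hE, hxE⟩
          · by_cases hxy : x * y = 1
            · exact Or.inl hxy
            · obtain ⟨H, hH, hxyH⟩ := hmul E hE F hF x hxE y hyF hxy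
              exact Or.inr ⟨H, hH, hxyH⟩
      inv_mem' := by
        intro x hx
        rcases hx with hx | ⟨E, hE, hxE⟩
        · exact Or.inl (by rw [hx, inv_one])
        · exact Or.inr ⟨E, hE, E.inv_mem hxE⟩ }
  have hle : ∀ E ∈ U, E ≤ W := fun E hE x hx => Or.inr ⟨E, hE, hx⟩
  refine ⟨W, ⟨fun x hx y hy => ?_, fun x hx hx1 => ?_⟩, fun A hA => hle A (hTU hA)⟩
  · rcases hx with hx | ⟨E, hE, hxE⟩
    · rw [hx, one_mul, mul_one]
    · rcases hy with hy | ⟨F, hF, hyF⟩
      · rw [hy, one_mul, mul_one]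
      · exact hUc E hE F hF x hxE y hyF
  · rcases hx with hx | ⟨E, hE, hxE⟩
    · exact absurd hx hx1
    · exact ⟨E, hUS E hE, hxE, hle E hE⟩

/-- the smallest clique group containing `X` -/
def clo (S : Set (Subgroup G)) (X : Subgroup G) : Subgroup G := sInf {M | Cl S M ∧ X ≤ M}

theorem le_clo : X ≤ clo S X := by
  exact le_sInf (fun M hM => hM.2)

theorem clo_le (hM : Cl S M) (hX : X ≤ M) : clo S X ≤ M := by
  exact sInf_le ⟨hM, hX⟩

theorem clo_cl (h : Sys S q) (hM : Cl S M) (hX : X ≤ M) : Cl S (clo S X) := by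
  refine ⟨fun x hx y hy => hM.comm x (clo_le hM hX hx) y (clo_le hM hX hy), fun x hx hx1 => ?_⟩
  obtain ⟨E, hE, hxE, -⟩ := hM.mem x (clo_le hM hX hx) hx1
  exact ⟨E, hE, hxE, le_sInf (fun N hN => hN.1.le h hE (clo_le hN.1 hN.2 hx) hxE hx1)⟩

theorem clo_cj (h : Sys S q) (g : G) (X : Subgroup G) : cj g (clo S X) = clo S (cj g X) := by
  have key : ∀ (g : G) (X : Subgroup G), cj g (clo S X) ≤ clo S (cj g X) := by
    intro g X
    refine le_sInf (fun M hM => ?_)
    have h1 : X ≤ cj g⁻¹ M := by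
      rw [← cj_le_iff (g := g), cj_cj_inv]
      exact hM.2
    have h2 := clo_le (hM.1.cj' h g⁻¹) h1
    rw [← cj_le_iff (g := g), cj_cj_inv] at h2
    exact h2
  refine le_antisymm (key g X) ?_
  have h1 := key g⁻¹ (cj g X)
  rw [cj_inv_cj, ← cj_le_iff (g := g), cj_cj_inv] at h1
  exact h1

theorem cm_clo (h : Sys S q) (hM : Cl S M) (hX : X ≤ M) (hE : E ∈ S) (hEX : Cm E X) : Cm E (clo S X) := by
  obtain ⟨N, hN, hTN⟩ := h.exists_cl ({E} ∪ {F | F ∈ S ∧ ∃ x ∈ X, x ≠ 1 ∧ x ∈ F})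
    (by
      rintro A (hA | hA)
      · rw [Set.mem_singleton_iff.1 hA]
        exact hE
      · exact hA.1)
    (by
      have h1 : ∀ F, F ∈ S → (∃ x ∈ X, x ≠ 1 ∧ x ∈ F) → Cm E F := by
        rintro F hF ⟨x, hxX, hx1, hxF⟩
        exact h.cm_of_elem hE hF hxF hx1 (fun a ha => (hEX a ha x hxX).symm)
      have h2 : ∀ F, F ∈ S → (∃ x ∈ X, x ≠ 1 ∧ x ∈ F) → F ≤ M := by
        rintro F hF ⟨x, hxX, hx1, hxF⟩
        exact hM.le h hF (hX hxX) hxF hx1
      rintro A (hA | hA) B (hB | hB)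
      · rw [Set.mem_singleton_iff.1 hA, Set.mem_singleton_iff.1 hB]
        exact h.comm hE
      · rw [Set.mem_singleton_iff.1 hA]
        exact h1 B hB.1 hB.2
      · rw [Set.mem_singleton_iff.1 hB]
        exact (h1 A hA.1 hA.2).symm
      · exact fun a ha b hb => hM.comm a (h2 A hA.1 hA.2 ha) b (h2 B hB.1 hB.2 hb))
  have hXN : X ≤ N := by
    intro x hx
    by_cases hx1 : x = 1
    · rw [hx1]
      exact N.one_mem
    · obtain ⟨F, hF, hxF, -⟩ := hM.mem x (hX hx) hx1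
      exact hTN F (Or.inr ⟨hF, x, hx, hx1, hxF⟩) hxF
  have hEN : E ≤ N := hTN E (Or.inl rfl)
  exact fun a ha b hb => hN.comm a (hEN ha) b (clo_le hN hXN hb)

theorem Sys.join2 (h : Sys S q) (hA : A ∈ S) (hE : E ∈ S) (hc : Cm A E) : ∃ M, Cl S M ∧ A ≤ M ∧ E ≤ M := by
  obtain ⟨N, hN, hTN⟩ := h.exists_cl {A, E}
    (by
      rintro B (hB | hB)
      · rw [hB]
        exact hA
      · rw [Set.mem_singleton_iff.1 hB]
        exact hE)
    (by
      rintro B (hB | hB) D (hD | hD)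
      · rw [hB, hD]
        exact h.comm hA
      · rw [hB, Set.mem_singleton_iff.1 hD]
        exact hc
      · rw [Set.mem_singleton_iff.1 hB, hD]
        exact hc.symm
      · rw [Set.mem_singleton_iff.1 hB, Set.mem_singleton_iff.1 hD]
        exact h.comm hE)
  exact ⟨N, hN, hTN A (Or.inl rfl), hTN E (Or.inr rfl)⟩

end Pool.Agent.Helper37.WC
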