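import Mathlib

/-!
# Project WC (MP_b5afc9_al): weakly closed TI-subgroups of non-root type. Definitions and basic facts.

`cj g A = g A g⁻¹`, `nz F` the normaliser of `F`, `ct A` the centraliser of `A`, `nn E F` the elements of `E` normalising `F`,
`Cm A B`: `A` and `B` commute elementwise. `Sys S q`: `S` is a conjugacy class of elementary abelian `2`-groups of order `q`
that are TI and satisfy condition (C). `NR S A B`: `(A, B)` is a pair of non-root type. `Cl S M`: `M` is abelian and partitioned by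
members of `S`.
-/

namespace Pool.Agent.Helper37.WC

variable {G : Type*} [Group G]

/-- `g A g⁻¹` -/
def cj (g : G) (A : Subgroup G) : Subgroup G := A.map (MulAut.conj g).toMonoidHom

theorem mem_cj {g x : G} {A : Subgroup G} : x ∈ cj g A ↔ g⁻¹ * x * g ∈ A := by
  unfold cj
  rw [Subgroup.mem_map]
  constructor
  · rintro ⟨y, hy, rfl⟩
    simpa [mul_assoc] using hy
  · intro h
    exact ⟨g⁻¹ * x * g, h, by simp [mul_assoc]⟩

theorem conj_mem_cj {g x : G} {A : Subgroup G} (h : x ∈ A) : g * x * g⁻¹ ∈ cj g A := by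
  rw [mem_cj]
  simpa [mul_assoc] using h

theorem conj_mem_cj_iff {g x : G} {A : Subgroup G} : g * x * g⁻¹ ∈ cj g A ↔ x ∈ A := by
  rw [mem_cj]
  simp [mul_assoc]

theorem cj_one (A : Subgroup G) : cj 1 A = A := by
  ext x
  rw [mem_cj]
  simp

theorem cj_mul (g h : G) (A : Subgroup G) : cj (g * h) A = cj g (cj h A) := by
  ext x
  rw [mem_cj, mem_cj, mem_cj]
  simp [mul_assoc]

theorem cj_inv_cj (g : G) (A : Subgroup G) : cj g⁻¹ (cj g A) = A := by
  rw [← cj_mul, inv_mul_cancel, cj_one]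

theorem cj_cj_inv (g : G) (A : Subgroup G) : cj g (cj g⁻¹ A) = A := by
  rw [← cj_mul, mul_inv_cancel, cj_one]

theorem cj_mono {g : G} {A B : Subgroup G} (h : A ≤ B) : cj g A ≤ cj g B := Subgroup.map_mono h

theorem cj_le_iff {g : G} {A B : Subgroup G} : cj g A ≤ cj g B ↔ A ≤ B := by
  constructor
  · intro h
    have := cj_mono (g := g⁻¹) h
    rwa [cj_inv_cj, cj_inv_cj] at this
  · exact cj_mono

theorem cj_inf (g : G) (A B : Subgroup G) : cj g (A ⊓ B) = cj g A ⊓ cj g B := by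
  ext x
  rw [mem_cj, Subgroup.mem_inf, Subgroup.mem_inf, mem_cj, mem_cj]

theorem card_cj (g : G) (A : Subgroup G) : Nat.card (cj g A) = Nat.card A :=
  Subgroup.card_map_of_injective (MulAut.conj g).injective

theorem cj_eq_of_le [Finite G] {g : G} {A : Subgroup G} (h : cj g A ≤ A) : cj g A = A := by
  apply SetLike.coe_injective
  apply Set.eq_of_subset_of_ncard_le h _ (Set.toFinite _)
  rw [← Nat.card_coe_set_eq, ← Nat.card_coe_set_eq]
  exact (card_cj g A).ge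

theorem cj_of_mem {g : G} {A : Subgroup G} (h : g ∈ A) : cj g A = A := by
  ext x
  rw [mem_cj]
  constructor
  · intro hx
    have := A.mul_mem (A.mul_mem h hx) (A.inv_mem h)
    simpa [mul_assoc] using this
  · intro hx
    exact A.mul_mem (A.mul_mem (A.inv_mem h) hx) h

/-- the normaliser -/
def nz (F : Subgroup G) : Subgroup G where
  carrier := {g | cj g F = F}
  one_mem' := cj_one F
  mul_mem' := by
    intro a b ha hb
    simp only [Set.mem_ofPred_eq] at ha hb ⊢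
    rw [cj_mul, hb, ha]
  inv_mem' := by
    intro a ha
    simp only [Set.mem_ofPred_eq] at ha ⊢
    conv_lhs => rw [← ha]
    exact cj_inv_cj a F

theorem mem_nz {g : G} {F : Subgroup G} : g ∈ nz F ↔ cj g F = F := Iff.rfl

theorem nz_conj_mem {g x : G} {F : Subgroup G} (hg : g ∈ nz F) (hx : x ∈ F) : g * x * g⁻¹ ∈ F := by
  have := conj_mem_cj (g := g) hx
  rwa [mem_nz.1 hg] at this

theorem mem_nz_of [Finite G] {g : G} {F : Subgroup G} (h : ∀ x ∈ F, g * x * g⁻¹ ∈ F) : g ∈ nz F := by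
  apply cj_eq_of_le
  intro x hx
  rw [mem_cj] at hx
  have := h _ hx
  simpa [mul_assoc] using this

theorem le_nz (A : Subgroup G) : A ≤ nz A := fun _ h => cj_of_mem h

/-- the centraliser -/
def ct (A : Subgroup G) : Subgroup G where
  carrier := {g | ∀ a ∈ A, g * a = a * g}
  one_mem' := by intro a _; simp
  mul_mem' := by
    intro x y hx hy a ha
    rw [mul_assoc, hy a ha, ← mul_assoc, hx a ha, mul_assoc]
  inv_mem' := by
    intro x hx a ha
    rw [inv_mul_eq_iff_eq_mul, ← mul_assoc, hx a ha, mul_assoc, mul_inv_cancel, mul_one]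

theorem mem_ct {g : G} {A : Subgroup G} : g ∈ ct A ↔ ∀ a ∈ A, g * a = a * g := Iff.rfl

/-- elementwise commuting subgroups -/
def Cm (A B : Subgroup G) : Prop := ∀ a ∈ A, ∀ b ∈ B, a * b = b * a

theorem Cm.symm {A B : Subgroup G} (h : Cm A B) : Cm B A := fun b hb a ha => (h a ha b hb).symm

theorem Cm.mono {A A' B B' : Subgroup G} (h : Cm A B) (h1 : A' ≤ A) (h2 : B' ≤ B) : Cm A' B' :=
  fun a ha b hb => h a (h1 ha) b (h2 hb)

theorem cm_iff_le_ct {A B : Subgroup G} : Cm A B ↔ A ≤ ct B := Iff.rfl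

theorem Cm.cj' {A B : Subgroup G} (h : Cm A B) (g : G) : Cm (cj g A) (cj g B) := by
  intro a ha b hb
  rw [mem_cj] at ha hb
  have h1 := h _ ha _ hb
  have h2 : g * ((g⁻¹ * a * g) * (g⁻¹ * b * g)) * g⁻¹ = g * ((g⁻¹ * b * g) * (g⁻¹ * a * g)) * g⁻¹ := by
    rw [h1]
  simpa [mul_assoc] using h2

theorem conj_eq_iff {g x : G} : g * x * g⁻¹ = x ↔ g * x = x * g := by
  rw [mul_inv_eq_iff_eq_mul]

theorem ct_cj (g : G) (A : Subgroup G) : ct (cj g A) = cj g (ct A) := by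
  ext x
  rw [mem_cj, mem_ct, mem_ct]
  constructor
  · intro h a ha
    have h1 := h _ (conj_mem_cj (g := g) ha)
    have h2 : g⁻¹ * (x * (g * a * g⁻¹)) * g = g⁻¹ * ((g * a * g⁻¹) * x) * g := by rw [h1]
    simpa [mul_assoc] using h2
  · intro h a ha
    rw [mem_cj] at ha
    have h1 := h _ ha
    have h2 : g * ((g⁻¹ * x * g) * (g⁻¹ * a * g)) * g⁻¹ = g * ((g⁻¹ * a * g) * (g⁻¹ * x * g)) * g⁻¹ := by rw [h1]
    simpa [mul_assoc] using h2

theorem nz_cj (g : G) (A : Subgroup G) : nz (cj g A) = cj g (nz A) := by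
  ext x
  rw [mem_cj, mem_nz, mem_nz]
  rw [← cj_mul, mul_assoc, cj_mul g⁻¹]
  constructor
  · intro h
    rw [h, cj_inv_cj]
  · intro h
    rw [← cj_cj_inv g (cj (x * g) A), h]

/-- elements of `E` normalising `F` -/
def nn (E F : Subgroup G) : Subgroup G := E ⊓ nz F

theorem mem_nn {E F : Subgroup G} {x : G} : x ∈ nn E F ↔ x ∈ E ∧ x ∈ nz F := Iff.rfl

theorem nn_cj (g : G) (E F : Subgroup G) : nn (cj g E) (cj g F) = cj g (nn E F) := by
  unfold nn
  rw [nz_cj, cj_inf]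

/-- `S` is a conjugacy class of elementary abelian TI-subgroups of order `q` with condition (C) -/
structure Sys (S : Set (Subgroup G)) (q : ℕ) : Prop where
  q1 : 1 < q
  card : ∀ A ∈ S, Nat.card A = q
  sq : ∀ A ∈ S, ∀ x ∈ A, x * x = 1
  ti : ∀ A ∈ S, ∀ B ∈ S, ∀ x, x ∈ A → x ∈ B → x ≠ 1 → A = B
  conj : ∀ A ∈ S, ∀ g : G, cj g A ∈ S
  trans : ∀ A ∈ S, ∀ B ∈ S, ∃ g : G, cj g A = B
  C : ∀ A ∈ S, ∀ B ∈ S, Cm A B → ∀ a ∈ A, ∀ b ∈ B, a * b ≠ 1 → ∃ E ∈ S, a * b ∈ E

/-- `(A, B)` is a pair of non-root type: `1 ≠ N_A(B)` and `A`, `B` do not commute -/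
structure NR (S : Set (Subgroup G)) (A B : Subgroup G) : Prop where
  hA : A ∈ S
  hB : B ∈ S
  nc : ¬ Cm A B
  ex : ∃ x ∈ A, x ≠ 1 ∧ x ∈ nz B

/-- `M` is abelian and partitioned by members of `S` -/
structure Cl (S : Set (Subgroup G)) (M : Subgroup G) : Prop where
  comm : ∀ x ∈ M, ∀ y ∈ M, x * y = y * x
  mem : ∀ x ∈ M, x ≠ 1 → ∃ E ∈ S, x ∈ E ∧ E ≤ M

section basic

variable {S : Set (Subgroup G)} {q : ℕ}

theorem Sys.comm (h : Sys S q) {A : Subgroup G} (hA : A ∈ S) : ∀ x ∈ A, ∀ y ∈ A, x * y = y * x := by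
  intro x hx y hy
  have h1 := h.sq A hA _ (A.mul_mem hx hy)
  have h2 := h.sq A hA x hx
  have h3 := h.sq A hA y hy
  calc x * y = x * (x * y * (x * y)) * y := by rw [h1]; group
    _ = (x * x) * (y * x) * (y * y) := by group
    _ = y * x := by rw [h2, h3]; group

theorem Sys.inv (h : Sys S q) {A : Subgroup G} (hA : A ∈ S) {x : G} (hx : x ∈ A) : x⁻¹ = x :=
  inv_eq_of_mul_eq_one_right (h.sq A hA x hx)

/-- an element commuting with `x ∈ A`, `x ≠ 1`, normalises `A` -/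
theorem Sys.nz_of_comm (h : Sys S q) {A : Subgroup G} (hA : A ∈ S) {x g : G} (hx : x ∈ A) (hx1 : x ≠ 1)
    (hg : g * x = x * g) : g ∈ nz A := by
  refine h.ti _ (h.conj A hA g) A hA x ?_ hx hx1
  rw [mem_cj, mul_assoc, ← hg, ← mul_assoc, inv_mul_cancel, one_mul]
  exact hx

/-- two members meeting in a nontrivial element -/
theorem Sys.eq (h : Sys S q) {A B : Subgroup G} (hA : A ∈ S) (hB : B ∈ S) {x : G} (hxA : x ∈ A) (hxB : x ∈ B)
    (hx : x ≠ 1) : A = B := h.ti A hA B hB x hxA hxB hx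

theorem Sys.ne_one (h : Sys S q) {A B : Subgroup G} (hA : A ∈ S) (hB : B ∈ S) (hne : A ≠ B) {x : G} (hxA : x ∈ A)
    (hxB : x ∈ B) : x = 1 := by
  by_contra hx
  exact hne (h.eq hA hB hxA hxB hx)

theorem Sys.exists_ne (h : Sys S q) {A : Subgroup G} (hA : A ∈ S) : ∃ x ∈ A, x ≠ 1 := by
  by_contra hc
  push Not at hc
  have h1 : A = ⊥ := (Subgroup.eq_bot_iff_forall A).2 hc
  have h2 := h.card A hA
  rw [h1, Subgroup.card_bot] at h2
  exact absurd h2.symm (Nat.ne_of_gt h.q1)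

theorem Cl.sq {M : Subgroup G} (h : Sys S q) (hM : Cl S M) : ∀ x ∈ M, x * x = 1 := by
  intro x hx
  by_cases hx1 : x = 1
  · rw [hx1, one_mul]
  · obtain ⟨E, hE, hxE, -⟩ := hM.mem x hx hx1
    exact h.sq E hE x hxE

theorem Cl.inv {M : Subgroup G} (h : Sys S q) (hM : Cl S M) {x : G} (hx : x ∈ M) : x⁻¹ = x :=
  inv_eq_of_mul_eq_one_right (hM.sq h x hx)

/-- in a clique group the member containing a nontrivial element is contained -/
theorem Cl.le {M E : Subgroup G} (h : Sys S q) (hM : Cl S M) (hE : E ∈ S) {x : G} (hx : x ∈ M) (hxE : x ∈ E)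
    (hx1 : x ≠ 1) : E ≤ M := by
  obtain ⟨F, hF, hxF, hFM⟩ := hM.mem x hx hx1
  rw [h.eq hE hF hxE hxF hx1]
  exact hFM

end basic

end Pool.Agent.Helper37.WC
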