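import Pool.Agent.Helper37.WC.M6
import Pool.Agent.Helper37.WC.CaseII

/-!
WC-23 (MP_b5afc9_al, project WC). Case II, last step, and Theorem A.

`seven`: suppose `card (nn A' B')^2 = q` for all pairs of non-root type. Let `r^2 = q`, `K0 = K ⊓ nz K'`. `C ≤ K0` (`C` centralises `K'`; `St.central'`). For every member `E ≤ K`, `E ≠ C`: `card (E ⊓ K0) = card (nn E H) = r` for some `H` (`Dat.five`). The members `E ≤ K` partition `K`, their number `m` satisfies
`m*(q-1) + 1 = q^3` (`Cl.count`), so `m = q^2 + q + 1`. So `card K0 = q + (q^2+q)*(r-1) = q*r*(r^2 - r + 1)` (in the natural numbers: `card K0 + q^2 + q = q + (q^2+q)*r`). But `card K0` is a power of two (`Cl.card_two_pow`), `r` is even (`q = r^2` is a power of two bigger than one), so `r^2 - r + 1` is odd and `> 1`: contradiction.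

`noCommon`: if `D` commutes with both members of a pair `(A, B)` of non-root type, then by `caseII` all `YA` are odd; by `exists_dat` and `Dat.six` `card (nn A' B')^2 = q` for all pairs of non-root type; and `exists_dat` for `(A, B)` with `seven` gives `False`.
-/

namespace Pool.Agent.Helper37.WC

variable {G : Type*} [Group G] [Finite G] {S : Set (Subgroup G)} {q : ℕ} {A B C D E X K K' L M P : Subgroup G} {n : G}

private theorem card53 (h : Sys S q) (hK : Cl S K) {K0 : Subgroup G} (hle : K0 ≤ K) (T : Finset (Subgroup G))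
    (hT : ∀ E, E ∈ T ↔ E ∈ S ∧ E ≤ K) : Nat.card K0 = 1 + ∑ E ∈ T, (Nat.card (E ⊓ K0 : Subgroup G) - 1) := by
  classical
  let F : Subgroup G → Finset G := fun E => (Set.toFinite (((E ⊓ K0 : Subgroup G) : Set G) \ {1})).toFinset
  have hF : ∀ E x, x ∈ F E ↔ (x ∈ E ∧ x ∈ K0) ∧ x ≠ 1 := by
    intro E x
    simp only [F, Set.Finite.mem_toFinset, Set.mem_sdiff, SetLike.mem_coe, Subgroup.mem_inf, Set.mem_singleton_iff]
  have hcard : ∀ E : Subgroup G, ((Set.toFinite ((E : Set G) \ {1})).toFinset).card = Nat.card E - 1 := by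
    intro E
    rw [← Set.ncard_eq_toFinset_card ((E : Set G) \ {1}) (Set.toFinite _), Set.ncard_sdiff_singleton_of_mem E.one_mem]
    rfl
  have h1 : (Set.toFinite ((K0 : Set G) \ {1})).toFinset = T.biUnion F := by
    ext x
    rw [Finset.mem_biUnion]
    simp only [Set.Finite.mem_toFinset, Set.mem_sdiff, SetLike.mem_coe, Set.mem_singleton_iff]
    constructor
    · rintro ⟨hx, hx1⟩
      obtain ⟨E, hE, hxE, hEK⟩ := hK.mem x (hle hx) hx1
      exact ⟨E, (hT E).2 ⟨hE, hEK⟩, (hF E x).2 ⟨⟨hxE, hx⟩, hx1⟩⟩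
    · rintro ⟨E, -, hxE⟩
      have := (hF E x).1 hxE
      exact ⟨this.1.2, this.2⟩
  have h2 : (T.biUnion F).card = ∑ E ∈ T, (F E).card := by
    apply Finset.card_biUnion
    intro E hE E' hE' hne
    refine Finset.disjoint_left.2 ?_
    intro x hx hx'
    have h3 := (hF E x).1 hx
    have h4 := (hF E' x).1 hx'
    exact hne (h.eq ((hT E).1 hE).1 ((hT E').1 hE').1 h3.1.1 h4.1.1 h3.2)
  have h3 : Nat.card K0 - 1 = ∑ E ∈ T, (Nat.card (E ⊓ K0 : Subgroup G) - 1) := by
    rw [← hcard K0, h1, h2]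
    exact Finset.sum_congr rfl (fun E _ => hcard (E ⊓ K0))
  have h4 : 0 < Nat.card K0 := Nat.card_pos
  omega

private theorem num53 {q r m c k : ℕ} (hq : 1 < q) (hr : r ^ 2 = q) (hm : m * (q - 1) + 1 = q ^ 3)
    (hc : c = 1 + ((q - 1) + (m - 1) * (r - 1))) (hk : c = 2 ^ k) : False := by
  have hr1 : 1 < r := by
    by_contra hcon
    push Not at hcon
    interval_cases r <;> omega
  obtain ⟨s, rfl⟩ : ∃ s, r = s + 1 := ⟨r - 1, by omega⟩
  have hs : 1 ≤ s := by omega
  obtain ⟨t, rfl⟩ : ∃ t, q = t + 1 := ⟨q - 1, by omega⟩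
  have ht : 1 ≤ t := by omega
  have hm2 : m = (t + 1) ^ 2 + (t + 1) + 1 := by
    have h1 : m * t = ((t + 1) ^ 2 + (t + 1) + 1) * t := by
      have h2 : t + 1 - 1 = t := by omega
      rw [h2] at hm
      have h3 : m * t + 1 = ((t + 1) ^ 2 + (t + 1) + 1) * t + 1 := by
        rw [hm]; ring
      omega
    exact Nat.eq_of_mul_eq_mul_right (by omega) h1
  have hc2 : c = (s + 1) ^ 3 * (s * (s + 1) + 1) := by
    have h1 : m - 1 = (t + 1) ^ 2 + (t + 1) := by omega
    have h2 : t + 1 - 1 = t := by omega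
    have h3 : s + 1 - 1 = s := by omega
    rw [hc, h1, h2, h3]
    have h4 : 1 + (t + ((t + 1) ^ 2 + (t + 1)) * s) = (t + 1) + ((t + 1) ^ 2 + (t + 1)) * s := by ring
    rw [h4, ← hr]
    ring
  have hdvd : s * (s + 1) + 1 ∣ 2 ^ k := ⟨(s + 1) ^ 3, by rw [← hk, hc2]; ring⟩
  have hcop : Nat.Coprime (s * (s + 1) + 1) (2 ^ k) := by
    apply Nat.Coprime.pow_right
    rw [Nat.coprime_two_right]
    exact (Nat.even_mul_succ_self s).add_one
  have h1 := Nat.Coprime.eq_one_of_dvd hcop hdvd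
  have h2 : 0 < s * (s + 1) := by positivity
  omega

theorem Dat.seven (h : Sys S q) (d : Dat S q A B K K' C n) (hall : ∀ A' B', NR S A' B' → Nat.card (nn A' B') ^ 2 = q) : False := by
  classical
  have hCS : C ∈ S := by
    rw [← d.nA]
    exact h.conj A d.st.nr.hA n
  have hCK : C ≤ K := d.st.C_le
  have hCn : C ≤ nz K' := by
    intro c hc
    apply mem_nz_of
    intro x hx
    rw [d.st.central' hc hx, mul_assoc, mul_inv_cancel, mul_one]
    exact hx
  obtain ⟨k, hk⟩ := d.st.clK.card_two_pow h (L := K ⊓ nz K') inf_le_left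
  let T : Finset (Subgroup G) := (Set.toFinite {E : Subgroup G | E ∈ S ∧ E ≤ K}).toFinset
  have hT : ∀ E, E ∈ T ↔ E ∈ S ∧ E ≤ K := by
    intro E
    simp only [T, Set.Finite.mem_toFinset, Set.mem_ofPred_eq]
  have hTc : T.card * (q - 1) + 1 = q ^ 3 := by
    rw [← d.card, ← d.st.clK.count h]
    congr 2
    exact (Set.ncard_eq_toFinset_card _ _).symm
  have hcard := card53 h d.st.clK (K0 := K ⊓ nz K') inf_le_left T hT
  have hCT : C ∈ T := (hT C).2 ⟨hCS, hCK⟩
  rw [← Finset.add_sum_erase T _ hCT] at hcard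
  have hCC : (C ⊓ (K ⊓ nz K') : Subgroup G) = C := inf_eq_left.2 (le_inf hCK hCn)
  rw [hCC, h.card C hCS] at hcard
  set r := Nat.card (nn A B) with hr
  have hr2 : r ^ 2 = q := hall A B d.st.nr
  have hsum : ∑ E ∈ T.erase C, (Nat.card (E ⊓ (K ⊓ nz K') : Subgroup G) - 1) = (T.card - 1) * (r - 1) := by
    rw [← Finset.card_erase_of_mem hCT, ← smul_eq_mul, ← Finset.sum_const]
    apply Finset.sum_congr rfl
    intro E hE
    rw [Finset.mem_erase, hT] at hE
    obtain ⟨hEC, hES, hEK⟩ := hE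
    obtain ⟨H, -, -, hEH, -, h5⟩ := d.five h hES hEK hEC
    have h6 : (E ⊓ (K ⊓ nz K') : Subgroup G) = nn E H := by
      rw [← inf_assoc, inf_eq_left.2 hEK, h5]
    rw [h6]
    have h7 := hall E H hEH
    rw [← hr2] at h7
    rw [Nat.pow_left_injective (n := 2) (by norm_num) h7]
  rw [hsum] at hcard
  exact num53 h.q1 hr2 hTc hcard hk

/-- Theorem A: no member commutes with both members of a pair of non-root type -/
theorem noCommon (h : Sys S q) (n : NR S A B) (hD : D ∈ S) (hDA : Cm D A) (hDB : Cm D B) : False := by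
  obtain ⟨hodd, -⟩ := caseII h n hD hDA hDB
  obtain ⟨K, K', C, x, d⟩ := exists_dat h n (hodd A n.hA)
  refine d.seven h ?_
  intro A' B' n'
  obtain ⟨K, K', C, x, d'⟩ := exists_dat h n' (hodd A' n'.hA)
  exact d'.six h

end Pool.Agent.Helper37.WC
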