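import Pool.Agent.Helper37.NRT.Defs
import Pool.Agent.Helper37.WC.Pair

/-!
# Translation of the definitions of the problem into the system `Sys`, `NR`
-/

namespace Pool.Agent.Helper37.WC

open NRT

variable {G : Type*} [Group G] {V : Subgroup G}

/-- the conjugacy class of `V` -/
def cls (V : Subgroup G) : Set (Subgroup G) := {W | ∃ g : G, W = cj g V}

theorem conjBy_eq (V : Subgroup G) (g : G) : conjBy V g = cj g⁻¹ V := rfl

theorem mem_relNorm {V W : Subgroup G} {v : G} : v ∈ relNorm V W ↔ v ∈ V ∧ v ∈ nz W := by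
  unfold relNorm
  rw [Set.mem_ofPred_eq, conjBy_eq, mem_nz]
  constructor
  · rintro ⟨h1, h2⟩
    refine ⟨h1, ?_⟩
    have h3 := (nz W).inv_mem (mem_nz.2 h2)
    rwa [inv_inv] at h3
  · rintro ⟨h1, h2⟩
    exact ⟨h1, mem_nz.1 ((nz W).inv_mem (mem_nz.2 h2))⟩

theorem mem_cls (V : Subgroup G) (g : G) : cj g V ∈ cls V := ⟨g, rfl⟩

theorem self_mem_cls (V : Subgroup G) : V ∈ cls V := ⟨1, (cj_one V).symm⟩

/-- two conjugates of a TI-subgroup meeting nontrivially are equal -/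
theorem cls_ti (h2 : IsTI V) {A B : Subgroup G} (hA : A ∈ cls V) (hB : B ∈ cls V) {x : G} (hxA : x ∈ A) (hxB : x ∈ B)
    (hx : x ≠ 1) : A = B := by
  obtain ⟨g, rfl⟩ := hA
  obtain ⟨k, rfl⟩ := hB
  have key : ∀ g k : G, ∀ x, x ∈ cj g V → x ∈ cj k V → x ≠ 1 → cj g V ≤ cj k V := by
    intro g k x hxA hxB hx
    have h3 : g⁻¹ * x * g ∈ V ⊓ conjBy V (k⁻¹ * g) := by
      refine Subgroup.mem_inf.2 ⟨mem_cj.1 hxA, ?_⟩
      rw [conjBy_eq, mem_cj]
      rw [mem_cj] at hxB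
      simpa [mul_assoc] using hxB
    rcases h2 (k⁻¹ * g) with h | h
    · exfalso
      rw [h, Subgroup.mem_bot] at h3
      apply hx
      have : g * (g⁻¹ * x * g) * g⁻¹ = g * 1 * g⁻¹ := by rw [h3]
      simpa [mul_assoc] using this
    · intro y hy
      rw [mem_cj] at hy
      rw [← h] at hy
      have h4 := (Subgroup.mem_inf.1 hy).2
      rw [conjBy_eq, mem_cj] at h4
      rw [mem_cj]
      simpa [mul_assoc] using h4
  exact le_antisymm (key g k x hxA hxB hx) (key k g x hxB hxA hx)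

theorem sys_of [Finite G] (h1 : ElemAb2 V) (h2 : IsTI V) (h3 : ∃ x ∈ V, x ≠ 1) (h4 : CondC V) : Sys (cls V) (Nat.card V) where
  q1 := by
    obtain ⟨x, hx, hx1⟩ := h3
    have : Nontrivial V := ⟨⟨⟨x, hx⟩, 1, fun h => hx1 (congrArg Subtype.val h)⟩⟩
    exact Finite.one_lt_card
  card := by
    rintro _ ⟨g, rfl⟩
    exact card_cj g V
  sq := by
    rintro _ ⟨g, rfl⟩ x hx
    rw [mem_cj] at hx
    have h5 := h1.1 _ hx
    have h6 : g * (g⁻¹ * x * g * (g⁻¹ * x * g)) * g⁻¹ = g * 1 * g⁻¹ := by rw [h5]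
    simpa [mul_assoc] using h6
  ti := fun A hA B hB x hxA hxB hx => cls_ti h2 hA hB hxA hxB hx
  conj := by
    rintro _ ⟨g, rfl⟩ k
    exact ⟨k * g, (cj_mul k g V).symm⟩
  trans := by
    rintro _ ⟨g, rfl⟩ _ ⟨k, rfl⟩
    refine ⟨k * g⁻¹, ?_⟩
    rw [← cj_mul, inv_mul_cancel_right]
  C := by
    rintro _ ⟨g, rfl⟩ _ ⟨k, rfl⟩ hc a ha b hb hab
    have hc' : ∀ x ∈ V, ∀ y ∈ conjBy V (k⁻¹ * g), x * y = y * x := by
      intro x hx y hy
      have h5 := hc (g * x * g⁻¹) (conj_mem_cj hx) (g * y * g⁻¹) (by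
        rw [conjBy_eq, mem_cj] at hy
        rw [mem_cj]
        simpa [mul_assoc] using hy)
      have h6 : g⁻¹ * (g * x * g⁻¹ * (g * y * g⁻¹)) * g = g⁻¹ * (g * y * g⁻¹ * (g * x * g⁻¹)) * g := by rw [h5]
      simpa [mul_assoc] using h6
    have hx : g⁻¹ * a * g ∈ V := mem_cj.1 ha
    have hy : g⁻¹ * b * g ∈ conjBy V (k⁻¹ * g) := by
      rw [conjBy_eq, mem_cj]
      rw [mem_cj] at hb
      simpa [mul_assoc] using hb
    have hxx := h1.1 _ hx
    have hyy : g⁻¹ * b * g * (g⁻¹ * b * g) = 1 := by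
      rw [mem_cj] at hb
      have h5 := h1.1 _ hb
      have h6 : g⁻¹ * (k * (k⁻¹ * b * k * (k⁻¹ * b * k)) * k⁻¹) * g = g⁻¹ * (k * 1 * k⁻¹) * g := by rw [h5]
      simpa [mul_assoc] using h6
    have hxy := hc' _ hx _ hy
    have hne : g⁻¹ * a * g * (g⁻¹ * b * g) ≠ 1 := by
      intro h5
      apply hab
      have h6 : g * (g⁻¹ * a * g * (g⁻¹ * b * g)) * g⁻¹ = g * 1 * g⁻¹ := by rw [h5]
      simpa [mul_assoc] using h6
    have hord : orderOf (g⁻¹ * a * g * (g⁻¹ * b * g)) = 2 := by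
      apply orderOf_eq_prime _ hne
      generalize g⁻¹ * a * g = x at *
      generalize g⁻¹ * b * g = y at *
      calc (x * y) ^ 2 = x * (y * x) * y := by rw [pow_two]; group
        _ = (x * x) * (y * y) := by rw [← hxy]; group
        _ = 1 := by rw [hxx, hyy, one_mul]
    obtain ⟨z, hz, hcz⟩ := h4 _ hc' _ hx _ hy hord
    obtain ⟨c, hc2⟩ := isConj_iff.1 hcz
    refine ⟨cj (g * c⁻¹) V, mem_cls V _, ?_⟩
    rw [mem_cj]
    have h7 : (g * c⁻¹)⁻¹ * (a * b) * (g * c⁻¹) = c * (g⁻¹ * a * g * (g⁻¹ * b * g)) * c⁻¹ := by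
      simp [mul_assoc]
    rw [h7, hc2]
    exact hz

/-- a pair of non-root type from the definition of the problem -/
theorem nr_of [Finite G] {g : G} (h3 : relNorm V (conjBy V g) ≠ {1}) (h4 : relNorm V (conjBy V g) ≠ (V : Set G)) :
    NR (cls V) V (conjBy V g) where
  hA := self_mem_cls V
  hB := mem_cls V _
  nc := by
    intro hc
    apply h4
    ext v
    rw [mem_relNorm]
    constructor
    · exact fun h => h.1
    · intro hv
      refine ⟨hv, mem_nz_of ?_⟩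
      intro x hx
      rw [hc v hv x hx, mul_inv_cancel_right]
      exact hx
  ex := by
    by_contra hcon
    push Not at hcon
    apply h3
    ext v
    rw [mem_relNorm, Set.mem_singleton_iff]
    constructor
    · rintro ⟨h5, h6⟩
      by_contra h7
      exact hcon v h5 h7 h6
    · rintro rfl
      exact ⟨V.one_mem, (nz _).one_mem⟩

theorem exists_ne_of {g : G} (h3 : relNorm V (conjBy V g) ≠ {1}) : ∃ x ∈ V, x ≠ 1 := by
  by_contra hcon
  push Not at hcon
  apply h3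
  ext v
  rw [mem_relNorm, Set.mem_singleton_iff]
  constructor
  · rintro ⟨h5, -⟩
    exact hcon v h5
  · rintro rfl
    exact ⟨V.one_mem, (nz _).one_mem⟩

end Pool.Agent.Helper37.WC
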