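import Pool.Agent.Helper37.WC.KL0

/-!
WC-25 (MP_b5afc9_al, project WC). Consequences of Theorem A (assumed here as the hypothesis `hno`): elements of members in the centraliser of `A`. `[x, y] = x*y*x⁻¹*y⁻¹`.

* `kl`: for such `w` and `b` there is `z ∈ A`, `z ≠ 1`, commuting with `b` and not of the form `a*(b*a*b⁻¹)`, `a ∈ A`. Proof. Let `u = b*w*b⁻¹`, `d = w*u`. `w*w = 1`, `u*u = 1`, `b*b = 1`; `u, d ∈ ct A` (`b ∈ nz A`); `b*d*b⁻¹ = u*w = d⁻¹`, `w*d*w⁻¹ = u*w = d⁻¹`.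
  (i) For every `j : ℕ` (or `ℤ`), `d^j*w ∈ ct A`, `∉ A`, and it lies in a member: `d^(2i)*w = d^i*w*(d^i)⁻¹`, `d^(2i+1)*w = (d^i*w)*u*(d^i*w)⁻¹` (conjugates of `w`, `u` by elements of `ct A`, `Sys.conj`); `u ∉ A` as `w ∉ A`, `b ∈ nz A`; if `x*w*x⁻¹ ∈ A` with `x ∈ ct A` then `w ∈ A`.
  (ii) `b*(d^j*w)*b⁻¹ = d^(-j)*u = d^(-j-1)*w` (`u = w⁻¹*d = d⁻¹*w`). If `orderOf d = 2j+1` is odd then `d^(-j-1) = d^j` and `d^j*w` commutes with `b`: contradiction to `kl0`. So `orderOf d = 2k`, `k ≥ 1`. `z := d^k`, `z ≠ 1`, `z*z = 1`, `b*z*b⁻¹ = z⁻¹ = z`, `z*w = w*z`, `z ∈ ct A`.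
  (iii) `z ∈ A`: `z*w = d^k*w` is in a member `F`, `w ∈ E`. `z*w` commutes with `w ≠ 1`, so `z*w ∈ nz E`, so by `Sys.nr_or` `Cm F E` or `NR S F E`; in the second case `A` commutes with `F` and `E` (`Sys.cm_of_elem`), contradiction to `hno`. So `Cm F E` and `z = (z*w)*w` lies in a member (`Sys.C`). If `z ∉ A`, `kl0` contradicts `b*z = z*b`.
  (iv) Suppose `z = a*(b*a*b⁻¹)`, `a ∈ A`, i.e. `b*a*b⁻¹ = a*z` (`a*a = 1`). If `k = 2j+1`: `m := d^j*w`, `b*m*b⁻¹ = d^(-j-1)*w = d^(-k)*m = z*m`; `m*a` commutes with `b`: `b*(m*a)*b⁻¹ = z*m*a*z = m*a` (`z ∈ A` commutes with `m ∈ ct A`). `m*a ∈ ct A`, `∉ A`; it is in a member by `Sys.C` (`m ∈ F1 ∈ S`, `Cm A F1`). Contradiction to `kl0`.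
  If `k = 2i`: `δ := d^i`, `δ*δ = z`, `b*δ*b⁻¹ = δ⁻¹ = δ*z`. `v := δ*a ∈ ct A`: `b*v*b⁻¹ = δ*z*a*z = v`, `v*v = δ*δ*a*a = z`. `v ∈ nz B` (`Sys.nz_of_comm`). For `b1 ∈ nn B A`: `[v, b1] ∈ B` and it commutes with `A` (`v ∈ ct A`, `b1 ∈ nz A`); if `≠ 1`, `A ≤ nz B` (`Sys.nz_of_comm`), `Cm A B` (`Sys.comm_of_nz`), contradiction. So `v` commutes with
  `nn B A`. Let `y ∈ B`, `y ∉ nz A`, `y1 := [v, y] ∈ B`. `z*y*z⁻¹ = v*(v*y*v⁻¹)*v⁻¹ = v*(y1*y)*v⁻¹ = [v, y1]*y1*y1*y = [v, y1]*y`. So `[z, y] = [v, y1]`. If `y1 ∈ nz A` then `[z, y] = 1`, so `y ∈ nz A` (`Sys.nz_of_comm`, `z ∈ A`, `z ≠ 1`), contradiction. So `y1 ∉ nz A`, and the same argument for `y1` gives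
  `[v, y1] ∉ nz A`. But `[v, y1] = [z, y] ∈ nn B A` by `NR.comm_mem` (`z ∈ nz B` as it commutes with `b`). Contradiction.
-/

namespace Pool.Agent.Helper37.WC

variable {G : Type*} [Group G] [Finite G] {S : Set (Subgroup G)} {q : ℕ} {A B E : Subgroup G}

/-- elements of members in the centraliser of `A`, outside `A` -/
private def Pr_kl (S : Set (Subgroup G)) (A : Subgroup G) (x : G) : Prop :=
  x ∈ ct A ∧ x ∉ A ∧ ∃ E ∈ S, x ∈ E

private theorem ct_conj_kl {g x : G} (hg : g ∈ nz A) (hx : x ∈ ct A) : g * x * g⁻¹ ∈ ct A := by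
  have h1 := conj_mem_cj (g := g) hx
  rwa [← ct_cj, mem_nz.1 hg] at h1

private theorem ct_le_nz_kl : ct A ≤ nz A := by
  intro g hg
  apply mem_nz_of
  intro x hx
  rw [mem_ct.1 hg x hx]
  simpa using hx

private theorem Pr_conj_kl (h : Sys S q) {g x : G} (hg : g ∈ nz A) (hx : Pr_kl S A x) :
    Pr_kl S A (g * x * g⁻¹) := by
  obtain ⟨h1, h2, E, hE, hxE⟩ := hx
  refine ⟨ct_conj_kl hg h1, fun hc => h2 ?_, cj g E, h.conj E hE g, conj_mem_cj hxE⟩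
  rw [← mem_nz.1 hg] at hc
  exact conj_mem_cj_iff.1 hc

private theorem Pr_ne_one_kl {x : G} (hx : Pr_kl S A x) : x ≠ 1 := by
  intro hc
  exact hx.2.1 (hc ▸ A.one_mem)

private theorem Pr_sq_kl (h : Sys S q) {x : G} (hx : Pr_kl S A x) : x * x = 1 := by
  obtain ⟨-, -, E, hE, hxE⟩ := hx
  exact h.sq E hE x hxE

private theorem Pr_mul_kl (h : Sys S q) (hA : A ∈ S) {x a : G} (hx : Pr_kl S A x) (ha : a ∈ A) :
    Pr_kl S A (x * a) := by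
  have hxa : x * a ∉ A := fun hc => hx.2.1 (by
    have := A.mul_mem hc (A.inv_mem ha)
    rwa [mul_inv_cancel_right] at this)
  refine ⟨(ct A).mul_mem hx.1 fun y hy => h.comm hA a ha y hy, hxa, ?_⟩
  obtain ⟨F, hF, hxF⟩ := hx.2.2
  have hAF := h.cm_of_elem hA hF hxF (Pr_ne_one_kl hx) hx.1
  exact h.C F hF A hA hAF.symm x hxF a ha fun hc => hxa (hc ▸ A.one_mem)

/-- the last case of `kl` -/
private theorem last_kl (h : Sys S q) (n : NR S A B) {b v z : G} (hb : b ∈ B) (hb1 : b ≠ 1)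
    (hz : z ∈ A) (hz1 : z ≠ 1) (hzb : z * b = b * z) (hv : v ∈ ct A) (hvb : v * b = b * v)
    (hvv : v * v = z) : False := by
  have hvB : v ∈ nz B := h.nz_of_comm n.hB hb hb1 hvb
  have hzB : z ∈ nz B := h.nz_of_comm n.hB hb hb1 hzb
  have hcomm : ∀ b1 ∈ B, b1 ∈ nz A → v * b1 * v⁻¹ * b1⁻¹ = 1 := by
    intro b1 hb1B hb1A
    by_contra hne
    have hcB : v * b1 * v⁻¹ * b1⁻¹ ∈ B := B.mul_mem (nz_conj_mem hvB hb1B) (B.inv_mem hb1B)
    have hcc : v * b1 * v⁻¹ * b1⁻¹ ∈ ct A := by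
      have h1 : v * b1 * v⁻¹ * b1⁻¹ = v * (b1 * v⁻¹ * b1⁻¹) := by group
      rw [h1]
      exact (ct A).mul_mem hv (ct_conj_kl hb1A ((ct A).inv_mem hv))
    apply n.nc
    apply h.comm_of_nz n.hA n.hB
    intro a ha
    exact h.nz_of_comm n.hB hcB hne (mem_ct.1 hcc a ha).symm
  have key : ∀ y ∈ B, y ∉ nz A → (v * y * v⁻¹ * y⁻¹ ∈ B ∧ v * y * v⁻¹ * y⁻¹ ∉ nz A) ∧
      v * (v * y * v⁻¹ * y⁻¹) * v⁻¹ * (v * y * v⁻¹ * y⁻¹)⁻¹ = z * y * z⁻¹ * y⁻¹ := by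
    intro y hyB hyA
    have h1 : v * y * v⁻¹ * y⁻¹ ∈ B := B.mul_mem (nz_conj_mem hvB hyB) (B.inv_mem hyB)
    have h2 : v * (v * y * v⁻¹ * y⁻¹) * v⁻¹ * (v * y * v⁻¹ * y⁻¹)⁻¹ = z * y * z⁻¹ * y⁻¹ := by
      rw [h.inv n.hB h1]
      obtain ⟨c, hc⟩ : ∃ c, c = v * y * v⁻¹ * y⁻¹ := ⟨_, rfl⟩
      have hcy : c * y = v * y * v⁻¹ := by rw [hc]; group
      rw [← hc]
      calc v * c * v⁻¹ * c = (v * c * v⁻¹) * (c * y) * y⁻¹ := by group
        _ = (v * c * v⁻¹) * (v * y * v⁻¹) * y⁻¹ := by rw [hcy]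
        _ = v * (c * y) * v⁻¹ * y⁻¹ := by group
        _ = v * (v * y * v⁻¹) * v⁻¹ * y⁻¹ := by rw [hcy]
        _ = (v * v) * y * (v * v)⁻¹ * y⁻¹ := by group
        _ = z * y * z⁻¹ * y⁻¹ := by rw [hvv]
    refine ⟨⟨h1, fun hc => hyA ?_⟩, h2⟩
    have h5 := hcomm _ h1 hc
    rw [h2] at h5
    have h6 : z * y = y * z := by
      rw [mul_inv_eq_one, mul_inv_eq_iff_eq_mul] at h5
      exact h5
    exact h.nz_of_comm n.hA hz hz1 h6.symm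
  obtain ⟨y, hyB, hyA⟩ := (n.symm h).exists_out h
  obtain ⟨⟨h1, h2⟩, h3⟩ := key y hyB hyA
  obtain ⟨⟨h4, h5⟩, -⟩ := key _ h1 h2
  rw [h3] at h5
  exact h5 (n.comm_mem h hz hzB hyB).2

/-- the strong form of `kl`: `z = (w * (b * w * b⁻¹)) ^ k` where `2 * k` is the order -/
theorem kls (h : Sys S q) (hno : ∀ A B D, NR S A B → D ∈ S → Cm D A → Cm D B → False) (n : NR S A B) {b w : G}
    (hb : b ∈ B) (hb1 : b ≠ 1) (hb' : b ∈ nz A) (hw : w ∈ ct A) (hwA : w ∉ A) (hwS : ∃ E ∈ S, w ∈ E) :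
    ∃ k, 0 < k ∧ orderOf (w * (b * w * b⁻¹)) = 2 * k ∧ (w * (b * w * b⁻¹)) ^ k ∈ A ∧
      (w * (b * w * b⁻¹)) ^ k * b = b * (w * (b * w * b⁻¹)) ^ k ∧
      ∀ a ∈ A, a * (b * a * b⁻¹) ≠ (w * (b * w * b⁻¹)) ^ k := by
  have hPw : Pr_kl S A w := ⟨hw, hwA, hwS⟩
  have hk0 : ∀ x, Pr_kl S A x → x * b ≠ b * x := fun x hx => kl0 h hno n hb hb1 hb' hx.1 hx.2.1 hx.2.2
  have hk0' : ∀ x, Pr_kl S A x → b * x * b⁻¹ ≠ x := fun x hx hc =>
    hk0 x hx (mul_inv_eq_iff_eq_mul.1 hc).symm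
  have hbi : b⁻¹ = b := h.inv n.hB hb
  have hbb : b * b = 1 := h.sq B n.hB b hb
  have hww : w * w = 1 := Pr_sq_kl h hPw
  have hwi : w⁻¹ = w := inv_eq_of_mul_eq_one_right hww
  obtain ⟨u, hu⟩ : ∃ u, u = b * w * b⁻¹ := ⟨_, rfl⟩
  have hPu : Pr_kl S A u := by
    rw [hu]
    exact Pr_conj_kl h hb' hPw
  have huu : u * u = 1 := Pr_sq_kl h hPu
  have hui : u⁻¹ = u := inv_eq_of_mul_eq_one_right huu
  have hbu : b * u * b⁻¹ = w := by
    rw [hu, hbi]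
    calc b * (b * w * b) * b = (b * b) * w * (b * b) := by group
      _ = w := by rw [hbb, one_mul, mul_one]
  obtain ⟨d, hd⟩ : ∃ d, d = w * u := ⟨_, rfl⟩
  have hdi : d⁻¹ = u * w := by rw [hd, mul_inv_rev, hui, hwi]
  have hdct : d ∈ ct A := by
    rw [hd]
    exact (ct A).mul_mem hw hPu.1
  have hbd : b * d * b⁻¹ = d⁻¹ := by
    rw [hdi, hd]
    calc b * (w * u) * b⁻¹ = (b * w * b⁻¹) * (b * u * b⁻¹) := by group
      _ = u * w := by rw [hbu, ← hu]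
  have hwd : w * d * w⁻¹ = d⁻¹ := by
    rw [hdi, hd, hwi]
    calc w * (w * u) * w = (w * w) * u * w := by group
      _ = u * w := by rw [hww, one_mul]
  have hwdj : ∀ j : ℤ, w * d ^ j * w⁻¹ = (d ^ j)⁻¹ := by
    intro j
    rw [← conj_zpow, hwd, inv_zpow]
  have hbdj : ∀ j : ℤ, b * d ^ j * b⁻¹ = (d ^ j)⁻¹ := by
    intro j
    rw [← conj_zpow, hbd, inv_zpow]
  have hdjct : ∀ j : ℤ, d ^ j ∈ ct A := fun j => (ct A).zpow_mem hdct j
  have hduw : u = d⁻¹ * w := by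
    rw [hdi, mul_assoc, hww, mul_one]
  -- (i)
  have hP : ∀ j : ℤ, Pr_kl S A (d ^ j * w) := by
    intro j
    obtain ⟨i, hi | hi⟩ := Int.even_or_odd' j
    · have e1 : d ^ j * w = d ^ i * w * (d ^ i)⁻¹ := by
        rw [← hwdj i, hi, hwi]
        calc d ^ (2 * i) * w = d ^ (i + i) * w := by rw [two_mul]
          _ = d ^ i * (w * w) * d ^ i * w := by rw [zpow_add, hww, mul_one]
          _ = d ^ i * w * (w * d ^ i * w) := by group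
      rw [e1]
      exact Pr_conj_kl h (ct_le_nz_kl (hdjct i)) hPw
    · have e1 : d ^ j * w = (d ^ i * w) * u * (d ^ i * w)⁻¹ := by
        have e2 : (d ^ i * w) * u * (d ^ i * w)⁻¹ = d ^ i * (w * u) * (w⁻¹ * (d ^ i)⁻¹) := by group
        have e3 : w⁻¹ * (d ^ i)⁻¹ = d ^ i * w := by
          rw [← hwdj i]
          calc w⁻¹ * (w * d ^ i * w⁻¹) = d ^ i * w⁻¹ := by group
            _ = d ^ i * w := by rw [hwi]
        rw [e2, e3, ← hd, hi]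
        calc d ^ (2 * i + 1) * w = d ^ (i + 1 + i) * w := by
              congr 2
              ring
          _ = d ^ i * d * (d ^ i * w) := by rw [zpow_add, zpow_add, zpow_one, mul_assoc]
      rw [e1]
      exact Pr_conj_kl h (ct_le_nz_kl ((ct A).mul_mem (hdjct i) hw)) hPu
  -- conjugation of `d^j w` by `b`
  have hbm : ∀ j : ℤ, b * (d ^ j * w) * b⁻¹ = d ^ (-j - 1) * w := by
    intro j
    calc b * (d ^ j * w) * b⁻¹ = (b * d ^ j * b⁻¹) * (b * w * b⁻¹) := by group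
      _ = (d ^ j)⁻¹ * (d⁻¹ * w) := by rw [hbdj, ← hu, ← hduw]
      _ = d ^ (-j - 1) * w := by
        rw [← mul_assoc, ← zpow_neg, ← zpow_neg_one, ← zpow_add]
        rfl
  -- (ii)
  have hN : 0 < orderOf d := orderOf_pos d
  have hdN : d ^ ((orderOf d : ℕ) : ℤ) = 1 := by
    rw [zpow_natCast, pow_orderOf_eq_one]
  obtain ⟨k, hk | hk⟩ := Nat.even_or_odd' (orderOf d)
  swap
  · exfalso
    refine hk0' _ (hP k) ?_
    rw [hbm]
    have e1 : d ^ (-(k : ℤ) - 1) = d ^ (k : ℤ) := by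
      have e2 : (-(k : ℤ) - 1) = (k : ℤ) + -((orderOf d : ℕ) : ℤ) := by
        rw [hk]
        push_cast
        ring
      rw [e2, zpow_add, zpow_neg, hdN, inv_one, mul_one]
    rw [e1]
  have hk1 : 0 < k := by omega
  obtain ⟨z, hzd⟩ : ∃ z, z = d ^ (k : ℤ) := ⟨_, rfl⟩
  have hz1 : z ≠ 1 := by
    rw [hzd, zpow_natCast]
    exact pow_ne_one_of_lt_orderOf hk1.ne' (by omega)
  have hzz : z * z = 1 := by
    rw [hzd, ← zpow_add, ← hdN, hk]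
    congr 1
    push_cast
    ring
  have hzi : z⁻¹ = z := inv_eq_of_mul_eq_one_right hzz
  have hzct : z ∈ ct A := by rw [hzd]; exact hdjct _
  have hzb : z * b = b * z := by
    have h1 := hbdj k
    rw [← hzd, hzi] at h1
    exact (mul_inv_eq_iff_eq_mul.1 h1).symm
  have hzw : z * w = w * z := by
    have h1 := hwdj k
    rw [← hzd, hzi] at h1
    exact (mul_inv_eq_iff_eq_mul.1 h1).symm
  -- (iii)
  have hPzw : Pr_kl S A (z * w) := by rw [hzd]; exact hP k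
  have hzA : z ∈ A := by
    by_contra hzA
    obtain ⟨F, hF, hzwF⟩ := hPzw.2.2
    obtain ⟨E, hE, hwE⟩ := hwS
    have hw1 : w ≠ 1 := Pr_ne_one_kl hPw
    have hzw1 : z * w ≠ 1 := Pr_ne_one_kl hPzw
    have hcom : (z * w) * w = w * (z * w) := by
      rw [hzw, mul_assoc, hzw, ← mul_assoc]
    have hnz : z * w ∈ nz E := h.nz_of_comm hE hwE hw1 hcom
    have hAF : Cm A F := h.cm_of_elem n.hA hF hzwF hzw1 hPzw.1
    have hAE : Cm A E := h.cm_of_elem n.hA hE hwE hw1 hw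
    have hFE : Cm F E := by
      rcases h.nr_or hF hE hzwF hzw1 hnz with h1 | h1
      · exact h1
      · exact (hno F E A h1 n.hA hAF hAE).elim
    have hzz' : (z * w) * w = z := by rw [mul_assoc, hww, mul_one]
    have hmem := h.C F hF E hE hFE (z * w) hzwF w hwE (by rwa [hzz'])
    rw [hzz'] at hmem
    exact hk0 z ⟨hzct, hzA, hmem⟩ hzb
  have hzk : (w * (b * w * b⁻¹)) ^ k = z := by
    rw [hzd, zpow_natCast, hd, hu]
  refine ⟨k, hk1, by rw [← hu, ← hd, hk], ?_⟩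
  rw [hzk]
  refine ⟨hzA, hzb, fun a ha haz => ?_⟩
  -- (iv)
  have haa : a * a = 1 := h.sq A n.hA a ha
  have hai : a⁻¹ = a := h.inv n.hA ha
  have hba : b * a * b⁻¹ = a * z := by
    rw [← haz, ← mul_assoc, haa, one_mul]
  have hza : z * a = a * z := hzct a ha
  obtain ⟨i, hi | hi⟩ := Nat.even_or_odd' k
  · -- `k = 2 i`
    have hdd : d ^ (i : ℤ) * d ^ (i : ℤ) = z := by
      rw [hzd, ← zpow_add, hi]
      congr 1
      push_cast
      ring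
    have hdi' : (d ^ (i : ℤ))⁻¹ = d ^ (i : ℤ) * z := by
      apply inv_eq_of_mul_eq_one_right
      rw [← mul_assoc, hdd, hzz]
    have hda : d ^ (i : ℤ) * a = a * d ^ (i : ℤ) := hdjct i a ha
    refine last_kl h n hb hb1 hzA hz1 hzb ((ct A).mul_mem (hdjct i) fun y hy => h.comm n.hA a ha y hy)
      (v := d ^ (i : ℤ) * a) ?_ ?_
    · have h1 : b * (d ^ (i : ℤ) * a) * b⁻¹ = d ^ (i : ℤ) * a := by
        calc b * (d ^ (i : ℤ) * a) * b⁻¹ = (b * d ^ (i : ℤ) * b⁻¹) * (b * a * b⁻¹) := by group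
          _ = d ^ (i : ℤ) * z * (a * z) := by rw [hbdj, hdi', hba]
          _ = d ^ (i : ℤ) * (z * a) * z := by group
          _ = d ^ (i : ℤ) * a * (z * z) := by rw [hza]; group
          _ = d ^ (i : ℤ) * a := by rw [hzz, mul_one]
      exact (mul_inv_eq_iff_eq_mul.1 h1).symm
    · calc d ^ (i : ℤ) * a * (d ^ (i : ℤ) * a) = d ^ (i : ℤ) * (a * d ^ (i : ℤ)) * a := by group
        _ = (d ^ (i : ℤ) * d ^ (i : ℤ)) * (a * a) := by rw [← hda]; group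
        _ = z := by rw [haa, hdd, mul_one]
  · -- `k = 2 i + 1`
    have hzm : z * (d ^ (i : ℤ) * w) = (d ^ (i : ℤ) * w) * z := ((hP i).1 z hzA).symm
    have hbm' : b * (d ^ (i : ℤ) * w) * b⁻¹ = z * (d ^ (i : ℤ) * w) := by
      rw [hbm, ← mul_assoc]
      congr 1
      rw [← hzi, hzd, ← zpow_neg, ← zpow_add, hi]
      congr 1
      push_cast
      ring
    refine hk0' _ (Pr_mul_kl h n.hA (hP i) ha) ?_
    calc b * (d ^ (i : ℤ) * w * a) * b⁻¹ = (b * (d ^ (i : ℤ) * w) * b⁻¹) * (b * a * b⁻¹) := by group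
      _ = (z * (d ^ (i : ℤ) * w)) * (a * z) := by rw [hbm', hba]
      _ = ((d ^ (i : ℤ) * w) * z) * (z * a) := by rw [hzm, hza]
      _ = (d ^ (i : ℤ) * w) * (z * z) * a := by group
      _ = d ^ (i : ℤ) * w * a := by rw [hzz, mul_one]

theorem kl (h : Sys S q) (hno : ∀ A B D, NR S A B → D ∈ S → Cm D A → Cm D B → False) (n : NR S A B) {b w : G}
    (hb : b ∈ B) (hb1 : b ≠ 1) (hb' : b ∈ nz A) (hw : w ∈ ct A) (hwA : w ∉ A) (hwS : ∃ E ∈ S, w ∈ E) :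
    ∃ z ∈ A, z ≠ 1 ∧ z * b = b * z ∧ ∀ a ∈ A, a * (b * a * b⁻¹) ≠ z := by
  obtain ⟨k, hk, h1, h2, h3, h4⟩ := kls h hno n hb hb1 hb' hw hwA hwS
  exact ⟨_, h2, pow_ne_one_of_lt_orderOf hk.ne' (by omega), h3, h4⟩

end Pool.Agent.Helper37.WC
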