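import Pool.Agent.Helper37.WC.Defs

/-!
WC-7 (MP_b5afc9_al, project WC). Sylow's theorem for a subgroup `H` of a finite group, in the form used: every `2`-subgroup `Q ≤ H` is contained in a `2`-subgroup `P ≤ H` into which
every `2`-subgroup of `H` can be conjugated by an element of `H`. (Apply `IsPGroup.exists_le_sylow` and `Sylow` conjugacy in the group `↥H`, then map to `G`.)
-/

namespace Pool.Agent.Helper37.WC

open Pointwise in
theorem exists_syl {G : Type*} [Group G] [Finite G] (H Q : Subgroup G) (hQ : Q ≤ H) (hp : IsPGroup 2 Q) :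
    ∃ P : Subgroup G, P ≤ H ∧ IsPGroup 2 P ∧ Q ≤ P ∧ ∀ R : Subgroup G, R ≤ H → IsPGroup 2 R → ∃ x ∈ H, cj x R ≤ P := by
  have : Fact (Nat.Prime 2) := ⟨Nat.prime_two⟩
  have hsub : ∀ R : Subgroup G, IsPGroup 2 R → IsPGroup 2 (R.subgroupOf H) := by
    intro R hR
    exact hR.comap_of_injective H.subtype Subtype.coe_injective
  obtain ⟨P, hP⟩ := (hsub Q hp).exists_le_sylow
  refine ⟨(P : Subgroup H).map H.subtype, Subgroup.map_subtype_le _, P.isPGroup'.map _, ?_, ?_⟩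
  · intro x hx
    exact ⟨⟨x, hQ hx⟩, hP (Subgroup.mem_subgroupOf.2 hx), rfl⟩
  · intro R hR hRp
    obtain ⟨P', hP'⟩ := (hsub R hRp).exists_le_sylow
    obtain ⟨x, hx⟩ := MulAction.exists_smul_eq H P' P
    refine ⟨x, x.2, ?_⟩
    intro y hy
    rw [mem_cj] at hy
    have h1 : (⟨(x : G)⁻¹ * y * x, hR hy⟩ : H) ∈ (P' : Subgroup H) := hP' (Subgroup.mem_subgroupOf.2 hy)
    have h2 : x * (⟨(x : G)⁻¹ * y * x, hR hy⟩ : H) * x⁻¹ ∈ (P : Subgroup H) := by
      rw [← hx, Sylow.coe_subgroup_smul, Subgroup.mem_pointwise_smul_iff_inv_smul_mem]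
      rw [show (MulAut.conj x)⁻¹ • (x * (⟨(x : G)⁻¹ * y * x, hR hy⟩ : H) * x⁻¹) = (⟨(x : G)⁻¹ * y * x, hR hy⟩ : H) by
        simp [MulAut.smul_def]
        group]
      exact h1
    refine ⟨_, h2, ?_⟩
    simp [mul_assoc]

end Pool.Agent.Helper37.WC
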