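import Pool.Agent.Helper37.WC.Z2
import Pool.Agent.Helper37.WC.KL
import Pool.Agent.Helper37.WC.Syl

/-!
WC-35 (MP_b5afc9_al, project WC). End of the proof: if there is a pair `(A, B)` of non-root type, then no other member commutes with `A`.

Suppose `E ∈ S`, `E ≠ A`, `Cm A E`. `Sys.join2` gives a line `L` over `A`. Take `b ∈ B`, `b ≠ 1`, `b ∈ nz A`; `b*b = 1`. `zpowers b` is a `2`-group in `nz A`; take `P` from `exists_syl (nz A) (zpowers b)`. `L ≤ nz A` (`L` is abelian, `A ≤ L`) is a `2`-group (`Ln.isP`), so `M := cj x L ≤ P` for some `x ∈ nz A`; `M` is a line over `A` (`Ln.conj'`).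
`cj b M ≤ P` is a line over `A` too, and `cj b M ≠ M` (`Ln.nofix`). `M ⊔ cj b M ≤ P` is a `2`-group. `Φ f g := ze A f (b*g*b⁻¹)`, `f, g ∈ M`, is biadditive (`ze_add`, `ze_add'`) with values in `A` (`ze_mem`), and `b*(Φ f g)*b⁻¹ = ze A (b*f*b⁻¹) (b*b*g*b⁻¹*b⁻¹) = ze A (b*f*b⁻¹) g = ze A g (b*f*b⁻¹) = Φ g f` (`ze_conj`, `ze_symm`).
`Q f := Φ f f`. `b*(Q f)*b⁻¹ = Q f` so `Q f ∈ nn A B` (`Sys.nz_of_comm`). `Q (f*g) = Q f * Q g * (t * (b*t*b⁻¹))`, `t = Φ f g ∈ A`. Let `U = {a*(b*a*b⁻¹) | a ∈ A}`, a subgroup (`A` abelian) of `nn A B` (its elements commute with `b`), of order `q / card (nn A B)` (the fibres of `a ↦ a*(b*a*b⁻¹)` are the cosets of `nn A B`: `a⁻¹*a'` commutes with `b`).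
`{f ∈ M | Q f ∈ U}` is a subgroup `N` of `M` containing `A` (`Q a = 1`); if `Q f * U = Q g * U` then `f⁻¹*g ∈ N` (`Q (f*g) ∈ Q f * Q g * U = U`, exponent two). So `card M ≤ card N * (card (nn A B) / card U)`. With `q1 := card (nn A B)`, `card U * q1 = q` and `card M = q^2`: `q^2 * card U ≤ card N * q1`, so `q^3 ≤ card N * q1^2 < card N * q^2` (`NR.card_lt`), so
`card N > q = card A` and there is `f ∈ N`, `f ∉ A`, with `Q f = a*(b*a*b⁻¹)` for some `a ∈ A`. But `kls` (with `w := f`; `f ∈ ct A`, `f ∉ A`, `f` lies in a member): `orderOf (f*(b*f*b⁻¹)) = 2*k`, so `Q f = (f*(b*f*b⁻¹))^k` (`ze_of`; `b*f*b⁻¹ ∉ A`) is not of this form. Contradiction.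
-/

namespace Pool.Agent.Helper37.WC

variable {G : Type*} [Group G] [Finite G] {S : Set (Subgroup G)} {q : ℕ} {A B E F M M0 M1 : Subgroup G}

private theorem ct_le_nz61 : ct A ≤ nz A := by
  intro g hg
  apply mem_nz_of
  intro x hx
  rw [mem_ct.1 hg x hx]
  simpa using hx

/-- the homomorphism `a ↦ a * (b * a * b⁻¹)` -/
private def nu61 (h : Sys S q) (hA : A ∈ S) {b : G} (hb' : b ∈ nz A) : A →* G where
  toFun a := a * (b * a * b⁻¹)
  map_one' := by simp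
  map_mul' := by
    intro x y
    have h1 : (y : G) * (b * x * b⁻¹) = b * x * b⁻¹ * y := h.comm hA _ y.2 _ (nz_conj_mem hb' x.2)
    calc ((x * y : A) : G) * (b * ((x * y : A) : G) * b⁻¹)
        = x * (y * (b * x * b⁻¹)) * (b * y * b⁻¹) := by rw [Subgroup.coe_mul]; group
      _ = x * (b * x * b⁻¹) * (y * (b * y * b⁻¹)) := by rw [h1]; group

private theorem nu_card61 (h : Sys S q) (n : NR S A B) {b : G} (hb : b ∈ B) (hb1 : b ≠ 1) (hb' : b ∈ nz A) :
    Nat.card (nu61 h n.hA hb').range * Nat.card (nn A B) = q := by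
  have hker : (nu61 h n.hA hb').ker = (nn A B).subgroupOf A := by
    ext a
    rw [MonoidHom.mem_ker, Subgroup.mem_subgroupOf]
    have haa : (a : G) * a = 1 := h.sq A n.hA _ a.2
    have hai : (a : G)⁻¹ = a := h.inv n.hA a.2
    change (a : G) * (b * a * b⁻¹) = 1 ↔ (a : G) ∈ nn A B
    constructor
    · intro h1
      have h2 : b * a * b⁻¹ = (a : G) := (inv_eq_of_mul_eq_one_right h1).symm.trans hai
      have h3 : (a : G) * b = b * a := (mul_inv_eq_iff_eq_mul.1 h2).symm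
      exact ⟨a.2, h.nz_of_comm n.hB hb hb1 h3⟩
    · intro h1
      have h3 : (a : G) * b = b * a := n.cent h h1.1 h1.2 hb hb'
      rw [← h3, mul_assoc, mul_inv_cancel, mul_one, haa]
  have h1 := Subgroup.card_mul_index (nu61 h n.hA hb').ker
  have hle : nn A B ≤ A := inf_le_left
  have h2 : Nat.card ((nn A B).subgroupOf A) = Nat.card (nn A B) :=
    Nat.card_congr (Subgroup.subgroupOfEquivOfLe hle).toEquiv
  rw [Subgroup.index_ker, h.card A n.hA, hker, h2] at h1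
  rw [mul_comm]
  exact h1

private theorem nu_le61 (h : Sys S q) (n : NR S A B) {b : G} (hb : b ∈ B) (hb1 : b ≠ 1) (hb' : b ∈ nz A) :
    (nu61 h n.hA hb').range ≤ nn A B := by
  rintro _ ⟨a, rfl⟩
  change (a : G) * (b * a * b⁻¹) ∈ nn A B
  have hba : b * (a : G) * b⁻¹ ∈ A := nz_conj_mem hb' a.2
  have hbb : b * b = 1 := h.sq B n.hB b hb
  have hbi : b⁻¹ = b := h.inv n.hB hb
  refine ⟨A.mul_mem a.2 hba, h.nz_of_comm n.hB hb hb1 ?_⟩
  have h1 : b * ((a : G) * (b * a * b⁻¹)) * b⁻¹ = a * (b * a * b⁻¹) := by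
    calc b * ((a : G) * (b * a * b⁻¹)) * b⁻¹ = (b * a * b⁻¹) * ((b * b) * a * (b⁻¹ * b⁻¹)) := by group
      _ = (b * a * b⁻¹) * a := by rw [hbi, hbb, one_mul, mul_one]
      _ = a * (b * a * b⁻¹) := h.comm n.hA _ hba _ a.2
  exact (mul_inv_eq_iff_eq_mul.1 h1).symm

/-- counting with the fibres of a map which is a homomorphism modulo `U` -/
private theorem count61 {M K U : Subgroup G} (hUK : U ≤ K) (hK : ∀ x ∈ K, ∀ y ∈ K, x * y = y * x) (Q : G → G)
    (hQ : ∀ f ∈ M, Q f ∈ K) (hm : ∀ f ∈ M, ∀ g ∈ M, ∃ u ∈ U, Q (f * g) = Q f * Q g * u) :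
    ∃ N : Subgroup G, N ≤ M ∧ (∀ f ∈ M, f ∈ N ↔ Q f ∈ U) ∧ Nat.card M * Nat.card U ≤ Nat.card N * Nat.card K := by
  have hn : (U.subgroupOf K).Normal := by
    refine ⟨fun x hx g => ?_⟩
    have h1 : g * x * g⁻¹ = x := by
      apply Subtype.ext
      rw [Subgroup.coe_mul, Subgroup.coe_mul, Subgroup.coe_inv, hK _ g.2 _ x.2, mul_assoc, mul_inv_cancel, mul_one]
    rw [h1]
    exact hx
  let Θ : M →* K ⧸ U.subgroupOf K := MonoidHom.mk' (fun f => QuotientGroup.mk ⟨Q f, hQ f f.2⟩) (by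
    intro f g
    obtain ⟨u, hu, he⟩ := hm f f.2 g g.2
    rw [← QuotientGroup.mk_mul, QuotientGroup.eq, Subgroup.mem_subgroupOf]
    change (Q ((f * g : M) : G))⁻¹ * (Q f * Q g) ∈ U
    rw [Subgroup.coe_mul, he, mul_inv_rev, mul_assoc, inv_mul_cancel, mul_one]
    exact U.inv_mem hu)
  have hker : ∀ f : M, f ∈ Θ.ker ↔ Q f ∈ U := by
    intro f
    rw [MonoidHom.mem_ker]
    change (QuotientGroup.mk ⟨Q f, hQ f f.2⟩ : K ⧸ U.subgroupOf K) = 1 ↔ _
    rw [QuotientGroup.eq_one_iff, Subgroup.mem_subgroupOf]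
  refine ⟨Θ.ker.map M.subtype, Subgroup.map_subtype_le _, ?_, ?_⟩
  · intro f hf
    rw [Subgroup.mem_map]
    constructor
    · rintro ⟨g, hg, rfl⟩
      exact (hker g).1 hg
    · intro hU
      exact ⟨⟨f, hf⟩, (hker ⟨f, hf⟩).2 hU, rfl⟩
  · have h1 : Nat.card (Θ.ker.map M.subtype) = Nat.card Θ.ker :=
      Subgroup.card_map_of_injective M.subtype_injective
    have h2 := Subgroup.card_mul_index Θ.ker
    rw [Subgroup.index_ker] at h2
    have h3 := Subgroup.card_mul_index (U.subgroupOf K)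
    rw [Nat.card_congr (Subgroup.subgroupOfEquivOfLe hUK).toEquiv] at h3
    have h4 : Nat.card Θ.range ≤ (U.subgroupOf K).index := by
      rw [Subgroup.index]
      exact Nat.card_le_card_of_injective _ Θ.range.subtype_injective
    rw [h1, ← h2, ← h3]
    calc Nat.card Θ.ker * Nat.card Θ.range * Nat.card U ≤
        Nat.card Θ.ker * (U.subgroupOf K).index * Nat.card U :=
          Nat.mul_le_mul_right _ (Nat.mul_le_mul_left _ h4)
      _ = Nat.card Θ.ker * (Nat.card U * (U.subgroupOf K).index) := by ring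

theorem closed_of (h : Sys S q) (hno : ∀ A B D, NR S A B → D ∈ S → Cm D A → Cm D B → False)
    (hk : ∀ A M, A ∈ S → Cl S M → A ≤ M → Nat.card M ≤ q ^ 2) (n : NR S A B) (hE : E ∈ S) (hc : Cm A E) : E = A := by
  by_contra hEA
  obtain ⟨L, hL, hAL, hEL⟩ := h.join2 n.hA hE hc
  have hLA : L ≠ A := by
    rintro rfl
    obtain ⟨x, hx, hx1⟩ := h.exists_ne hE
    exact hEA (h.eq hE n.hA hx (hEL hx) hx1)
  have l : Ln S A L := ⟨hL, hAL, hLA⟩
  obtain ⟨b, hb, hb1, hb'⟩ := (n.symm h).ex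
  have hbb : b * b = 1 := h.sq B n.hB b hb
  have hbi : b⁻¹ = b := h.inv n.hB hb
  have hzB : Subgroup.zpowers b ≤ B := by rwa [Subgroup.zpowers_le]
  have hzA : Subgroup.zpowers b ≤ nz A := by rwa [Subgroup.zpowers_le]
  obtain ⟨P, hPn, hPp, hbP, hPc⟩ := exists_syl (nz A) (Subgroup.zpowers b) hzA ((h.isP n.hB).to_le hzB)
  have hLn : L ≤ nz A := fun x hx => ct_le_nz61 (l.ctA hx)
  obtain ⟨x, hx, hxP⟩ := hPc L hLn (l.isP h)
  obtain ⟨M, hM⟩ : ∃ M, M = cj x L := ⟨_, rfl⟩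
  rw [← hM] at hxP
  have lM : Ln S A M := by
    rw [hM]
    exact l.conj' h hx
  have lM' : Ln S A (cj b M) := lM.conj' h hb'
  have hbP' : b ∈ P := hbP (Subgroup.mem_zpowers b)
  have hM'P : cj b M ≤ P := by
    intro y hy
    rw [mem_cj] at hy
    have h1 := P.mul_mem (P.mul_mem hbP' (hxP hy)) (P.inv_mem hbP')
    have h2 : b * (b⁻¹ * y * b) * b⁻¹ = y := by group
    rwa [h2] at h1
  have hne : M ≠ cj b M := (lM.nofix h hno n hb hb1 hb').symm
  have hT : IsPGroup 2 (M ⊔ cj b M : Subgroup G) := hPp.to_le (sup_le hxP hM'P)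
  have hcomA := h.comm n.hA
  -- the form
  obtain ⟨Φ, hΦ⟩ : ∃ Φ : G → G → G, Φ = fun f g => ze A f (b * g * b⁻¹) := ⟨_, rfl⟩
  have hΦm : ∀ f ∈ M, ∀ g ∈ M, Φ f g ∈ A := by
    intro f hf g hg
    rw [hΦ]
    exact ze_mem h hno hk n.hA lM lM' hne hT hf (conj_mem_cj hg)
  have hΦ1 : ∀ f ∈ M, ∀ g ∈ M, ∀ g' ∈ M, Φ f (g * g') = Φ f g * Φ f g' := by
    intro f hf g hg g' hg'
    rw [hΦ]
    simp only
    have e1 : b * (g * g') * b⁻¹ = (b * g * b⁻¹) * (b * g' * b⁻¹) := by group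
    rw [e1]
    exact ze_add h hno hk n.hA lM lM' hne hT hf (conj_mem_cj hg) (conj_mem_cj hg')
  have hΦ2 : ∀ f ∈ M, ∀ f' ∈ M, ∀ g ∈ M, Φ (f * f') g = Φ f g * Φ f' g := by
    intro f hf f' hf' g hg
    rw [hΦ]
    exact ze_add' h hno hk n.hA lM lM' hne hT hf hf' (conj_mem_cj hg)
  have hΦc : ∀ f ∈ M, ∀ g ∈ M, b * Φ f g * b⁻¹ = Φ g f := by
    intro f hf g hg
    rw [hΦ]
    simp only
    rw [ze_conj hb']
    have e1 : b * (b * g * b⁻¹) * b⁻¹ = g := by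
      calc b * (b * g * b⁻¹) * b⁻¹ = (b * b) * g * (b⁻¹ * b⁻¹) := by group
        _ = g := by rw [hbi, hbb, one_mul, mul_one]
    rw [e1]
    exact ze_symm h hno hk n.hA lM lM' hne hT hg (conj_mem_cj hf)
  -- the quadratic form
  have hQn : ∀ f ∈ M, Φ f f ∈ nn A B := by
    intro f hf
    have h1 := hΦc f hf f hf
    exact ⟨hΦm f hf f hf, h.nz_of_comm n.hB hb hb1 (mul_inv_eq_iff_eq_mul.1 h1).symm⟩
  have hQm : ∀ f ∈ M, ∀ g ∈ M, ∃ u ∈ (nu61 h n.hA hb').range, Φ (f * g) (f * g) = Φ f f * Φ g g * u := by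
    intro f hf g hg
    refine ⟨Φ f g * (b * Φ f g * b⁻¹), ⟨⟨Φ f g, hΦm f hf g hg⟩, rfl⟩, ?_⟩
    rw [hΦ2 f hf g hg _ (M.mul_mem hf hg), hΦ1 f hf f hf g hg, hΦ1 g hg f hf g hg, hΦc f hf g hg]
    have e1 : Φ f g * (Φ g f * Φ g g) = Φ g g * (Φ f g * Φ g f) := by
      rw [← mul_assoc]
      exact hcomA _ (A.mul_mem (hΦm f hf g hg) (hΦm g hg f hf)) _ (hΦm g hg g hg)
    calc Φ f f * Φ f g * (Φ g f * Φ g g) = Φ f f * (Φ f g * (Φ g f * Φ g g)) := by group
      _ = Φ f f * Φ g g * (Φ f g * Φ g f) := by rw [e1]; group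
  obtain ⟨N, hNM, hNU, hcount⟩ := count61 (nu_le61 h n hb hb1 hb')
    (fun x hx y hy => hcomA x hx.1 y hy.1) (fun f => Φ f f) hQn hQm
  have hU := nu_card61 h n hb hb1 hb'
  have hMc : Nat.card M = q ^ 2 := lM.card h hk n.hA
  have hlt := n.card_lt h
  have hq : 0 < q := by have := h.q1; omega
  -- `N` is larger than `A`
  have hNA : q < Nat.card N := by
    by_contra hle
    rw [not_lt] at hle
    rw [hMc] at hcount
    generalize Nat.card (nu61 h n.hA hb').range = c at *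
    generalize Nat.card (nn A B) = q1 at *
    generalize Nat.card N = m at *
    have h1 : q ^ 2 * q ≤ q * (q1 * q1) := by
      calc q ^ 2 * q = q ^ 2 * c * q1 := by rw [mul_assoc, hU]
        _ ≤ m * q1 * q1 := Nat.mul_le_mul_right _ hcount
        _ ≤ q * q1 * q1 := Nat.mul_le_mul_right _ (Nat.mul_le_mul_right _ hle)
        _ = q * (q1 * q1) := by ring
    have h2 : q * (q1 * q1) < q * (q * q) := Nat.mul_lt_mul_of_pos_left (Nat.mul_self_lt_mul_self hlt) hq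
    have h3 : q ^ 2 * q = q * (q * q) := by ring
    omega
  have hex : ∃ f ∈ N, f ∉ A := by
    by_contra hcon
    push Not at hcon
    have h1 : Nat.card N ≤ Nat.card A := Subgroup.card_le_of_le hcon
    rw [h.card A n.hA] at h1
    omega
  obtain ⟨f, hfN, hfA⟩ := hex
  have hfM : f ∈ M := hNM hfN
  obtain ⟨a, ha⟩ := (hNU f hfM).1 hfN
  change (a : G) * (b * a * b⁻¹) = Φ f f at ha
  have hf1 : f ≠ 1 := by
    rintro rfl
    exact hfA A.one_mem
  obtain ⟨F, hF, hfF, -⟩ := lM.cl.mem f hfM hf1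
  obtain ⟨k, hk0, hord, -, -, hno2⟩ := kls h hno n hb hb1 hb' (lM.ctA hfM) hfA ⟨F, hF, hfF⟩
  have hbf : b * f * b⁻¹ ∉ A := by
    intro hcon
    rw [← mem_nz.1 hb'] at hcon
    exact hfA (conj_mem_cj_iff.1 hcon)
  have h1 : Φ f f = (f * (b * f * b⁻¹)) ^ k := by
    rw [hΦ]
    simp only
    rw [ze_of hfA hbf, hord, Nat.mul_div_cancel_left _ (by norm_num)]
  rw [h1] at ha
  exact hno2 a a.2 ha

end Pool.Agent.Helper37.WC
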