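import Pool.Agent.Helper37.WC.T2
import Pool.Agent.Helper37.WC.M7
import Pool.Agent.Helper37.WC.Z3
import Pool.Agent.Helper37.WC.Tr

/-!
# Final assembly of project WC
-/

namespace Pool.Agent.Helper37.WC

variable {G : Type*} [Group G] [Finite G] {S : Set (Subgroup G)} {q : ℕ} {A B E : Subgroup G}

theorem closed (h : Sys S q) (n : NR S A B) (hE : E ∈ S) (hc : Cm A E) : E = A := by
  have hno : ∀ A B D, NR S A B → D ∈ S → Cm D A → Cm D B → False := fun A B D n hD h1 h2 => noCommon h n hD h1 h2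
  refine closed_of h hno ?_ n hE hc
  intro A' M hA' hM hAM
  obtain ⟨g, rfl⟩ := h.trans A n.hA A' hA'
  exact T2 h hno (n.cj' h g) hM hAM

open NRT

/-- an elementary abelian TI `2`-subgroup of non-root type with condition (C) is weakly closed in its centraliser -/
theorem weaklyClosed_of_condC {V : Subgroup G} (h1 : ElemAb2 V) (h2 : IsTI V) (h3 : NonRootType V) (h4 : CondC V) {g : G}
    (hc : ∀ x ∈ V, ∀ y ∈ conjBy V g, x * y = y * x) : conjBy V g = V := by
  obtain ⟨k, hk1, hk2⟩ := h3
  have h := sys_of h1 h2 (exists_ne_of hk1) h4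
  exact closed h (nr_of hk1 hk2) (mem_cls V _) hc

/-- conversely -/
theorem condC_of_weaklyClosed {V : Subgroup G} (hw : ∀ g, (∀ x ∈ V, ∀ y ∈ conjBy V g, x * y = y * x) → conjBy V g = V) :
    CondC V := by
  intro g hc x hx y hy _
  rw [hw g hc] at hy
  exact ⟨x * y, V.mul_mem hx hy, IsConj.refl _⟩

end Pool.Agent.Helper37.WC
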