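import Pool.Agent.Helper37.WC.Pair
import Pool.Agent.Helper37.WC.CliqCard
import Pool.Agent.Helper37.WC.Par

/-!
WC-12 (MP_b5afc9_al, project WC). The two members of a pair of non-root type are conjugate in the group they generate. `[x, y] = x*y*x⁻¹*y⁻¹`.

Let `A1 = nn A B`, `B1 = nn B A`, `Z = A1 ⊔ B1`, `L = A ⊔ B`. `A1` and `B1` commute (`NR.cent`), so `Z` is the set of products `a1*b1`, abelian.
(1) `L ≤ nz Z`: `A` commutes with `A1`, and for `a ∈ A`, `b1 ∈ B1`: `a*b1*a⁻¹ = (a*b1*a⁻¹*b1⁻¹)*b1` with `[a, b1] ∈ A` (`b1 ∈ nz A`), and `[a, b1] ∈ nn A B` by `NR.comm_mem` for `n.symm` (inverse). Same for `B`.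
(2) `A ⊓ Z = A1`: if `a1*b1 ∈ A` then `b1 ∈ A ⊓ B = 1`. `B ⊓ Z = B1`.
(3) For `a ∈ A`, `a ∉ nz B` the elements of `Z` commuting with `a` are in `A`: if `a1*b1` commutes with `a` then `b1` commutes with `a`, so if `b1 ≠ 1`, `a ∈ nz B` (`Sys.nz_of_comm`).
(4) For `X ∈ {cj l A | l ∈ L} ∪ {cj l B | l ∈ L}`: `X ⊓ Z = cj l A1` or `cj l B1` (by (1), (2)) is nontrivial. If `a ∈ A`, `a ∉ nz B`, `a ∈ nz X` then `a` normalises `X ⊓ Z` (nontrivial `2`-group) and centralises some `x ≠ 1` in it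
(the map `x ↦ (a*x*a⁻¹)*x` takes values commuting with `a`; if all values are `1` then `a` commutes with all `x`), so `x ∈ A` by (3) and `X = A` by `Sys.eq`. Same with `A`, `B` exchanged.
(5) Let `O = {cj l A | l ∈ L}`, take `a ∈ A`, `a ∉ nz B` (`exists_out`): `zpowers a` (`a*a = 1`) acts on `O` with exactly one fixed point `A`, so `O` is odd (`par_fix`). If `B ∉ O` then `b ∈ B`, `b ∉ nz A`
acts on `O` without fixed points (a fixed point would be `B` by (4)), so `O` is even. Contradiction. So `B = cj l A`, `l ∈ L`.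
-/

namespace Pool.Agent.Helper37.WC

variable {G : Type*} [Group G] [Finite G] {S : Set (Subgroup G)} {q : ℕ} {A B : Subgroup G}

private theorem comm_h12 (h : Sys S q) (n : NR S A B) {a b : G} (ha : a ∈ nn A B)
    (hb : b ∈ nn B A) : a * b = b * a :=
  n.cent h ha.1 ha.2 hb.1 hb.2

/-- the product of the two commuting subgroups -/
private def Zg_h12 (h : Sys S q) (n : NR S A B) : Subgroup G where
  carrier := {z | ∃ a ∈ nn A B, ∃ b ∈ nn B A, z = a * b}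
  one_mem' := ⟨1, (nn A B).one_mem, 1, (nn B A).one_mem, (mul_one 1).symm⟩
  mul_mem' := by
    rintro _ _ ⟨a, ha, b, hb, rfl⟩ ⟨c, hc, d, hd, rfl⟩
    refine ⟨a * c, (nn A B).mul_mem ha hc, b * d, (nn B A).mul_mem hb hd, ?_⟩
    have h1 := comm_h12 h n hc hb
    calc a * b * (c * d) = a * (b * c) * d := by group
      _ = a * (c * b) * d := by rw [h1]
      _ = a * c * (b * d) := by group
  inv_mem' := by
    rintro _ ⟨a, ha, b, hb, rfl⟩
    refine ⟨a⁻¹, (nn A B).inv_mem ha, b⁻¹, (nn B A).inv_mem hb, ?_⟩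
    rw [mul_inv_rev, comm_h12 h n ((nn A B).inv_mem ha) ((nn B A).inv_mem hb)]

private theorem mem_Zg_h12 (h : Sys S q) (n : NR S A B) {z : G} :
    z ∈ Zg_h12 h n ↔ ∃ a ∈ nn A B, ∃ b ∈ nn B A, z = a * b := Iff.rfl

private theorem Zg_symm_h12 (h : Sys S q) (n : NR S A B) {z : G} (hz : z ∈ Zg_h12 h n) :
    z ∈ Zg_h12 h (n.symm h) := by
  obtain ⟨a, ha, b, hb, rfl⟩ := hz
  exact ⟨b, hb, a, ha, comm_h12 h n ha hb⟩

private theorem conj_mem_h12 (h : Sys S q) (n : NR S A B) {a z : G} (ha : a ∈ A)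
    (hz : z ∈ Zg_h12 h n) : a * z * a⁻¹ ∈ Zg_h12 h n := by
  obtain ⟨c, hc, b, hb, rfl⟩ := hz
  have h1 := (n.symm h).comm_mem h hb.1 hb.2 ha
  have h2 := (nn A B).inv_mem h1
  have h3 : a * c = c * a := h.comm n.hA a ha c hc.1
  refine ⟨c * (b * a * b⁻¹ * a⁻¹)⁻¹, (nn A B).mul_mem hc h2, b, hb, ?_⟩
  calc a * (c * b) * a⁻¹ = (a * c) * b * a⁻¹ := by group
    _ = (c * a) * b * a⁻¹ := by rw [h3]
    _ = c * (b * a * b⁻¹ * a⁻¹)⁻¹ * b := by group

private theorem sup_le_h12 (h : Sys S q) (n : NR S A B) : A ⊔ B ≤ nz (Zg_h12 h n) := by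
  refine sup_le (fun a ha => mem_nz_of fun x hx => conj_mem_h12 h n ha hx)
    (fun b hb => mem_nz_of fun x hx => ?_)
  have h1 := conj_mem_h12 h (n.symm h) hb (Zg_symm_h12 h n hx)
  exact Zg_symm_h12 h (n.symm h) h1

private theorem mem_of_comm_h12 (h : Sys S q) (n : NR S A B) {a z : G} (ha : a ∈ A)
    (ha' : a ∉ nz B) (hz : z ∈ Zg_h12 h n) (hc : a * z = z * a) : z ∈ A := by
  obtain ⟨c, hc1, b, hb, rfl⟩ := hz
  have h3 : a * c = c * a := h.comm n.hA a ha c hc1.1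
  have h4 : a * b = b * a := by
    have h5 : c * (a * b) = c * (b * a) := by
      calc c * (a * b) = (c * a) * b := by group
        _ = (a * c) * b := by rw [h3]
        _ = a * (c * b) := by group
        _ = (c * b) * a := hc
        _ = c * (b * a) := by group
    exact mul_left_cancel h5
  by_cases hb1 : b = 1
  · rw [hb1, mul_one]
    exact hc1.1
  · exact absurd (h.nz_of_comm n.hB hb.1 hb1 h4) ha'

private theorem key_h12 (h : Sys S q) (n : NR S A B) {X : Subgroup G} {l : G} (hl : l ∈ A ⊔ B)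
    (hX : X = cj l A ∨ X = cj l B) {a : G} (ha : a ∈ A) (ha' : a ∉ nz B) (haX : a ∈ nz X) :
    X = A := by
  have hXS : X ∈ S := by
    rcases hX with hX | hX
    · rw [hX]
      exact h.conj A n.hA l
    · rw [hX]
      exact h.conj B n.hB l
  have hlZ : l ∈ nz (Zg_h12 h n) := sup_le_h12 h n hl
  have haZ : a ∈ nz (Zg_h12 h n) := sup_le_h12 h n (Subgroup.mem_sup_left ha)
  obtain ⟨x, hxX, hxZ, hx1⟩ : ∃ x ∈ X, x ∈ Zg_h12 h n ∧ x ≠ 1 := by
    rcases hX with hX | hX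
    · obtain ⟨y, hy, hy1, hy2⟩ := n.ex
      refine ⟨l * y * l⁻¹, by rw [hX]; exact conj_mem_cj hy, nz_conj_mem hlZ
        ⟨y, ⟨hy, hy2⟩, 1, (nn B A).one_mem, (mul_one y).symm⟩, fun h1 => hy1 ?_⟩
      rwa [mul_inv_eq_one, mul_eq_left] at h1
    · obtain ⟨y, hy, hy1, hy2⟩ := (n.symm h).ex
      refine ⟨l * y * l⁻¹, by rw [hX]; exact conj_mem_cj hy, nz_conj_mem hlZ
        ⟨1, (nn A B).one_mem, y, ⟨hy, hy2⟩, (one_mul y).symm⟩, fun h1 => hy1 ?_⟩
      rwa [mul_inv_eq_one, mul_eq_left] at h1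
  have hyX : a * x * a⁻¹ ∈ X := nz_conj_mem haX hxX
  have hyZ : a * x * a⁻¹ ∈ Zg_h12 h n := nz_conj_mem haZ hxZ
  have ha2 : a * a = 1 := h.sq A n.hA a ha
  have hai : a⁻¹ = a := h.inv n.hA ha
  have hcm : (a * x * a⁻¹) * x = x * (a * x * a⁻¹) := h.comm hXS _ hyX x hxX
  by_cases hw : (a * x * a⁻¹) * x = 1
  · -- `a` commutes with `x`
    have h1 : a * x * a⁻¹ = x := by
      rw [mul_eq_one_iff_eq_inv] at hw
      rw [hw]
      exact h.inv hXS hxX
    have h2 : a * x = x * a := by rwa [mul_inv_eq_iff_eq_mul] at h1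
    exact h.eq hXS n.hA hxX (mem_of_comm_h12 h n ha ha' hxZ h2) hx1
  · have h2 : a * ((a * x * a⁻¹) * x) = ((a * x * a⁻¹) * x) * a := by
      calc a * ((a * x * a⁻¹) * x) = (a * a) * x * (a⁻¹ * x) := by group
        _ = x * (a * x) := by rw [ha2, hai]; group
        _ = x * (a * x * a⁻¹) * a := by group
        _ = ((a * x * a⁻¹) * x) * a := by rw [hcm]
    exact h.eq hXS n.hA (X.mul_mem hyX hxX)
      (mem_of_comm_h12 h n ha ha' ((Zg_h12 h n).mul_mem hyZ hxZ) h2) hw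

theorem NR.gleason (h : Sys S q) (n : NR S A B) : ∃ u ∈ A ⊔ B, cj u A = B := by
  by_contra hcon
  push Not at hcon
  obtain ⟨O, hO⟩ : ∃ O : Set (Subgroup G), O = {Y | ∃ l ∈ A ⊔ B, Y = cj l A} := ⟨_, rfl⟩
  have hOA : ∀ P : Subgroup G, P ≤ A ⊔ B → ∀ p ∈ P, ∀ Y ∈ O, cj p Y ∈ O := by
    intro P hP p hp Y hY
    rw [hO] at hY ⊢
    obtain ⟨l, hl, rfl⟩ := hY
    exact ⟨p * l, (A ⊔ B).mul_mem (hP hp) hl, (cj_mul p l A).symm⟩
  have h1 := par_fix A (h.isP n.hA) O (hOA A le_sup_left)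
  have h2 := par_fix B (h.isP n.hB) O (hOA B le_sup_right)
  have e1 : {Y | Y ∈ O ∧ ∀ p ∈ A, cj p Y = Y} = {A} := by
    ext Y
    simp only [Set.mem_setOf_eq, Set.mem_singleton_iff]
    constructor
    · rintro ⟨hY, hfix⟩
      obtain ⟨a, ha, ha'⟩ := n.exists_out h
      rw [hO] at hY
      obtain ⟨l, hl, hYl⟩ := hY
      exact key_h12 h n hl (Or.inl hYl) ha ha' (hfix a ha)
    · rintro rfl
      refine ⟨?_, fun p hp => cj_of_mem hp⟩
      rw [hO]
      exact ⟨1, Subgroup.one_mem _, (cj_one Y).symm⟩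
  have e2 : {Y | Y ∈ O ∧ ∀ p ∈ B, cj p Y = Y} = ∅ := by
    rw [Set.eq_empty_iff_forall_notMem]
    rintro Y ⟨hY, hfix⟩
    obtain ⟨b, hb, hb'⟩ := (n.symm h).exists_out h
    rw [hO] at hY
    obtain ⟨l, hl, hYl⟩ := hY
    have h3 := key_h12 h (n.symm h) (by rwa [sup_comm] : l ∈ B ⊔ A) (Or.inr hYl) hb hb' (hfix b hb)
    exact hcon l hl (hYl.symm.trans h3)
  rw [e1, Set.ncard_singleton] at h1
  rw [e2, Set.ncard_empty] at h2
  omega

end Pool.Agent.Helper37.WC
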