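import Pool.Agent.Helper37.WC.L4
import Pool.Agent.Helper37.WC.CliqCard

/-!
WC-24 (MP_b5afc9_al, project WC). Consequences of Theorem A (assumed here as the hypothesis `hno`): elements of members in the centraliser of `A`. `[x, y] = x*y*x⁻¹*y⁻¹`.

* `kl0`: `w ∈ ct A`, `w ∉ A`, `w` in a member `E`, `b ∈ B`, `b ≠ 1`, `b ∈ nz A`: `w` does not commute with `b`. Proof: suppose it does. `w ∈ nz B` (`Sys.nz_of_comm`). `Cm A E` (`Sys.cm_of_elem`, `w ≠ 1`), `M ≥ A, E` a clique group (`Sys.join2`). `NR.l4b`: `a ∈ A` with `w*a ∈ ct B`. `w*a ≠ 1` (`w ∉ A`), it is in `M`, so in a member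
  `F ≤ M`; `Cm B F` by `Sys.cm_of_elem`, `Cm F A` as `M` is abelian; contradiction to `hno` (use `Cm.symm`).
-/

namespace Pool.Agent.Helper37.WC

variable {G : Type*} [Group G] [Finite G] {S : Set (Subgroup G)} {q : ℕ} {A B E : Subgroup G}

theorem kl0 (h : Sys S q) (hno : ∀ A B D, NR S A B → D ∈ S → Cm D A → Cm D B → False) (n : NR S A B) {b w : G}
    (hb : b ∈ B) (hb1 : b ≠ 1) (hb' : b ∈ nz A) (hw : w ∈ ct A) (hwA : w ∉ A) (hwS : ∃ E ∈ S, w ∈ E) : w * b ≠ b * w := by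
  intro hwb
  have hwnz : w ∈ nz B := h.nz_of_comm n.hB hb hb1 hwb
  obtain ⟨E, hE, hwE⟩ := hwS
  have hw1 : w ≠ 1 := by
    rintro rfl
    exact hwA A.one_mem
  have hAE : Cm A E := h.cm_of_elem n.hA hE hwE hw1 hw
  obtain ⟨M, hM, hAM, hEM⟩ := h.join2 n.hA hE hAE
  obtain ⟨a, ha, -, hwa⟩ := n.l4b h hM hAM (hEM hwE) hwnz
  have hne : w * a ≠ 1 := by
    intro hc
    apply hwA
    rw [eq_inv_of_mul_eq_one_left hc]
    exact A.inv_mem ha
  obtain ⟨F, hF, hwF, hFM⟩ := hM.mem (w * a) (M.mul_mem (hEM hwE) (hAM ha)) hne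
  have hBF : Cm B F := h.cm_of_elem n.hB hF hwF hne hwa
  exact hno A B F n hF (fun x hx y hy => hM.comm x (hFM hx) y (hAM hy)) hBF.symm

end Pool.Agent.Helper37.WC
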