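import Pool.Agent.Helper37.WC.Defs

/-!
WC-1 (MP_b5afc9_al, project WC). A member normalising another member commutes with it.

Proof. If `A = B` use `Sys.comm`. Otherwise `A ⊓ B` is trivial (`Sys.ne_one`). `A` is a `2`-group normalising the `2`-group `B`.
(1) For `a ∈ A`, `a ≠ 1` and `y ∈ B`: `y ∈ nz A ↔ a * y = y * a`. (→: `a*y*a⁻¹*y⁻¹ ∈ A` since `y ∈ nz A`, and `∈ B` since `a ∈ nz B`, so it is `1`;
←: `y` commutes with `a ≠ 1`, `Sys.nz_of_comm`.)
So with `B1 := {y ∈ B | y ∈ nz A}` (`nn B A`) the centraliser in `B` of every `a ∈ A`, `a ≠ 1`, is `B1`.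
(2) For `a ∈ A` and `y ∈ B` the element `a*y*a⁻¹*y⁻¹` lies in `B` and commutes with `a` (`a*a = 1`, `B` abelian of exponent two: conjugating
`(a*y*a⁻¹)*y` by `a` gives `y*(a*y*a⁻¹)`), so it lies in `B1` (trivially if `a = 1`).
(3) Suppose `B1 ≠ B`; pick `y ∈ B`, `y ∉ nz A`. The map `A → B1`, `a ↦ a*y*a⁻¹*y⁻¹` is injective: if `a*y*a⁻¹ = a'*y*a'⁻¹` then `a'⁻¹*a`
commutes with `y`, so `a'⁻¹*a = 1` by (1). Hence `q = card A ≤ card B1 < card B = q`, a contradiction.
So `B ≤ nz A` and by (1) all commute.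
-/

namespace Pool.Agent.Helper37.WC

variable {G : Type*} [Group G] [Finite G] {S : Set (Subgroup G)} {q : ℕ}

theorem Sys.comm_of_nz (h : Sys S q) {A B : Subgroup G} (hA : A ∈ S) (hB : B ∈ S) (hAB : A ≤ nz B) : Cm A B := by
  by_cases heq : A = B
  · subst heq
    exact h.comm hA
  have s1 : ∀ a ∈ A, ∀ y ∈ B, y ∈ nz A → a * y = y * a := by
    intro a ha y hy hyn
    have hBm : a * y * a⁻¹ * y⁻¹ ∈ B := B.mul_mem (nz_conj_mem (hAB ha) hy) (B.inv_mem hy)
    have hAm : a * y * a⁻¹ * y⁻¹ ∈ A := by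
      have h1 : y * a⁻¹ * y⁻¹ ∈ A := nz_conj_mem hyn (A.inv_mem ha)
      have h2 := A.mul_mem ha h1
      simpa [mul_assoc] using h2
    have h1 := h.ne_one hA hB heq hAm hBm
    rw [mul_inv_eq_one, mul_inv_eq_iff_eq_mul] at h1
    exact h1
  have s2 : ∀ a ∈ A, a ≠ 1 → ∀ y ∈ B, a * y = y * a → y ∈ nz A := by
    intro a ha ha1 y _ hc
    exact h.nz_of_comm hA ha ha1 hc.symm
  have s3 : ∀ a ∈ A, ∀ y ∈ B, a * y * a⁻¹ * y⁻¹ ∈ nn B A := by
    intro a ha y hy
    have hz : a * y * a⁻¹ ∈ B := nz_conj_mem (hAB ha) hy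
    have hBm : a * y * a⁻¹ * y⁻¹ ∈ B := B.mul_mem hz (B.inv_mem hy)
    refine mem_nn.2 ⟨hBm, ?_⟩
    by_cases ha1 : a = 1
    · subst ha1
      simp
    · refine s2 a ha ha1 _ hBm ?_
      have haa := h.sq A hA a ha
      have hai := h.inv hA ha
      have hyi := h.inv hB hy
      rw [hai] at hz
      have hc := h.comm hB _ hz _ hy
      rw [hai, hyi]
      calc a * (a * y * a * y) = (a * a) * (y * a * y) := by simp only [mul_assoc]
        _ = (y * a * y) * (a * a) := by rw [haa, one_mul, mul_one]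
        _ = (y * (a * y * a)) * a := by simp only [mul_assoc]
        _ = (a * y * a * y) * a := by rw [hc]
  have s4 : B ≤ nz A := by
    by_contra hcon
    obtain ⟨y, hy, hyn⟩ := SetLike.not_le_iff_exists.1 hcon
    have hc2 : Nat.card (nn B A) < Nat.card B := by
      have hle : (nn B A) ≤ B := inf_le_left
      refine lt_of_le_of_ne (Subgroup.card_le_of_le hle) ?_
      intro he
      have h1 : nn B A = B := Subgroup.eq_of_le_of_card_ge hle he.ge
      have h2 : y ∈ nn B A := by rw [h1]; exact hy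
      exact hyn (mem_nn.1 h2).2
    have hf : Function.Injective
        (fun a : A => (⟨(a : G) * y * (a : G)⁻¹ * y⁻¹, s3 a a.2 y hy⟩ : nn B A)) := by
      intro a a' haa'
      have h1 : (a : G) * y * (a : G)⁻¹ * y⁻¹ = (a' : G) * y * (a' : G)⁻¹ * y⁻¹ :=
        congrArg (fun z : nn B A => (z : G)) haa'
      have h2 := mul_right_cancel h1
      by_contra hne
      have hne' : (a' : G)⁻¹ * (a : G) ≠ 1 := by
        intro h3
        exact hne (Subtype.ext (inv_mul_eq_one.1 h3).symm)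
      refine hyn (s2 _ (A.mul_mem (A.inv_mem a'.2) a.2) hne' y hy ?_)
      have h4 : (a : G) * y = (a' : G) * y * (a' : G)⁻¹ * a := by
        rw [← h2, inv_mul_cancel_right]
      rw [mul_assoc, h4]
      simp only [mul_assoc, inv_mul_cancel_left]
    have hc1 : Nat.card A ≤ Nat.card (nn B A) := Nat.card_le_card_of_injective _ hf
    rw [h.card A hA] at hc1
    rw [h.card B hB] at hc2
    omega
  intro a ha b hb
  exact s1 a ha b hb (s4 hb)

end Pool.Agent.Helper37.WC
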