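import Pool.Agent.Helper37.WC.Pair
import Pool.Agent.Helper37.WC.Cliq

/-!
WC-5 (MP_b5afc9_al, project WC). A clique group `M ≥ A` and a pair `(A, B)` of non-root type. `[x, y] = x*y*x⁻¹*y⁻¹`.

* `l4a`: `x ∈ M`, `x ∈ nz B`, `b ∈ B`, `b ∈ nz A`: then `x*b = b*x`. Proof: `x` commutes with all of `A` (`M` abelian). `[x, b] ∈ B` as `x ∈ nz B`.
  `[x, b]` commutes with all of `A`: for `a ∈ A`, `b⁻¹*a*b ∈ A` commutes with `x`, so `[x, b]*a*[x, b]⁻¹ = x*(b*(x⁻¹*(b⁻¹*a*b)*x)*b⁻¹)*x⁻¹ = x*a*x⁻¹ = a`. If `[x, b] ≠ 1`, then `A`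
  commutes with a nontrivial element of `B`, so `A ≤ nz B` (`Sys.nz_of_comm`) and `Cm A B` (`Sys.comm_of_nz`), contradiction.
* `l4b`: `x ∈ M`, `x ∈ nz B`: there is `a ∈ A`, `a ∈ nz B` with `x*a ∈ ct B`. Proof: pick `a1 ∈ A`, `a1 ≠ 1`, `a1 ∈ nz B` (from `n.ex`) and `y ∈ B`, `y ∉ nz A` (`NR.exists_out` for `n.symm`).
  (i) for every `y ∈ B`, `[x, y] ∈ nn B A`: `[x, y] ∈ B`, and it commutes with `a1`: `a1` commutes with `x`, `a1*y*a1⁻¹ = e*y` with `e := [a1, y] ∈ nn B A` (`NR.comm_mem`), `e` commutes with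
  `x` by `l4a`, so `a1*[x, y]*a1⁻¹ = [x, e*y] = [x, y]` (`B` abelian). So `[x, y] ∈ nz A` by `Sys.nz_of_comm` (`a1 ≠ 1`).
  (ii) by `NR.surj` there is `a ∈ A`, `a ∈ nz B` with `[a, y] = [x, y]`. Put `z = x*a ∈ M ⊓ nz B`. Then `z` commutes with `y`:
  `z*y*z⁻¹ = x*([a,y]*y)*x⁻¹ = [a, y]*(x*y*x⁻¹) = [a, y]*[x, y]*y = y` since `[a, y] ∈ nn B A` commutes with `x` (`l4a`) and `[a,y]*[x,y] = [a,y]^2 = 1`.
  (iii) `z ∈ ct B`: if `z = 1` clear. Otherwise `z` lies in a member `F ≤ M`. If `Cm F B` fine. Otherwise `NR S F B` (`Sys.nr_or`), `y ∈ nz F` (it commutes with `z ≠ 1`), so by `l4a` for the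
  pair `(F, B)` (with `x := a1 ∈ M ⊓ nz B`, `b := y`): `a1*y = y*a1`, so `y ∈ nz A` by `Sys.nz_of_comm`, contradiction.
* `l4e` (cardinality): the map `(M ⊓ ct B) × nn A B → M ⊓ nz B`, `(c, a) ↦ c*a` is bijective: surjective by `l4b` (`x = (x*a)*a⁻¹`), injective since `nn A B ⊓ ct B` is trivial: if `a ∈ A`
  commutes with all of `B` and `a ≠ 1` then every `y ∈ B` is in `nz A` (`Sys.nz_of_comm`) and `Cm B A` by `Sys.comm_of_nz`. (`ct B ≤ nz B`.)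
* `l4c`: `F ≤ M` member, `NR S F B`. Then `nn B F = nn B A`. Proof: by symmetry of the roles (`A, F ≤ M`) it is enough to show `nn B A ≤ nn B F`: let `b ∈ B`, `b ∈ nz A`, take `f ∈ F`, `f ≠ 1`, `f ∈ nz B`;
  `f*b = b*f` by `l4a`, so `b ∈ nz F` by `Sys.nz_of_comm`.
* `l4d`: `b ∈ B`, `b ≠ 1`, `b ∈ nz A`, `b ∈ nz M`. The map `M → M ⊓ nz B`, `x ↦ (b*x*b⁻¹)*x⁻¹` (lies in `M`; it commutes with `b` since `b*b = 1` and `M` has exponent two (`Cl.sq`) and is abelian; so it is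
  in `nz B` by `Sys.nz_of_comm`) has fibres of size at most `card (M ⊓ nz B)`: equal values for `x, x'` means `x⁻¹*x'` commutes with `b`. So `card M ≤ card (M ⊓ nz B)^2`.
-/

namespace Pool.Agent.Helper37.WC

variable {G : Type*} [Group G] [Finite G] {S : Set (Subgroup G)} {q : ℕ} {A B F M : Subgroup G}

theorem NR.l4a (h : Sys S q) (n : NR S A B) (hM : Cl S M) (hAM : A ≤ M) {x b : G} (hx : x ∈ M) (hx' : x ∈ nz B)
    (hb : b ∈ B) (hb' : b ∈ nz A) : x * b = b * x := by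
  by_contra hne
  have hc : x * b * x⁻¹ * b⁻¹ ∈ B := B.mul_mem (nz_conj_mem hx' hb) (B.inv_mem hb)
  have hc1 : x * b * x⁻¹ * b⁻¹ ≠ 1 := by
    intro h1
    rw [mul_inv_eq_one, mul_inv_eq_iff_eq_mul] at h1
    exact hne h1
  refine n.nc (h.comm_of_nz n.hA n.hB fun a ha => h.nz_of_comm n.hB hc hc1 ?_)
  have h1 : b⁻¹ * a * b ∈ A := by
    have := nz_conj_mem ((nz A).inv_mem hb') ha
    rwa [inv_inv] at this
  have h2 := hM.comm x hx _ (hAM h1)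
  have h3 := hM.comm x hx a (hAM ha)
  have h4 : x⁻¹ * (b⁻¹ * a * b) * x = b⁻¹ * a * b := by
    rw [mul_assoc, ← h2, ← mul_assoc, inv_mul_cancel, one_mul]
  have h5 : (x * b * x⁻¹ * b⁻¹) * a * (x * b * x⁻¹ * b⁻¹)⁻¹ = a := by
    calc (x * b * x⁻¹ * b⁻¹) * a * (x * b * x⁻¹ * b⁻¹)⁻¹
        = x * b * (x⁻¹ * (b⁻¹ * a * b) * x) * b⁻¹ * x⁻¹ := by group
      _ = x * b * (b⁻¹ * a * b) * b⁻¹ * x⁻¹ := by rw [h4]
      _ = x * a * x⁻¹ := by group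
      _ = a := by rw [h3]; group
  exact (conj_eq_iff.1 h5).symm

theorem NR.l4b (h : Sys S q) (n : NR S A B) (hM : Cl S M) (hAM : A ≤ M) {x : G} (hx : x ∈ M) (hx' : x ∈ nz B) :
    ∃ a ∈ A, a ∈ nz B ∧ x * a ∈ ct B := by
  obtain ⟨a1, ha1, ha1ne, ha1B⟩ := n.ex
  obtain ⟨y, hy, hyA⟩ := (n.symm h).exists_out h
  have hcB : x * y * x⁻¹ * y⁻¹ ∈ B := B.mul_mem (nz_conj_mem hx' hy) (B.inv_mem hy)
  have hcA : x * y * x⁻¹ * y⁻¹ ∈ nz A := by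
    refine h.nz_of_comm n.hA ha1 ha1ne ?_
    have he := n.comm_mem h ha1 ha1B hy
    set e := a1 * y * a1⁻¹ * y⁻¹ with hedef
    have h1 : a1 * y * a1⁻¹ = e * y := by rw [hedef]; group
    have h2 := hM.comm x hx a1 (hAM ha1)
    have h3 := n.l4a h hM hAM hx hx' he.1 he.2
    have h4 := h.comm n.hB e he.1 _ hcB
    have h5 : a1 * (x * y * x⁻¹ * y⁻¹) * a1⁻¹ = x * y * x⁻¹ * y⁻¹ := by
      have h6 : a1 * x = x * a1 := h2.symm
      have h7 : x⁻¹ * a1⁻¹ = a1⁻¹ * x⁻¹ := by rw [← mul_inv_rev, ← mul_inv_rev, h6]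
      calc a1 * (x * y * x⁻¹ * y⁻¹) * a1⁻¹ = (a1 * x) * y * x⁻¹ * (a1⁻¹ * (a1 * y * a1⁻¹)⁻¹) := by group
        _ = x * (a1 * y) * (x⁻¹ * a1⁻¹) * (a1 * y * a1⁻¹)⁻¹ := by rw [h6]; group
        _ = x * (a1 * y) * (a1⁻¹ * x⁻¹) * (a1 * y * a1⁻¹)⁻¹ := by rw [h7]
        _ = x * (a1 * y * a1⁻¹) * x⁻¹ * (a1 * y * a1⁻¹)⁻¹ := by group
        _ = x * (e * y) * x⁻¹ * (e * y)⁻¹ := by rw [h1]
        _ = (x * e) * y * x⁻¹ * y⁻¹ * e⁻¹ := by group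
        _ = e * (x * y * x⁻¹ * y⁻¹) * e⁻¹ := by rw [h3]; group
        _ = x * y * x⁻¹ * y⁻¹ := by rw [h4]; group
    exact (conj_eq_iff.1 h5).symm
  obtain ⟨a, ha, haB, hay⟩ := n.surj h hy hyA hcB hcA
  refine ⟨a, ha, haB, ?_⟩
  have hzM : x * a ∈ M := M.mul_mem hx (hAM ha)
  have hzB : x * a ∈ nz B := (nz B).mul_mem hx' haB
  have hzy : (x * a) * y = y * (x * a) := by
    rw [← conj_eq_iff]
    have h3 := n.l4a h hM hAM hx hx' hcB hcA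
    have h4 := h.sq B n.hB _ hcB
    have h5 : a * y * a⁻¹ = (x * y * x⁻¹ * y⁻¹) * y := by rw [← hay]; group
    calc x * a * y * (x * a)⁻¹ = x * (a * y * a⁻¹) * x⁻¹ := by group
      _ = x * ((x * y * x⁻¹ * y⁻¹) * y) * x⁻¹ := by rw [h5]
      _ = (x * (x * y * x⁻¹ * y⁻¹)) * y * x⁻¹ := by group
      _ = ((x * y * x⁻¹ * y⁻¹) * x) * y * x⁻¹ := by rw [h3]
      _ = ((x * y * x⁻¹ * y⁻¹) * (x * y * x⁻¹ * y⁻¹)) * y := by group
      _ = y := by rw [h4, one_mul]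
  by_cases hz1 : x * a = 1
  · rw [hz1]
    exact (ct B).one_mem
  obtain ⟨F, hF, hzF, hFM⟩ := hM.mem _ hzM hz1
  rcases h.nr_or hF n.hB hzF hz1 hzB with hc | n'
  · exact fun b hb => hc _ hzF b hb
  · exfalso
    apply hyA
    have h1 : y ∈ nz F := h.nz_of_comm hF hzF hz1 hzy.symm
    have h2 := n'.l4a h hM hFM (hAM ha1) ha1B hy h1
    exact h.nz_of_comm n.hA ha1 ha1ne h2.symm

private theorem l4c_aux02 (h : Sys S q) (n : NR S A B) (hM : Cl S M) (hAM : A ≤ M) (hFM : F ≤ M) (n' : NR S F B) :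
    nn B A ≤ nn B F := by
  intro b hb
  obtain ⟨f, hf, hf1, hfB⟩ := n'.ex
  have h1 := n.l4a h hM hAM (hFM hf) hfB hb.1 hb.2
  exact ⟨hb.1, h.nz_of_comm n'.hA hf hf1 h1.symm⟩

theorem NR.l4c (h : Sys S q) (n : NR S A B) (hM : Cl S M) (hAM : A ≤ M) (hF : F ∈ S) (hFM : F ≤ M) (n' : NR S F B) :
    nn B F = nn B A := by
  exact le_antisymm (l4c_aux02 h n' hM hFM hAM n) (l4c_aux02 h n hM hAM hFM n')

theorem NR.l4d (h : Sys S q) (n : NR S A B) (hM : Cl S M) (hAM : A ≤ M) {b : G} (hb : b ∈ B) (hb1 : b ≠ 1)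
    (hb' : b ∈ nz A) (hbM : b ∈ nz M) : Nat.card M ≤ Nat.card (M ⊓ nz B : Subgroup G) ^ 2 := by
  let f : M →* G := MonoidHom.mk' (fun x => b * (x : G) * b⁻¹ * (x : G)⁻¹) (by
    intro x y
    have h1 : b * (y : G) * b⁻¹ ∈ M := nz_conj_mem hbM y.2
    have h2 := hM.comm _ (M.mul_mem h1 (M.inv_mem y.2)) _ (M.inv_mem x.2)
    calc b * ((x * y : M) : G) * b⁻¹ * ((x * y : M) : G)⁻¹
        = (b * (x : G) * b⁻¹) * ((b * (y : G) * b⁻¹ * (y : G)⁻¹) * (x : G)⁻¹) := by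
          push_cast; group
      _ = (b * (x : G) * b⁻¹) * ((x : G)⁻¹ * (b * (y : G) * b⁻¹ * (y : G)⁻¹)) := by rw [h2]
      _ = _ := by group)
  have hf : ∀ x : M, f x = b * (x : G) * b⁻¹ * (x : G)⁻¹ := fun x => rfl
  have h1 := Subgroup.card_mul_index f.ker
  rw [Subgroup.index_ker] at h1
  have h2 : Nat.card f.range ≤ Nat.card (M ⊓ nz B : Subgroup G) := by
    apply Subgroup.card_le_of_le
    rintro _ ⟨x, rfl⟩
    rw [hf]
    have hc : b * (x : G) * b⁻¹ ∈ M := nz_conj_mem hbM x.2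
    refine ⟨M.mul_mem hc (M.inv_mem x.2), h.nz_of_comm n.hB hb hb1 ?_⟩
    have hbb := h.sq B n.hB b hb
    have hi1 : (b * (x : G) * b⁻¹)⁻¹ = b * (x : G) * b⁻¹ := hM.inv h hc
    have hi2 : (x : G)⁻¹ = x := hM.inv h x.2
    have hcm := hM.comm _ hc _ x.2
    have h5 : b * (b * (x : G) * b⁻¹ * (x : G)⁻¹) * b⁻¹ = b * (x : G) * b⁻¹ * (x : G)⁻¹ := by
      calc b * (b * (x : G) * b⁻¹ * (x : G)⁻¹) * b⁻¹
          = (b * b) * x * (b * b)⁻¹ * (b * (x : G) * b⁻¹)⁻¹ := by group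
        _ = x * (b * (x : G) * b⁻¹) := by rw [hbb, hi1]; group
        _ = (b * (x : G) * b⁻¹) * (x : G)⁻¹ := by rw [← hcm, hi2]
    exact (conj_eq_iff.1 h5).symm
  have h3 : Nat.card f.ker ≤ Nat.card (M ⊓ nz B : Subgroup G) := by
    rw [← Subgroup.card_map_of_injective (f := M.subtype) M.subtype_injective]
    apply Subgroup.card_le_of_le
    rintro _ ⟨x, hx, rfl⟩
    refine ⟨x.2, ?_⟩
    have h4 : f x = 1 := hx
    rw [hf, mul_inv_eq_one, mul_inv_eq_iff_eq_mul] at h4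
    exact h.nz_of_comm n.hB hb hb1 h4.symm
  rw [← h1, sq]
  exact Nat.mul_le_mul h3 h2

theorem NR.l4e (h : Sys S q) (n : NR S A B) (hM : Cl S M) (hAM : A ≤ M) :
    Nat.card (M ⊓ nz B : Subgroup G) = Nat.card (M ⊓ ct B : Subgroup G) * Nat.card (nn A B) := by
  have hct : ∀ c ∈ ct B, c ∈ nz B := by
    intro c hc
    refine mem_nz_of fun x hx => ?_
    rw [conj_eq_iff.2 (hc x hx)]
    exact hx
  have hone : ∀ w ∈ A, w ∈ ct B → w = 1 := by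
    intro w hw hwB
    by_contra hw1
    exact n.nc (h.comm_of_nz n.hB n.hA fun y hy => h.nz_of_comm n.hA hw hw1 (hwB y hy).symm).symm
  rw [← Nat.card_prod]
  refine (Nat.card_congr (Equiv.ofBijective (fun p : (M ⊓ ct B : Subgroup G) × nn A B =>
    (⟨(p.1 : G) * p.2, M.mul_mem p.1.2.1 (hAM p.2.2.1), (nz B).mul_mem (hct _ p.1.2.2) p.2.2.2⟩ :
      (M ⊓ nz B : Subgroup G))) ⟨?_, ?_⟩)).symm
  · rintro ⟨c, a⟩ ⟨c', a'⟩ hcc
    have h1 : (c : G) * a = c' * a' := congrArg Subtype.val hcc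
    have h2 : (c' : G)⁻¹ * c = a' * (a : G)⁻¹ := by
      rw [inv_mul_eq_iff_eq_mul, ← mul_assoc, ← h1]
      group
    have h3 : (a' : G) * (a : G)⁻¹ = 1 := by
      apply hone
      · exact A.mul_mem a'.2.1 (A.inv_mem a.2.1)
      · rw [← h2]
        exact (ct B).mul_mem ((ct B).inv_mem c'.2.2) c.2.2
    have h4 : (a' : G) = a := mul_inv_eq_one.1 h3
    rw [h3, inv_mul_eq_one] at h2
    exact Prod.ext (Subtype.ext h2.symm) (Subtype.ext h4.symm)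
  · rintro ⟨x, hx, hxB⟩
    obtain ⟨a, ha, haB, hxa⟩ := n.l4b h hM hAM hx hxB
    refine ⟨(⟨x * a, M.mul_mem hx (hAM ha), hxa⟩, ⟨a⁻¹, A.inv_mem ha, (nz B).inv_mem haB⟩), ?_⟩
    apply Subtype.ext
    show x * a * a⁻¹ = x
    group

end Pool.Agent.Helper37.WC
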