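import Pool.Agent.Helper37.WC.Cliq

/-!
WC-8 (MP_b5afc9_al, project WC). The set `YA S A` of the subgroups `A ⊔ ⟨y⟩`, `y ∉ A` an element of a member, `y` commuting with `A`.

* `mem_sup`: `y*y = 1` (`Sys.sq`), `y` commutes with `A`: the elements of `A ⊔ zpowers y` are the `a` and the `a*y`, `a ∈ A` (`Subgroup.mem_sup_of_normal...` does not apply; e.g. show that
  `{x | x ∈ A ∨ x * y ∈ A}` is a subgroup, or use `Subgroup.mem_sup` in the commutative group..., `Subgroup.closure_induction`).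
* `mul_mem_S`: `y ∈ E ∈ S` and `y` commutes with `A`: `Cm A E` (`Sys.cm_of_elem`), so for `a ∈ A`, `a*y ≠ 1`, condition `Sys.C` gives a member containing `a*y`.
* `YA.le_cl`: `Y ∈ YA S A` is contained in a clique group (`Sys.join2` applied to `A` and `E`).
* `YA_cj`: `cj g` maps `YA S A` onto `YA S (cj g A)` (injective), so the cardinalities agree. `cj g (A ⊔ zpowers y) = cj g A ⊔ zpowers (g*y*g⁻¹)` (`Subgroup.map_sup`, `MonoidHom.map_zpowers`).
* `YA_cj_mem`: an element normalising `A` permutes `YA S A`.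
-/

namespace Pool.Agent.Helper37.WC

variable {G : Type*} [Group G] [Finite G] {S : Set (Subgroup G)} {q : ℕ} {A B E M Y : Subgroup G}

/-- the subgroups `A ⊔ ⟨y⟩`, `y ∉ A` an element of a member, `y` commuting with `A` -/
def YA (S : Set (Subgroup G)) (A : Subgroup G) : Set (Subgroup G) :=
  {Y | ∃ y, y ∉ A ∧ (∃ E ∈ S, y ∈ E) ∧ y ∈ ct A ∧ Y = A ⊔ Subgroup.zpowers y}

theorem mem_sup_zp (h : Sys S q) (hE : E ∈ S) {y : G} (hy : y ∈ E) (hc : y ∈ ct A) {x : G} :
    x ∈ A ⊔ Subgroup.zpowers y ↔ x ∈ A ∨ x * y ∈ A := by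
  have hyy : y * y = 1 := h.sq E hE y hy
  let W : Subgroup G :=
    { carrier := {x | x ∈ A ∨ x * y ∈ A}
      one_mem' := Or.inl A.one_mem
      mul_mem' := by
        intro x x' hx hx'
        rcases hx with hx | hx
        · rcases hx' with hx' | hx'
          · exact Or.inl (A.mul_mem hx hx')
          · refine Or.inr ?_
            rw [mul_assoc]
            exact A.mul_mem hx hx'
        · rcases hx' with hx' | hx'
          · refine Or.inr ?_
            have h1 : x * x' * y = x * y * x' := by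
              rw [mul_assoc, ← hc x' hx', mul_assoc]
            rw [h1]
            exact A.mul_mem hx hx'
          · refine Or.inl ?_
            have h1 : y * (x' * y) = x' := by
              rw [hc _ hx', mul_assoc, hyy, mul_one]
            have h2 : x * x' = (x * y) * (x' * y) := by
              rw [mul_assoc x y, h1]
            rw [h2]
            exact A.mul_mem hx hx'
      inv_mem' := by
        intro x hx
        rcases hx with hx | hx
        · exact Or.inl (A.inv_mem hx)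
        · refine Or.inr ?_
          have h1 : (x * y)⁻¹ ∈ A := A.inv_mem hx
          have h2 := hc _ h1
          rw [mul_inv_rev, mul_inv_cancel_left] at h2
          have h3 : x⁻¹ * y = (x * y)⁻¹ := by
            rw [h2, mul_assoc, hyy, mul_one, mul_inv_rev]
          rw [h3]
          exact h1 }
  constructor
  · intro hx
    have h1 : A ⊔ Subgroup.zpowers y ≤ W := by
      refine sup_le (fun a ha => Or.inl ha) ?_
      rw [Subgroup.zpowers_le]
      refine Or.inr ?_
      rw [hyy]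
      exact A.one_mem
    exact h1 hx
  · rintro (hx | hx)
    · exact (le_sup_left : A ≤ A ⊔ Subgroup.zpowers y) hx
    · have h1 : x = (x * y) * y⁻¹ := by group
      rw [h1]
      exact Subgroup.mul_mem _ ((le_sup_left : A ≤ A ⊔ Subgroup.zpowers y) hx)
        (Subgroup.inv_mem _ ((le_sup_right : Subgroup.zpowers y ≤ A ⊔ Subgroup.zpowers y)
          (Subgroup.mem_zpowers y)))

theorem Sys.mul_mem_S (h : Sys S q) (hA : A ∈ S) (hE : E ∈ S) {y : G} (hy : y ∈ E) (hc : y ∈ ct A) {a : G} (ha : a ∈ A)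
    (hne : a * y ≠ 1) : ∃ F ∈ S, a * y ∈ F := by
  by_cases hy1 : y = 1
  · exact ⟨A, hA, by rw [hy1, mul_one]; exact ha⟩
  · exact h.C A hA E hE (h.cm_of_elem hA hE hy hy1 hc) a ha y hy hne

theorem YA.le_cl (h : Sys S q) (hA : A ∈ S) (hY : Y ∈ YA S A) : ∃ M, Cl S M ∧ Y ≤ M := by
  obtain ⟨y, hyA, ⟨E, hE, hyE⟩, hc, rfl⟩ := hY
  have hy1 : y ≠ 1 := fun h1 => hyA (h1 ▸ A.one_mem)
  obtain ⟨M, hM, hAM, hEM⟩ := h.join2 hA hE (h.cm_of_elem hA hE hyE hy1 hc)
  refine ⟨M, hM, sup_le hAM ?_⟩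
  rw [Subgroup.zpowers_le]
  exact hEM hyE

theorem YA.ge (hY : Y ∈ YA S A) : A ≤ Y := by
  obtain ⟨y, -, -, -, rfl⟩ := hY
  exact le_sup_left

omit [Finite G] in
private theorem YA_map26 (h : Sys S q) (g : G) (hY : Y ∈ YA S A) : cj g Y ∈ YA S (cj g A) := by
  obtain ⟨y, hyA, ⟨E, hE, hyE⟩, hc, rfl⟩ := hY
  refine ⟨g * y * g⁻¹, fun h1 => hyA (conj_mem_cj_iff.1 h1), ⟨cj g E, h.conj E hE g, conj_mem_cj hyE⟩, ?_, ?_⟩
  · rw [ct_cj]
    exact conj_mem_cj hc
  · unfold cj
    rw [Subgroup.map_sup, MonoidHom.map_zpowers]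
    rfl

theorem YA_cj (h : Sys S q) (g : G) : (YA S (cj g A)).ncard = (YA S A).ncard := by
  have h1 : YA S (cj g A) = cj g '' YA S A := by
    ext Y'
    constructor
    · intro hY'
      refine ⟨cj g⁻¹ Y', ?_, cj_cj_inv g Y'⟩
      have h2 := YA_map26 h g⁻¹ hY'
      rwa [cj_inv_cj] at h2
    · rintro ⟨Y, hY, rfl⟩
      exact YA_map26 h g hY
  rw [h1]
  refine Set.ncard_image_of_injective _ fun X Y hXY => ?_
  have h2 : cj g⁻¹ (cj g X) = cj g⁻¹ (cj g Y) := congrArg _ hXY
  rwa [cj_inv_cj, cj_inv_cj] at h2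

theorem YA_cj_mem (h : Sys S q) {g : G} (hg : g ∈ nz A) (hY : Y ∈ YA S A) : cj g Y ∈ YA S A := by
  have h1 := YA_map26 h g hY
  rwa [mem_nz.1 hg] at h1

end Pool.Agent.Helper37.WC
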