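import Pool.Agent.Helper37.WC.S7
import Pool.Agent.Helper37.WC.YA
import Pool.Agent.Helper37.WC.Syl

/-!
WC-17 (MP_b5afc9_al, project WC). Case II, first step. `[x, y] = x*y*x⁻¹*y⁻¹`.

Let `(A, B)` be of non-root type and `YA S A` odd. `nn B A ≤ nz A` is a `2`-group (`Sys.isP`, subgroup). Take `P` from `exists_syl (nz A) (nn B A)`. `P` acts on `YA S A` (`YA_cj_mem`), which is odd, so by `par_fix` there is
`Y ∈ YA S A` with `cj p Y = Y` for all `p ∈ P`; `Y = A ⊔ zpowers y`. Let `I = clo S Y` (`YA.le_cl`, `clo_cl`); `P ≤ nz I` by `clo_cj`. `yP`: `p*y*p⁻¹ ∈ Y`, not in `A` (else `y ∈ A`), so `p*y*p⁻¹*y ∈ A` (`mem_sup_zp`) and `y⁻¹ = y`.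
Let `C = I ⊓ ct B`, `q1 = card (nn A B)`. Take `b ∈ B`, `b ≠ 1`, `b ∈ nz A`; `b ∈ P`, so `b ∈ nz I`; `l4d`, `l4e`: `card I ≤ (card C * q1)^2`. `q^2 ≤ card I` (`Cl.card_ge`, `y ∈ I`, `y ∉ A`), `q1 < q`, so `C` is nontrivial.
`K := clo S (A ⊔ C)`, a clique group, `K ≤ I`. `K ⊓ ct B = C` (`C ≤ K ≤ I`). `St.exists` for `K` gives `st` with `K' = cj u K`. `card C ^2 < card K` (`s8K`). With `Cl.card`: `card C = q^j`, `card K = q^m`, `card I = q^k`: `2*j < m`, and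
`q^k ≤ (q^j * q1)^2 < q^(2*j+2)`, so `k ≤ 2*j+1 ≤ m`; `K ≤ I` and `card I ≤ card K` give `K = I`. `minY`: `clo_le`, as `A ⊔ zpowers y ≤ M`.
-/

namespace Pool.Agent.Helper37.WC

variable {G : Type*} [Group G] [Finite G] {S : Set (Subgroup G)} {q : ℕ} {A B C E K K' M P : Subgroup G}

/-- see the header -/
structure DatP (S : Set (Subgroup G)) (A B K K' C P : Subgroup G) (y : G) : Prop where
  st : St S A B K K' C
  Ple : P ≤ nz A
  PK : P ≤ nz K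
  P2 : IsPGroup 2 P
  Pmax : ∀ R : Subgroup G, R ≤ nz A → IsPGroup 2 R → ∃ x ∈ nz A, cj x R ≤ P
  yA : y ∉ A
  yS : ∃ E ∈ S, y ∈ E
  yK : y ∈ K
  yP : ∀ p ∈ P, p * y * p⁻¹ * y⁻¹ ∈ A
  minY : ∀ M, Cl S M → A ≤ M → y ∈ M → K ≤ M
  cardK : Nat.card K ≤ (Nat.card C * Nat.card (nn A B)) ^ 2

theorem exists_datP (h : Sys S q) (n : NR S A B) (hodd : Odd (YA S A).ncard) :
    ∃ K K' C P : Subgroup G, ∃ y : G, DatP S A B K K' C P y := by
  have hA := n.hA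
  have hB := n.hB
  obtain ⟨P, Ple, P2, hnnP, Pmax⟩ := exists_syl (nz A) (nn B A) inf_le_right
    ((h.isP hB).to_le inf_le_left)
  have hpar := par_fix P P2 (YA S A) (fun p hp Y hY => YA_cj_mem h (Ple hp) hY)
  have hne : {Y | Y ∈ YA S A ∧ ∀ p ∈ P, cj p Y = Y}.Nonempty := by
    by_contra hcon
    rw [Set.not_nonempty_iff_eq_empty] at hcon
    rw [hcon, Set.ncard_empty] at hpar
    rw [Nat.odd_iff] at hodd
    omega
  obtain ⟨Y, hY, hYfix⟩ := hne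
  obtain ⟨M0, hM0, hYM0⟩ := YA.le_cl h hA hY
  have hY' := hY
  obtain ⟨y, hyA, ⟨E, hE, hyE⟩, hyc, hYe⟩ := hY'
  have hAY : A ≤ Y := YA.ge hY
  have hyY : y ∈ Y := by
    rw [hYe]
    exact (le_sup_right : Subgroup.zpowers y ≤ A ⊔ Subgroup.zpowers y) (Subgroup.mem_zpowers y)
  have hI : Cl S (clo S Y) := clo_cl h hM0 hYM0
  obtain ⟨I, hIdef⟩ : ∃ I, I = clo S Y := ⟨_, rfl⟩
  rw [← hIdef] at hI
  have hYI : Y ≤ I := by rw [hIdef]; exact le_clo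
  have hAI : A ≤ I := hAY.trans hYI
  have hyI : y ∈ I := hYI hyY
  have hPI : P ≤ nz I := by
    intro p hp
    rw [mem_nz, hIdef, clo_cj h, hYfix p hp]
  have hyi : y⁻¹ = y := h.inv hE hyE
  have hyP : ∀ p ∈ P, p * y * p⁻¹ * y⁻¹ ∈ A := by
    intro p hp
    have h1 : p * y * p⁻¹ ∈ Y := by
      have h2 := conj_mem_cj (g := p) hyY
      rwa [hYfix p hp] at h2
    rw [hYe, mem_sup_zp h hE hyE hyc] at h1
    rcases h1 with h1 | h1
    · exfalso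
      apply hyA
      have h2 := Ple hp
      rw [mem_nz] at h2
      rw [← h2] at h1
      exact conj_mem_cj_iff.1 h1
    · rw [hyi]
      exact h1
  obtain ⟨b, hb, hb1, hb'⟩ := (n.symm h).ex
  have hbP : b ∈ P := hnnP (mem_nn.2 ⟨hb, hb'⟩)
  have hbI : b ∈ nz I := hPI hbP
  have hl4d := n.l4d h hI hAI hb hb1 hb' hbI
  rw [n.l4e h hI hAI] at hl4d
  have hq2 := hI.card_ge h hA hAI hyI hyA
  have hq1 := n.card_lt h
  have hq1pos := n.card_pos h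
  have hCC : ∃ c ∈ I ⊓ ct B, c ≠ 1 := by
    by_contra hcon
    push Not at hcon
    have h1 : I ⊓ ct B = ⊥ := (Subgroup.eq_bot_iff_forall _).2 hcon
    rw [h1, Subgroup.card_bot, one_mul] at hl4d
    have h2 : q ^ 2 ≤ Nat.card (nn A B) ^ 2 := hq2.trans hl4d
    have h3 := (Nat.pow_le_pow_iff_left (by norm_num : (2 : ℕ) ≠ 0)).1 h2
    omega
  have hACI : A ⊔ (I ⊓ ct B) ≤ I := sup_le hAI inf_le_left
  have hK : Cl S (clo S (A ⊔ (I ⊓ ct B))) := clo_cl h hI hACI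
  have hKI : clo S (A ⊔ (I ⊓ ct B)) ≤ I := clo_le hI hACI
  obtain ⟨K, hKdef⟩ : ∃ K, K = clo S (A ⊔ (I ⊓ ct B)) := ⟨_, rfl⟩
  rw [← hKdef] at hK hKI
  have hACK : A ⊔ (I ⊓ ct B) ≤ K := by rw [hKdef]; exact le_clo
  have hAK : A ≤ K := le_sup_left.trans hACK
  have hCK : I ⊓ ct B ≤ K := le_sup_right.trans hACK
  have hKC : K ⊓ ct B = I ⊓ ct B := le_antisymm (inf_le_inf_right _ hKI) (le_inf hCK inf_le_right)
  obtain ⟨u, hu, huAB, st⟩ := St.exists h n hK hAK (by rw [hKC]; exact hCC)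
    (fun M hM hAM hCM => by
      rw [hKdef]
      rw [hKC] at hCM
      exact clo_le hM (sup_le hAM hCM))
  have h8 := st.s8K h
  rw [hKC] at h8
  have hIK : I ≤ K := by
    obtain ⟨j, hj⟩ := (hI.inf_ct h hB).card h
    obtain ⟨m, hm⟩ := hK.card h
    obtain ⟨k, hk⟩ := hI.card h
    have hqq := h.q1
    rw [hj, hm, ← pow_mul] at h8
    have h9 : j * 2 < m := (Nat.pow_lt_pow_iff_right hqq).1 h8
    rw [hk, hj] at hl4d
    have h10 : (q ^ j * Nat.card (nn A B)) ^ 2 < q ^ (2 * j + 2) := by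
      have h11 : q ^ j * Nat.card (nn A B) < q ^ (j + 1) := by
        rw [pow_succ]
        exact Nat.mul_lt_mul_of_pos_left hq1 (by positivity)
      have h12 : (q ^ j * Nat.card (nn A B)) ^ 2 < (q ^ (j + 1)) ^ 2 := Nat.pow_lt_pow_left h11 (by norm_num)
      rw [← pow_mul] at h12
      have h13 : (j + 1) * 2 = 2 * j + 2 := by ring
      rwa [h13] at h12
    have h14 : k < 2 * j + 2 := (Nat.pow_lt_pow_iff_right hqq).1 (lt_of_le_of_lt hl4d h10)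
    have h15 : Nat.card I ≤ Nat.card K := by
      rw [hk, hm]
      exact Nat.pow_le_pow_right hqq.le (by omega)
    exact (Subgroup.eq_of_le_of_card_ge hKI h15).ge
  have hKeq : K = I := le_antisymm hKI hIK
  refine ⟨K, cj u K, K ⊓ ct B, P, y, ⟨st, Ple, ?_, P2, Pmax, hyA, ⟨E, hE, hyE⟩, ?_, hyP, ?_, ?_⟩⟩
  · rw [hKeq]
    exact hPI
  · rw [hKeq]
    exact hyI
  · intro M hM hAM hyM
    rw [hKeq, hIdef]
    refine clo_le hM ?_
    rw [hYe]
    exact sup_le hAM ((Subgroup.zpowers_le).2 hyM)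
  · rw [hKeq]
    exact hl4d

end Pool.Agent.Helper37.WC
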