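import Pool.Agent.Helper37.WC.M1

/-!
WC-18 (MP_b5afc9_al, project WC). Case II, second step. `[x, y] = x*y*x⁻¹*y⁻¹`, `K0' = K' ⊓ nz K`.

`K0' ≤ nz K` is a `2`-group (`Cl.isP`, subgroup). Take `P'` from `exists_syl (nz K) K0'`. `P'` acts on the set `{E | E ∈ S ∧ E ≤ K}` of odd cardinality (`Cl.odd_members`), so by `par_fix` it fixes a member `E0`: `P' ≤ nz E0`. `E0 = cj g A` (`Sys.trans`), so `cj g⁻¹ P' ≤ nz A` (`nz_cj`),
a `2`-group, so by `Pmax` a conjugate of `P'` is contained in `P`: `card P' ≤ card P` (`card_cj`). `P ≤ nz K` is a `2`-group, so there is `n ∈ nz K` with `cj n P ≤ P'`; by cardinalities `cj n P = P'`. So `P' = cj n P ≤ cj n (nz A) = nz (cj n A)`. `cj n A ≤ cj n K = K`. So `K0' ≤ P' ≤ nz (cj n A)` and `St.s9` gives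
`cj n A ≤ C`. For `g ∈ K0'`: `g = n*p*n⁻¹`, `p ∈ P`, and `[g, n*y*n⁻¹] = n*[p, y]*n⁻¹ ∈ cj n A`. Last item: apply `minY` to `cj n⁻¹ M`.
-/

namespace Pool.Agent.Helper37.WC

variable {G : Type*} [Group G] [Finite G] {S : Set (Subgroup G)} {q : ℕ} {A B C E K K' M P : Subgroup G} {y : G}

theorem DatP.two (h : Sys S q) (d : DatP S A B K K' C P y) : ∃ n ∈ nz K, cj n A ≤ C ∧ n * y * n⁻¹ ∈ K ∧
    n * y * n⁻¹ ∉ cj n A ∧ (∃ E ∈ S, n * y * n⁻¹ ∈ E) ∧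
    (∀ g ∈ K', g ∈ nz K → g * (n * y * n⁻¹) * g⁻¹ * (n * y * n⁻¹)⁻¹ ∈ cj n A) ∧
    ∀ M, Cl S M → cj n A ≤ M → n * y * n⁻¹ ∈ M → K ≤ M := by
  have hAS : A ∈ S := d.st.nr.hA
  have hp0 : IsPGroup 2 (K' ⊓ nz K : Subgroup G) := (d.st.clK'.isP h).to_le inf_le_left
  obtain ⟨P', hP'K, hP'2, hK0, hP'max⟩ := exists_syl (nz K) (K' ⊓ nz K) inf_le_right hp0
  have hT : ∀ p ∈ P', ∀ Y ∈ {E | E ∈ S ∧ E ≤ K}, cj p Y ∈ {E | E ∈ S ∧ E ≤ K} := by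
    intro p hp Y hY
    refine ⟨h.conj Y hY.1 p, ?_⟩
    have h1 := cj_mono (g := p) hY.2
    rwa [mem_nz.1 (hP'K hp)] at h1
  have hfix := par_fix P' hP'2 {E | E ∈ S ∧ E ≤ K} hT
  have hodd := d.st.clK.odd_members h hAS d.st.hA
  have hne : {Y | Y ∈ {E | E ∈ S ∧ E ≤ K} ∧ ∀ p ∈ P', cj p Y = Y}.Nonempty := by
    rw [Set.nonempty_iff_ne_empty]
    intro he
    rw [he, Set.ncard_empty] at hfix
    rw [Nat.odd_iff] at hodd
    omega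
  obtain ⟨E0, ⟨hE0S, hE0K⟩, hE0⟩ := hne
  obtain ⟨g, hg⟩ := h.trans A hAS E0 hE0S
  have h1 : cj g⁻¹ P' ≤ nz A := by
    intro x hx
    rw [mem_cj, inv_inv] at hx
    have h2 : g * x * g⁻¹ ∈ nz (cj g A) := by
      rw [hg]
      exact hE0 _ hx
    rw [nz_cj, conj_mem_cj_iff] at h2
    exact h2
  obtain ⟨x, -, hx⟩ := d.Pmax (cj g⁻¹ P') h1 (hP'2.map _)
  have hc1 : Nat.card P' ≤ Nat.card P := by
    have h2 := Subgroup.card_le_of_le hx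
    rwa [card_cj, card_cj] at h2
  obtain ⟨n, hn, hnP⟩ := hP'max P d.PK d.P2
  have hP' : cj n P = P' := Subgroup.eq_of_le_of_card_ge hnP (by rw [card_cj]; exact hc1)
  have hnK : cj n K = K := mem_nz.1 hn
  have hnAK : cj n A ≤ K := by
    have h2 := cj_mono (g := n) d.st.hA
    rwa [hnK] at h2
  have hgP : ∀ g ∈ K', g ∈ nz K → n⁻¹ * g * n ∈ P := by
    intro g hg hg'
    have h2 : g ∈ P' := hK0 ⟨hg, hg'⟩
    rwa [← hP', mem_cj] at h2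
  refine ⟨n, hn, ?_, nz_conj_mem hn d.yK, ?_, ?_, ?_, ?_⟩
  · refine d.st.s9 h (h.conj A hAS n) hnAK fun g hg hg' => ?_
    rw [nz_cj, mem_cj]
    exact d.Ple (hgP g hg hg')
  · rw [conj_mem_cj_iff]
    exact d.yA
  · obtain ⟨E, hE, hyE⟩ := d.yS
    exact ⟨cj n E, h.conj E hE n, conj_mem_cj hyE⟩
  · intro g hg hg'
    have h2 := conj_mem_cj (g := n) (d.yP _ (hgP g hg hg'))
    have h3 : n * ((n⁻¹ * g * n) * y * (n⁻¹ * g * n)⁻¹ * y⁻¹) * n⁻¹ =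
        g * (n * y * n⁻¹) * g⁻¹ * (n * y * n⁻¹)⁻¹ := by group
    rwa [h3] at h2
  · intro M hM hAM hyM
    have h2 := d.minY (cj n⁻¹ M) (hM.cj' h n⁻¹) (by
      have h3 := cj_mono (g := n⁻¹) hAM
      rwa [cj_inv_cj] at h3) (by
      rw [mem_cj, inv_inv]
      exact hyM)
    have h3 := cj_mono (g := n) h2
    rwa [hnK, cj_cj_inv] at h3

end Pool.Agent.Helper37.WC
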