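import Pool.Agent.Helper37.WC.M2

/-!
WC-19 (MP_b5afc9_al, project WC). Case II, third step. `[x, y] = x*y*x⁻¹*y⁻¹`, `K0 = K ⊓ nz K'`, `K0' = K' ⊓ nz K`.

`three`: `D ≤ C` a member, `y ∈ X`, `X ∈ S`, `y ∈ K`, `y ∉ D`, `[g, y] ∈ D` for `g ∈ K0'`, and `K` is the smallest clique group containing `D` and `y`. Then `2*(card C + 1) ≤ q^2`. Proof.
(0) `y ≠ 1`, `X ≤ K` (`Cl.le`). `X ≰ C`: otherwise `y ∈ C`, `D ≤ C`, so `K ≤ C`, but `A ≤ K`, `A ≰ C` (`St.not_mem`, `Sys.exists_ne`). So `X ⊓ C` is trivial (`Cl.le`).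
(1) If `g ∈ K'` commutes with all of `X` then `g ∈ C`: suppose `g ≠ 1`, let `H ≤ K'` be the member containing `g`. `Cm X H` (`Sys.cm_of_elem`), `Cm H D` (`D ≤ C ≤ K'`, `K'` abelian). So `H` commutes with `D ⊔ zpowers y ≤ K`, so with `clo S (D ⊔ zpowers y) ≥ K` (`cm_clo`, with the clique group `K`); so
`Cm H A` and `g ∈ K' ⊓ ct A = C`.
(2) Let `N = {g ∈ K0' | g*y = y*g}`. The map `K0' → D`, `g ↦ [g, y]`: if `[g, y] = [g', y]` then `g*y*g⁻¹ = g'*y*g'⁻¹`, so `g⁻¹*g' ∈ N`. So `card K0' ≤ q * card N`.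
(3) `2 * card N ≤ card C * q`: every `g ∈ N` is in `nz X` (`Sys.nz_of_comm`). For `x ∈ X` with `x ∈ nz K'` and `g ∈ N`: `[x, g] ∈ C` (`s4b`) and `∈ X` (`g ∈ nz X`), so `= 1`. If `X ≤ nz K'` then `N ≤ C` by (1) and `2 ≤ q`. Otherwise take `x ∈ X`, `x ∉ nz K'`. The map `N → X0 := X ⊓ nz K'`, `g ↦ [x, g]`
(`∈ X`, and `∈ nz K'` by `s4c`); if `[x, g] = [x, g']` then `g⁻¹*g'` commutes with `x` and is in `K'`, so `∈ C` by `s5`. So `card N ≤ card C * card X0`, and `2 * card X0 ≤ q` as `X0` is a proper subgroup of `X` (index at least two).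
(4) `card C * (card C + 1) ≤ card K0'` (`s8` for the symmetric structure) `≤ q * card N`, so `2 * card C * (card C + 1) ≤ q^2 * card C`.

`exists_dat`: take `n` from `DatP.two` and apply `three` with `D = cj n A`, `y := n*y*n⁻¹`. `card C = q^j` (`Cl.card`), `j ≥ 1` by `St.q_le`, and `card C < q^2`, so `card C = q = card (cj n A)` and `cj n A = C`. `card K = q^m`, `q^2 < card K` (`s8K`), `card K ≤ (q * card (nn A B))^2 < q^4` (`NR.card_lt`); so `m = 3`.
-/

namespace Pool.Agent.Helper37.WC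

variable {G : Type*} [Group G] [Finite G] {S : Set (Subgroup G)} {q : ℕ} {A B C D E X K K' M P : Subgroup G} {y : G}

private theorem fib30 {H N : Subgroup G} {T : Type*} [Finite T] (f : H → T)
    (hf : ∀ g g' : H, f g = f g' → (g' : G)⁻¹ * (g : G) ∈ N) : Nat.card H ≤ Nat.card T * Nat.card N := by
  have hinv : ∀ g : H, f (Function.invFun f (f g)) = f g := fun g => Function.invFun_eq ⟨g, rfl⟩
  let Ψ : H → T × N := fun g =>
    (f g, ⟨((Function.invFun f (f g) : H) : G)⁻¹ * (g : G), hf _ _ (hinv g).symm⟩)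
  have hΨ : Function.Injective Ψ := by
    intro g g' hgg
    have h1 : f g = f g' := congrArg Prod.fst hgg
    have h2 : ((Function.invFun f (f g) : H) : G)⁻¹ * (g : G) =
        ((Function.invFun f (f g') : H) : G)⁻¹ * (g' : G) :=
      congrArg (fun p : T × N => (p.2 : G)) hgg
    rw [h1] at h2
    exact Subtype.ext (mul_left_cancel h2)
  have hcard := Nat.card_le_card_of_injective Ψ hΨ
  rwa [Nat.card_prod] at hcard

theorem St.three (h : Sys S q) (s : St S A B K K' C) (hD : D ∈ S) (hDC : D ≤ C) (hX : X ∈ S) (hyX : y ∈ X) (hyK : y ∈ K)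
    (hyD : y ∉ D) (hg : ∀ g ∈ K', g ∈ nz K → g * y * g⁻¹ * y⁻¹ ∈ D)
    (hmin : ∀ M, Cl S M → D ≤ M → y ∈ M → K ≤ M) : 2 * (Nat.card C + 1) ≤ q ^ 2 := by
  have hy1 : y ≠ 1 := by
    rintro rfl
    exact hyD D.one_mem
  have hXK : X ≤ K := s.clK.le h hX hyK hyX hy1
  have hXC : ∀ x ∈ X, x ∈ C → x = 1 := by
    intro x hx hxC
    by_contra hx1
    have h1 : X ≤ C := (s.C_cl h).le h hX hxC hx hx1
    have h2 : K ≤ C := hmin C (s.C_cl h) hDC (h1 hyX)
    obtain ⟨a, ha, ha1⟩ := h.exists_ne s.nr.hA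
    exact s.not_mem h ha ha1 (h2 (s.hA ha))
  have hone : ∀ g ∈ K', (∀ x ∈ X, g * x = x * g) → g ∈ C := by
    intro g hgK hgX
    by_cases hg1 : g = 1
    · rw [hg1]
      exact C.one_mem
    · obtain ⟨H, hH, hgH, hHK⟩ := s.clK'.mem g hgK hg1
      have h1 : Cm X H := h.cm_of_elem hX hH hgH hg1 hgX
      have hZK : D ⊔ Subgroup.zpowers y ≤ K :=
        sup_le (hDC.trans s.C_le) (Subgroup.zpowers_le.2 hyK)
      have hZH : D ⊔ Subgroup.zpowers y ≤ ct H := by
        refine sup_le ?_ (Subgroup.zpowers_le.2 ?_)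
        · intro d hd a ha
          exact s.clK'.comm d (s.C_le' (hDC hd)) a (hHK ha)
        · intro a ha
          exact h1 y hyX a ha
      have hCm : Cm H (D ⊔ Subgroup.zpowers y) := (cm_iff_le_ct.2 hZH).symm
      have h2 := cm_clo h s.clK hZK hH hCm
      have h3 : K ≤ clo S (D ⊔ Subgroup.zpowers y) :=
        hmin _ (clo_cl h s.clK hZK) (le_sup_left.trans le_clo)
          (le_clo (le_sup_right (a := D) (Subgroup.mem_zpowers y)))
      rw [s.hC']
      exact ⟨hgK, fun a ha => h2 g hgH a (h3 (s.hA ha))⟩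
  -- the subgroup `N`
  obtain ⟨N, hN⟩ : ∃ N : Subgroup G, ∀ g, g ∈ N ↔ (g ∈ K' ∧ g ∈ nz K) ∧ g * y = y * g := by
    refine ⟨K' ⊓ nz K ⊓ Subgroup.centralizer {y}, fun g => ?_⟩
    rw [Subgroup.mem_inf, Subgroup.mem_inf, Subgroup.mem_centralizer_iff]
    refine and_congr_right fun _ => ⟨fun h1 => (h1 y rfl).symm, fun h1 z hz => ?_⟩
    rw [Set.mem_singleton_iff.1 hz]
    exact h1.symm
  have hcomm : ∀ x g g' : G, x * g * x⁻¹ * g⁻¹ = x * g' * x⁻¹ * g'⁻¹ → x * (g'⁻¹ * g) * x⁻¹ * (g'⁻¹ * g)⁻¹ = 1 := by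
    intro x g g' h1
    have h4 : g * x⁻¹ * g⁻¹ = g' * x⁻¹ * g'⁻¹ := by
      have h5 : x * (g * x⁻¹ * g⁻¹) = x * (g' * x⁻¹ * g'⁻¹) := by
        simpa [mul_assoc] using h1
      exact mul_left_cancel h5
    have h6 : x * (g'⁻¹ * g) * x⁻¹ * (g'⁻¹ * g)⁻¹ = x * (g'⁻¹ * (g * x⁻¹ * g⁻¹) * g') := by group
    rw [h6, h4]
    group
  -- step (2)
  have hstep2 : Nat.card (K' ⊓ nz K : Subgroup G) ≤ q * Nat.card N := by
    have h1 := fib30 (H := K' ⊓ nz K) (N := N) (T := D)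
      (fun g => ⟨(g : G) * y * (g : G)⁻¹ * y⁻¹, hg _ g.2.1 g.2.2⟩) (by
        intro g g' hgg
        have h2 : (g : G) * y * (g : G)⁻¹ * y⁻¹ = (g' : G) * y * (g' : G)⁻¹ * y⁻¹ := congrArg Subtype.val hgg
        have h3 : (g : G) * y * (g : G)⁻¹ = (g' : G) * y * (g' : G)⁻¹ := mul_right_cancel h2
        rw [hN]
        refine ⟨(K' ⊓ nz K).mul_mem ((K' ⊓ nz K).inv_mem g'.2) g.2, ?_⟩
        calc (g' : G)⁻¹ * (g : G) * y = (g' : G)⁻¹ * ((g : G) * y * (g : G)⁻¹) * g := by group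
          _ = (g' : G)⁻¹ * ((g' : G) * y * (g' : G)⁻¹) * g := by rw [h3]
          _ = y * ((g' : G)⁻¹ * (g : G)) := by group)
    rwa [h.card D hD] at h1
  have hNX : ∀ g ∈ N, g ∈ nz X := fun g hgN => h.nz_of_comm hX hyX hy1 ((hN g).1 hgN).2
  have hcX : ∀ x ∈ X, ∀ g ∈ N, x * g * x⁻¹ * g⁻¹ ∈ X := by
    intro x hx g hgN
    have h3 : x * g * x⁻¹ * g⁻¹ = x * (g * x⁻¹ * g⁻¹) := by group
    rw [h3]
    exact X.mul_mem hx (nz_conj_mem (hNX g hgN) (X.inv_mem hx))
  -- step (3)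
  have hstep3 : 2 * Nat.card N ≤ Nat.card C * q := by
    have hq := h.q1
    by_cases hcase : X ≤ nz K'
    · have hNC : N ≤ C := by
        intro g hgN
        obtain ⟨⟨hgK, hgK'⟩, -⟩ := (hN g).1 hgN
        refine hone g hgK fun x hx => ?_
        have h1 := s.s4b h (hXK hx) (hcase hx) hgK hgK'
        have h2 := hXC _ (hcX x hx g hgN) h1
        rw [mul_inv_eq_one, mul_inv_eq_iff_eq_mul] at h2
        exact h2.symm
      have h1 := Subgroup.card_le_of_le hNC
      nlinarith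
    · have hex : ∃ x ∈ X, x ∉ nz K' := by
        by_contra hno
        push Not at hno
        exact hcase hno
      obtain ⟨x, hx, hx'⟩ := hex
      have h1 := fib30 (H := N) (N := C) (T := (X ⊓ nz K' : Subgroup G))
        (fun g => ⟨x * (g : G) * x⁻¹ * (g : G)⁻¹, hcX x hx g g.2,
          (s.s4c h (hXK hx) ((hN g).1 g.2).1.1 ((hN g).1 g.2).1.2).2⟩) (by
          intro g g' hgg
          have h2 := hcomm x g g' (congrArg Subtype.val hgg)
          rcases s.s5 h (hXK hx) (K'.mul_mem (K'.inv_mem ((hN g').1 g'.2).1.1) ((hN g).1 g.2).1.1)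
            (h2 ▸ C.one_mem) with h7 | h7
          · exact absurd h7 hx'
          · exact h7)
      have h2 : 2 * Nat.card (X ⊓ nz K' : Subgroup G) ≤ q := by
        have h3 : Nat.card (X ⊓ nz K' : Subgroup G) ∣ Nat.card X := Subgroup.card_dvd_of_le inf_le_left
        have h4 : Nat.card (X ⊓ nz K' : Subgroup G) ≠ Nat.card X := by
          intro h5
          have h6 : (X ⊓ nz K' : Subgroup G) = X := Subgroup.eq_of_le_of_card_ge inf_le_left h5.ge
          exact hx' ((h6.ge hx : x ∈ (X ⊓ nz K' : Subgroup G)).2)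
        rw [h.card X hX] at h3 h4
        obtain ⟨k, hk⟩ := h3
        have hk2 : 2 ≤ k := by
          rcases k with _ | _ | k
          · omega
          · omega
          · omega
        calc 2 * Nat.card (X ⊓ nz K' : Subgroup G) ≤ k * Nat.card (X ⊓ nz K' : Subgroup G) :=
              Nat.mul_le_mul_right _ hk2
          _ = q := by rw [hk, mul_comm]
      calc 2 * Nat.card N ≤ 2 * (Nat.card (X ⊓ nz K' : Subgroup G) * Nat.card C) := Nat.mul_le_mul_left _ h1
        _ = (2 * Nat.card (X ⊓ nz K' : Subgroup G)) * Nat.card C := by ring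
        _ ≤ q * Nat.card C := Nat.mul_le_mul_right _ h2
        _ = Nat.card C * q := mul_comm _ _
  -- step (4)
  have h4 := (s.symm h).s8 h
  have hC0 : 0 < Nat.card C := Nat.card_pos
  have h5 : Nat.card C * (2 * (Nat.card C + 1)) ≤ Nat.card C * q ^ 2 := by
    calc Nat.card C * (2 * (Nat.card C + 1)) = 2 * (Nat.card C * (Nat.card C + 1)) := by ring
      _ ≤ 2 * (q * Nat.card N) := Nat.mul_le_mul_left _ (h4.trans hstep2)
      _ = q * (2 * Nat.card N) := by ring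
      _ ≤ q * (Nat.card C * q) := Nat.mul_le_mul_left _ hstep3
      _ = Nat.card C * q ^ 2 := by ring
  exact Nat.le_of_mul_le_mul_left h5 hC0

/-- the situation reached in Case II -/
structure Dat (S : Set (Subgroup G)) (q : ℕ) (A B K K' C : Subgroup G) (n : G) : Prop where
  st : St S A B K K' C
  nK : n ∈ nz K
  nA : cj n A = C
  card : Nat.card K = q ^ 3

theorem exists_dat (h : Sys S q) (n : NR S A B) (hodd : Odd (YA S A).ncard) :
    ∃ K K' C : Subgroup G, ∃ x : G, Dat S q A B K K' C x := by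
  obtain ⟨K, K', C, P, y, d⟩ := exists_datP h n hodd
  obtain ⟨m, hm, hmC, hyK, hyD, ⟨E, hE, hyE⟩, hg, hmin⟩ := d.two h
  have h3 := d.st.three h (h.conj A n.hA m) hmC hE hyE hyK hyD hg hmin
  have hq := h.q1
  obtain ⟨j, hj⟩ := (d.st.C_cl h).card h
  obtain ⟨k, hk⟩ := d.st.clK.card h
  have hq1 := d.st.q_le h
  have hj1 : j = 1 := by
    have h4 : j < 2 := by
      rw [← Nat.pow_lt_pow_iff_right hq, ← hj]
      omega
    have h5 : j ≠ 0 := by
      rintro rfl
      rw [pow_zero] at hj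
      omega
    omega
  rw [hj1, pow_one] at hj
  have hk3 : k = 3 := by
    have h4 := d.st.s8K h
    rw [hj, hk, Nat.pow_lt_pow_iff_right hq] at h4
    have h5 := n.card_lt h
    have h6 : k < 4 := by
      rw [← Nat.pow_lt_pow_iff_right hq, ← hk]
      refine d.cardK.trans_lt ?_
      rw [hj]
      have h7 : q * Nat.card (nn A B) < q * q := Nat.mul_lt_mul_of_pos_left h5 (by omega)
      calc (q * Nat.card (nn A B)) ^ 2 < (q * q) ^ 2 := Nat.pow_lt_pow_left h7 (by norm_num)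
        _ = q ^ 4 := by ring
    omega
  refine ⟨K, K', C, m, d.st, hm, ?_, by rw [hk, hk3]⟩
  refine Subgroup.eq_of_le_of_card_ge hmC ?_
  rw [card_cj, h.card A n.hA, hj]

end Pool.Agent.Helper37.WC
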