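import Pool.Agent.Helper37.WC.M3

/-!
WC-20 (MP_b5afc9_al, project WC). Case II, fourth step: in the situation `Dat` there is no clique group strictly between `C` and `K`. `[x, y] = x*y*x⁻¹*y⁻¹`. Note `C` is a member (`nA`), `card C = q`.

Suppose `L` is a clique group, `C < L < K`. `card L` is a power of `q` (`Cl.card`), so `card L = q^2`.
(1) `L ≤ nz K'`: let `b ∈ B`, `b ∈ nz A`, `b ≠ 1`, `x ∈ L`. First, `b ∈ nz L`: see (1').
 (1') every `g ∈ K'`, `g ∈ nz K` is in `nz L`: let `E ≤ L` be a member, `E ≠ C` (the member containing an element of `L \ C`); by `s7` there is `e ∈ E`, `e ≠ 1`, `e ∈ nz K'`; `[g, e] ∈ C` (`s4b`, inverse), so `cj g E` contains `g*e*g⁻¹ = [g, e]*e ∈ L`, `≠ 1`, so `cj g E ≤ L` (`Cl.le`). `g` centralises `C`. `E ⊔ C = L` by cardinalities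
 (`E ⊓ C` trivial, `card (E ⊔ C) = q^2`, commuting) so `cj g L ≤ L`.
 So `[x, b] ∈ L`. `[x, b] = c*a`, `c ∈ C`, `a ∈ A` (`s1c`), so `a ∈ L`. If `a ≠ 1` then `A ≤ L` (`Cl.le`), and then `K ≤ L` by `minK`: contradiction. So `[x, b] = c ∈ C` and `x ∈ nz K'` by `s2`.
(2) Uniqueness: if `L'` is another such clique group then `L' = L`: otherwise `L ⊓ L'` is a clique group (`Cl.inf`) containing `C`, of order a power of `q`, `< q^2`, so it is `C`, and `card (L ⊔ L') = q^2*q^2/q = q^3` (commuting subgroups), so `L ⊔ L' = K` and `K ≤ nz K'` by (1). But for `a ∈ A`, `a ∉ nz B` (`exists_out`) and `b ∈ B`, `b ∈ nz A`, `b ≠ 1`: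
 `[a, b] ∈ C` by `s2conv` and `∈ A` so `= 1`, so `a ∈ nz B` (`Sys.nz_of_comm`): contradiction.
(3) Put `l = cj n⁻¹ L`. As `cj n⁻¹ C = A`, `cj n⁻¹ K = K`, `l` is a clique group with `A < l < K` and it is the unique one by (2). Let `b ∈ B`, `b ∈ nz A`, `b ≠ 1`: `b ∈ nz K` (`s1`), so `cj b l` is also one, so `b ∈ nz l`. Also `b ∈ nz L` by (1') (`b ∈ K'`).
 `A ≰ L` (else `K ≤ L`), so `L ≠ l`. `F := L ⊓ l` is a clique group with `card F ≥ card L * card l / card K = q`, and `card F < q^2`, so `card F = q`: `F` is a member (the member containing a nontrivial element is `≤ F`, so equal). `b ∈ nz F`.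
 Claim `F = C`: otherwise `F ⊓ C` is trivial; for `x ∈ F`: `x ∈ L ≤ nz K'` so `[x, b] ∈ C` (`s2conv`) and `[x, b] ∈ F` so `x` commutes with `b`. So `F ≤ nz B` (`Sys.nz_of_comm`), `Cm F B` (`Sys.comm_of_nz`), `F ≤ K ⊓ ct B = C`, contradiction (equal cardinality gives `F = C`).
 So `C ≤ l`, `A ≤ l`, so `K ≤ l` by `minK`: contradiction.
-/

namespace Pool.Agent.Helper37.WC

variable {G : Type*} [Group G] [Finite G] {S : Set (Subgroup G)} {q : ℕ} {A B C D E X K K' L M P : Subgroup G} {n : G}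

omit [Finite G] in
private theorem card_rel68 {H N : Subgroup G} (h : H ≤ N) : Nat.card H * H.relIndex N = Nat.card N := by
  have h1 := Subgroup.relIndex_mul_relIndex (⊥ : Subgroup G) H N bot_le h
  rwa [Subgroup.relIndex_bot_left, Subgroup.relIndex_bot_left] at h1

private theorem inter68 {H H' N : Subgroup G} (h : H ≤ N) (h' : H' ≤ N) :
    Nat.card H * Nat.card H' ≤ Nat.card N * Nat.card (H ⊓ H' : Subgroup G) := by
  have h1 := card_rel68 h
  have h2 := card_rel68 h'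
  have h3 := card_rel68 (inf_le_left.trans h : H ⊓ H' ≤ N)
  have h4 := Subgroup.relIndex_inf_le (H := H) (K := H') (L := N)
  have hN : 0 < Nat.card N := Nat.card_pos
  refine Nat.le_of_mul_le_mul_left ?_ hN
  calc Nat.card N * (Nat.card H * Nat.card H')
      = Nat.card (H ⊓ H' : Subgroup G) * (H ⊓ H').relIndex N * (Nat.card H * Nat.card H') := by rw [h3]
    _ ≤ Nat.card (H ⊓ H' : Subgroup G) * (H.relIndex N * H'.relIndex N) * (Nat.card H * Nat.card H') :=
        Nat.mul_le_mul_right _ (Nat.mul_le_mul_left _ h4)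
    _ = Nat.card (H ⊓ H' : Subgroup G) * ((Nat.card H * H.relIndex N) * (Nat.card H' * H'.relIndex N)) := by ring
    _ = Nat.card N * (Nat.card N * Nat.card (H ⊓ H' : Subgroup G)) := by rw [h1, h2]; ring

/-- strictly between `C` and `K` -/
private structure Mid68 (S : Set (Subgroup G)) (K C L : Subgroup G) : Prop where
  cl : Cl S L
  ge : C ≤ L
  le : L ≤ K
  neC : L ≠ C
  neK : L ≠ K

omit [Finite G] in
private theorem CS68 (h : Sys S q) (d : Dat S q A B K K' C n) : C ∈ S := by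
  rw [← d.nA]
  exact h.conj A d.st.nr.hA n

private theorem Mid68.card (h : Sys S q) (d : Dat S q A B K K' C n) (m : Mid68 S K C L) : Nat.card L = q ^ 2 := by
  obtain ⟨k, hk⟩ := m.cl.card h
  have hq := h.q1
  have h1 : q ^ 1 < q ^ k := by
    rw [pow_one, ← hk, ← h.card C (CS68 h d)]
    refine lt_of_le_of_ne (Subgroup.card_le_of_le m.ge) fun he => m.neC ?_
    exact (Subgroup.eq_of_le_of_card_ge m.ge he.ge).symm
  have h2 : q ^ k < q ^ 3 := by
    rw [← hk, ← d.card]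
    refine lt_of_le_of_ne (Subgroup.card_le_of_le m.le) fun he => m.neK ?_
    exact Subgroup.eq_of_le_of_card_ge m.le he.ge
  have h3 := (Nat.pow_lt_pow_iff_right hq).1 h1
  have h4 := (Nat.pow_lt_pow_iff_right hq).1 h2
  have h5 : k = 2 := by omega
  rw [hk, h5]

/-- a clique group above `C`, contained in a middle one and different from `C` is the middle one -/
private theorem Mid68.top (h : Sys S q) (d : Dat S q A B K K' C n) (m : Mid68 S K C L) (hM : Cl S M) (hCM : C ≤ M)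
    (hML : M ≤ L) (hne : M ≠ C) : M = L := by
  by_contra hne2
  have m' : Mid68 S K C M := ⟨hM, hCM, hML.trans m.le, hne, fun he => m.neK (le_antisymm m.le (he ▸ hML))⟩
  exact hne2 (Subgroup.eq_of_le_of_card_ge hML (by rw [m.card h d, m'.card h d]))

private theorem Mid68.mnz (h : Sys S q) (d : Dat S q A B K K' C n) (m : Mid68 S K C L) {g : G} (hg : g ∈ K')
    (hg' : g ∈ nz K) : g ∈ nz L := by
  have hCS := CS68 h d
  obtain ⟨x, hxL, hxC⟩ : ∃ x ∈ L, x ∉ C := by
    by_contra hcon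
    push Not at hcon
    exact m.neC (le_antisymm hcon m.ge)
  have hx1 : x ≠ 1 := by
    rintro rfl
    exact hxC C.one_mem
  obtain ⟨E, hE, hxE, hEL⟩ := m.cl.mem x hxL hx1
  obtain ⟨e, heE, he1, heK'⟩ := d.st.s7 h hE (hEL.trans m.le)
  have h1 := d.st.s4b h (m.le (hEL heE)) heK' hg hg'
  have h2 : g * e * g⁻¹ ∈ L := by
    have h3 : g * e * g⁻¹ = (e * g * e⁻¹ * g⁻¹)⁻¹ * e := by group
    rw [h3]
    exact L.mul_mem (L.inv_mem (m.ge h1)) (hEL heE)
  have h4 : g * e * g⁻¹ ≠ 1 := by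
    intro h5
    rw [mul_inv_eq_one, mul_eq_left] at h5
    exact he1 h5
  have h5 : cj g E ≤ L := m.cl.le h (h.conj E hE g) h2 (conj_mem_cj heE) h4
  have h6 : C ≤ cj g⁻¹ L := by
    intro c hc
    rw [mem_cj, inv_inv]
    have h7 := d.st.central' hc hg
    rw [← h7, mul_inv_cancel_right]
    exact m.ge hc
  have h7 : E ≤ cj g⁻¹ L := by
    rw [← cj_le_iff (g := g), cj_cj_inv]
    exact h5
  have h8 := m.top h d (m.cl.inf h (m.cl.cj' h g⁻¹)) (le_inf m.ge h6) inf_le_left (by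
    intro h9
    exact hxC (h9 ▸ (⟨hxL, h7 hxE⟩ : x ∈ L ⊓ cj g⁻¹ L)))
  have h9 : L ≤ cj g⁻¹ L := h8.ge.trans inf_le_right
  have h10 : cj g L ≤ L := by
    have h11 := cj_mono (g := g) h9
    rwa [cj_cj_inv] at h11
  exact cj_eq_of_le h10

omit [Finite G] in
private theorem Mid68.nle (d : Dat S q A B K K' C n) (m : Mid68 S K C L) : ¬ A ≤ L := fun hA =>
  m.neK (le_antisymm m.le (d.st.minK L m.cl hA m.ge))

private theorem Mid68.lenz (h : Sys S q) (d : Dat S q A B K K' C n) (m : Mid68 S K C L) : L ≤ nz K' := by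
  obtain ⟨b, hb, hb1, hb'⟩ := (d.st.nr.symm h).ex
  have hbL := m.mnz h d (d.st.hB hb) (d.st.s1 h hb hb')
  intro x hx
  obtain ⟨c, hc, a, ha, ha', hca⟩ := d.st.s1c h (m.le hx) hb hb' hb1
  have h1 : x * b * x⁻¹ * b⁻¹ ∈ L := by
    have h2 : x * b * x⁻¹ * b⁻¹ = x * (b * x⁻¹ * b⁻¹) := by group
    rw [h2]
    exact L.mul_mem hx (nz_conj_mem hbL (L.inv_mem hx))
  have h2 : a ∈ L := by
    have h3 : a = c⁻¹ * (c * a) := by group
    rw [h3]
    refine L.mul_mem (L.inv_mem (m.ge hc)) ?_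
    rw [← hca]
    exact h1
  have h3 : a = 1 := by
    by_contra ha1
    exact m.nle d (m.cl.le h d.st.nr.hA h2 ha ha1)
  refine d.st.s2 h (m.le hx) hb hb' hb1 ?_
  rw [hca, h3, mul_one]
  exact hc

private theorem Mid68.uniq (h : Sys S q) (d : Dat S q A B K K' C n) (m : Mid68 S K C L) (m' : Mid68 S K C M) :
    M = L := by
  by_contra hne
  have hcap : L ⊓ M = C := by
    by_contra hcap
    have h1 := m.top h d (m.cl.inf h m'.cl) (le_inf m.ge m'.ge) inf_le_left hcap
    have h2 := m'.top h d (m.cl.inf h m'.cl) (le_inf m.ge m'.ge) inf_le_right hcap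
    exact hne (h2.symm.trans h1)
  have h1 := inter68 (le_sup_left : L ≤ L ⊔ M) (le_sup_right : M ≤ L ⊔ M)
  rw [hcap, m.card h d, m'.card h d, h.card C (CS68 h d)] at h1
  have hq := h.q1
  have h2 : q ^ 3 ≤ Nat.card (L ⊔ M : Subgroup G) := by
    refine Nat.le_of_mul_le_mul_right ?_ (by omega : 0 < q)
    calc q ^ 3 * q = q ^ 2 * q ^ 2 := by ring
      _ ≤ _ := h1
  have h3 : L ⊔ M = K := Subgroup.eq_of_le_of_card_ge (sup_le m.le m'.le) (by rw [d.card]; exact h2)
  have h4 : K ≤ nz K' := by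
    rw [← h3]
    exact sup_le (m.lenz h d) (m'.lenz h d)
  obtain ⟨a, ha, ha'⟩ := d.st.nr.exists_out h
  obtain ⟨b, hb, hb1, hb'⟩ := (d.st.nr.symm h).ex
  have h5 := d.st.s2conv h (d.st.hA ha) (h4 (d.st.hA ha)) hb hb'
  have h6 : a * b * a⁻¹ * b⁻¹ ∈ A := by
    have h7 : a * b * a⁻¹ * b⁻¹ = a * (b * a⁻¹ * b⁻¹) := by group
    rw [h7]
    exact A.mul_mem ha (nz_conj_mem hb' (A.inv_mem ha))
  have h7 : a * b * a⁻¹ * b⁻¹ = 1 := by
    by_contra h8
    exact d.st.not_mem h h6 h8 h5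
  rw [mul_inv_eq_one, mul_inv_eq_iff_eq_mul] at h7
  exact ha' (h.nz_of_comm d.st.nr.hB hb hb1 h7)

theorem Dat.four (h : Sys S q) (d : Dat S q A B K K' C n) (hL : Cl S L) (hCL : C ≤ L) (hLK : L ≤ K) : L = C ∨ L = K := by
  by_contra hcon
  push Not at hcon
  have m : Mid68 S K C L := ⟨hL, hCL, hLK, hcon.1, hcon.2⟩
  have hq := h.q1
  have hCS := CS68 h d
  have hnK : cj n K = K := d.nK
  have hnK' : cj n⁻¹ K = K := by
    conv_lhs => rw [← hnK]
    exact cj_inv_cj n K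
  have hnC : cj n⁻¹ C = A := by
    rw [← d.nA]
    exact cj_inv_cj n A
  obtain ⟨b, hb, hb1, hb'⟩ := (d.st.nr.symm h).ex
  have hbK := d.st.s1 h hb hb'
  -- uniqueness below `A`
  have huniq : ∀ M : Subgroup G, Cl S M → A ≤ M → M ≤ K → M ≠ A → M ≠ K → M = cj n⁻¹ L := by
    intro M hM hAM hMK hMA hMK'
    have m' : Mid68 S K C (cj n M) := by
      refine ⟨hM.cj' h n, ?_, ?_, ?_, ?_⟩
      · rw [← d.nA]
        exact cj_mono hAM
      · rw [← hnK]
        exact cj_mono hMK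
      · intro h1
        apply hMA
        rw [← hnC, ← h1, cj_inv_cj]
      · intro h1
        apply hMK'
        rw [← hnK', ← h1, cj_inv_cj]
    rw [← m.uniq h d m', cj_inv_cj]
  set l := cj n⁻¹ L with hl
  have hlcl : Cl S l := m.cl.cj' h n⁻¹
  have hlcard : Nat.card l = q ^ 2 := by
    rw [hl, card_cj]
    exact m.card h d
  have hAl : A ≤ l := by
    rw [← hnC]
    exact cj_mono m.ge
  have hlK : l ≤ K := by
    rw [← hnK']
    exact cj_mono m.le
  have hlA : l ≠ A := by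
    intro h1
    rw [h1, h.card A d.st.nr.hA] at hlcard
    have : q ^ 1 < q ^ 2 := (Nat.pow_lt_pow_iff_right hq).2 (by norm_num)
    rw [pow_one] at this
    omega
  have hlK' : l ≠ K := by
    intro h1
    rw [h1, d.card] at hlcard
    have : q ^ 2 < q ^ 3 := (Nat.pow_lt_pow_iff_right hq).2 (by norm_num)
    omega
  have hbl : b ∈ nz l := by
    refine mem_nz.2 (huniq (cj b l) (hlcl.cj' h b) ?_ ?_ ?_ ?_)
    · have h1 : cj b A = A := hb'
      rw [← h1]
      exact cj_mono hAl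
    · have h1 : cj b K = K := hbK
      rw [← h1]
      exact cj_mono hlK
    · intro h1
      apply hlA
      have h2 : cj b A = A := hb'
      rw [← h2] at h1
      have h3 := congrArg (cj b⁻¹) h1
      rwa [cj_inv_cj, cj_inv_cj] at h3
    · intro h1
      apply hlK'
      have h2 : cj b K = K := hbK
      rw [← h2] at h1
      have h3 := congrArg (cj b⁻¹) h1
      rwa [cj_inv_cj, cj_inv_cj] at h3
  have hbL : b ∈ nz L := m.mnz h d (d.st.hB hb) hbK
  have hLl : L ≠ l := by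
    intro h1
    exact m.nle d (h1 ▸ hAl)
  have hFcl : Cl S (L ⊓ l) := m.cl.inf h hlcl
  obtain ⟨j, hj⟩ := hFcl.card h
  have h1 := inter68 m.le hlK
  rw [m.card h d, hlcard, d.card, hj] at h1
  have hj1 : 1 ≤ j := by
    by_contra hj0
    have : j = 0 := by omega
    rw [this, pow_zero, mul_one] at h1
    have h2 : q ^ 3 < q ^ 4 := (Nat.pow_lt_pow_iff_right hq).2 (by norm_num)
    have h3 : q ^ 2 * q ^ 2 = q ^ 4 := by ring
    omega
  have hj2 : j < 2 := by
    by_contra hj3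
    have h2 : q ^ 2 ≤ q ^ j := Nat.pow_le_pow_right (by omega) (by omega)
    have h3 : L ⊓ l = L := Subgroup.eq_of_le_of_card_ge inf_le_left (by rw [m.card h d, hj]; exact h2)
    have h4 : L ⊓ l = l := Subgroup.eq_of_le_of_card_ge inf_le_right (by rw [hlcard, hj]; exact h2)
    exact hLl (h3.symm.trans h4)
  have hj3 : j = 1 := by omega
  rw [hj3, pow_one] at hj
  have hFS : L ⊓ l ∈ S := by
    have h2 : ∃ x ∈ L ⊓ l, x ≠ 1 := by
      by_contra hc
      push Not at hc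
      have h3 : L ⊓ l = ⊥ := (Subgroup.eq_bot_iff_forall _).2 hc
      rw [h3, Subgroup.card_bot] at hj
      omega
    obtain ⟨x, hx, hx1⟩ := h2
    obtain ⟨X, hX, hxX, hXF⟩ := hFcl.mem x hx hx1
    have h3 : X = L ⊓ l := Subgroup.eq_of_le_of_card_ge hXF (by rw [hj, h.card X hX])
    rw [← h3]
    exact hX
  have hFC : L ⊓ l = C := by
    by_contra hne
    have hcomm : ∀ x ∈ L ⊓ l, x * b = b * x := by
      intro x hx
      have h2 := d.st.s2conv h (m.le hx.1) (m.lenz h d hx.1) hb hb'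
      have h3 : x * b * x⁻¹ * b⁻¹ ∈ L ⊓ l := by
        have h4 : x * b * x⁻¹ * b⁻¹ = x * (b * x⁻¹ * b⁻¹) := by group
        rw [h4]
        exact ⟨L.mul_mem hx.1 (nz_conj_mem hbL (L.inv_mem hx.1)), l.mul_mem hx.2 (nz_conj_mem hbl (l.inv_mem hx.2))⟩
      have h4 := h.ne_one hFS hCS hne h3 h2
      rwa [mul_inv_eq_one, mul_inv_eq_iff_eq_mul] at h4
    have h2 : L ⊓ l ≤ nz B := fun x hx => h.nz_of_comm d.st.nr.hB hb hb1 (hcomm x hx)
    have h3 : Cm (L ⊓ l) B := h.comm_of_nz hFS d.st.nr.hB h2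
    have h4 : L ⊓ l ≤ C := by
      rw [d.st.hC]
      exact le_inf (inf_le_left.trans m.le) (cm_iff_le_ct.1 h3)
    exact hne (Subgroup.eq_of_le_of_card_ge h4 (by rw [hj, h.card C hCS]))
  have hCl : C ≤ l := by
    rw [← hFC]
    exact inf_le_right
  exact hlK' (le_antisymm hlK (d.st.minK l hlcl hAl hCl))

end Pool.Agent.Helper37.WC
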