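import Pool.Agent.Helper37.WC.M4

/-!
WC-21 (MP_b5afc9_al, project WC). Case II, fifth step. `[x, y] = x*y*x⁻¹*y⁻¹`. Note that `C` is a member (`nA`).

`E ≤ K` a member, `E ≠ C`. Then `E ⊓ C` is trivial. Take `u ∈ E`, `u ≠ 1`, `u ∈ nz K'` (`s7`), so `u ∉ C`; `b' ∈ B`, `b' ∉ nz A` (`exists_out` for `st.nr.symm`); `g := b'*(u*b'*u⁻¹)`: by `s6` `g ∈ K'`, `g ∈ nz K`, `g ∉ C`, `g*u = u*g`. Let `H ≤ K'` be the member containing `g` (`g ≠ 1`). `Cm H C` since `C ≤ K'` and `K'` is abelian.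
`g ∈ nz E` (`Sys.nz_of_comm`, it commutes with `u`). `u ∈ nz H` (it commutes with `g`). If `Cm E H`: then `H` commutes with `C ⊔ E ≤ K` and so with `clo S (C ⊔ E)` (`cm_clo`), which is a clique group containing `C` and `E`, contained in `K`, so equal to `K` by `Dat.four` (it is not `C`). So `Cm H A`, and `g ∈ K' ⊓ ct A = C`: contradiction.
So `NR S E H`. `E ⊓ nz K' = nn E H`: `x ∈ E`, `x ∈ nz K'`: `[x, g] ∈ C` (`s4b`) and `∈ E` (`g ∈ nz E`), so `x` commutes with `g ≠ 1`, so `x ∈ nz H`. Conversely `x ∈ E`, `x ∈ nz H`: `x` commutes with `g` by `NR.cent`, so by `s5` `x ∈ nz K'` or `g ∈ C`.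
-/

namespace Pool.Agent.Helper37.WC

variable {G : Type*} [Group G] [Finite G] {S : Set (Subgroup G)} {q : ℕ} {A B C D E X K K' L M P : Subgroup G} {n : G}

theorem Dat.five (h : Sys S q) (d : Dat S q A B K K' C n) (hE : E ∈ S) (hEK : E ≤ K) (hEC : E ≠ C) :
    ∃ H ∈ S, H ≤ K' ∧ NR S E H ∧ Cm H C ∧ (E ⊓ nz K' : Subgroup G) = nn E H := by
  have s := d.st
  have hCS : C ∈ S := by
    have h1 := h.conj A s.nr.hA n
    rw [d.nA] at h1
    exact h1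
  obtain ⟨u, hu, hu1, huK⟩ := s.s7 h hE hEK
  have huC : u ∉ C := fun hc => hEC (h.eq hE hCS hu hc hu1)
  obtain ⟨b', hb, hb'⟩ := (s.nr.symm h).exists_out h
  obtain ⟨hgK', hgK, hgC, hgu⟩ := s.s6 h (hEK hu) huK huC hb hb'
  obtain ⟨g, hg⟩ : ∃ g, g = b' * (u * b' * u⁻¹) := ⟨_, rfl⟩
  rw [← hg] at hgK' hgK hgC hgu
  have hg1 : g ≠ 1 := fun hc => hgC (hc ▸ one_mem _)
  obtain ⟨H, hH, hgH, hHK⟩ := s.clK'.mem g hgK' hg1
  have hHC : Cm H C := fun x hx c hc => (s.central' hc (hHK hx)).symm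
  have hgE : g ∈ nz E := h.nz_of_comm hE hu hu1 hgu
  have huH : u ∈ nz H := h.nz_of_comm hH hgH hg1 hgu.symm
  have hnc : ¬ Cm E H := by
    intro hc
    have h1 : C ⊔ E ≤ ct H := sup_le (cm_iff_le_ct.1 hHC.symm) (cm_iff_le_ct.1 hc)
    have h2 : Cm H (C ⊔ E) := (cm_iff_le_ct.2 h1).symm
    have h3 : C ⊔ E ≤ K := sup_le s.C_le hEK
    have h4 := cm_clo h s.clK h3 hH h2
    have h5 := clo_cl h s.clK h3
    have h6 : C ⊔ E ≤ clo S (C ⊔ E) := le_clo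
    have h7 := clo_le s.clK h3
    rcases d.four h h5 (le_sup_left.trans h6) h7 with h8 | h8
    · apply huC
      rw [← h8]
      exact h6 (Subgroup.mem_sup_right hu)
    · rw [h8] at h4
      apply hgC
      rw [s.hC']
      exact ⟨hgK', fun a ha => h4 g hgH a (s.hA ha)⟩
  have hnr : NR S E H := ⟨hE, hH, hnc, u, hu, hu1, huH⟩
  refine ⟨H, hH, hHK, hnr, hHC, ?_⟩
  ext x
  constructor
  · intro hx
    obtain ⟨hxE, hxK⟩ := Subgroup.mem_inf.1 hx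
    refine mem_nn.2 ⟨hxE, ?_⟩
    have h1 := s.s4b h (hEK hxE) hxK hgK' hgK
    have h2 : x * g * x⁻¹ * g⁻¹ ∈ E := by
      have h3 := E.mul_mem hxE (nz_conj_mem hgE (E.inv_mem hxE))
      have h4 : x * (g * x⁻¹ * g⁻¹) = x * g * x⁻¹ * g⁻¹ := by group
      rw [← h4]
      exact h3
    have h3 := h.ne_one hE hCS hEC h2 h1
    rw [mul_inv_eq_one, mul_inv_eq_iff_eq_mul] at h3
    exact h.nz_of_comm hH hgH hg1 h3
  · intro hx
    obtain ⟨hxE, hxH⟩ := mem_nn.1 hx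
    refine Subgroup.mem_inf.2 ⟨hxE, ?_⟩
    have h1 := hnr.cent h hxE hxH hgH hgE
    have h2 : x * g * x⁻¹ * g⁻¹ = 1 := by
      rw [mul_inv_eq_one, mul_inv_eq_iff_eq_mul]
      exact h1
    rcases s.s5 h (hEK hxE) hgK' (h2 ▸ one_mem C) with h3 | h3
    · exact h3
    · exact absurd h3 hgC

end Pool.Agent.Helper37.WC
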