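import Pool.Agent.Helper37.WC.M5

/-!
WC-22 (MP_b5afc9_al, project WC). Case II, sixth step: `card (nn A B)^2 = q`. `[x, y] = x*y*x⁻¹*y⁻¹`. Note that `C = cj n A` is a member.

Let `E1 = cj n C`, `B' = cj n B`. `E1 ≤ K` (`n ∈ nz K`). `E1 ≠ C` (otherwise `cj n C = cj n A`, `C = A`, but `A ≰ C`). `NR S C B'` (`NR.cj'` with `nA`). `Cm E1 B'` (`C` commutes with `B`; `Cm.cj'`). `K ⊓ ct B' = E1` (`ct_cj`, `cj_inf`, `n ∈ nz K`: `K ⊓ ct B' = cj n (K ⊓ ct B) = cj n C`).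
`q1 := card (nn A B) = card (nn C B')` (`nn_cj`, `card_cj`). By `Dat.five` for `E1`: a member `H ≤ K'`, `NR S E1 H`, `Cm H C`. `s := card (nn E1 H)`. Take `g ∈ H`, `g ≠ 1`, `g ∈ nz E1` (symmetric pair), `e ∈ E1`, `e ∉ nz H` (`exists_out`), `d0 ∈ C`, `d0 ≠ 1`, `d0 ∈ nz B'`.
`e*d0 ≠ 1` lies in a member `F ≤ K` (`Cl.mem`); `F ≠ E1` and `F ≠ C` (as `E1 ⊓ C` is trivial, `e ≠ 1`, `d0 ≠ 1`). `e*d0 ∈ nz B'` (`e` commutes with `B'`). Not `Cm F B'` (else `F ≤ K ⊓ ct B' = E1`), so `NR S F B'` (`Sys.nr_or`). `card (nn F B') = card (nn B' F) = card (nn B' C) = card (nn C B') = q1`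
(`NR.card_eq`, `NR.l4c` with `M = K`, pair `(C, B')`).
Every `x ∈ K`, `x ∈ nz B'` is of the form `e'*d'` with `e' ∈ E1`, `d' ∈ C`, `d' ∈ nz B'` (`NR.l4b` for `(C, B')`).
Claim: the map `nn F B' × (nn E1 H × C) → E1 ⊔ C` (or into `E1 × C`), `(f, x, d) ↦ f*x*d` is injective; equivalently `nn F B'` meets `(nn E1 H)*C` trivially: let `f ∈ nn F B'`, `f = x*d`, `x ∈ nn E1 H`, `d ∈ C`, `f ≠ 1`. `g` commutes with `x` (`NR.cent`) and with `d`, so with `f`, so `g ∈ nz F`. So `[g, e*d0] ∈ F`; `g` commutes with `d0 ∈ C`, so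
`[g, e*d0] = [g, e] ∈ E1` (`g ∈ nz E1`). `F ⊓ E1` is trivial so `g` commutes with `e`, so `e ∈ nz H`: contradiction.
So `q1 * (s * q) ≤ card (E1 × C) = q^2` and `q1 * s ≤ q`. With `q ≤ q1^2` and `q ≤ s^2` (`NR.card_sq`): `q1^2 = q` (`q^2 ≤ q1^2 * s^2 ≤ q^2`, so equality everywhere).
-/

namespace Pool.Agent.Helper37.WC

variable {G : Type*} [Group G] [Finite G] {S : Set (Subgroup G)} {q : ℕ} {A B C D E X K K' L M P : Subgroup G} {n : G}

theorem Dat.six (h : Sys S q) (d : Dat S q A B K K' C n) : Nat.card (nn A B) ^ 2 = q := by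
  have st := d.st
  have hAS := st.nr.hA
  have hBS := st.nr.hB
  have hCS : C ∈ S := by
    rw [← d.nA]
    exact h.conj A hAS n
  have hnK : cj n K = K := d.nK
  obtain ⟨E1, hE1⟩ : ∃ E1, E1 = cj n C := ⟨_, rfl⟩
  obtain ⟨B', hB'⟩ : ∃ B', B' = cj n B := ⟨_, rfl⟩
  have hE1S : E1 ∈ S := by
    rw [hE1]
    exact h.conj C hCS n
  have hB'S : B' ∈ S := by
    rw [hB']
    exact h.conj B hBS n
  have hE1K : E1 ≤ K := by
    rw [hE1, ← hnK]
    exact cj_mono st.C_le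
  have hne : E1 ≠ C := by
    intro heq
    have h1 : C = A := by
      have h2 : cj n C = cj n A := by rw [← hE1, heq, d.nA]
      have h3 := congrArg (cj n⁻¹) h2
      rwa [cj_inv_cj, cj_inv_cj] at h3
    obtain ⟨a, ha, ha1⟩ := h.exists_ne hAS
    refine st.not_mem h ha ha1 ?_
    rw [h1]
    exact ha
  have nCB : NR S C B' := by
    have h1 := st.nr.cj' h n
    rwa [d.nA, ← hB'] at h1
  have hCB : Cm C B := by
    intro c hc b hb
    have h1 : c ∈ K ⊓ ct B := by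
      rw [← st.hC]
      exact hc
    exact h1.2 b hb
  have hE1B : Cm E1 B' := by
    rw [hE1, hB']
    exact hCB.cj' n
  have hinf : K ⊓ ct B' = E1 := by
    rw [hE1, hB', ct_cj]
    conv_lhs => rw [← hnK]
    rw [← cj_inf, ← st.hC]
  have hcard1 : Nat.card (nn C B') = Nat.card (nn A B) := by
    rw [hB', ← d.nA, nn_cj, card_cj]
  obtain ⟨H, hHS, hHK', nEH, hHC, -⟩ := d.five h hE1S hE1K hne
  obtain ⟨g, hgH, hg1, hgE⟩ := (nEH.symm h).ex
  obtain ⟨e, heE, heH⟩ := nEH.exists_out h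
  obtain ⟨d0, hd0C, hd01, hd0B⟩ := nCB.ex
  have hE1C : ∀ x, x ∈ E1 → x ∈ C → x = 1 := fun x hx hx' => h.ne_one hE1S hCS hne hx hx'
  have he1 : e ≠ 1 := by
    intro h1
    apply heH
    rw [h1]
    exact (nz H).one_mem
  have hed1 : e * d0 ≠ 1 := by
    intro h1
    have h2 : e = d0⁻¹ := eq_inv_of_mul_eq_one_left h1
    refine he1 (hE1C e heE ?_)
    rw [h2]
    exact C.inv_mem hd0C
  have hedK : e * d0 ∈ K := K.mul_mem (hE1K heE) (st.C_le hd0C)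
  obtain ⟨F, hFS, hedF, hFK⟩ := st.clK.mem _ hedK hed1
  have hFE1 : F ≠ E1 := by
    intro heq
    rw [heq] at hedF
    have h1 : d0 ∈ E1 := (E1.mul_mem_cancel_left heE).1 hedF
    exact hd01 (hE1C d0 h1 hd0C)
  have heB : e ∈ nz B' := by
    apply mem_nz_of
    intro x hx
    have h1 := hE1B e heE x hx
    rw [h1, mul_inv_cancel_right]
    exact hx
  have hedB : e * d0 ∈ nz B' := (nz B').mul_mem heB hd0B
  have hFB : ¬ Cm F B' := by
    intro hc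
    apply hFE1
    have h1 : e * d0 ∈ E1 := by
      rw [← hinf]
      exact ⟨hedK, hc _ hedF⟩
    exact h.eq hFS hE1S hedF h1 hed1
  have nFB : NR S F B' := (h.nr_or hFS hB'S hedF hed1 hedB).resolve_left hFB
  have hcard2 : Nat.card (nn F B') = Nat.card (nn A B) := by
    rw [nFB.card_eq h, nCB.l4c h st.clK st.C_le hFS hFK nFB, ← nCB.card_eq h, hcard1]
  have claim : ∀ f ∈ F, ∀ x ∈ E1, x ∈ nz H → ∀ c ∈ C, f = x * c → f = 1 := by
    intro f hf x hx hxH c hc hfx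
    by_contra hf1
    have hgx : g * x = x * g := (nEH.cent h hx hxH hgH hgE).symm
    have hgc : g * c = c * g := hHC g hgH c hc
    have hgf : g * f = f * g := by
      rw [hfx, ← mul_assoc, hgx, mul_assoc, hgc, mul_assoc]
    have hgF : g ∈ nz F := h.nz_of_comm hFS hf hf1 hgf
    have h1 : g * (e * d0) * g⁻¹ * (e * d0)⁻¹ ∈ F := F.mul_mem (nz_conj_mem hgF hedF) (F.inv_mem hedF)
    have h2 : g * (e * d0) * g⁻¹ * (e * d0)⁻¹ = g * e * g⁻¹ * e⁻¹ := by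
      have h3 : Commute g d0 := hHC g hgH d0 hd0C
      have h4 : d0 * g⁻¹ = g⁻¹ * d0 := h3.inv_left.eq.symm
      calc g * (e * d0) * g⁻¹ * (e * d0)⁻¹ = g * e * (d0 * g⁻¹) * d0⁻¹ * e⁻¹ := by group
        _ = g * e * (g⁻¹ * d0) * d0⁻¹ * e⁻¹ := by rw [h4]
        _ = g * e * g⁻¹ * e⁻¹ := by group
    rw [h2] at h1
    have h5 : g * e * g⁻¹ * e⁻¹ ∈ E1 := E1.mul_mem (nz_conj_mem hgE heE) (E1.inv_mem heE)
    have h6 : g * e * g⁻¹ * e⁻¹ = 1 := h.ne_one hFS hE1S hFE1 h1 h5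
    rw [mul_inv_eq_one, mul_inv_eq_iff_eq_mul] at h6
    exact heH (h.nz_of_comm hHS hgH hg1 h6.symm)
  let T : Set G := {t | ∃ a ∈ E1, ∃ c ∈ C, a * c = t}
  have hT1 : Nat.card T ≤ q * q := by
    have h1 : Function.Surjective
        (fun p : E1 × C => (⟨(p.1 : G) * p.2, p.1, p.1.2, p.2, p.2.2, rfl⟩ : T)) := by
      rintro ⟨t, a, ha, c, hc, rfl⟩
      exact ⟨(⟨a, ha⟩, ⟨c, hc⟩), rfl⟩
    have h2 := Nat.card_le_card_of_surjective _ h1
    rwa [Nat.card_prod, h.card _ hE1S, h.card _ hCS] at h2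
  have hF2 : ∀ f ∈ F, f ∈ nz B' → ∃ a ∈ E1, ∃ c ∈ C, a * c = f := by
    intro f hf hfB
    obtain ⟨c, hc, -, hfc⟩ := nCB.l4b h st.clK st.C_le (hFK hf) hfB
    refine ⟨f * c, ?_, c⁻¹, C.inv_mem hc, by group⟩
    rw [← hinf]
    exact ⟨K.mul_mem (hFK hf) (st.C_le hc), hfc⟩
  have hT2 : Nat.card (nn A B) * (Nat.card (nn E1 H) * q) ≤ Nat.card T := by
    have hmem : ∀ p : (nn F B') × (nn E1 H) × C, ((p.1 : G) * p.2.1 * p.2.2) ∈ T := by
      rintro ⟨⟨f, hf⟩, ⟨x, hx⟩, ⟨c, hc⟩⟩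
      obtain ⟨a, ha, c', hc', h1⟩ := hF2 f hf.1 hf.2
      refine ⟨a * x, E1.mul_mem ha hx.1, c' * c, C.mul_mem hc' hc, ?_⟩
      have h2 : x * c' = c' * x := st.clK.comm x (hE1K hx.1) c' (st.C_le hc')
      calc a * x * (c' * c) = a * (x * c') * c := by group
        _ = a * (c' * x) * c := by rw [h2]
        _ = (a * c') * x * c := by group
        _ = f * x * c := by rw [h1]
    have hinj : Function.Injective (fun p : (nn F B') × (nn E1 H) × C => (⟨_, hmem p⟩ : T)) := by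
      rintro ⟨⟨f, hf⟩, ⟨x, hx⟩, ⟨c, hc⟩⟩ ⟨⟨f', hf'⟩, ⟨x', hx'⟩, ⟨c', hc'⟩⟩ h1
      have h2 : f * x * c = f' * x' * c' := congrArg Subtype.val h1
      have hcc : c' * c⁻¹ ∈ C := C.mul_mem hc' (C.inv_mem hc)
      have hxx : x' * x⁻¹ ∈ E1 := E1.mul_mem hx'.1 (E1.inv_mem hx.1)
      have h4 : (c' * c⁻¹) * x⁻¹ = x⁻¹ * (c' * c⁻¹) :=
        st.clK.comm _ (st.C_le hcc) _ (K.inv_mem (hE1K hx.1))
      have e1 : f'⁻¹ * f = (x' * x⁻¹) * (c' * c⁻¹) := by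
        calc f'⁻¹ * f = f'⁻¹ * (f * x * c) * c⁻¹ * x⁻¹ := by group
          _ = f'⁻¹ * (f' * x' * c') * c⁻¹ * x⁻¹ := by rw [h2]
          _ = x' * ((c' * c⁻¹) * x⁻¹) := by group
          _ = x' * (x⁻¹ * (c' * c⁻¹)) := by rw [h4]
          _ = (x' * x⁻¹) * (c' * c⁻¹) := by group
      have h5 : f'⁻¹ * f = 1 := claim _ (F.mul_mem (F.inv_mem hf'.1) hf.1) (x' * x⁻¹) hxx
        ((nz H).mul_mem hx'.2 ((nz H).inv_mem hx.2)) (c' * c⁻¹) hcc e1
      have h6 : f = f' := (inv_mul_eq_one.1 h5).symm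
      have h7 : (x' * x⁻¹) * (c' * c⁻¹) = 1 := by rw [← e1, h5]
      have h8 : x' * x⁻¹ = (c' * c⁻¹)⁻¹ := eq_inv_of_mul_eq_one_left h7
      have h9 : x' * x⁻¹ = 1 := hE1C _ hxx (by
        rw [h8]
        exact C.inv_mem hcc)
      have h10 : x = x' := (mul_inv_eq_one.1 h9).symm
      have h11 : c' * c⁻¹ = 1 := by
        rw [h9, one_mul] at h7
        exact h7
      have h12 : c = c' := (mul_inv_eq_one.1 h11).symm
      subst h6
      subst h10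
      subst h12
      rfl
    have h1 := Nat.card_le_card_of_injective _ hinj
    rwa [Nat.card_prod, Nat.card_prod, hcard2, h.card _ hCS] at h1
  have hq := h.q1
  have hs : q ≤ Nat.card (nn E1 H) ^ 2 := nEH.card_sq h
  have hq1 : q ≤ Nat.card (nn A B) ^ 2 := st.nr.card_sq h
  have h1 : Nat.card (nn A B) * Nat.card (nn E1 H) ≤ q := by
    have h2 := hT2.trans hT1
    rw [← mul_assoc] at h2
    exact Nat.le_of_mul_le_mul_right h2 (by omega)
  refine le_antisymm ?_ hq1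
  by_contra hcon
  push Not at hcon
  have h4 : q * q < Nat.card (nn A B) ^ 2 * Nat.card (nn E1 H) ^ 2 :=
    calc q * q < Nat.card (nn A B) ^ 2 * q := Nat.mul_lt_mul_of_pos_right hcon (by omega)
      _ ≤ Nat.card (nn A B) ^ 2 * Nat.card (nn E1 H) ^ 2 := Nat.mul_le_mul_left _ hs
  have h5 : Nat.card (nn A B) ^ 2 * Nat.card (nn E1 H) ^ 2 ≤ q * q := by
    rw [← mul_pow, sq]
    exact Nat.mul_le_mul h1 h1
  omega

end Pool.Agent.Helper37.WC
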