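import Pool.Agent.Helper37.WC.St

/-!
WC-14 (MP_b5afc9_al, project WC). First properties of the structure `St`. `[x, y] = x*y*x⁻¹*y⁻¹`. The subgroup of the elements of `K` normalising `K'` is called `K0` in the comments.

* `s1`: `b ∈ B`, `b ∈ nz A`: `b ∈ nz K`. (`cj b⁻¹ K` is a clique group containing `A` and `C` (`b` commutes with `C`), so `K ≤ cj b⁻¹ K`, i.e. `cj b K ≤ K`; `cj_eq_of_le`.)
* `s1c`: `k ∈ K`, `b ∈ B`, `b ∈ nz A`, `b ≠ 1`: `[k, b] = c*a` with `c ∈ C`, `a ∈ A`, `a ∈ nz B`. Proof: `[k, b] ∈ K` by `s1`, and `[k, b] = k*(b*k⁻¹*b⁻¹)` commutes with `b` (`b*b = 1`, `K` abelian of exponent two), so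
  `[k, b] ∈ nz B` (`Sys.nz_of_comm`), now `NR.l4b` (`x := [k, b]`) gives `a` with `[k, b]*a ∈ K ⊓ ct B = C` and `a*a = 1`.
* `s2`: `k ∈ K`, `b ∈ B`, `b ∈ nz A`, `b ≠ 1`, `[k, b] ∈ C`: then `k ∈ nz K'`. Proof: `k*b*k⁻¹ = [k, b]*b ∈ K'` and it is in `cj k B`, and `≠ 1`; so `cj k B ≤ K'` (`Cl.le`). So `cj k⁻¹ K'` is a clique group containing `B` and `C` (`k` commutes with `C`), so
  `K' ≤ cj k⁻¹ K'` by `minK'`, `cj k K' ≤ K'`, so `k ∈ nz K'` (`cj_eq_of_le`).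
* `s2conv`: `k ∈ K`, `k ∈ nz K'`, `b ∈ B`, `b ∈ nz A`: `[k, b] ∈ K` (by `s1`) and `∈ K'`, so in `C` by `St.inf`.
* `s4b`: `k ∈ K`, `k ∈ nz K'`, `g ∈ K'`, `g ∈ nz K`: `[k, g] ∈ C` by `St.inf`.
* `s4a`: `g ∈ K'`, `k ∈ K`, `k ∈ nz K'`: `t = [g, k] ∈ K'` and `t ∈ nz K`. Proof: `t ∈ K'` clear. By `s2` for the symmetric structure (`s.symm h`) it is enough to show `[t, a] ∈ C` for one `a ∈ A`, `a ∈ nz B`, `a ≠ 1`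
  (exists by `nr.ex`). By `s1c` for the symmetric structure `[g, a] = c*b1` with `c ∈ C`, `b1 ∈ B`, `b1 ∈ nz A`, `a*g*a⁻¹ = e*g` with `e = [g, a]⁻¹ = c*b1` (exponent two). `a` commutes with `k`. So
  `a*t*a⁻¹ = [e*g, k] = e*[g, k]*(k*e⁻¹*k⁻¹) = t*(e*(k*e⁻¹*k⁻¹))` (`K'` abelian, `k*e⁻¹*k⁻¹ ∈ K'`), and `e*(k*e⁻¹*k⁻¹) = b1*(k*b1⁻¹*k⁻¹) ∈ C` by `s2conv`. So `a*t*a⁻¹*t⁻¹ ∈ C` and its inverse is `[t, a]`.
* `s4c`: the symmetric statement: `k ∈ K`, `g ∈ K'`, `g ∈ nz K`: `[k, g] ∈ nz K'` (it is in `K`): `s4a` for `s.symm h`.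
-/

namespace Pool.Agent.Helper37.WC

variable {G : Type*} [Group G] [Finite G] {S : Set (Subgroup G)} {q : ℕ} {A B C E K K' M : Subgroup G}

theorem St.s1 (h : Sys S q) (s : St S A B K K' C) {b : G} (hb : b ∈ B) (hb' : b ∈ nz A) : b ∈ nz K := by
  have h1 : K ≤ cj b⁻¹ K := by
    refine s.minK _ (s.clK.cj' h b⁻¹) ?_ ?_
    · intro a ha
      rw [mem_cj, inv_inv]
      exact s.hA (nz_conj_mem hb' ha)
    · intro c hc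
      rw [mem_cj, inv_inv]
      have hc' : c ∈ K ⊓ ct B := by rw [← s.hC]; exact hc
      have h2 : c * b = b * c := hc'.2 b hb
      rw [← h2, mul_inv_cancel_right]
      exact hc'.1
  refine cj_eq_of_le ?_
  have h2 := cj_mono (g := b) h1
  rwa [cj_cj_inv] at h2

omit [Finite G] in
private theorem comm_mem52 {M : Subgroup G} {k b : G} (hk : k ∈ M) (hb : b ∈ nz M) : k * b * k⁻¹ * b⁻¹ ∈ M := by
  have h1 := M.mul_mem hk (nz_conj_mem hb (M.inv_mem hk))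
  simpa [mul_assoc] using h1

omit [Finite G] in
private theorem comm_mem52' {M : Subgroup G} {k b : G} (hk : k ∈ nz M) (hb : b ∈ M) : k * b * k⁻¹ * b⁻¹ ∈ M :=
  M.mul_mem (nz_conj_mem hk hb) (M.inv_mem hb)

theorem St.s1c (h : Sys S q) (s : St S A B K K' C) {k b : G} (hk : k ∈ K) (hb : b ∈ B) (hb' : b ∈ nz A) (hb1 : b ≠ 1) :
    ∃ c ∈ C, ∃ a ∈ A, a ∈ nz B ∧ k * b * k⁻¹ * b⁻¹ = c * a := by
  have hbK := s.s1 h hb hb'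
  have hx : k * b * k⁻¹ * b⁻¹ ∈ K := comm_mem52 hk hbK
  have hki := s.clK.inv h hk
  have hbi := h.inv s.nr.hB hb
  have hbb := h.sq B s.nr.hB b hb
  have hxb : (k * b * k⁻¹ * b⁻¹) * b = b * (k * b * k⁻¹ * b⁻¹) := by
    have hz : b * k * b ∈ K := by
      have h1 := nz_conj_mem hbK hk
      rwa [hbi] at h1
    have hc := s.clK.comm k hk _ hz
    rw [hki, hbi]
    calc k * b * k * b * b = (k * (b * k * b)) * b := by simp only [mul_assoc]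
      _ = (b * k * b * k) * b := by rw [hc]
      _ = b * (k * b * k * b) := by simp only [mul_assoc]
  have hx' : k * b * k⁻¹ * b⁻¹ ∈ nz B := h.nz_of_comm s.nr.hB hb hb1 hxb
  obtain ⟨a, ha, ha', hxa⟩ := s.nr.l4b h s.clK s.hA hx hx'
  have haa := h.sq A s.nr.hA a ha
  refine ⟨k * b * k⁻¹ * b⁻¹ * a, ?_, a, ha, ha', ?_⟩
  · rw [s.hC]
    exact ⟨K.mul_mem hx (s.hA ha), hxa⟩
  · rw [mul_assoc _ a a, haa, mul_one]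

theorem St.s2 (h : Sys S q) (s : St S A B K K' C) {k b : G} (hk : k ∈ K) (hb : b ∈ B) (hb' : b ∈ nz A) (hb1 : b ≠ 1)
    (hkb : k * b * k⁻¹ * b⁻¹ ∈ C) : k ∈ nz K' := by
  have h1 : k * b * k⁻¹ ∈ K' := by
    have h2 := K'.mul_mem (s.C_le' hkb) (s.hB hb)
    rwa [inv_mul_cancel_right] at h2
  have h2 : cj k B ≤ K' := by
    refine s.clK'.le h (h.conj B s.nr.hB k) h1 (conj_mem_cj hb) ?_
    intro h3
    refine hb1 ?_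
    rw [mul_inv_eq_one] at h3
    exact mul_left_cancel (h3.trans (mul_one k).symm)
  have h4 : K' ≤ cj k⁻¹ K' := by
    refine s.minK' _ (s.clK'.cj' h k⁻¹) ?_ ?_
    · have h5 := cj_mono (g := k⁻¹) h2
      rwa [cj_inv_cj] at h5
    · intro c hc
      rw [mem_cj, inv_inv, ← s.central hc hk, mul_inv_cancel_right]
      exact s.C_le' hc
  refine cj_eq_of_le ?_
  have h5 := cj_mono (g := k) h4
  rwa [cj_cj_inv] at h5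

theorem St.s2conv (h : Sys S q) (s : St S A B K K' C) {k b : G} (hk : k ∈ K) (hk' : k ∈ nz K') (hb : b ∈ B)
    (hb' : b ∈ nz A) : k * b * k⁻¹ * b⁻¹ ∈ C :=
  s.inf (comm_mem52 hk (s.s1 h hb hb')) (comm_mem52' hk' (s.hB hb))

theorem St.s4b (h : Sys S q) (s : St S A B K K' C) {k g : G} (hk : k ∈ K) (hk' : k ∈ nz K') (hg : g ∈ K')
    (hg' : g ∈ nz K) : k * g * k⁻¹ * g⁻¹ ∈ C :=
  s.inf (comm_mem52 hk hg') (comm_mem52' hk' hg)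

theorem St.s4a (h : Sys S q) (s : St S A B K K' C) {k g : G} (hk : k ∈ K) (hk' : k ∈ nz K') (hg : g ∈ K') :
    g * k * g⁻¹ * k⁻¹ ∈ K' ∧ g * k * g⁻¹ * k⁻¹ ∈ nz K := by
  have ht : g * k * g⁻¹ * k⁻¹ ∈ K' := comm_mem52 hg hk'
  refine ⟨ht, ?_⟩
  obtain ⟨a, ha, ha1, ha'⟩ := s.nr.ex
  refine (s.symm h).s2 h ht ha ha' ha1 ?_
  obtain ⟨c, hc, b, hb, hb', hcb⟩ := (s.symm h).s1c h hg ha ha' ha1
  have hbi := h.inv s.nr.hB hb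
  have hck := s.central hc hk
  -- `e = [a, g]`
  have he : a * g * a⁻¹ * g⁻¹ = b⁻¹ * c⁻¹ := by
    have h1 : a * g * a⁻¹ * g⁻¹ = (g * a * g⁻¹ * a⁻¹)⁻¹ := by simp [mul_assoc]
    rw [h1, hcb, mul_inv_rev]
  have heK : b⁻¹ * c⁻¹ ∈ K' := K'.mul_mem (K'.inv_mem (s.hB hb)) (K'.inv_mem (s.C_le' hc))
  have hag : a * g * a⁻¹ = b⁻¹ * c⁻¹ * g := by rw [← he, inv_mul_cancel_right]
  have hak : a * k * a⁻¹ = k := by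
    rw [s.clK.comm a (s.hA ha) k hk, mul_inv_cancel_right]
  have hX : (b⁻¹ * c⁻¹) * (k * (b⁻¹ * c⁻¹)⁻¹ * k⁻¹) ∈ C := by
    have h1 := C.inv_mem (s.s2conv h hk hk' hb hb')
    have h2 : (b⁻¹ * c⁻¹) * (k * (b⁻¹ * c⁻¹)⁻¹ * k⁻¹) = (k * b * k⁻¹ * b⁻¹)⁻¹ := by
      have h3 : c⁻¹ * k * c = k := by rw [mul_assoc, ← hck, inv_mul_cancel_left]
      calc (b⁻¹ * c⁻¹) * (k * (b⁻¹ * c⁻¹)⁻¹ * k⁻¹) = b⁻¹ * (c⁻¹ * k * c) * b * k⁻¹ := by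
            simp [mul_assoc]
        _ = b⁻¹ * k * b * k⁻¹ := by rw [h3]
        _ = b * k * b⁻¹ * k⁻¹ := by rw [hbi]
        _ = (k * b * k⁻¹ * b⁻¹)⁻¹ := by simp [mul_assoc]
    rw [h2]
    exact h1
  have hkK : k * (b⁻¹ * c⁻¹)⁻¹ * k⁻¹ ∈ K' := nz_conj_mem hk' (K'.inv_mem heK)
  have hat : a * (g * k * g⁻¹ * k⁻¹) * a⁻¹ =
      (b⁻¹ * c⁻¹) * (k * (b⁻¹ * c⁻¹)⁻¹ * k⁻¹) * (g * k * g⁻¹ * k⁻¹) := by
    calc a * (g * k * g⁻¹ * k⁻¹) * a⁻¹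
        = (a * g * a⁻¹) * (a * k * a⁻¹) * (a * g * a⁻¹)⁻¹ * (a * k * a⁻¹)⁻¹ := by simp [mul_assoc]
      _ = (b⁻¹ * c⁻¹ * g) * k * (b⁻¹ * c⁻¹ * g)⁻¹ * k⁻¹ := by rw [hag, hak]
      _ = (b⁻¹ * c⁻¹) * ((g * k * g⁻¹ * k⁻¹) * (k * (b⁻¹ * c⁻¹)⁻¹ * k⁻¹)) := by simp [mul_assoc]
      _ = (b⁻¹ * c⁻¹) * ((k * (b⁻¹ * c⁻¹)⁻¹ * k⁻¹) * (g * k * g⁻¹ * k⁻¹)) := by
          rw [s.clK'.comm _ ht _ hkK]
      _ = (b⁻¹ * c⁻¹) * (k * (b⁻¹ * c⁻¹)⁻¹ * k⁻¹) * (g * k * g⁻¹ * k⁻¹) := (mul_assoc _ _ _).symm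
  have h5 : a * (g * k * g⁻¹ * k⁻¹) * a⁻¹ * (g * k * g⁻¹ * k⁻¹)⁻¹ ∈ C := by
    rw [hat, mul_inv_cancel_right]
    exact hX
  have h6 := C.inv_mem h5
  have h7 : (g * k * g⁻¹ * k⁻¹) * a * (g * k * g⁻¹ * k⁻¹)⁻¹ * a⁻¹ =
      (a * (g * k * g⁻¹ * k⁻¹) * a⁻¹ * (g * k * g⁻¹ * k⁻¹)⁻¹)⁻¹ := by
    generalize g * k * g⁻¹ * k⁻¹ = t
    simp [mul_assoc]
  rw [h7]
  exact h6

theorem St.s4c (h : Sys S q) (s : St S A B K K' C) {k g : G} (hk : k ∈ K) (hg : g ∈ K') (hg' : g ∈ nz K) :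
    k * g * k⁻¹ * g⁻¹ ∈ K ∧ k * g * k⁻¹ * g⁻¹ ∈ nz K' :=
  (s.symm h).s4a h hg hg' hk

end Pool.Agent.Helper37.WC
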