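import Pool.Agent.Helper37.WC.S1

/-!
WC-15 (MP_b5afc9_al, project WC). Further properties of `St`. `[x, y] = x*y*x⁻¹*y⁻¹`, `K0 = K ⊓ nz K'`, `K0' = K' ⊓ nz K`.

* `s5`: `k ∈ K`, `g ∈ K'`, `[k, g] ∈ C`: then `k ∈ nz K'` or `g ∈ C`. Proof: take `b ∈ B`, `b ∈ nz A`, `b ≠ 1` (`nr.symm`, `ex`). `s1c`: `[k, b] = c1*a1`, `a1 ∈ A`, `a1 ∈ nz B`. If `a1 = 1`, `k ∈ nz K'` by `s2`. Suppose `a1 ≠ 1`.
  `b` and `g` commute (`K'`), so `k*b*k⁻¹ = c1*a1*b` and `k*g*k⁻¹ = c*g`, `c = [k, g]`, commute. `c`, `c1 ∈ C` commute with everything in `K` and `K'`, so `a1*b` commutes with `g`, so `a1` commutes with `g`. So `g ∈ nz A`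
  (`Sys.nz_of_comm`). By `NR.l4b` for the pair `(B, A)` and `K'`: `g = c2*b2` with `b2 ∈ B`, `b2 ∈ nz A`, `c2 ∈ K' ⊓ ct A = C`. `[k, g] = [k, b2]` (`c2` central). If `b2 = 1`, `g = c2 ∈ C`. Otherwise `[k, b2] ∈ C` and `k ∈ nz K'` by `s2`.
* `s6`: `u ∈ K`, `u ∈ nz K'`, `u ∉ C`, `b' ∈ B`, `b' ∉ nz A`, `g := b'*(u*b'*u⁻¹)`: `g ∈ K'`, `g ∈ nz K`, `g ∉ C`, `g*u = u*g`. Proof: `b'*b' = 1`, so `g = [b', u]⁻¹`-like: `u*b'*u⁻¹ ∈ K'`; `[b', u] = b'*u*b'⁻¹*u⁻¹ = b'*(u*b'*u⁻¹) = g`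
  as `b'⁻¹ = b'`; so `s4a` gives `g ∈ K'`, `g ∈ nz K`. `u*g*u⁻¹ = (u*b'*u⁻¹)*b' = g` (`u*u = 1` by `Cl.sq`; `K'` abelian). If `g ∈ C`: `[b', u] ∈ C`, by `s5` for the symmetric structure `b' ∈ nz K` or `u ∈ C`; so `b' ∈ nz K`. By `s2conv` for the
  symmetric structure `[b', a] ∈ C` for `a ∈ A`, `a ∈ nz B`; choose `a ≠ 1`. But `a*b'*a⁻¹*b'⁻¹ ∈ nn B A` (`NR.comm_mem`) is in `B` and in `C` (inverse of `[b', a]`), so it is `1` (`St.not_mem` for the symmetric structure),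
  so `a` commutes with `b'` and `b' ∈ nz A`: contradiction.
* `inj`: `a ∈ A`, `a ∉ nz B`, `c, c' ∈ C`, `E, E' ∈ S`, `a*c ∈ E`, `a*c' ∈ E'`, `u ∈ E`, `u ∈ nz K'`, `u ≠ 1`, `u' ∈ E'`, `u' ∈ nz K'`, `u*u' ∈ C`: then `c = c'`. Proof: `E, E' ≤ K` (`Cl.le`; `a*c ∉ C` since `a ∉ C`, in particular `≠ 1`). `u ∉ C` (otherwise
  `E ≤ C` and `a ∈ C`). Suppose `c ≠ c'`; then `E ≠ E'` (otherwise `(a*c)*(a*c') = c*c' ∈ E ⊓ C`, which is nontrivial, so `E ≤ C`, `a ∈ C`). Choose `b' ∈ B`, `b' ∉ nz A` (`exists_out` for `nr.symm`) and `g` from `s6` for `u`: it commutes with `u` and, since `u' = u*c0` with `c0 ∈ C`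
  (`u⁻¹ = u`), also with `u'` (`u' ≠ 1` because `u ∉ C`). So `g ∈ nz E`, `g ∈ nz E'` (`Sys.nz_of_comm`). `[g, a*c] = [g, a]` lies in `E`, `[g, a*c'] = [g, a]` lies in `E'`, so `[g, a] = 1`. So `g ∈ nz A`; by `NR.l4b` for `(B, A)`: `g = c2*b2`. `b2` commutes with `a`. If
  `b2 ≠ 1` then `a ∈ nz B`, contradiction. So `g = c2 ∈ C`, contradiction.
-/

namespace Pool.Agent.Helper37.WC

variable {G : Type*} [Group G] [Finite G] {S : Set (Subgroup G)} {q : ℕ} {A B C E E' K K' M : Subgroup G}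

theorem St.s5 (h : Sys S q) (s : St S A B K K' C) {k g : G} (hk : k ∈ K) (hg : g ∈ K') (hkg : k * g * k⁻¹ * g⁻¹ ∈ C) :
    k ∈ nz K' ∨ g ∈ C := by
  obtain ⟨b, hb, hb1, hb'⟩ := (s.nr.symm h).ex
  obtain ⟨c1, hc1, a1, ha1, ha1', e1⟩ := s.s1c h hk hb hb' hb1
  by_cases h1 : a1 = 1
  · left
    refine s.s2 h hk hb hb' hb1 ?_
    rw [e1, h1, mul_one]
    exact hc1
  · obtain ⟨c, hcdef⟩ : ∃ c, c = k * g * k⁻¹ * g⁻¹ := ⟨_, rfl⟩
    rw [← hcdef] at hkg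
    have ha1K : a1 ∈ K := s.hA ha1
    have hbK : b ∈ K' := s.hB hb
    have hbg : Commute b g := s.clK'.comm b hbK g hg
    have e2 : k * b * k⁻¹ = c1 * a1 * b := by rw [← e1]; group
    have e3 : k * g * k⁻¹ = c * g := by rw [hcdef]; group
    have h2 : Commute (c1 * a1 * b) (c * g) := by
      rw [← e2, ← e3]
      exact (Commute.conj_iff k).2 hbg
    have hcc1 : Commute c c1 := s.central hkg (s.C_le hc1)
    have hca1 : Commute c a1 := s.central hkg ha1K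
    have hcb : Commute c b := s.central' hkg hbK
    have hxc : Commute (c1 * a1 * b) c :=
      ((hcc1.symm.mul_left hca1.symm).mul_left hcb.symm)
    have hxg : Commute (c1 * a1 * b) g := by
      have h3 := hxc.inv_right.mul_right h2
      rwa [inv_mul_cancel_left] at h3
    have hc1g : Commute c1 g := s.central' hc1 hg
    have h4 : Commute a1 g := by
      have h5 := (hc1g.inv_left.mul_left hxg).mul_left hbg.inv_left
      have h6 : c1⁻¹ * (c1 * a1 * b) * b⁻¹ = a1 := by group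
      rwa [h6] at h5
    have hgA : g ∈ nz A := h.nz_of_comm s.nr.hA ha1 h1 h4.symm
    obtain ⟨b2, hb2, hb2', hb2c⟩ := (s.nr.symm h).l4b h s.clK' s.hB hg hgA
    have hc2 : g * b2 ∈ C := by
      rw [s.hC']
      exact ⟨K'.mul_mem hg (s.hB hb2), hb2c⟩
    by_cases h5 : b2 = 1
    · right
      rwa [h5, mul_one] at hc2
    · left
      refine s.s2 h hk hb2 hb2' h5 ?_
      have hb2i : b2⁻¹ = b2 := h.inv s.nr.hB hb2
      obtain ⟨c2, hc2def⟩ : ∃ c2, c2 = g * b2 := ⟨_, rfl⟩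
      rw [← hc2def] at hc2
      have hg2 : g = c2 * b2 := by
        rw [hc2def, mul_assoc, ← hb2i, hb2i, h.sq B s.nr.hB b2 hb2, mul_one]
      have hck : Commute c2 k := s.central hc2 hk
      have hcb2 : Commute c2 b2 := s.central' hc2 (s.hB hb2)
      have e4 : k * g * k⁻¹ * g⁻¹ = k * b2 * k⁻¹ * b2⁻¹ := by
        rw [hg2, mul_inv_rev]
        calc k * (c2 * b2) * k⁻¹ * (b2⁻¹ * c2⁻¹) = (k * c2) * b2 * k⁻¹ * b2⁻¹ * c2⁻¹ := by group
          _ = (c2 * k) * b2 * k⁻¹ * b2⁻¹ * c2⁻¹ := by rw [hck.eq]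
          _ = c2 * (k * b2 * k⁻¹ * b2⁻¹) * c2⁻¹ := by group
          _ = (k * b2 * k⁻¹ * b2⁻¹) * c2 * c2⁻¹ := by
            have h7 : Commute c2 (k * b2 * k⁻¹ * b2⁻¹) :=
              ((hck.mul_right hcb2).mul_right hck.inv_right).mul_right hcb2.inv_right
            rw [h7.eq]
          _ = k * b2 * k⁻¹ * b2⁻¹ := by group
      rw [← e4, ← hcdef]
      exact hkg

theorem St.s6 (h : Sys S q) (s : St S A B K K' C) {u b' : G} (hu : u ∈ K) (hu' : u ∈ nz K') (huC : u ∉ C)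
    (hb : b' ∈ B) (hb' : b' ∉ nz A) :
    b' * (u * b' * u⁻¹) ∈ K' ∧ b' * (u * b' * u⁻¹) ∈ nz K ∧ b' * (u * b' * u⁻¹) ∉ C ∧
      b' * (u * b' * u⁻¹) * u = u * (b' * (u * b' * u⁻¹)) := by
  have hbi : b'⁻¹ = b' := h.inv s.nr.hB hb
  have hui : u⁻¹ = u := s.clK.inv h hu
  have huu : u * u = 1 := s.clK.sq h u hu
  have hbK : b' ∈ K' := s.hB hb
  have e1 : b' * (u * b' * u⁻¹) = b' * u * b'⁻¹ * u⁻¹ := by rw [hbi]; group
  obtain ⟨h1, h2⟩ := s.s4a h hu hu' hbK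
  have h3 : u * b' * u⁻¹ ∈ K' := nz_conj_mem hu' hbK
  refine ⟨by rw [e1]; exact h1, by rw [e1]; exact h2, ?_, ?_⟩
  · intro hgC
    rw [e1] at hgC
    rcases (s.symm h).s5 h hbK hu hgC with h4 | h4
    · obtain ⟨a, ha, ha1, ha'⟩ := s.nr.ex
      have h5 := (s.symm h).s2conv h hbK h4 ha ha'
      have h6 := s.nr.comm_mem h ha ha' hb
      have h7 : a * b' * a⁻¹ * b'⁻¹ ∈ C := by
        have h8 := C.inv_mem h5
        have h9 : (b' * a * b'⁻¹ * a⁻¹)⁻¹ = a * b' * a⁻¹ * b'⁻¹ := by group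
        rwa [h9] at h8
      have h8 : a * b' * a⁻¹ * b'⁻¹ = 1 := by
        by_contra hne
        exact (s.symm h).not_mem h (mem_nn.1 h6).1 hne h7
      refine hb' (h.nz_of_comm s.nr.hA ha ha1 ?_)
      have h9 : a * b' = b' * a := by
        have h10 : a * b' = (a * b' * a⁻¹ * b'⁻¹) * (b' * a) := by group
        rw [h10, h8, one_mul]
      exact h9.symm
    · exact huC h4
  · have h4 : u * (b' * (u * b' * u⁻¹)) * u⁻¹ = b' * (u * b' * u⁻¹) := by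
      calc u * (b' * (u * b' * u⁻¹)) * u⁻¹ = (u * b' * u⁻¹) * ((u * u) * b' * (u * u)⁻¹) := by group
        _ = (u * b' * u⁻¹) * b' := by rw [huu, one_mul, inv_one, mul_one]
        _ = b' * (u * b' * u⁻¹) := s.clK'.comm _ h3 _ hbK
    calc b' * (u * b' * u⁻¹) * u = u * (b' * (u * b' * u⁻¹)) * u⁻¹ * u := by rw [h4]
      _ = u * (b' * (u * b' * u⁻¹)) := by group

theorem St.inj (h : Sys S q) (s : St S A B K K' C) {a c c' u u' : G} (ha : a ∈ A) (ha' : a ∉ nz B) (hc : c ∈ C)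
    (hc' : c' ∈ C) (hE : E ∈ S) (hE' : E' ∈ S) (hacE : a * c ∈ E) (hacE' : a * c' ∈ E') (hu : u ∈ E) (hu1 : u ≠ 1)
    (huK : u ∈ nz K') (hu' : u' ∈ E') (huK' : u' ∈ nz K') (huu : u * u' ∈ C) : c = c' := by
  have ha1 : a ≠ 1 := by
    intro h0
    exact ha' (h0 ▸ (nz B).one_mem)
  have haC : a ∉ C := s.not_mem h ha ha1
  have haK : a ∈ K := s.hA ha
  have hE1 : ∀ d ∈ C, ∀ F ∈ S, a * d ∈ F → F ≤ K := by
    intro d hd F hF hadF
    refine s.clK.le h hF (K.mul_mem haK (s.C_le hd)) hadF (fun h0 => haC ?_)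
    rw [eq_inv_of_mul_eq_one_left h0]
    exact C.inv_mem hd
  have hEK := hE1 c hc E hE hacE
  have hEC : ∀ x ∈ C, x ∈ E → x = 1 := by
    intro x hxC hxE
    by_contra hx1
    have h1 : E ≤ C := (s.C_cl h).le h hE hxC hxE hx1
    refine haC ?_
    have h2 := C.mul_mem (h1 hacE) (C.inv_mem hc)
    rwa [mul_inv_cancel_right] at h2
  have huC : u ∉ C := fun h0 => hu1 (hEC u h0 hu)
  by_contra hcc
  have hne : E ≠ E' := by
    intro h0
    have h1 : a * c * (a * c') ∈ E := E.mul_mem hacE (h0 ▸ hacE')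
    have h2 : a * c * (a * c') = c * c' := by
      have h3 : c * a = a * c := s.central hc haK
      calc a * c * (a * c') = (a * (c * a)) * c' := by group
        _ = (a * a) * (c * c') := by rw [h3]; group
        _ = c * c' := by rw [h.sq A s.nr.hA a ha, one_mul]
    rw [h2] at h1
    have h4 := hEC _ (C.mul_mem hc hc') h1
    have h5 : c = c'⁻¹ := eq_inv_of_mul_eq_one_left h4
    rw [(s.C_cl h).inv h hc'] at h5
    exact hcc h5
  obtain ⟨b', hb, hb'⟩ := (s.nr.symm h).exists_out h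
  obtain ⟨hgK, -, hgC, hgu⟩ := s.s6 h (hEK hu) huK huC hb hb'
  obtain ⟨g, hgdef⟩ : ∃ g, g = b' * (u * b' * u⁻¹) := ⟨_, rfl⟩
  rw [← hgdef] at hgK hgC hgu
  have hu'1 : u' ≠ 1 := by
    intro h0
    rw [h0, mul_one] at huu
    exact huC huu
  have hgu' : g * u' = u' * g := by
    have h1 : Commute g (u * u') := (s.central' huu hgK).symm
    have h2 : Commute g u := hgu
    have h3 := h2.inv_right.mul_right h1
    rw [inv_mul_cancel_left] at h3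
    exact h3.eq
  have hgE : g ∈ nz E := h.nz_of_comm hE hu hu1 hgu
  have hgE' : g ∈ nz E' := h.nz_of_comm hE' hu' hu'1 hgu'
  have hmem : ∀ d ∈ C, ∀ F, g ∈ nz F → a * d ∈ F → g * a * g⁻¹ * a⁻¹ ∈ F := by
    intro d hd F hgF hadF
    have h1 := F.mul_mem (nz_conj_mem hgF hadF) (F.inv_mem hadF)
    have hgd : d * g = g * d := s.central' hd hgK
    have h2 : g * (a * d) * g⁻¹ * (a * d)⁻¹ = g * a * g⁻¹ * a⁻¹ := by
      have h3 : d * g⁻¹ = g⁻¹ * d := by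
        have h4 : Commute d g := hgd
        exact h4.inv_right.eq
      calc g * (a * d) * g⁻¹ * (a * d)⁻¹ = g * a * (d * g⁻¹) * d⁻¹ * a⁻¹ := by group
        _ = g * a * (g⁻¹ * d) * d⁻¹ * a⁻¹ := by rw [h3]
        _ = g * a * g⁻¹ * a⁻¹ := by group
    rwa [h2] at h1
  have ht : g * a * g⁻¹ * a⁻¹ = 1 :=
    h.ne_one hE hE' hne (hmem c hc E hgE hacE) (hmem c' hc' E' hgE' hacE')
  have hga : g * a = a * g := by
    have h10 : g * a = (g * a * g⁻¹ * a⁻¹) * (a * g) := by group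
    rw [h10, ht, one_mul]
  have hgA : g ∈ nz A := h.nz_of_comm s.nr.hA ha ha1 hga
  obtain ⟨b2, hb2, hb2', hb2c⟩ := (s.nr.symm h).l4b h s.clK' s.hB hgK hgA
  by_cases h5 : b2 = 1
  · refine hgC ?_
    rw [s.hC']
    refine ⟨hgK, ?_⟩
    rwa [h5, mul_one] at hb2c
  · refine ha' (h.nz_of_comm s.nr.hB hb2 h5 ?_)
    have h6 : Commute a (g * b2) := ((mem_ct.1 hb2c) a ha).symm
    have h7 : Commute a g := hga.symm
    have h8 := h7.inv_right.mul_right h6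
    rw [inv_mul_cancel_left] at h8
    exact h8.eq

end Pool.Agent.Helper37.WC
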