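import Pool.Agent.Helper37.WC.S5

/-!
WC-16 (MP_b5afc9_al, project WC). Counting in `St`. `[x, y] = x*y*x⁻¹*y⁻¹`, `K0 = K ⊓ nz K'`, `K0' = K' ⊓ nz K`.

* `s7`: every member `E ≤ K` contains `u ≠ 1` with `u ∈ nz K'`. Proof: take `b ∈ B`, `b ∈ nz A`, `b ≠ 1`. For `e ∈ E` write `[e, b] = c*a` (`s1c`); `a` is unique (`A ⊓ C` trivial by `St.not_mem`): a map `E → nn A B`. Since `card (nn A B) < q = card E` two elements `e ≠ e'` have the
  same `a`. Then `[e*e'⁻¹, b] = [e, b]*[e', b]⁻¹` (`K` abelian and normalised by `b`) `∈ C`, so `u = e*e'⁻¹ ∈ nz K'` by `s2`.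
* `s8`: `card C * (card C + 1) ≤ card K0`. Proof: fix `a ∈ A`, `a ∉ nz B` (`exists_out`). For `c ∈ C`, `a*c ≠ 1` lies in a member `E_c ≤ K` (`Cl.mem`), choose by `s7` `u_c ∈ E_c`, `u_c ≠ 1`, `u_c ∈ nz K'`. The cosets `u_c*C` are pairwise different by
  `inj` and different from `C` (`u_c ∈ C` would give `E_c ≤ C`, `a ∈ C`). So the map `C × Option C → K0`, `(x, none) ↦ x`, `(x, some c) ↦ x*u_c` is injective.
* `s8K`: `card C ^ 2 < card K`.
* `s9`: a member `E ≤ K` with `∀ g ∈ K', g ∈ nz K → g ∈ nz E` is contained in `C`. Proof: suppose not; then `E ⊓ C` is trivial (`Cl.le`). For `k ∈ E`, `k ∈ nz K'` and `g ∈ K0'`: `[k, g] ∈ E ⊓ C` (`s4b`) so `k`, `g` commute.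
  Case 1: `E ≤ nz K'`. Then `E` commutes with `b ∈ B`, `b ∈ nz A`, `b ≠ 1` (`b ∈ K'`, `b ∈ nz K` by `s1`), so `E ≤ nz B`, `Cm E B` (`Sys.comm_of_nz`), `E ≤ K ⊓ ct B = C`.
  Case 2: there is `k ∈ E`, `k ∉ nz K'`. The map `K0' → E`, `g ↦ [k, g]` has `[k, g] ∈ E ⊓ nz K'` (`s4c`); if `[k, g] = [k, g']` then `[k, g⁻¹*g'] = 1` (compute: `g⁻¹*g'` commutes with `k`) so `g⁻¹*g' ∈ C` by `s5`. So `card K0' ≤ card C * card (E ⊓ nz K') ≤ card C * q`.
  But `card K0' ≥ card C * (card C + 1)` (`s8` for the symmetric structure) and `card C ≥ q` (`St.q_le`). Contradiction.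
-/

namespace Pool.Agent.Helper37.WC

variable {G : Type*} [Group G] [Finite G] {S : Set (Subgroup G)} {q : ℕ} {A B C E E' K K' M : Subgroup G}

theorem St.s7 (h : Sys S q) (s : St S A B K K' C) (hE : E ∈ S) (hEK : E ≤ K) : ∃ u ∈ E, u ≠ 1 ∧ u ∈ nz K' := by
  obtain ⟨b, hb, hb1, hb'⟩ := (s.nr.symm h).ex
  have hc : ∀ e : E, ∃ a : nn A B, ∃ c ∈ C, (e : G) * b * (e : G)⁻¹ * b⁻¹ = c * (a : G) := by
    intro e
    obtain ⟨c, hc, a, ha, ha', he⟩ := s.s1c h (hEK e.2) hb hb' hb1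
    exact ⟨⟨a, ha, ha'⟩, c, hc, he⟩
  choose f c hcC hf using hc
  have hlt : Nat.card (nn A B) < Nat.card E := by
    rw [h.card E hE]
    exact s.nr.card_lt h
  have hni : ¬ Function.Injective f := by
    intro hinj
    exact absurd (Nat.card_le_card_of_injective f hinj) (not_le.2 hlt)
  rw [Function.Injective] at hni
  push Not at hni
  obtain ⟨e, e', hee, hne⟩ := hni
  refine ⟨(e : G) * (e' : G)⁻¹, E.mul_mem e.2 (E.inv_mem e'.2), ?_, ?_⟩
  · intro h1
    exact hne (Subtype.ext (mul_inv_eq_one.1 h1))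
  · apply s.s2 h (K.mul_mem (hEK e.2) (K.inv_mem (hEK e'.2))) hb hb' hb1
    have hbK := s.s1 h hb hb'
    have hx : (e : G) ∈ K := hEK e.2
    have hy : (e' : G) ∈ K := hEK e'.2
    have hX : b * (e : G)⁻¹ * b⁻¹ ∈ K := nz_conj_mem hbK (K.inv_mem hx)
    have hY : b * (e' : G) * b⁻¹ ∈ K := nz_conj_mem hbK hy
    have h1 : (e : G) * (e' : G)⁻¹ * b * ((e : G) * (e' : G)⁻¹)⁻¹ * b⁻¹ =
        (e : G) * ((e' : G)⁻¹ * ((b * (e' : G) * b⁻¹) * (b * (e : G)⁻¹ * b⁻¹))) := by group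
    have h2 : (e' : G)⁻¹ * ((b * (e' : G) * b⁻¹) * (b * (e : G)⁻¹ * b⁻¹)) =
        (b * (e : G)⁻¹ * b⁻¹) * (b * (e' : G) * b⁻¹) * (e' : G)⁻¹ := by
      rw [s.clK.comm _ hY _ hX]
      exact s.clK.comm _ (K.inv_mem hy) _ (K.mul_mem hX hY)
    have h3 : (e : G) * ((b * (e : G)⁻¹ * b⁻¹) * (b * (e' : G) * b⁻¹) * (e' : G)⁻¹) =
        ((e : G) * b * (e : G)⁻¹ * b⁻¹) * ((e' : G) * b * (e' : G)⁻¹ * b⁻¹)⁻¹ := by group
    rw [h1, h2, h3, hf e, hf e', hee]
    have h4 : c e * (f e' : G) * (c e' * (f e' : G))⁻¹ = c e * (c e')⁻¹ := by group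
    rw [h4]
    exact C.mul_mem (hcC e) (C.inv_mem (hcC e'))

theorem St.s8 (h : Sys S q) (s : St S A B K K' C) :
    Nat.card C * (Nat.card C + 1) ≤ Nat.card (K ⊓ nz K' : Subgroup G) := by
  obtain ⟨a, ha, ha'⟩ := s.nr.exists_out h
  have ha1 : a ≠ 1 := by
    rintro rfl
    exact ha' (one_mem _)
  have haC : a ∉ C := s.not_mem h ha ha1
  have hacC : ∀ c : C, a * (c : G) ∉ C := by
    intro c hc
    apply haC
    have := C.mul_mem hc (C.inv_mem c.2)
    rwa [mul_inv_cancel_right] at this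
  have hex : ∀ c : C, ∃ E ∈ S, a * (c : G) ∈ E ∧ E ≤ K ∧ ∃ u ∈ E, u ≠ 1 ∧ u ∈ nz K' := by
    intro c
    obtain ⟨E, hE, hm, hEK⟩ := s.clK.mem (a * (c : G)) (K.mul_mem (s.hA ha) (s.C_le c.2)) (by
      intro h1
      exact hacC c (h1 ▸ C.one_mem))
    exact ⟨E, hE, hm, hEK, s.s7 h hE hEK⟩
  choose F hFS hF hFK u huF hu1 huK using hex
  have huC : ∀ c : C, u c ∉ C := by
    intro c hc
    exact hacC c ((s.C_cl h).le h (hFS c) hc (huF c) (hu1 c) (hF c))
  have hnzC : ∀ c : C, (c : G) ∈ nz K' := fun c => le_nz K' (s.C_le' c.2)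
  let Φ : C × Option C → (K ⊓ nz K' : Subgroup G) := fun p =>
    match p with
    | (x, none) => ⟨(x : G), s.C_le x.2, hnzC x⟩
    | (x, some c) => ⟨(x : G) * u c, K.mul_mem (s.C_le x.2) (hFK c (huF c)), (nz K').mul_mem (hnzC x) (huK c)⟩
  have hΦ : Function.Injective Φ := by
    rintro ⟨x, _ | c⟩ ⟨y, _ | d⟩ hxy
    · have h1 : (x : G) = (y : G) := congrArg (fun t : (K ⊓ nz K' : Subgroup G) => (t : G)) hxy
      rw [Subtype.ext h1]
    · have h1 : (x : G) = (y : G) * u d := congrArg Subtype.val hxy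
      exfalso
      apply huC d
      have h2 : u d = (y : G)⁻¹ * (x : G) := by rw [h1]; group
      rw [h2]
      exact C.mul_mem (C.inv_mem y.2) x.2
    · have h1 : (x : G) * u c = (y : G) := congrArg Subtype.val hxy
      exfalso
      apply huC c
      have h2 : u c = (x : G)⁻¹ * (y : G) := by rw [← h1]; group
      rw [h2]
      exact C.mul_mem (C.inv_mem x.2) y.2
    · have h1 : (x : G) * u c = (y : G) * u d := congrArg Subtype.val hxy
      have h2 : u d = (y : G)⁻¹ * (x : G) * u c := by rw [mul_assoc, h1]; group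
      have huu : u c * u d ∈ C := by
        have hk : (y : G)⁻¹ * (x : G) ∈ K := K.mul_mem (K.inv_mem (s.C_le y.2)) (s.C_le x.2)
        have h3 : u c * u d = (y : G)⁻¹ * (x : G) := by
          rw [h2, ← mul_assoc, s.clK.comm _ (hFK c (huF c)) _ hk, mul_assoc, h.sq _ (hFS c) _ (huF c), mul_one]
        rw [h3]
        exact C.mul_mem (C.inv_mem y.2) x.2
      have hcd : (c : G) = (d : G) := s.inj h ha ha' c.2 d.2 (hFS c) (hFS d) (hF c) (hF d) (huF c) (hu1 c) (huK c) (huF d)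
        (huK d) huu
      have hcd' : c = d := Subtype.ext hcd
      subst hcd'
      have hxy' : (x : G) = (y : G) := mul_right_cancel h1
      rw [Subtype.ext hxy']
  have hcard := Nat.card_le_card_of_injective Φ hΦ
  rw [Nat.card_prod, Finite.card_option] at hcard
  exact hcard

theorem St.s8K (h : Sys S q) (s : St S A B K K' C) : Nat.card C ^ 2 < Nat.card K := by
  have h1 := s.s8 h
  have h2 : Nat.card (K ⊓ nz K' : Subgroup G) ≤ Nat.card K := Subgroup.card_le_of_le inf_le_left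
  have h3 : 0 < Nat.card C := Nat.card_pos
  nlinarith

theorem St.s9 (h : Sys S q) (s : St S A B K K' C) (hE : E ∈ S) (hEK : E ≤ K) (hfix : ∀ g ∈ K', g ∈ nz K → g ∈ nz E) :
    E ≤ C := by
  by_contra hEC
  have hEC' : ∀ x ∈ E, x ∈ C → x = 1 := by
    intro x hx hxC
    by_contra hx1
    exact hEC ((s.C_cl h).le h hE hxC hx hx1)
  have hcomm : ∀ k ∈ E, k ∈ nz K' → ∀ g ∈ K', g ∈ nz K → k * g = g * k := by
    intro k hk hk' g hg hg'
    have h1 := s.s4b h (hEK hk) hk' hg hg'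
    have h2 : k * g * k⁻¹ * g⁻¹ ∈ E := by
      have h3 : k * g * k⁻¹ * g⁻¹ = k * (g * k⁻¹ * g⁻¹) := by group
      rw [h3]
      exact E.mul_mem hk (nz_conj_mem (hfix g hg hg') (E.inv_mem hk))
    have h3 := hEC' _ h2 h1
    rw [mul_inv_eq_one, mul_inv_eq_iff_eq_mul] at h3
    exact h3
  by_cases hcase : E ≤ nz K'
  · obtain ⟨b, hb, hb1, hb'⟩ := (s.nr.symm h).ex
    have hbK := s.s1 h hb hb'
    have hEB : E ≤ nz B := by
      intro k hk
      exact h.nz_of_comm s.nr.hB hb hb1 (hcomm k hk (hcase hk) b (s.hB hb) hbK)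
    have hCm := h.comm_of_nz hE s.nr.hB hEB
    apply hEC
    rw [s.hC]
    exact le_inf hEK (cm_iff_le_ct.1 hCm)
  · have hex : ∃ k ∈ E, k ∉ nz K' := by
      by_contra hno
      push Not at hno
      exact hcase hno
    obtain ⟨k, hk, hk'⟩ := hex
    let f : (K' ⊓ nz K : Subgroup G) → E := fun g => ⟨k * (g : G) * k⁻¹ * (g : G)⁻¹, by
      have h3 : k * (g : G) * k⁻¹ * (g : G)⁻¹ = k * ((g : G) * k⁻¹ * (g : G)⁻¹) := by group
      rw [h3]
      exact E.mul_mem hk (nz_conj_mem (hfix _ g.2.1 g.2.2) (E.inv_mem hk))⟩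
    have hff : ∀ g g' : (K' ⊓ nz K : Subgroup G), f g = f g' → (g' : G)⁻¹ * (g : G) ∈ C := by
      intro g g' hgg
      have h1 : k * (g : G) * k⁻¹ * (g : G)⁻¹ = k * (g' : G) * k⁻¹ * (g' : G)⁻¹ := congrArg Subtype.val hgg
      have h2 : k * ((g' : G)⁻¹ * (g : G)) * k⁻¹ * ((g' : G)⁻¹ * (g : G))⁻¹ = 1 := by
        have h4 : (g : G) * k⁻¹ * (g : G)⁻¹ = (g' : G) * k⁻¹ * (g' : G)⁻¹ := by
          have h5 : k * ((g : G) * k⁻¹ * (g : G)⁻¹) = k * ((g' : G) * k⁻¹ * (g' : G)⁻¹) := by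
            simpa [mul_assoc] using h1
          exact mul_left_cancel h5
        have h6 : k * ((g' : G)⁻¹ * (g : G)) * k⁻¹ * ((g' : G)⁻¹ * (g : G))⁻¹ =
            k * ((g' : G)⁻¹ * ((g : G) * k⁻¹ * (g : G)⁻¹) * (g' : G)) := by group
        rw [h6, h4]
        group
      rcases s.s5 h (hEK hk) (K'.mul_mem (K'.inv_mem g'.2.1) g.2.1) (h2 ▸ C.one_mem) with h7 | h7
      · exact absurd h7 hk'
      · exact h7
    have hinv : ∀ g : (K' ⊓ nz K : Subgroup G), f (Function.invFun f (f g)) = f g := fun g =>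
      Function.invFun_eq ⟨g, rfl⟩
    let Ψ : (K' ⊓ nz K : Subgroup G) → E × C := fun g =>
      (f g, ⟨((Function.invFun f (f g) : (K' ⊓ nz K : Subgroup G)) : G)⁻¹ * (g : G), hff _ _ (hinv g).symm⟩)
    have hΨ : Function.Injective Ψ := by
      intro g g' hgg
      have h1 : f g = f g' := congrArg Prod.fst hgg
      have h2 : ((Function.invFun f (f g) : (K' ⊓ nz K : Subgroup G)) : G)⁻¹ * (g : G) =
          ((Function.invFun f (f g') : (K' ⊓ nz K : Subgroup G)) : G)⁻¹ * (g' : G) :=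
        congrArg (fun p : E × C => (p.2 : G)) hgg
      rw [h1] at h2
      exact Subtype.ext (mul_left_cancel h2)
    have hcard := Nat.card_le_card_of_injective Ψ hΨ
    rw [Nat.card_prod, h.card E hE] at hcard
    have h8 := (s.symm h).s8 h
    have h9 := s.q_le h
    have h10 : 0 < Nat.card C := Nat.card_pos
    nlinarith

end Pool.Agent.Helper37.WC
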