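import Pool.Agent.Helper37.WC.L4
import Pool.Agent.Helper37.WC.CliqCard
import Pool.Agent.Helper37.WC.Gle

/-!
WC-13 (MP_b5afc9_al, project WC). The structure `St`: a pair `(A, B)` of non-root type, `K` the smallest clique group containing `A` and `C`, `K'` the smallest one containing `B` and `C`,
where `C = K ⊓ ct B = K' ⊓ ct A` is nontrivial. It is symmetric in `(A, K)`, `(B, K')`.

* `St.symm`: swap (`NR.symm`).
* `St.C_cl`: `Cl.inf_ct`. `St.C_le`, `C_le'`: clear.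
* `St.not_le`: `A ≤ C` would give `Cm A B`.
* `St.inf`: `x ∈ K`, `x ∈ K'`: `x` commutes with `B` (`K'` abelian), so `x ∈ K ⊓ ct B = C`.
* `St.central`: `c ∈ C` commutes with `K` and with `K'`.
* `St.q_le`: `C` is a nontrivial clique group so contains a member.
* `St.exists`: existence. Given `NR S A B`, a clique group `K ≥ A`, `C := K ⊓ ct B` nontrivial, and `K` minimal (`hmin`). Take `u ∈ A ⊔ B` with `cj u A = B` (`NR.gleason`) and `K' := cj u K`. Every element of `C` commutes with `A` and `B`, so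
  with `A ⊔ B` (`ct` of a set generated; e.g. `A ⊔ B ≤ ct C` by `sup_le`), so with `u`; so `C ≤ K'`. `minK'`: if `M` is a clique group with `B, C ≤ M` then `cj u⁻¹ M` contains `A`, `C`. `hC'`: `C ≤ K' ⊓ ct A` clear. Let
  `x ∈ K' ⊓ ct A`, `x ≠ 1`; let `X ≤ K'` be the member containing `x`. `Cm A X` (`Sys.cm_of_elem`), and `X` commutes with `B ≤ K'`, so `u` commutes with `X` and `X = cj u⁻¹ X ≤ K`. So `x ∈ K ⊓ ct B = C`.
-/

namespace Pool.Agent.Helper37.WC

variable {G : Type*} [Group G] [Finite G] {S : Set (Subgroup G)} {q : ℕ} {A B C E K K' M : Subgroup G}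

/-- see the header -/
structure St (S : Set (Subgroup G)) (A B K K' C : Subgroup G) : Prop where
  nr : NR S A B
  clK : Cl S K
  clK' : Cl S K'
  hA : A ≤ K
  hB : B ≤ K'
  hC : C = K ⊓ ct B
  hC' : C = K' ⊓ ct A
  minK : ∀ M, Cl S M → A ≤ M → C ≤ M → K ≤ M
  minK' : ∀ M, Cl S M → B ≤ M → C ≤ M → K' ≤ M
  C1 : ∃ c ∈ C, c ≠ 1

theorem St.symm (h : Sys S q) (s : St S A B K K' C) : St S B A K' K C :=
  ⟨s.nr.symm h, s.clK', s.clK, s.hB, s.hA, s.hC', s.hC, s.minK', s.minK, s.C1⟩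

theorem St.C_cl (h : Sys S q) (s : St S A B K K' C) : Cl S C := by
  have h1 := s.clK.inf_ct h s.nr.hB
  rw [← s.hC] at h1
  exact h1

theorem St.C_le (s : St S A B K K' C) : C ≤ K := by
  have h1 : K ⊓ ct B ≤ K := inf_le_left
  rw [← s.hC] at h1
  exact h1

theorem St.C_le' (s : St S A B K K' C) : C ≤ K' := by
  have h1 : K' ⊓ ct A ≤ K' := inf_le_left
  rw [← s.hC'] at h1
  exact h1

private theorem mem_C50 (s : St S A B K K' C) {x : G} : x ∈ C ↔ x ∈ K ∧ x ∈ ct B := by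
  have h1 : x ∈ K ⊓ ct B ↔ x ∈ K ∧ x ∈ ct B := Subgroup.mem_inf
  rw [← s.hC] at h1
  exact h1

theorem St.inf (s : St S A B K K' C) {x : G} (hx : x ∈ K) (hx' : x ∈ K') : x ∈ C :=
  (mem_C50 s).2 ⟨hx, fun b hb => s.clK'.comm x hx' b (s.hB hb)⟩

theorem St.central (s : St S A B K K' C) {c x : G} (hc : c ∈ C) (hx : x ∈ K) : c * x = x * c :=
  s.clK.comm c (s.C_le hc) x hx

theorem St.central' (s : St S A B K K' C) {c x : G} (hc : c ∈ C) (hx : x ∈ K') : c * x = x * c :=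
  s.clK'.comm c (s.C_le' hc) x hx

theorem St.not_mem (h : Sys S q) (s : St S A B K K' C) {a : G} (ha : a ∈ A) (ha1 : a ≠ 1) : a ∉ C := by
  intro hc
  exact s.nr.nc (h.cm_of_elem s.nr.hB s.nr.hA ha ha1 ((mem_C50 s).1 hc).2).symm

theorem St.q_le (h : Sys S q) (s : St S A B K K' C) : q ≤ Nat.card C := by
  obtain ⟨c, hc, hc1⟩ := s.C1
  obtain ⟨E, hE, -, hEC⟩ := (s.C_cl h).mem c hc hc1
  rw [← h.card E hE]
  exact Subgroup.card_le_of_le hEC

private theorem com50 {u x : G} (hu : u ∈ A ⊔ B) (ha : ∀ a ∈ A, a * x = x * a) (hb : ∀ b ∈ B, b * x = x * b) :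
    u * x = x * u := by
  have h1 : A ⊔ B ≤ ct (Subgroup.zpowers x) := by
    refine sup_le (fun a h => ?_) (fun b h => ?_)
    · intro y hy
      obtain ⟨k, rfl⟩ := Subgroup.mem_zpowers_iff.1 hy
      exact (show Commute a x from ha a h).zpow_right k
    · intro y hy
      obtain ⟨k, rfl⟩ := Subgroup.mem_zpowers_iff.1 hy
      exact (show Commute b x from hb b h).zpow_right k
  exact h1 hu x (Subgroup.mem_zpowers x)

theorem St.exists (h : Sys S q) (n : NR S A B) (hK : Cl S K) (hA : A ≤ K) (hC1 : ∃ c ∈ K ⊓ ct B, c ≠ 1)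
    (hmin : ∀ M, Cl S M → A ≤ M → K ⊓ ct B ≤ M → K ≤ M) : ∃ u ∈ A ⊔ B, cj u A = B ∧ St S A B K (cj u K) (K ⊓ ct B) := by
  obtain ⟨u, hu, huAB⟩ := n.gleason h
  have hB : B ≤ cj u K := by
    have h1 := cj_mono (g := u) hA
    rw [huAB] at h1
    exact h1
  have hK' : Cl S (cj u K) := hK.cj' h u
  have huc : ∀ c ∈ K ⊓ ct B, u * c = c * u := by
    intro c hc
    obtain ⟨hcK, hcB⟩ := Subgroup.mem_inf.1 hc
    exact com50 hu (fun a ha => hK.comm a (hA ha) c hcK) (fun b hb => (hcB b hb).symm)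
  refine ⟨u, hu, huAB, n, hK, hK', hA, hB, rfl, ?_, hmin, ?_, hC1⟩
  · apply le_antisymm
    · intro c hc
      have h1 := huc c hc
      obtain ⟨hcK, hcB⟩ := Subgroup.mem_inf.1 hc
      refine Subgroup.mem_inf.2 ⟨?_, fun a ha => hK.comm c hcK a (hA ha)⟩
      rw [mem_cj, mul_assoc, ← h1, inv_mul_cancel_left]
      exact hcK
    · intro x hx
      obtain ⟨hxK, hxA⟩ := Subgroup.mem_inf.1 hx
      have h1 : u * x = x * u := com50 hu (fun a ha => (hxA a ha).symm) (fun b hb => hK'.comm b (hB hb) x hxK)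
      refine Subgroup.mem_inf.2 ⟨?_, fun b hb => hK'.comm x hxK b (hB hb)⟩
      have h2 := hxK
      rw [mem_cj, mul_assoc, ← h1, inv_mul_cancel_left] at h2
      exact h2
  · intro M hM hBM hCM
    have h1 : K ≤ cj u⁻¹ M := by
      refine hmin _ (hM.cj' h u⁻¹) ?_ ?_
      · have h2 := cj_mono (g := u⁻¹) hBM
        rw [← huAB, cj_inv_cj] at h2
        exact h2
      · intro c hc
        have h2 := huc c hc
        rw [mem_cj, inv_inv, h2, mul_inv_cancel_right]
        exact hCM hc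
    have h2 := cj_mono (g := u) h1
    rw [cj_cj_inv] at h2
    exact h2

end Pool.Agent.Helper37.WC
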