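import Pool.Agent.Helper37.WC.YA
import Pool.Agent.Helper37.WC.L4
import Pool.Agent.Helper37.WC.CliqCard
import Pool.Agent.Helper37.WC.Par

/-!
WC-9 (MP_b5afc9_al, project WC). If `(A, B)` is of non-root type and no member commutes with both `A` and `B` then `YA S A` has even cardinality.

Take `b ∈ B`, `b ≠ 1`, `b ∈ nz A` (`n.symm` and `ex`). `Y ↦ cj b Y` is an involution on `YA S A` (`b*b = 1`). It has no fixed point: suppose `cj b Y = Y`, `Y = A ⊔ zpowers y`.
Let `I = clo S Y` (`YA.le_cl`, `clo_cl`). `cj b I = I` by `clo_cj`, so `b ∈ nz I`; `A ≤ I`, `y ∈ I`, `y ∉ A`, so `q^2 ≤ card I` (`Cl.card_ge`). By `NR.l4d`, `NR.l4e`: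
`card I ≤ (card (I ⊓ ct B) * card (nn A B))^2`. `I ⊓ ct B = ⊥`: if `c ≠ 1` is in it, `c ∈ F ≤ I` for a member `F`; `Cm B F` by `Sys.cm_of_elem`; `Cm F A` since `I` is abelian: excluded.
So `card I ≤ card (nn A B)^2 < q^2` by `NR.card_lt`. Contradiction. Use `even_of_free`.
-/

namespace Pool.Agent.Helper37.WC

variable {G : Type*} [Group G] [Finite G] {S : Set (Subgroup G)} {q : ℕ} {A B : Subgroup G}

theorem YA_even (h : Sys S q) (n : NR S A B) (hno : ∀ D ∈ S, Cm D A → Cm D B → False) : Even (YA S A).ncard := by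
  obtain ⟨b, hb, hb1, hbA⟩ := (n.symm h).ex
  refine even_of_free (YA S A) (Set.toFinite _) (cj b) (fun Y hY => YA_cj_mem h hbA hY)
    (fun Y hY => ?_) (fun Y hY hfix => ?_)
  · rw [← cj_mul, h.sq B n.hB b hb, cj_one]
  · obtain ⟨M, hM, hYM⟩ := YA.le_cl h n.hA hY
    have hI : Cl S (clo S Y) := clo_cl h hM hYM
    have hYI : Y ≤ clo S Y := le_clo
    have hAI : A ≤ clo S Y := (YA.ge hY).trans hYI
    have hbI : b ∈ nz (clo S Y) := by rw [mem_nz, clo_cj h, hfix]
    obtain ⟨y, hyA, -, -, hYy⟩ := hY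
    have hyI : y ∈ clo S Y := by
      refine hYI ?_
      rw [hYy]
      exact Subgroup.mem_sup_right (Subgroup.mem_zpowers y)
    have hge := Cl.card_ge h hI n.hA hAI hyI hyA
    have h4d := NR.l4d h n hI hAI hb hb1 hbA hbI
    have h4e := NR.l4e h n hI hAI
    have hbot : clo S Y ⊓ ct B = ⊥ := by
      rw [Subgroup.eq_bot_iff_forall]
      intro c hc
      by_contra hc1
      obtain ⟨F, hF, hcF, hFI⟩ := hI.mem c hc.1 hc1
      have h1 : Cm B F := Sys.cm_of_elem h n.hB hF hcF hc1 hc.2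
      have h2 : Cm F A := fun x hx y hy => hI.comm x (hFI hx) y (hAI hy)
      exact hno F hF h2 h1.symm
    rw [hbot, Subgroup.card_bot, one_mul] at h4e
    rw [h4e] at h4d
    have hlt := NR.card_lt h n
    have h5 := Nat.pow_lt_pow_left hlt two_ne_zero
    omega

end Pool.Agent.Helper37.WC
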