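import Pool.Agent.Helper37.WC.Z0
import Pool.Agent.Helper37.WC.YAeven
import Pool.Agent.Helper37.WC.Par

/-!
WC-36 (MP_b5afc9_al, project WC; proof by helper72). Every clique group has order at most `q^2`. `hno` is Theorem A. `[x, y] = x*y*x⁻¹*y⁻¹`.

Let `(A, B)` be of non-root type and `M ≥ A` a clique group, `card M = q^k` (`Cl.card`); suppose `k ≥ 3`. `YA S A` is even (`YA_even`, `hno`). `M ≤ nz A` (`M` is abelian) is a `2`-group (`Cl.isP`) acting on `YA S A` (`YA_cj_mem`), so by `par_fix` `Fix = {Y ∈ YA S A | ∀ m ∈ M, cj m Y = Y}` has even cardinality.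
Elements of `YA S A`: `Y = A ⊔ zpowers x`, `x ∉ A`, `x ∈ ct A`, `x` in a member `X`; `Cm A X` (`Sys.cm_of_elem`). If also `Y = A ⊔ zpowers x'` with `x' ∉ A` of this kind, then `x' = a*x`, `a ∈ A` (`mem_sup_zp`), so `A ⊔ zpowers (x*e) = A ⊔ zpowers (x'*e)` for every `e`: write `sh e Y` for it.
(1) `W = {Y ∈ YA S A | Y ≤ ct M} ⊆ Fix` has odd cardinality: take `e ∈ M`, `e ∉ A` and `Y0 = A ⊔ zpowers e ∈ W` (`e` lies in a member). For `Y = A ⊔ zpowers x ∈ W`, `Y ≠ Y0`, `x ∈ ct M`: `e ∈ E ≤ M` member, `Cm E X` by `Sys.cm_of_elem`, so `x*e` (`≠ 1`, since `x ∉ Y0`) lies in a member (`Sys.C`), commutes with `A` and `M`,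
 `x*e ∉ A` (else `x ∈ Y0`, `Y = Y0`); `sh e Y ∈ W`, `sh e Y ≠ Y` (`e ∉ A`), `sh e Y ≠ Y0` (`x ∉ A`), `sh e (sh e Y) = Y` (`e*e = 1`). So `W \ {Y0}` is even (`even_of_free`).
(2) `F3 = {Y ∈ Fix | ¬ Y ≤ ct M}` has even cardinality: let `Y = A ⊔ zpowers x ∈ F3`. For `m ∈ M`: `m*x*m⁻¹ ∈ Y`, `∉ A`, so `[m, x] ∈ A` (`mem_sup_zp`, `x*x = 1`). Let `H = M ⊓ ct Y = {m ∈ M | m*x = x*m}`. The map `M → A`, `m ↦ [m, x]`: if `[m, x] = [m', x]` then `m⁻¹*m' ∈ H`. So `card M ≤ card H * q`, `card H ≥ q^2 > q = card A`: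
 there is `e ∈ H`, `e ∉ A`. Choose `e = e_H` as a function of the subgroup `H` only. `x ∉ M` (since `¬ Y ≤ ct M`). `e ∈ E ≤ M` member; `x*e = e*x`, `Cm E X` by `cm_of_common` (`A` commutes with `E` and `X`); so `x*e` (`≠ 1` as `x ∉ M`) lies in a member (`Sys.C`), commutes with `A`, `x*e ∉ A`. `Y' = sh e Y = A ⊔ zpowers (x*e)` is in `F3`:
 `m*(x*e)*m⁻¹ = [m, x]*x*e`; `x*e ∉ ct M` as `x ∉ ct M`, `e ∈ ct M`. `M ⊓ ct Y' = M ⊓ ct Y`, so `sh e_H` is an involution on `F3`, without fixed points as `e ∉ A`. Use `even_of_free`.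
(3) `Fix = W ∪ F3` (disjoint) would be odd: contradiction.
-/

namespace Pool.Agent.Helper37.WC

variable {G : Type*} [Group G] [Finite G] {S : Set (Subgroup G)} {q : ℕ} {A B E F M M0 M1 : Subgroup G}

/-- `A ⊔ ⟨x e⟩` for `Y = A ⊔ ⟨x⟩` -/
private def sh_t2 (A : Subgroup G) (e : G) (Y : Subgroup G) : Subgroup G :=
  A ⊔ Subgroup.closure {g | ∃ y ∈ Y, y ∉ A ∧ g = y * e}

/-- points over `A` -/
private def Pt_t2 (S : Set (Subgroup G)) (A : Subgroup G) (x : G) : Prop :=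
  x ∉ A ∧ (∃ E ∈ S, x ∈ E) ∧ x ∈ ct A

omit [Finite G] in
private theorem L_mul_t2 {c z : G} (hc : c ∈ A) :
    A ⊔ Subgroup.zpowers (c * z) = A ⊔ Subgroup.zpowers z := by
  apply le_antisymm
  · refine sup_le le_sup_left ?_
    rw [Subgroup.zpowers_le]
    exact Subgroup.mul_mem _ ((le_sup_left : A ≤ A ⊔ Subgroup.zpowers z) hc)
      ((le_sup_right : Subgroup.zpowers z ≤ A ⊔ Subgroup.zpowers z) (Subgroup.mem_zpowers z))
  · refine sup_le le_sup_left ?_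
    rw [Subgroup.zpowers_le]
    have h1 : c⁻¹ * (c * z) ∈ A ⊔ Subgroup.zpowers (c * z) :=
      Subgroup.mul_mem _ ((le_sup_left : A ≤ A ⊔ Subgroup.zpowers (c * z)) (A.inv_mem hc))
        ((le_sup_right : Subgroup.zpowers (c * z) ≤ A ⊔ Subgroup.zpowers (c * z))
          (Subgroup.mem_zpowers (c * z)))
    rwa [inv_mul_cancel_left] at h1

omit [Finite G] in
private theorem Pt_sq_t2 (h : Sys S q) {x : G} (hx : Pt_t2 S A x) : x * x = 1 := by
  obtain ⟨-, ⟨E, hE, hxE⟩, -⟩ := hx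
  exact h.sq E hE x hxE

omit [Finite G] in
private theorem Pt_ne_t2 {x : G} (hx : Pt_t2 S A x) : x ≠ 1 := fun hc => hx.1 (hc ▸ A.one_mem)

private theorem eqL_t2 (h : Sys S q) {x x' : G} (hx : Pt_t2 S A x) (hx' : Pt_t2 S A x')
    (heq : A ⊔ Subgroup.zpowers x' = A ⊔ Subgroup.zpowers x) : x' * x ∈ A := by
  obtain ⟨-, ⟨E, hE, hxE⟩, hc⟩ := hx
  have h1 : x' ∈ A ⊔ Subgroup.zpowers x := by
    rw [← heq]
    exact (le_sup_right : Subgroup.zpowers x' ≤ A ⊔ Subgroup.zpowers x') (Subgroup.mem_zpowers x')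
  rw [mem_sup_zp h hE hxE hc] at h1
  rcases h1 with h1 | h1
  · exact absurd h1 hx'.1
  · exact h1

omit [Finite G] in
private theorem eqL'_t2 (h : Sys S q) {x x' : G} (hx : Pt_t2 S A x) (hm : x' * x ∈ A) :
    A ⊔ Subgroup.zpowers x' = A ⊔ Subgroup.zpowers x := by
  rw [← L_mul_t2 (z := x) hm, mul_assoc, Pt_sq_t2 h hx, mul_one]

private theorem sh_eq_t2 (h : Sys S q) {x : G} (hx : Pt_t2 S A x) (e : G) :
    sh_t2 A e (A ⊔ Subgroup.zpowers x) = A ⊔ Subgroup.zpowers (x * e) := by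
  have hxx := Pt_sq_t2 h hx
  obtain ⟨hxA, ⟨E, hE, hxE⟩, hc⟩ := hx
  unfold sh_t2
  apply le_antisymm
  · refine sup_le le_sup_left ?_
    rw [Subgroup.closure_le]
    rintro g ⟨y, hy, hyA, rfl⟩
    rw [mem_sup_zp h hE hxE hc] at hy
    rcases hy with hy | hy
    · exact absurd hy hyA
    · have h1 : y * e = (y * x) * (x * e) := by
        calc y * e = y * (x * x) * e := by rw [hxx, mul_one]
          _ = (y * x) * (x * e) := by group
      rw [h1]
      exact Subgroup.mul_mem _ ((le_sup_left : A ≤ A ⊔ Subgroup.zpowers (x * e)) hy)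
        ((le_sup_right : Subgroup.zpowers (x * e) ≤ A ⊔ Subgroup.zpowers (x * e))
          (Subgroup.mem_zpowers (x * e)))
  · refine sup_le le_sup_left ?_
    rw [Subgroup.zpowers_le]
    refine (le_sup_right : Subgroup.closure _ ≤ A ⊔ Subgroup.closure _)
      (Subgroup.subset_closure ⟨x, ?_, hxA, rfl⟩)
    exact (le_sup_right : Subgroup.zpowers x ≤ A ⊔ Subgroup.zpowers x) (Subgroup.mem_zpowers x)

omit [Finite G] in
private theorem cjL_t2 {g x : G} (hg : g ∈ nz A) :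
    cj g (A ⊔ Subgroup.zpowers x) = A ⊔ Subgroup.zpowers (g * x * g⁻¹) := by
  have h1 : cj g (A ⊔ Subgroup.zpowers x) = cj g A ⊔ Subgroup.zpowers (g * x * g⁻¹) := by
    unfold cj
    rw [Subgroup.map_sup, MonoidHom.map_zpowers]
    rfl
  rw [h1, mem_nz.1 hg]

omit [Finite G] in
private theorem ctL_t2 {m z : G} (hm : m ∈ ct A) :
    m ∈ ct (A ⊔ Subgroup.zpowers z) ↔ m * z = z * m := by
  constructor
  · intro h1
    exact h1 z ((le_sup_right : Subgroup.zpowers z ≤ A ⊔ Subgroup.zpowers z) (Subgroup.mem_zpowers z))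
  · intro h1 y hy
    have h2 : A ⊔ Subgroup.zpowers z ≤ Subgroup.centralizer ({m} : Set G) := by
      refine sup_le (fun a ha => ?_) ?_
      · rw [Subgroup.mem_centralizer_singleton_iff]
        exact (hm a ha).symm
      · rw [Subgroup.zpowers_le, Subgroup.mem_centralizer_singleton_iff]
        exact h1.symm
    have h3 := h2 hy
    rw [Subgroup.mem_centralizer_singleton_iff] at h3
    exact h3.symm

private theorem ct_le_nz_t2 : ct A ≤ nz A := by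
  intro g hg
  apply mem_nz_of
  intro x hx
  rw [mem_ct.1 hg x hx]
  simpa using hx

omit [Finite G] in
/-- `x e` is not in `A ⊔ ⟨x⟩` -/
private theorem ne_t2 {x e : G} (hxx : x * x = 1) (hcom : x * e = e * x) (heA : e ∉ A) :
    x * e * x ∉ A := by
  rw [hcom, mul_assoc, hxx, mul_one]
  exact heA

/-- part (1) -/
private theorem W_odd_t2 (h : Sys S q) (hM : Cl S M) (hAM : A ≤ M) {e : G} (he : e ∈ M) (heA : e ∉ A) :
    Odd {Y | Y ∈ YA S A ∧ Y ≤ ct M}.ncard := by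
  set W : Set (Subgroup G) := {Y | Y ∈ YA S A ∧ Y ≤ ct M} with hW
  have he1 : e ≠ 1 := fun hc => heA (hc ▸ A.one_mem)
  obtain ⟨E, hE, heE, hEM⟩ := hM.mem e he he1
  have hee : e * e = 1 := h.sq E hE e heE
  have hMct : M ≤ ct M := fun m hm y hy => hM.comm m hm y hy
  have hMA : M ≤ ct A := fun m hm y hy => hM.comm m hm y (hAM hy)
  have hPe : Pt_t2 S A e := ⟨heA, ⟨E, hE, heE⟩, hMA he⟩
  have hLle : ∀ z : G, z ∈ ct M → A ⊔ Subgroup.zpowers z ≤ ct M := by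
    intro z hz
    refine sup_le (hAM.trans hMct) ?_
    rw [Subgroup.zpowers_le]
    exact hz
  have hY0 : A ⊔ Subgroup.zpowers e ∈ W := ⟨⟨e, heA, ⟨E, hE, heE⟩, hMA he, rfl⟩, hLle e (hMct he)⟩
  -- the shifted point
  have hstep : ∀ x : G, Pt_t2 S A x → x ∈ ct M → A ⊔ Subgroup.zpowers x ≠ A ⊔ Subgroup.zpowers e →
      Pt_t2 S A (x * e) ∧ x * e ∈ ct M := by
    intro x hx hxM hne
    have hxe : x * e ∉ A := fun hc => hne (eqL'_t2 h hPe hc)
    have hxe1 : x * e ≠ 1 := fun hc => hxe (hc ▸ A.one_mem)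
    obtain ⟨X, hX, hxX⟩ := hx.2.1
    have hEX : Cm E X := h.cm_of_elem hE hX hxX (Pt_ne_t2 hx) fun y hy => hxM y (hEM hy)
    exact ⟨⟨hxe, h.C X hX E hE hEX.symm x hxX e heE hxe1, (ct A).mul_mem hx.2.2 (hMA he)⟩,
      (ct M).mul_mem hxM (hMct he)⟩
  have hev : Even (W \ {A ⊔ Subgroup.zpowers e}).ncard := by
    refine even_of_free _ (Set.toFinite _) (sh_t2 A e) ?_ ?_ ?_
    · rintro Y ⟨⟨⟨x, hxA, hxS, hxc, rfl⟩, hYM⟩, hne⟩
      have hPx : Pt_t2 S A x := ⟨hxA, hxS, hxc⟩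
      have hxM : x ∈ ct M := hYM ((le_sup_right : Subgroup.zpowers x ≤ A ⊔ Subgroup.zpowers x)
        (Subgroup.mem_zpowers x))
      obtain ⟨h1, h2⟩ := hstep x hPx hxM hne
      rw [sh_eq_t2 h hPx]
      refine ⟨⟨⟨x * e, h1.1, h1.2.1, h1.2.2, rfl⟩, hLle _ h2⟩, fun hc => ?_⟩
      have h3 := eqL_t2 h hPe h1 hc
      rw [mul_assoc, hee, mul_one] at h3
      exact hxA h3
    · rintro Y ⟨⟨⟨x, hxA, hxS, hxc, rfl⟩, hYM⟩, hne⟩
      have hPx : Pt_t2 S A x := ⟨hxA, hxS, hxc⟩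
      have hxM : x ∈ ct M := hYM ((le_sup_right : Subgroup.zpowers x ≤ A ⊔ Subgroup.zpowers x)
        (Subgroup.mem_zpowers x))
      obtain ⟨h1, h2⟩ := hstep x hPx hxM hne
      rw [sh_eq_t2 h hPx, sh_eq_t2 h h1, mul_assoc, hee, mul_one]
    · rintro Y ⟨⟨⟨x, hxA, hxS, hxc, rfl⟩, hYM⟩, hne⟩ hc
      have hPx : Pt_t2 S A x := ⟨hxA, hxS, hxc⟩
      have hxM : x ∈ ct M := hYM ((le_sup_right : Subgroup.zpowers x ≤ A ⊔ Subgroup.zpowers x)
        (Subgroup.mem_zpowers x))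
      obtain ⟨h1, h2⟩ := hstep x hPx hxM hne
      rw [sh_eq_t2 h hPx] at hc
      exact ne_t2 (Pt_sq_t2 h hPx) (hxM e he) heA (eqL_t2 h hPx h1 hc)
  have hcard := Set.ncard_sdiff_singleton_add_one hY0 (Set.toFinite W)
  rw [← hcard]
  exact hev.add_one

/-- a counting lemma -/
private theorem count_t2 {N : Subgroup G} {x : G} (hM : ∀ m ∈ M, m * x * m⁻¹ * x ∈ A)
    (hN : ∀ m ∈ M, m * x = x * m → m ∈ N) : Nat.card M ≤ Nat.card N * Nat.card A := by
  classical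
  have : Fintype G := Fintype.ofFinite G
  let φ : M → A := fun m => ⟨m.1 * x * (m.1)⁻¹ * x, hM m.1 m.2⟩
  have hfib : ∀ c ∈ (Finset.univ : Finset A), (Finset.univ.filter fun m : M => φ m = c).card ≤ Nat.card N := by
    intro c _
    rcases Finset.eq_empty_or_nonempty (Finset.univ.filter fun m : M => φ m = c) with h0 | ⟨m0, hm0⟩
    · rw [h0, Finset.card_empty]
      exact Nat.zero_le _
    · have hm0' : φ m0 = c := (Finset.mem_filter.1 hm0).2
      rw [Nat.card_eq_fintype_card, ← Finset.card_univ]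
      refine Finset.card_le_card_of_injOn (fun m : M => if hm : (m0.1)⁻¹ * m.1 ∈ N then
        (⟨(m0.1)⁻¹ * m.1, hm⟩ : N) else 1) (fun _ _ => Finset.mem_coe.2 (Finset.mem_univ _)) ?_
      intro m hm m' hm' heq
      have key : ∀ m : M, φ m = c → (m0.1)⁻¹ * m.1 ∈ N := by
        intro m hmc
        refine hN _ (M.mul_mem (M.inv_mem m0.2) m.2) ?_
        have h1 : m0.1 * x * (m0.1)⁻¹ * x = m.1 * x * (m.1)⁻¹ * x :=
          congrArg Subtype.val (hm0'.trans hmc.symm)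
        have h2 : m0.1 * x * (m0.1)⁻¹ = m.1 * x * (m.1)⁻¹ := mul_right_cancel h1
        calc (m0.1)⁻¹ * m.1 * x = (m0.1)⁻¹ * (m.1 * x * (m.1)⁻¹) * m.1 := by group
          _ = (m0.1)⁻¹ * (m0.1 * x * (m0.1)⁻¹) * m.1 := by rw [h2]
          _ = x * ((m0.1)⁻¹ * m.1) := by group
      have e1 := key m (Finset.mem_filter.1 (Finset.mem_coe.1 hm)).2
      have e2 := key m' (Finset.mem_filter.1 (Finset.mem_coe.1 hm')).2
      simp only [dif_pos e1, dif_pos e2] at heq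
      have e3 := congrArg Subtype.val heq
      exact Subtype.ext (mul_left_cancel e3)
  have h1 := Finset.card_le_mul_card_image_of_maps_to (s := (Finset.univ : Finset M))
    (t := (Finset.univ : Finset A)) (f := φ) (fun m _ => Finset.mem_univ _) (Nat.card N) hfib
  rw [Finset.card_univ, Finset.card_univ, ← Nat.card_eq_fintype_card, ← Nat.card_eq_fintype_card] at h1
  exact h1

open Classical in
/-- an element of `H` outside `A` -/
private noncomputable def eH_t2 (A H : Subgroup G) : G :=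
  if hH : ∃ e ∈ H, e ∉ A then hH.choose else 1

omit [Finite G] in
private theorem eH_spec_t2 {H : Subgroup G} (hH : ∃ e ∈ H, e ∉ A) :
    eH_t2 A H ∈ H ∧ eH_t2 A H ∉ A := by
  unfold eH_t2
  rw [dif_pos hH]
  exact hH.choose_spec

/-- part (2) -/
private theorem F_even_t2 (h : Sys S q) (hno : ∀ A B D, NR S A B → D ∈ S → Cm D A → Cm D B → False)
    (hA : A ∈ S) (hM : Cl S M) (hAM : A ≤ M) (hbig : q ^ 2 < Nat.card M) :
    Even {Y | (Y ∈ YA S A ∧ ∀ m ∈ M, cj m Y = Y) ∧ ¬ Y ≤ ct M}.ncard := by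
  set F3 : Set (Subgroup G) := {Y | (Y ∈ YA S A ∧ ∀ m ∈ M, cj m Y = Y) ∧ ¬ Y ≤ ct M} with hF3
  have hMct : M ≤ ct M := fun m hm y hy => hM.comm m hm y hy
  have hMA : M ≤ ct A := fun m hm y hy => hM.comm m hm y (hAM hy)
  have hAA : A ≤ ct A := fun m hm y hy => h.comm hA m hm y hy
  have hLM : ∀ z : G, A ⊔ Subgroup.zpowers z ≤ ct M ↔ z ∈ ct M := by
    intro z
    constructor
    · intro hz
      exact hz ((le_sup_right : Subgroup.zpowers z ≤ A ⊔ Subgroup.zpowers z) (Subgroup.mem_zpowers z))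
    · intro hz
      refine sup_le (hAM.trans hMct) ?_
      rw [Subgroup.zpowers_le]
      exact hz
  -- the main step
  have hstep : ∀ x : G, Pt_t2 S A x → (∀ m ∈ M, cj m (A ⊔ Subgroup.zpowers x) = A ⊔ Subgroup.zpowers x) →
      x ∉ ct M → ∃ e : G, e = eH_t2 A (M ⊓ ct (A ⊔ Subgroup.zpowers x)) ∧ e ∈ M ∧ e ∉ A ∧ e * e = 1 ∧
        x * e = e * x ∧ Pt_t2 S A (x * e) ∧
        (∀ m ∈ M, cj m (A ⊔ Subgroup.zpowers (x * e)) = A ⊔ Subgroup.zpowers (x * e)) ∧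
        x * e ∉ ct M ∧ M ⊓ ct (A ⊔ Subgroup.zpowers (x * e)) = M ⊓ ct (A ⊔ Subgroup.zpowers x) := by
    intro x hx hfix hxM
    have hxx := Pt_sq_t2 h hx
    obtain ⟨X, hX, hxX⟩ := hx.2.1
    have hcomA : ∀ m ∈ M, m * x * m⁻¹ * x ∈ A := by
      intro m hm
      have h1 : m * x * m⁻¹ ∈ A ⊔ Subgroup.zpowers x := by
        rw [← hfix m hm]
        exact conj_mem_cj ((le_sup_right : Subgroup.zpowers x ≤ A ⊔ Subgroup.zpowers x)
          (Subgroup.mem_zpowers x))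
      rw [mem_sup_zp h hX hxX hx.2.2] at h1
      rcases h1 with h1 | h1
      · exfalso
        rw [← mem_nz.1 (ct_le_nz_t2 (hMA hm))] at h1
        exact hx.1 (conj_mem_cj_iff.1 h1)
      · exact h1
    have hex : ∃ e ∈ M ⊓ ct (A ⊔ Subgroup.zpowers x), e ∉ A := by
      by_contra hc
      push Not at hc
      have h1 := count_t2 (A := A) (M := M) (N := A) (x := x) hcomA
        (fun m hm hmx => hc m ⟨hm, (ctL_t2 (hMA hm)).2 hmx⟩)
      rw [h.card A hA] at h1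
      rw [pow_two] at hbig
      omega
    obtain ⟨heH, heA⟩ := eH_spec_t2 hex
    obtain ⟨e, hedef⟩ : ∃ e, e = eH_t2 A (M ⊓ ct (A ⊔ Subgroup.zpowers x)) := ⟨_, rfl⟩
    rw [← hedef] at heH heA
    have heM : e ∈ M := heH.1
    have hex' : e * x = x * e := (ctL_t2 (hMA heM)).1 heH.2
    have he1 : e ≠ 1 := fun hc => heA (hc ▸ A.one_mem)
    obtain ⟨E, hE, heE, hEM⟩ := hM.mem e heM he1
    have hee : e * e = 1 := h.sq E hE e heE
    have hxnM : x ∉ M := fun hc => hxM (hMct hc)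
    have hxeM : x * e ∉ M := fun hc => hxnM (by
      have := M.mul_mem hc heM
      rwa [mul_assoc, hee, mul_one] at this)
    have hAE : Cm A E := fun a ha b hb => hM.comm a (hAM ha) b (hEM hb)
    have hAX : Cm A X := h.cm_of_elem hA hX hxX (Pt_ne_t2 hx) hx.2.2
    have hEX : Cm E X := cm_of_common h hno hA hE hX hAE hAX heE he1 hxX (Pt_ne_t2 hx) hex'
    have hxe1 : x * e ≠ 1 := fun hc => hxeM (hc ▸ M.one_mem)
    have hPxe : Pt_t2 S A (x * e) := ⟨fun hc => hxeM (hAM hc),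
      h.C X hX E hE hEX.symm x hxX e heE hxe1, (ct A).mul_mem hx.2.2 (hMA heM)⟩
    refine ⟨e, hedef, heM, heA, hee, hex'.symm, hPxe, fun m hm => ?_, fun hc => hxM ?_, ?_⟩
    · rw [cjL_t2 (ct_le_nz_t2 (hMA hm))]
      have h1 : m * (x * e) * m⁻¹ = (m * x * m⁻¹ * x) * (x * e) := by
        have h2 : e * m⁻¹ = m⁻¹ * e := hM.comm e heM m⁻¹ (M.inv_mem hm)
        calc m * (x * e) * m⁻¹ = m * x * (e * m⁻¹) := by group
          _ = m * x * m⁻¹ * 1 * e := by rw [h2]; group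
          _ = (m * x * m⁻¹ * x) * (x * e) := by rw [← hxx]; group
      rw [h1, L_mul_t2 (hcomA m hm)]
    · have h1 := (ct M).mul_mem hc (hMct heM)
      rwa [mul_assoc, hee, mul_one] at h1
    · ext m
      rw [Subgroup.mem_inf, Subgroup.mem_inf]
      refine and_congr_right fun hm => ?_
      rw [ctL_t2 (hMA hm), ctL_t2 (hMA hm)]
      have h2 : m * e = e * m := hM.comm m hm e heM
      constructor
      · intro h3
        have h4 : m * x * e = x * m * e := by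
          calc m * x * e = m * (x * e) := by group
            _ = x * (e * m) := by rw [h3]; group
            _ = x * m * e := by rw [← h2]; group
        exact mul_right_cancel h4
      · intro h3
        calc m * (x * e) = (m * x) * e := by group
          _ = x * (m * e) := by rw [h3]; group
          _ = x * e * m := by rw [h2]; group
  refine even_of_free F3 (Set.toFinite _) (fun Y => sh_t2 A (eH_t2 A (M ⊓ ct Y)) Y) ?_ ?_ ?_
  · rintro Y ⟨⟨⟨x, hxA, hxS, hxc, rfl⟩, hfix⟩, hYM⟩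
    have hPx : Pt_t2 S A x := ⟨hxA, hxS, hxc⟩
    rw [hLM] at hYM
    obtain ⟨e, h1, h2, h3, h4, h5, h6, h7, h8, h9⟩ := hstep x hPx hfix hYM
    rw [← h1, sh_eq_t2 h hPx]
    refine ⟨⟨⟨x * e, h6.1, h6.2.1, h6.2.2, rfl⟩, h7⟩, ?_⟩
    rw [hLM]
    exact h8
  · rintro Y ⟨⟨⟨x, hxA, hxS, hxc, rfl⟩, hfix⟩, hYM⟩
    have hPx : Pt_t2 S A x := ⟨hxA, hxS, hxc⟩
    rw [hLM] at hYM
    obtain ⟨e, h1, h2, h3, h4, h5, h6, h7, h8, h9⟩ := hstep x hPx hfix hYM
    rw [← h1, sh_eq_t2 h hPx, h9, ← h1, sh_eq_t2 h h6, mul_assoc, h4, mul_one]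
  · rintro Y ⟨⟨⟨x, hxA, hxS, hxc, rfl⟩, hfix⟩, hYM⟩ hc
    have hPx : Pt_t2 S A x := ⟨hxA, hxS, hxc⟩
    rw [hLM] at hYM
    obtain ⟨e, h1, h2, h3, h4, h5, h6, h7, h8, h9⟩ := hstep x hPx hfix hYM
    rw [← h1, sh_eq_t2 h hPx] at hc
    exact ne_t2 (Pt_sq_t2 h hPx) h5 h3 (eqL_t2 h hPx h6 hc)

theorem T2 (h : Sys S q) (hno : ∀ A B D, NR S A B → D ∈ S → Cm D A → Cm D B → False) (n : NR S A B) (hM : Cl S M)
    (hA : A ≤ M) : Nat.card M ≤ q ^ 2 := by
  by_contra hbig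
  rw [not_le] at hbig
  have hMct : M ≤ ct M := fun m hm y hy => hM.comm m hm y hy
  have hMA : M ≤ ct A := fun m hm y hy => hM.comm m hm y (hA hy)
  have hex : ∃ e ∈ M, e ∉ A := by
    by_contra hc
    push Not at hc
    have h1 : M ≤ A := hc
    have h2 := Subgroup.card_le_of_le h1
    rw [h.card A n.hA] at h2
    have h3 : q ≤ q ^ 2 := by
      rw [pow_two]
      exact Nat.le_mul_of_pos_left q (by have := h.q1; omega)
    omega
  obtain ⟨e, he, heA⟩ := hex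
  have hev := YA_even h n fun D hD h1 h2 => hno A B D n hD h1 h2
  have hpar := par_fix M (hM.isP h) (YA S A) fun p hp Y hY => YA_cj_mem h (ct_le_nz_t2 (hMA hp)) hY
  have hW := W_odd_t2 h hM hA he heA
  have hF := F_even_t2 h hno n.hA hM hA hbig
  have hsplit : {Y | Y ∈ YA S A ∧ ∀ p ∈ M, cj p Y = Y} =
      {Y | Y ∈ YA S A ∧ Y ≤ ct M} ∪ {Y | (Y ∈ YA S A ∧ ∀ m ∈ M, cj m Y = Y) ∧ ¬ Y ≤ ct M} := by
    ext Y
    constructor
    · rintro ⟨h1, h2⟩
      by_cases h3 : Y ≤ ct M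
      · exact Or.inl ⟨h1, h3⟩
      · exact Or.inr ⟨⟨h1, h2⟩, h3⟩
    · rintro (⟨h1, h2⟩ | ⟨⟨h1, h2⟩, -⟩)
      · refine ⟨h1, fun m hm => ?_⟩
        refine mem_nz.1 (mem_nz_of fun y hy => ?_)
        have h3 : y * m = m * y := h2 hy m hm
        rw [← h3, mul_inv_cancel_right]
        exact hy
      · exact ⟨h1, h2⟩
  have hdisj : Disjoint {Y | Y ∈ YA S A ∧ Y ≤ ct M}
      {Y | (Y ∈ YA S A ∧ ∀ m ∈ M, cj m Y = Y) ∧ ¬ Y ≤ ct M} := by
    rw [Set.disjoint_left]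
    rintro Y ⟨-, h1⟩ ⟨-, h2⟩
    exact h2 h1
  rw [hsplit, Set.ncard_union_eq hdisj (Set.toFinite _) (Set.toFinite _)] at hpar
  obtain ⟨i, hi⟩ := hev
  obtain ⟨j, hj⟩ := hW
  obtain ⟨k, hk⟩ := hF
  rw [hi, hj, hk] at hpar
  omega

end Pool.Agent.Helper37.WC
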