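import Pool.Agent.Helper37.WC.KL

/-!
WC-26 (MP_b5afc9_al, project WC). Consequences of Theorem A (assumed here as the hypothesis `hno`): elements of members in the centraliser of `A`. `[x, y] = x*y*x⁻¹*y⁻¹`.

* `thmB`: if moreover `card (nn A B)^2 = q` then a member `E` commuting with `A` is `A`: suppose `E ≠ A`, take `w ∈ E`, `w ≠ 1`; `w ∉ A`, `w ∈ ct A`. Take `b ∈ B`, `b ≠ 1`, `b ∈ nz A` and `z` from `kl`; `z ∈ nn A B` (`Sys.nz_of_comm`). The map `A → nn A B`, `a ↦ a*(b*a*b⁻¹)` (it commutes with `b`) has fibres of size at most `card (nn A B)`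
  (equal values: `a⁻¹*a'` commutes with `b`) so its image has at least `q / card (nn A B) = card (nn A B)` elements: it is surjective, so `z` is in the image. Contradiction.
-/

namespace Pool.Agent.Helper37.WC

variable {G : Type*} [Group G] [Finite G] {S : Set (Subgroup G)} {q : ℕ} {A B E : Subgroup G}

theorem thmB (h : Sys S q) (hno : ∀ A B D, NR S A B → D ∈ S → Cm D A → Cm D B → False) (n : NR S A B)
    (hq : Nat.card (nn A B) ^ 2 = q) (hE : E ∈ S) (hc : Cm A E) : E = A := by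
  by_contra hne
  obtain ⟨w, hwE, hw1⟩ := h.exists_ne hE
  have hwA : w ∉ A := fun hwA => hne (h.eq hE n.hA hwE hwA hw1)
  have hwc : w ∈ ct A := fun a ha => (hc a ha w hwE).symm
  obtain ⟨b, hb, hb1, hb'⟩ := (n.symm h).ex
  obtain ⟨z, hzA, hz1, hzb, hz⟩ := kl h hno n hb hb1 hb' hwc hwA ⟨E, hE, hwE⟩
  have hbb : b * b = 1 := h.sq B n.hB b hb
  have hbi : b⁻¹ = b := h.inv n.hB hb
  have key : ∀ a ∈ A, a * (b * a * b⁻¹) ∈ nn A B := by
    intro a ha
    have hc1 : b * a * b⁻¹ ∈ A := nz_conj_mem hb' ha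
    refine ⟨A.mul_mem ha hc1, h.nz_of_comm n.hB hb hb1 ?_⟩
    have h2 : b * (b * a * b⁻¹) * b⁻¹ = a := by
      rw [hbi]
      calc b * (b * a * b) * b = (b * b) * a * (b * b) := by group
        _ = a := by rw [hbb, one_mul, mul_one]
    have h3 : b * (a * (b * a * b⁻¹)) * b⁻¹ = a * (b * a * b⁻¹) := by
      calc b * (a * (b * a * b⁻¹)) * b⁻¹ = (b * a * b⁻¹) * (b * (b * a * b⁻¹) * b⁻¹) := by group
        _ = (b * a * b⁻¹) * a := by rw [h2]
        _ = a * (b * a * b⁻¹) := h.comm n.hA _ hc1 _ ha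
    exact (mul_inv_eq_iff_eq_mul.1 h3).symm
  let f : A →* nn A B :=
    { toFun := fun a => ⟨(a : G) * (b * a * b⁻¹), key a a.2⟩
      map_one' := by
        apply Subtype.ext
        simp
      map_mul' := by
        intro a1 a2
        apply Subtype.ext
        have hc1 : b * (a1 : G) * b⁻¹ ∈ A := nz_conj_mem hb' a1.2
        have hcm := h.comm n.hA _ hc1 _ a2.2
        show ((a1 : G) * a2) * (b * ((a1 : G) * a2) * b⁻¹) = ((a1 : G) * (b * a1 * b⁻¹)) * ((a2 : G) * (b * a2 * b⁻¹))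
        calc ((a1 : G) * a2) * (b * ((a1 : G) * a2) * b⁻¹)
            = (a1 : G) * ((a2 : G) * (b * a1 * b⁻¹)) * (b * a2 * b⁻¹) := by group
          _ = (a1 : G) * ((b * a1 * b⁻¹) * a2) * (b * a2 * b⁻¹) := by rw [hcm]
          _ = ((a1 : G) * (b * a1 * b⁻¹)) * ((a2 : G) * (b * a2 * b⁻¹)) := by group }
  have hker : Nat.card f.ker ≤ Nat.card (nn A B) := by
    have hm : ∀ a : f.ker, ((a : A) : G) ∈ nn A B := by
      intro a
      have h1 : f (a : A) = 1 := a.2
      have h2 : ((a : A) : G) * (b * (a : A) * b⁻¹) = 1 := congrArg Subtype.val h1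
      have h3 : b * ((a : A) : G) * b⁻¹ = (a : A) := by
        rw [← h.inv n.hA (a : A).2]
        rw [h.inv n.hA (a : A).2]
        have h4 := eq_inv_of_mul_eq_one_right h2
        rw [h4]
        exact h.inv n.hA (a : A).2
      refine ⟨(a : A).2, h.nz_of_comm n.hB hb hb1 ?_⟩
      exact (mul_inv_eq_iff_eq_mul.1 h3).symm
    refine Nat.card_le_card_of_injective (fun a : f.ker => (⟨((a : A) : G), hm a⟩ : nn A B)) ?_
    intro a1 a2 h12
    apply Subtype.ext
    apply Subtype.ext
    exact congrArg (fun t : nn A B => (t : G)) h12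
  have hcard : Nat.card f.ker * Nat.card f.range = Nat.card (nn A B) ^ 2 := by
    rw [hq, ← h.card A n.hA, ← Subgroup.index_ker, Subgroup.card_mul_index]
  have hpos : 0 < Nat.card (nn A B) := Nat.card_pos
  have hrange : Nat.card (nn A B) ≤ Nat.card f.range := by
    by_contra hlt
    push Not at hlt
    have : Nat.card f.ker * Nat.card f.range < Nat.card (nn A B) * Nat.card (nn A B) := by
      calc Nat.card f.ker * Nat.card f.range ≤ Nat.card (nn A B) * Nat.card f.range := Nat.mul_le_mul_right _ hker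
        _ < Nat.card (nn A B) * Nat.card (nn A B) := Nat.mul_lt_mul_of_pos_left hlt hpos
    rw [hcard, sq] at this
    exact lt_irrefl _ this
  have htop : f.range = ⊤ := Subgroup.eq_top_of_le_card _ hrange
  have hzn : z ∈ nn A B := ⟨hzA, h.nz_of_comm n.hB hb hb1 hzb⟩
  have hzr : (⟨z, hzn⟩ : nn A B) ∈ f.range := by
    rw [htop]
    exact Subgroup.mem_top _
  obtain ⟨a, ha⟩ := hzr
  exact hz a a.2 (congrArg Subtype.val ha)

end Pool.Agent.Helper37.WC
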