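import Pool.Agent.Helper37.WC.L4
import Pool.Agent.Helper37.WC.CliqCard

/-!
WC-31 (MP_b5afc9_al, project WC). Lines over a member `A`. `hno` is Theorem A (no member commutes with both members of a pair of non-root type), `hk` says that all clique groups have order at most `q^2`.

A line over `A` is a clique group `M ≥ A`, `M ≠ A`.
* `cm_of_common`: `x ∈ E`, `y ∈ F` commuting, nontrivial, `A` commutes with `E` and `F`: then `Cm E F`. (`y ∈ nz E` by `Sys.nz_of_comm`; `Sys.nr_or` for the pair `(F, E)`; the second case contradicts `hno`.)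
* `Ln.out`: `A < M`. `Ln.card`: `Cl.card_ge` and `hk`. `Ln.ctA`: `M` is abelian. `Ln.conj'`: `Cl.cj'`, `cj x A = A`.
* `Ln.eq`: `M0 ⊓ M1` is a clique group (`Cl.inf`) containing `A` and `x ∉ A` so has order at least `q^2` (`Cl.card_ge`), so it equals `M0` and `M1`.
* `Ln.not_le`: cardinalities.
* `Ln.cm`: `f ∈ E ≤ M0`, `g ∈ F ≤ M1` members (`Cl.mem`; `f, g ≠ 1` since not in `A`), `Cm E F` by `cm_of_common`. `A, E, F` are pairwise commuting (`Sys.comm`), so there is a clique group `N` containing them (`Sys.exists_cl` with `T = {A, E, F}`); `N` is a line over `A`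
  containing `f` and `g`, so `M0 = N = M1` by `Ln.eq`.
* `Ln.isP`: `Cl.isP`.
* `Ln.nofix`: no `b ∈ B`, `b ≠ 1`, `b ∈ nz A` (`(A, B)` of non-root type) normalises a line `M` over `A`: `card M ≤ card (M ⊓ nz B)^2 = (card (M ⊓ ct B) * card (nn A B))^2` (`l4d`, `l4e`), `M ⊓ ct B` is trivial (a nontrivial element lies in a member `F ≤ M` with `Cm B F` by `Sys.cm_of_elem`, `Cm F A`: contradicts `hno`),
  so `q^2 = card M ≤ card (nn A B)^2 < q^2` (`NR.card_lt`).
-/

namespace Pool.Agent.Helper37.WC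

variable {G : Type*} [Group G] [Finite G] {S : Set (Subgroup G)} {q : ℕ} {A B E F M M0 M1 : Subgroup G}

theorem cm_of_common (h : Sys S q) (hno : ∀ A B D, NR S A B → D ∈ S → Cm D A → Cm D B → False) (hA : A ∈ S) (hE : E ∈ S)
    (hF : F ∈ S) (hAE : Cm A E) (hAF : Cm A F) {x y : G} (hx : x ∈ E) (hx1 : x ≠ 1) (hy : y ∈ F) (hy1 : y ≠ 1)
    (hxy : x * y = y * x) : Cm E F := by
  have hy' : y ∈ nz E := h.nz_of_comm hE hx hx1 hxy.symm
  rcases h.nr_or hF hE hy hy1 hy' with hc | hn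
  · exact hc.symm
  · exact (hno F E A hn hA hAF hAE).elim

/-- `M` is a line over `A` -/
structure Ln (S : Set (Subgroup G)) (A M : Subgroup G) : Prop where
  cl : Cl S M
  le : A ≤ M
  ne : M ≠ A

theorem Ln.out (l : Ln S A M) : ∃ x ∈ M, x ∉ A := by
  by_contra hc
  push Not at hc
  exact l.ne (le_antisymm hc l.le)

theorem Ln.ctA (l : Ln S A M) {x : G} (hx : x ∈ M) : x ∈ ct A := by
  intro a ha
  exact l.cl.comm x hx a (l.le ha)

theorem Ln.card (h : Sys S q) (hk : ∀ A M, A ∈ S → Cl S M → A ≤ M → Nat.card M ≤ q ^ 2) (hA : A ∈ S) (l : Ln S A M) :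
    Nat.card M = q ^ 2 := by
  obtain ⟨x, hx, hxA⟩ := l.out
  exact le_antisymm (hk A M hA l.cl l.le) (l.cl.card_ge h hA l.le hx hxA)

theorem Ln.conj' (h : Sys S q) (l : Ln S A M) {x : G} (hx : x ∈ nz A) : Ln S A (cj x M) := by
  have hxA : cj x A = A := mem_nz.1 hx
  refine ⟨l.cl.cj' h x, ?_, ?_⟩
  · have h1 := cj_mono (g := x) l.le
    rwa [hxA] at h1
  · intro hc
    apply l.ne
    apply le_antisymm _ l.le
    rw [← cj_le_iff (g := x), hc, hxA]

private theorem eq_of_card40 {L M : Subgroup G} (h : L ≤ M) (hc : Nat.card M ≤ Nat.card L) : L = M := by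
  apply SetLike.coe_injective
  apply Set.eq_of_subset_of_ncard_le h _ (Set.toFinite _)
  rw [← Nat.card_coe_set_eq, ← Nat.card_coe_set_eq]
  exact hc

theorem Ln.eq (h : Sys S q) (hk : ∀ A M, A ∈ S → Cl S M → A ≤ M → Nat.card M ≤ q ^ 2) (hA : A ∈ S) (l0 : Ln S A M0)
    (l1 : Ln S A M1) {x : G} (hx0 : x ∈ M0) (hx1 : x ∈ M1) (hxA : x ∉ A) : M0 = M1 := by
  have hI : Cl S (M0 ⊓ M1) := l0.cl.inf h l1.cl
  have hc := hI.card_ge h hA (le_inf l0.le l1.le) (x := x) ⟨hx0, hx1⟩ hxA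
  have e0 : M0 ⊓ M1 = M0 := eq_of_card40 inf_le_left (by rw [l0.card h hk hA]; exact hc)
  have e1 : M0 ⊓ M1 = M1 := eq_of_card40 inf_le_right (by rw [l1.card h hk hA]; exact hc)
  rw [← e0]
  exact e1

theorem Ln.not_le (h : Sys S q) (hk : ∀ A M, A ∈ S → Cl S M → A ≤ M → Nat.card M ≤ q ^ 2) (hA : A ∈ S) (l0 : Ln S A M0)
    (l1 : Ln S A M1) (hne : M0 ≠ M1) : ¬ M0 ≤ M1 := by
  intro hc
  exact hne (eq_of_card40 hc (by rw [l0.card h hk hA, l1.card h hk hA]))

theorem Ln.cm (h : Sys S q) (hno : ∀ A B D, NR S A B → D ∈ S → Cm D A → Cm D B → False)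
    (hk : ∀ A M, A ∈ S → Cl S M → A ≤ M → Nat.card M ≤ q ^ 2) (hA : A ∈ S) (l0 : Ln S A M0) (l1 : Ln S A M1)
    {f g : G} (hf : f ∈ M0) (hfA : f ∉ A) (hg : g ∈ M1) (hgA : g ∉ A) (hfg : f * g = g * f) : M0 = M1 := by
  have hf1 : f ≠ 1 := by
    rintro rfl
    exact hfA A.one_mem
  have hg1 : g ≠ 1 := by
    rintro rfl
    exact hgA A.one_mem
  obtain ⟨E, hE, hfE, hEM⟩ := l0.cl.mem f hf hf1
  obtain ⟨F, hF, hgF, hFM⟩ := l1.cl.mem g hg hg1
  have hAE : Cm A E := fun a ha b hb => l0.cl.comm a (l0.le ha) b (hEM hb)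
  have hAF : Cm A F := fun a ha b hb => l1.cl.comm a (l1.le ha) b (hFM hb)
  have hEF : Cm E F := cm_of_common h hno hA hE hF hAE hAF hfE hf1 hgF hg1 hfg
  have hAA : Cm A A := fun a ha b hb => h.comm hA a ha b hb
  have hEE : Cm E E := fun a ha b hb => h.comm hE a ha b hb
  have hFF : Cm F F := fun a ha b hb => h.comm hF a ha b hb
  obtain ⟨N, hN, hTN⟩ := h.exists_cl {A, E, F} (by
      rintro D (rfl | rfl | rfl)
      · exact hA
      · exact hE
      · exact hF) (by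
      rintro D (rfl | rfl | rfl) D' (rfl | rfl | rfl)
      · exact hAA
      · exact hAE
      · exact hAF
      · exact hAE.symm
      · exact hEE
      · exact hEF
      · exact hAF.symm
      · exact hEF.symm
      · exact hFF)
  have hAN : A ≤ N := hTN A (by simp)
  have hEN : E ≤ N := hTN E (by simp)
  have hFN : F ≤ N := hTN F (by simp)
  have lN : Ln S A N := ⟨hN, hAN, fun hc => hfA (hc ▸ hEN hfE)⟩
  exact (l0.eq h hk hA lN hf (hEN hfE) hfA).trans (l1.eq h hk hA lN hg (hFN hgF) hgA).symm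

theorem Ln.isP (h : Sys S q) (l : Ln S A M) : IsPGroup 2 M := by
  exact l.cl.isP h

theorem Ln.nofix (h : Sys S q) (hno : ∀ A B D, NR S A B → D ∈ S → Cm D A → Cm D B → False) (n : NR S A B) (l : Ln S A M)
    {b : G} (hb : b ∈ B) (hb1 : b ≠ 1) (hb' : b ∈ nz A) : cj b M ≠ M := by
  intro hc
  have hbM : b ∈ nz M := mem_nz.2 hc
  have h1 := n.l4d h l.cl l.le hb hb1 hb' hbM
  have h2 := n.l4e h l.cl l.le
  have h3 : M ⊓ ct B = ⊥ := by
    rw [Subgroup.eq_bot_iff_forall]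
    intro x hx
    by_contra hx1
    obtain ⟨F, hF, hxF, hFM⟩ := l.cl.mem x hx.1 hx1
    have hBF : Cm B F := h.cm_of_elem n.hB hF hxF hx1 hx.2
    exact hno A B F n hF (fun a ha b hb => l.cl.comm a (hFM ha) b (l.le hb)) hBF.symm
  rw [h3, Subgroup.card_bot, one_mul] at h2
  rw [h2] at h1
  obtain ⟨x, hx, hxA⟩ := l.out
  have h4 := l.cl.card_ge h n.hA l.le hx hxA
  have h5 := n.card_lt h
  have h6 : Nat.card (nn A B) ^ 2 < q ^ 2 := Nat.pow_lt_pow_left h5 (by norm_num)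
  omega

end Pool.Agent.Helper37.WC
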