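import Pool.Agent.Helper37.WC.Z0

/-!
WC-32 (MP_b5afc9_al, project WC). The central involution `ze A f g = (f*g)^(orderOf (f*g)/2)` of the dihedral group `⟨f, g⟩`, `f ∈ M0`, `g ∈ M1` in different lines over `A` generating a `2`-group (`ze A f g = 1` if `f ∈ A` or `g ∈ A`).

Elements of `M0` and `M1` have square one (`Cl.sq`) and commute with `A` (`Ln.ctA`).
* `ze_ord`: `f*g ∈ M0 ⊔ M1`, a `2`-group, so `orderOf (f*g) = 2^t`; `t ≥ 2`: otherwise `(f*g)*(f*g) = 1` and `f`, `g` commute (`f⁻¹ = f`, `g⁻¹ = g`), so `M0 = M1` by `Ln.cm`.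
* `ze_mem`: let `f, g ∉ A`, `d = f*g`, `orderOf d = 2^(t+2) = 2n`, `z = d^n ≠ 1`, `z*z = 1`. `f*d*f⁻¹ = g*f = d⁻¹`, same for `g` (`g*d*g⁻¹ = g*f = d⁻¹`), so `f*z*f⁻¹ = z⁻¹ = z`, `z` commutes with `f` and with `g`, and `z ∈ ct A`. `n = 2j` is even: `z*f = d^(2j)*f = d^j*f*(d^j)⁻¹`, a conjugate of `f` by an element of `ct A`: it lies in the member
  `cj (d^j) E` where `f ∈ E ≤ M0`, which commutes with `A = cj (d^j) A`; similarly `z*g = d^j*g*(d^j)⁻¹`. `z*f` and `f` commute so `Cm (cj (d^j) E) E` by `cm_of_common` (or directly), so `z = (z*f)*f` lies in `S`-member: by `Sys.C`, there is `F ∈ S` with `z ∈ F` (`z ≠ 1`). Now if `z ∉ A`: `z ∈ ct A`, so `Cm A F` (`Sys.cm_of_elem`), let `N` be a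
  clique group containing `A`, `F` (`Sys.join2`), a line over `A` containing `z`; `z` commutes with `f`, so `N = M0` by `Ln.cm`, and with `g`, so `N = M1`. Contradiction. So `z ∈ A`.
* `ze_ne`: `z ≠ 1` by the order. `ze_sq`: in `A`.
* `ze_symm`: `g*f = (f*g)⁻¹`, `orderOf_inv`, and `z⁻¹ = z`.
* `ze_conj`: `x*f*x⁻¹ ∈ A ↔ f ∈ A` for `x ∈ nz A`; `(x*f*x⁻¹)*(x*g*x⁻¹) = x*(f*g)*x⁻¹`, `conj_pow`, the order of a conjugate.
-/

namespace Pool.Agent.Helper37.WC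

variable {G : Type*} [Group G] [Finite G] {S : Set (Subgroup G)} {q : ℕ} {A B E F M M0 M1 : Subgroup G}

open Classical in
/-- the central involution of `⟨f, g⟩` -/
noncomputable def ze (A : Subgroup G) (f g : G) : G :=
  if f ∈ A ∨ g ∈ A then 1 else (f * g) ^ (orderOf (f * g) / 2)

theorem ze_of {f g : G} (hf : f ∉ A) (hg : g ∉ A) : ze A f g = (f * g) ^ (orderOf (f * g) / 2) := by
  unfold ze
  rw [if_neg (by tauto)]

theorem ze_left {f g : G} (hf : f ∈ A) : ze A f g = 1 := by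
  unfold ze
  rw [if_pos (Or.inl hf)]

theorem ze_right {f g : G} (hg : g ∈ A) : ze A f g = 1 := by
  unfold ze
  rw [if_pos (Or.inr hg)]

theorem ze_ord (h : Sys S q) (hno : ∀ A B D, NR S A B → D ∈ S → Cm D A → Cm D B → False)
    (hk : ∀ A M, A ∈ S → Cl S M → A ≤ M → Nat.card M ≤ q ^ 2) (hA : A ∈ S) (l0 : Ln S A M0) (l1 : Ln S A M1)
    (hne : M0 ≠ M1) (hT : IsPGroup 2 (M0 ⊔ M1 : Subgroup G)) {f g : G} (hf : f ∈ M0) (hfA : f ∉ A) (hg : g ∈ M1)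
    (hgA : g ∉ A) : ∃ t, orderOf (f * g) = 2 ^ (t + 2) := by
  have hmem : f * g ∈ M0 ⊔ M1 :=
    Subgroup.mul_mem _ (Subgroup.mem_sup_left hf) (Subgroup.mem_sup_right hg)
  obtain ⟨k, hk'⟩ := hT ⟨f * g, hmem⟩
  have hk2 : (f * g) ^ 2 ^ k = 1 := congrArg Subtype.val hk'
  obtain ⟨t, -, ht⟩ := (Nat.dvd_prime_pow Nat.prime_two).1 (orderOf_dvd_of_pow_eq_one hk2)
  by_cases h2 : 2 ≤ t
  · refine ⟨t - 2, ?_⟩
    rw [ht]
    congr 1
    omega
  · exfalso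
    have h3 : orderOf (f * g) ∣ 2 := by
      rw [ht]
      have h4 : t ≤ 1 := by omega
      have h5 := pow_dvd_pow 2 h4
      rwa [pow_one] at h5
    have h4 : (f * g) ^ 2 = 1 := orderOf_dvd_iff_pow_eq_one.1 h3
    have h5 : f * g = g * f := by
      have h6 : f * g = (f * g)⁻¹ := by
        rw [eq_inv_iff_mul_eq_one, ← pow_two]
        exact h4
      rw [h6, mul_inv_rev, Cl.inv h l0.cl hf, Cl.inv h l1.cl hg]
    exact hne (Ln.cm h hno hk hA l0 l1 hf hfA hg hgA h5)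

/-- facts on the dihedral group -/
private theorem dih33 {f g : G} (hff : f * f = 1) (hgg : g * g = 1) (j : ℕ) :
    f * (f * g) ^ j * f⁻¹ = ((f * g) ^ j)⁻¹ ∧ g * (f * g) ^ j * g⁻¹ = ((f * g) ^ j)⁻¹ := by
  have hf : f⁻¹ = f := inv_eq_of_mul_eq_one_right hff
  have hg : g⁻¹ = g := inv_eq_of_mul_eq_one_right hgg
  have h1 : f * (f * g) * f⁻¹ = (f * g)⁻¹ := by
    rw [mul_inv_rev, ← mul_assoc, hff, one_mul, hg]
  have h2 : g * (f * g) * g⁻¹ = (f * g)⁻¹ := by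
    rw [mul_inv_rev, hf, hg, mul_assoc, mul_assoc, hgg, mul_one]
  constructor
  · rw [← conj_pow, h1, inv_pow]
  · rw [← conj_pow, h2, inv_pow]

theorem ze_mem (h : Sys S q) (hno : ∀ A B D, NR S A B → D ∈ S → Cm D A → Cm D B → False)
    (hk : ∀ A M, A ∈ S → Cl S M → A ≤ M → Nat.card M ≤ q ^ 2) (hA : A ∈ S) (l0 : Ln S A M0) (l1 : Ln S A M1)
    (hne : M0 ≠ M1) (hT : IsPGroup 2 (M0 ⊔ M1 : Subgroup G)) {f g : G} (hf : f ∈ M0) (hg : g ∈ M1) : ze A f g ∈ A := by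
  by_cases hfA : f ∈ A
  · rw [ze_left hfA]
    exact A.one_mem
  by_cases hgA : g ∈ A
  · rw [ze_right hgA]
    exact A.one_mem
  rw [ze_of hfA hgA]
  obtain ⟨t, ht⟩ := ze_ord h hno hk hA l0 l1 hne hT hf hfA hg hgA
  have hff := Cl.sq h l0.cl f hf
  have hgg := Cl.sq h l1.cl g hg
  have hdiv : orderOf (f * g) / 2 = 2 ^ t + 2 ^ t := by
    rw [ht, pow_succ, Nat.mul_div_cancel _ (by norm_num), pow_succ]
    ring
  rw [hdiv]
  obtain ⟨p, hp⟩ : ∃ p, p = (f * g) ^ 2 ^ t := ⟨_, rfl⟩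
  have hz : (f * g) ^ (2 ^ t + 2 ^ t) = p * p := by rw [pow_add, hp]
  rw [hz]
  obtain ⟨h1, h2⟩ := dih33 hff hgg (2 ^ t)
  rw [← hp] at h1 h2
  have hzz : (p * p) * (p * p) = 1 := by
    have h3 : 2 ^ t + 2 ^ t + (2 ^ t + 2 ^ t) = orderOf (f * g) := by
      rw [ht, pow_add]
      ring
    rw [← hz, ← pow_add, h3, pow_orderOf_eq_one]
  have hz1 : p * p ≠ 1 := by
    rw [← hz]
    refine pow_ne_one_of_lt_orderOf (by positivity) ?_
    rw [ht, pow_add]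
    have : 0 < 2 ^ t := by positivity
    omega
  have hinv : (p * p)⁻¹ = p * p := inv_eq_of_mul_eq_one_right hzz
  have hzf : p * p * f = f * (p * p) := by
    have h3 : f * (p * p) * f⁻¹ = (p * p)⁻¹ := by
      calc f * (p * p) * f⁻¹ = (f * p * f⁻¹) * (f * p * f⁻¹) := by group
        _ = (p * p)⁻¹ := by rw [h1, mul_inv_rev]
    rw [hinv, mul_inv_eq_iff_eq_mul] at h3
    exact h3.symm
  have hzg : p * p * g = g * (p * p) := by
    have h3 : g * (p * p) * g⁻¹ = (p * p)⁻¹ := by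
      calc g * (p * p) * g⁻¹ = (g * p * g⁻¹) * (g * p * g⁻¹) := by group
        _ = (p * p)⁻¹ := by rw [h2, mul_inv_rev]
    rw [hinv, mul_inv_eq_iff_eq_mul] at h3
    exact h3.symm
  have hpf : p * p * f = p * f * p⁻¹ := by
    have h3 : p * f = f * p⁻¹ := by
      have h4 : f * p = p⁻¹ * f := by rwa [mul_inv_eq_iff_eq_mul] at h1
      calc p * f = p * (f * p) * p⁻¹ := by group
        _ = f * p⁻¹ := by rw [h4]; group
    calc p * p * f = p * (p * f) := mul_assoc _ _ _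
      _ = p * (f * p⁻¹) := congrArg (fun y => p * y) h3
      _ = p * f * p⁻¹ := (mul_assoc _ _ _).symm
  -- the centraliser of `A`
  have hct : p ∈ ct A := by
    rw [hp]
    exact Subgroup.pow_mem _ (Subgroup.mul_mem _ (Ln.ctA l0 hf) (Ln.ctA l1 hg)) _
  have hzct : p * p ∈ ct A := Subgroup.mul_mem _ hct hct
  have hpA : cj p A = A := by
    obtain ⟨x, hx, hx1⟩ := Sys.exists_ne h hA
    exact Sys.nz_of_comm h hA hx hx1 (hct x hx)
  have hf1 : f ≠ 1 := fun h0 => hfA (h0 ▸ A.one_mem)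
  obtain ⟨E, hE, hfE, hEM⟩ := l0.cl.mem f hf hf1
  have hAE : Cm A E := fun x hx y hy => l0.cl.comm x (l0.le hx) y (hEM hy)
  have hAE' : Cm A (cj p E) := by
    have h3 := Cm.cj' hAE p
    rwa [hpA] at h3
  have hzfE : p * p * f ∈ cj p E := by
    rw [hpf]
    exact conj_mem_cj hfE
  have hzf1 : p * p * f ≠ 1 := by
    rw [hpf]
    intro h0
    exact hf1 (conj_eq_one_iff.1 h0)
  have hEE : Cm (cj p E) E := by
    refine cm_of_common h hno hA (h.conj E hE p) hE hAE' hAE hzfE hzf1 hfE hf1 ?_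
    rw [hzf, mul_assoc, hzf]
  obtain ⟨F, hF, hzF⟩ := h.C _ (h.conj E hE p) E hE hEE (p * p * f) hzfE f hfE (by
    rw [mul_assoc (p * p), hff, mul_one]
    exact hz1)
  rw [mul_assoc (p * p), hff, mul_one] at hzF
  by_contra hzA
  have hAF : Cm A F := Sys.cm_of_elem h hA hF hzF hz1 hzct
  obtain ⟨N, hN, hAN, hFN⟩ := Sys.join2 h hA hF hAF
  have lN : Ln S A N := ⟨hN, hAN, fun h0 => hzA (h0 ▸ hFN hzF)⟩
  have e0 := Ln.cm h hno hk hA lN l0 (hFN hzF) hzA hf hfA hzf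
  have e1 := Ln.cm h hno hk hA lN l1 (hFN hzF) hzA hg hgA hzg
  exact hne (e0.symm.trans e1)

theorem ze_ne (h : Sys S q) (hno : ∀ A B D, NR S A B → D ∈ S → Cm D A → Cm D B → False)
    (hk : ∀ A M, A ∈ S → Cl S M → A ≤ M → Nat.card M ≤ q ^ 2) (hA : A ∈ S) (l0 : Ln S A M0) (l1 : Ln S A M1)
    (hne : M0 ≠ M1) (hT : IsPGroup 2 (M0 ⊔ M1 : Subgroup G)) {f g : G} (hf : f ∈ M0) (hfA : f ∉ A) (hg : g ∈ M1)
    (hgA : g ∉ A) : ze A f g ≠ 1 := by
  rw [ze_of hfA hgA]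
  obtain ⟨t, ht⟩ := ze_ord h hno hk hA l0 l1 hne hT hf hfA hg hgA
  have h1 : 0 < 2 ^ t := by positivity
  have h2 : orderOf (f * g) = 4 * 2 ^ t := by
    rw [ht, pow_add]
    ring
  refine pow_ne_one_of_lt_orderOf ?_ ?_ <;> omega

theorem ze_symm (h : Sys S q) (hno : ∀ A B D, NR S A B → D ∈ S → Cm D A → Cm D B → False)
    (hk : ∀ A M, A ∈ S → Cl S M → A ≤ M → Nat.card M ≤ q ^ 2) (hA : A ∈ S) (l0 : Ln S A M0) (l1 : Ln S A M1)
    (hne : M0 ≠ M1) (hT : IsPGroup 2 (M0 ⊔ M1 : Subgroup G)) {f g : G} (hf : f ∈ M0) (hg : g ∈ M1) :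
    ze A g f = ze A f g := by
  by_cases hfA : f ∈ A
  · rw [ze_left hfA, ze_right hfA]
  by_cases hgA : g ∈ A
  · rw [ze_left hgA, ze_right hgA]
  have h1 := Sys.inv h hA (ze_mem h hno hk hA l0 l1 hne hT hf hg)
  rw [ze_of hfA hgA] at h1 ⊢
  rw [ze_of hgA hfA]
  have h2 : g * f = (f * g)⁻¹ := by rw [mul_inv_rev, Cl.inv h l0.cl hf, Cl.inv h l1.cl hg]
  rw [h2, orderOf_inv, inv_pow, h1]

theorem ze_conj {x f g : G} (hx : x ∈ nz A) : x * ze A f g * x⁻¹ = ze A (x * f * x⁻¹) (x * g * x⁻¹) := by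
  have hiff : ∀ y : G, x * y * x⁻¹ ∈ A ↔ y ∈ A := by
    intro y
    have h1 := conj_mem_cj_iff (g := x) (x := y) (A := A)
    rwa [mem_nz.1 hx] at h1
  by_cases hfA : f ∈ A
  · rw [ze_left hfA, ze_left ((hiff f).2 hfA), mul_one, mul_inv_cancel]
  by_cases hgA : g ∈ A
  · rw [ze_right hgA, ze_right ((hiff g).2 hgA), mul_one, mul_inv_cancel]
  rw [ze_of hfA hgA, ze_of (fun h0 => hfA ((hiff f).1 h0)) (fun h0 => hgA ((hiff g).1 h0))]
  have h1 : x * f * x⁻¹ * (x * g * x⁻¹) = x * (f * g) * x⁻¹ := by group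
  have h2 : orderOf (x * (f * g) * x⁻¹) = orderOf (f * g) :=
    orderOf_injective (MulAut.conj x).toMonoidHom (MulAut.conj x).injective (f * g)
  rw [h1, h2, conj_pow]

end Pool.Agent.Helper37.WC
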