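import Pool.Agent.Helper37.WC.Defs

/-!
WC-33 (MP_b5afc9_al, project WC). In a finite `2`-group `T` a proper subgroup `M` and a conjugate `cj f M`, `f ∈ T`, generate a proper subgroup: `M` lies in a maximal subgroup of `T`, which is normal
(in `↥T`: `IsPGroup.isNilpotent`, `normalizerCondition_of_isNilpotent`, `Subgroup.NormalizerCondition.normal_of_coatom`, `eq_top_or_exists_le_coatom`; use `Subgroup.subgroupOf` and map back).
-/

namespace Pool.Agent.Helper37.WC

theorem sup_cj_ne {G : Type*} [Group G] [Finite G] {T M : Subgroup G} (hT : IsPGroup 2 T) (hM : M ≤ T) (hne : M ≠ T)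
    {f : G} (hf : f ∈ T) : M ⊔ cj f M ≤ T ∧ M ⊔ cj f M ≠ T := by
  have hcj : cj f M ≤ T := by
    intro x hx
    have h1 := hM (mem_cj.1 hx)
    have h2 : x = f * (f⁻¹ * x * f) * f⁻¹ := by group
    rw [h2]
    exact T.mul_mem (T.mul_mem hf h1) (T.inv_mem hf)
  refine ⟨sup_le hM hcj, fun heq => ?_⟩
  have : Fact (Nat.Prime 2) := ⟨Nat.prime_two⟩
  have hnil : Group.IsNilpotent T := hT.isNilpotent
  have hM' : M.subgroupOf T ≠ ⊤ := by
    intro h1
    exact hne (le_antisymm hM (Subgroup.subgroupOf_eq_top.1 h1))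
  obtain ⟨K, hK, hMK⟩ := (eq_top_or_exists_le_coatom (M.subgroupOf T)).resolve_left hM'
  have hnor : K.Normal := Subgroup.NormalizerCondition.normal_of_coatom K (Group.normalizerCondition_of_isNilpotent (G := T)) hK
  have h2 : T ≤ K.map T.subtype := by
    conv_lhs => rw [← heq]
    refine sup_le ?_ ?_
    · intro x hx
      exact ⟨⟨x, hM hx⟩, hMK (Subgroup.mem_subgroupOf.2 hx), rfl⟩
    · intro x hx
      have h3 := mem_cj.1 hx
      have h4 : (⟨f⁻¹ * x * f, hM h3⟩ : T) ∈ K := hMK (Subgroup.mem_subgroupOf.2 h3)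
      have h5 := hnor.conj_mem _ h4 ⟨f, hf⟩
      refine ⟨_, h5, ?_⟩
      simp [mul_assoc]
  apply hK.1
  rw [eq_top_iff]
  rintro ⟨x, hx⟩ -
  obtain ⟨y, hy, hyx⟩ := h2 hx
  have h6 : y = ⟨x, hx⟩ := Subtype.ext hyx
  rw [← h6]
  exact hy

end Pool.Agent.Helper37.WC
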