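import Pool.Agent.Helper37.WC.Z1
import Pool.Agent.Helper37.WC.Zn

/-!
WC-34 (MP_b5afc9_al, project WC). `ze` is biadditive.

`M0 ≠ M1` lines over `A`, `M0 ⊔ M1` a `2`-group.
* `ze_c`: `f ∈ M0`, `f ∉ A`, `cj f M1 = M1`, `g ∈ M1`: `ze A f g = f*g*f⁻¹*g⁻¹`. If `g ∈ A` both sides are `1` (`f ∈ ct A`). If `g ∉ A`: `f⁻¹ = f`, `g⁻¹ = g`, `(f*g)^2 = (f*g*f⁻¹)*g` with `f*g*f⁻¹ ∈ M1`; so `(f*g)^4 = 1` (`M1` is abelian of exponent two), and by `ze_ord` `orderOf (f*g) = 2^(t+2)` divides `4`, so it is `4`, and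
  `ze A f g = (f*g)^2 = f*g*f⁻¹*g⁻¹`.
* `ze_d`: `f ∈ M0`, `f ∉ A`, `cj f M1 ≠ M1`, `g ∈ M1`: `ze A f g = ze A g (f*g*f⁻¹)`. If `g ∈ A` both sides are `1`. If `g ∉ A`: `cj f M1` is a line over `A` (`Ln.conj'`, `f ∈ ct A ≤ nz A`), `f*g*f⁻¹ ∉ A`. `g*(f*g*f⁻¹) = (g*f)^2`. `orderOf (g*f) = orderOf (f*g) = 2^(t+2)` so `orderOf ((g*f)^2) = 2^(t+1)`, and
  `ze A g (f*g*f⁻¹) = ((g*f)^2)^(2^t) = (g*f)^(2^(t+1)) = (f*g)^(-2^(t+1)) = (f*g)^(2^(t+1)) = ze A f g`. (`t + 1 ≥ 1` is enough.)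
* `ze_add`: by strong induction on `Nat.card (M0 ⊔ M1)`, for all `M0, M1`: for `f ∈ M0`, `g, g' ∈ M1`: `ze A f (g*g') = ze A f g * ze A f g'`. `f ∈ A` is trivial. If `cj f M1 = M1`, by `ze_c`: `[f, g*g'] = [f, g]*g*[f, g']*g⁻¹ = [f, g]*[f, g']` (`[f, g'] ∈ M1` abelian). If `cj f M1 ≠ M1`: put `Φ g g' = ze A g (f*g'*f⁻¹)`, `g, g' ∈ M1`.
  `M1` and `cj f M1` are different lines over `A`, `M1 ⊔ cj f M1` is properly contained in `M0 ⊔ M1` (`sup_cj_ne`; `M1 ≠ M0 ⊔ M1` by `Ln.not_le`), so it is a `2`-group (`IsPGroup.to_le`) of smaller order. By induction for `(M1, cj f M1)` `Φ` is additive in `g'`. `Φ` is symmetric: `Φ g' g = ze A g' (f*g*f⁻¹) ∈ A` (`ze_mem`) commutes with `f`, so it is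
  `f*(Φ g' g)*f⁻¹ = ze A (f*g'*f⁻¹) (f*(f*g*f⁻¹)*f⁻¹) = ze A (f*g'*f⁻¹) g = ze A g (f*g'*f⁻¹) = Φ g g'` (`ze_conj`, `f*f = 1`, `ze_symm`). So it is additive in both variables, and by `ze_d` `ze A f (g*g') = Φ (g*g') (g*g') = Φ g g * Φ g g' * Φ g' g * Φ g' g' = Φ g g * Φ g' g'` (values in `A`, abelian of exponent two).
* `ze_add'`: additivity in the first variable, by `ze_symm` and `ze_add` for `(M1, M0)`.
-/

namespace Pool.Agent.Helper37.WC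

variable {G : Type*} [Group G] [Finite G] {S : Set (Subgroup G)} {q : ℕ} {A B E F M M0 M1 : Subgroup G}

private theorem ct_nz92 {f : G} (hf : f ∈ ct A) : f ∈ nz A := by
  apply mem_nz_of
  intro x hx
  rw [conj_eq_iff.2 (hf x hx)]
  exact hx

private theorem conj_notMem92 {f g : G} (hf : f ∈ ct A) (hg : g ∉ A) : f * g * f⁻¹ ∉ A := by
  intro hc
  apply hg
  have h1 : f⁻¹ * (f * g * f⁻¹) * (f⁻¹)⁻¹ ∈ A := nz_conj_mem ((nz A).inv_mem (ct_nz92 hf)) hc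
  have h2 : f⁻¹ * (f * g * f⁻¹) * (f⁻¹)⁻¹ = g := by group
  rwa [h2] at h1

theorem ze_c (h : Sys S q) (hno : ∀ A B D, NR S A B → D ∈ S → Cm D A → Cm D B → False)
    (hk : ∀ A M, A ∈ S → Cl S M → A ≤ M → Nat.card M ≤ q ^ 2) (hA : A ∈ S) (l0 : Ln S A M0) (l1 : Ln S A M1)
    (hne : M0 ≠ M1) (hT : IsPGroup 2 (M0 ⊔ M1 : Subgroup G)) {f g : G} (hf : f ∈ M0) (hfA : f ∉ A) (hfM : cj f M1 = M1)
    (hg : g ∈ M1) : ze A f g = f * g * f⁻¹ * g⁻¹ := by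
  by_cases hgA : g ∈ A
  · rw [ze_right hgA, conj_eq_iff.2 (l0.ctA hf g hgA), mul_inv_cancel]
  · obtain ⟨t, ht⟩ := ze_ord h hno hk hA l0 l1 hne hT hf hfA hg hgA
    have hfi : f⁻¹ = f := l0.cl.inv h hf
    have hgi : g⁻¹ = g := l1.cl.inv h hg
    have hu : f * g * f⁻¹ ∈ M1 := nz_conj_mem (mem_nz.2 hfM) hg
    have h1 : (f * g) ^ 2 = (f * g * f⁻¹) * g := by
      rw [hfi, pow_two]
      group
    have h2 : (f * g) ^ 4 = 1 := by
      have h3 : (f * g) ^ 4 = ((f * g) ^ 2) * ((f * g) ^ 2) := by rw [← pow_add]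
      have h4 : (f * g * f⁻¹) * (f * g * f⁻¹) = 1 := l1.cl.sq h _ hu
      have h5 : g * g = 1 := l1.cl.sq h _ hg
      have h6 := l1.cl.comm _ hg _ hu
      rw [h3, h1]
      calc (f * g * f⁻¹) * g * ((f * g * f⁻¹) * g) = (f * g * f⁻¹) * (g * (f * g * f⁻¹)) * g := by
            simp only [mul_assoc]
        _ = ((f * g * f⁻¹) * (f * g * f⁻¹)) * (g * g) := by
            rw [h6]
            simp only [mul_assoc]
        _ = 1 := by rw [h4, h5, one_mul]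
    have h3 : 2 ^ (t + 2) ∣ 4 := by
      rw [← ht]
      exact orderOf_dvd_of_pow_eq_one h2
    have h4 : orderOf (f * g) = 4 := by
      have h5 : 2 ^ (t + 2) ≤ 4 := Nat.le_of_dvd (by norm_num) h3
      have h6 : 1 ≤ 2 ^ t := Nat.one_le_two_pow
      have h7 : 2 ^ (t + 2) = 4 * 2 ^ t := by ring
      rw [ht]
      omega
    rw [ze_of hfA hgA, h4, hgi]
    exact h1

theorem ze_d (h : Sys S q) (hno : ∀ A B D, NR S A B → D ∈ S → Cm D A → Cm D B → False)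
    (hk : ∀ A M, A ∈ S → Cl S M → A ≤ M → Nat.card M ≤ q ^ 2) (hA : A ∈ S) (l0 : Ln S A M0) (l1 : Ln S A M1)
    (hne : M0 ≠ M1) (hT : IsPGroup 2 (M0 ⊔ M1 : Subgroup G)) {f g : G} (hf : f ∈ M0) (hfA : f ∉ A) (hfM : cj f M1 ≠ M1)
    (hg : g ∈ M1) : ze A f g = ze A g (f * g * f⁻¹) := by
  by_cases hgA : g ∈ A
  · rw [ze_right hgA, ze_left hgA]
  · obtain ⟨t, ht⟩ := ze_ord h hno hk hA l0 l1 hne hT hf hfA hg hgA
    have hfi : f⁻¹ = f := l0.cl.inv h hf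
    have hgi : g⁻¹ = g := l1.cl.inv h hg
    have hu : f * g * f⁻¹ ∉ A := conj_notMem92 (l0.ctA hf) hgA
    have h1 : g * f = (f * g)⁻¹ := by rw [mul_inv_rev, hfi, hgi]
    have h2 : g * (f * g * f⁻¹) = (g * f) ^ 2 := by
      rw [hfi, pow_two]
      group
    have h3 : orderOf (g * f) = 2 ^ (t + 2) := by rw [h1, orderOf_inv, ht]
    have h4 : orderOf ((g * f) ^ 2) = 2 ^ (t + 1) := by
      rw [orderOf_pow_of_dvd (by norm_num) (by rw [h3]; exact dvd_pow_self 2 (by omega)), h3, pow_succ 2 (t + 1),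
        Nat.mul_div_cancel _ (by norm_num)]
    have h5 : (2 : ℕ) ^ (t + 2) / 2 = 2 ^ (t + 1) := by
      rw [pow_succ 2 (t + 1), Nat.mul_div_cancel _ (by norm_num)]
    have h6 : (2 : ℕ) ^ (t + 1) / 2 = 2 ^ t := by
      rw [pow_succ 2 t, Nat.mul_div_cancel _ (by norm_num)]
    rw [ze_of hfA hgA, ze_of hgA hu, h2, h4, ht, h5, h6, ← pow_mul, ← pow_succ', h1, inv_pow]
    symm
    apply inv_eq_of_mul_eq_one_right
    rw [← pow_add, ← two_mul, ← pow_succ', ← ht]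
    exact pow_orderOf_eq_one _

private theorem ze_add92 (h : Sys S q) (hno : ∀ A B D, NR S A B → D ∈ S → Cm D A → Cm D B → False)
    (hk : ∀ A M, A ∈ S → Cl S M → A ≤ M → Nat.card M ≤ q ^ 2) (hA : A ∈ S) (n : ℕ) :
    ∀ M0 M1 : Subgroup G, Ln S A M0 → Ln S A M1 → M0 ≠ M1 → IsPGroup 2 (M0 ⊔ M1 : Subgroup G) →
      Nat.card (M0 ⊔ M1 : Subgroup G) = n → ∀ f g g' : G, f ∈ M0 → g ∈ M1 → g' ∈ M1 →
      ze A f (g * g') = ze A f g * ze A f g' := by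
  induction n using Nat.strong_induction_on with
  | _ n ih =>
    intro M0 M1 l0 l1 hne hT hn f g g' hf hg hg'
    by_cases hfA : f ∈ A
    · rw [ze_left hfA, ze_left hfA, ze_left hfA, one_mul]
    by_cases hfM : cj f M1 = M1
    · rw [ze_c h hno hk hA l0 l1 hne hT hf hfA hfM (M1.mul_mem hg hg'),
        ze_c h hno hk hA l0 l1 hne hT hf hfA hfM hg, ze_c h hno hk hA l0 l1 hne hT hf hfA hfM hg']
      have hu' : f * g' * f⁻¹ ∈ M1 := nz_conj_mem (mem_nz.2 hfM) hg'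
      have h1 := l1.cl.comm _ (M1.mul_mem hu' (M1.inv_mem hg')) _ (M1.inv_mem hg)
      calc f * (g * g') * f⁻¹ * (g * g')⁻¹ = (f * g * f⁻¹) * ((f * g' * f⁻¹ * g'⁻¹) * g⁻¹) := by group
        _ = (f * g * f⁻¹) * (g⁻¹ * (f * g' * f⁻¹ * g'⁻¹)) := by rw [h1]
        _ = f * g * f⁻¹ * g⁻¹ * (f * g' * f⁻¹ * g'⁻¹) := by group
    · have hfc : f ∈ ct A := l0.ctA hf
      have hfz : f ∈ nz A := ct_nz92 hfc
      have l2 : Ln S A (cj f M1) := l1.conj' h hfz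
      have hM1 : M1 ≤ M0 ⊔ M1 := le_sup_right
      have hM1ne : M1 ≠ M0 ⊔ M1 := by
        intro hc
        apply l0.not_le h hk hA l1 hne
        rw [hc]
        exact le_sup_left
      have hfT : f ∈ M0 ⊔ M1 := (le_sup_left : M0 ≤ M0 ⊔ M1) hf
      obtain ⟨hle, hlne⟩ := sup_cj_ne hT hM1 hM1ne hfT
      have hT2 : IsPGroup 2 (M1 ⊔ cj f M1 : Subgroup G) := hT.to_le hle
      have hlt : Nat.card (M1 ⊔ cj f M1 : Subgroup G) < n := by
        rw [← hn]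
        refine lt_of_le_of_ne (Subgroup.card_le_of_le hle) fun hc => hlne ?_
        exact Subgroup.eq_of_le_of_card_ge hle hc.ge
      have hne2 : M1 ≠ cj f M1 := fun hc => hfM hc.symm
      have hIH := ih _ hlt M1 (cj f M1) l1 l2 hne2 hT2 rfl
      have hmem : ∀ x y, x ∈ M1 → y ∈ M1 → ze A x (f * y * f⁻¹) ∈ A := fun x y hx hy =>
        ze_mem h hno hk hA l1 l2 hne2 hT2 hx (conj_mem_cj hy)
      have hff : f * f = 1 := l0.cl.sq h _ hf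
      have hfi : f⁻¹ = f := l0.cl.inv h hf
      have hadd : ∀ x y y', x ∈ M1 → y ∈ M1 → y' ∈ M1 →
          ze A x (f * (y * y') * f⁻¹) = ze A x (f * y * f⁻¹) * ze A x (f * y' * f⁻¹) := by
        intro x y y' hx hy hy'
        have h1 : f * (y * y') * f⁻¹ = (f * y * f⁻¹) * (f * y' * f⁻¹) := by group
        rw [h1]
        exact hIH x _ _ hx (conj_mem_cj hy) (conj_mem_cj hy')
      have hsym : ∀ x y, x ∈ M1 → y ∈ M1 → ze A x (f * y * f⁻¹) = ze A y (f * x * f⁻¹) := by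
        intro x y hx hy
        have h1 : f * ze A x (f * y * f⁻¹) * f⁻¹ = ze A x (f * y * f⁻¹) := conj_eq_iff.2 (hfc _ (hmem x y hx hy))
        have h2 : f * (f * y * f⁻¹) * f⁻¹ = y := by
          rw [hfi]
          calc f * (f * y * f) * f = (f * f) * y * (f * f) := by group
            _ = y := by rw [hff]; group
        rw [← h1, ze_conj hfz, h2]
        exact ze_symm h hno hk hA l1 l2 hne2 hT2 hy (conj_mem_cj hx)
      have hgg : g * g' ∈ M1 := M1.mul_mem hg hg'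
      have hcomm := h.comm hA
      have hz1 := hmem g g hg hg
      have hz2 := hmem g' g' hg' hg'
      have hz := hmem g g' hg hg'
      have hzz := h.sq A hA _ hz
      rw [ze_d h hno hk hA l0 l1 hne hT hf hfA hfM hgg, ze_d h hno hk hA l0 l1 hne hT hf hfA hfM hg,
        ze_d h hno hk hA l0 l1 hne hT hf hfA hfM hg', hadd _ _ _ hgg hg hg', hsym _ _ hgg hg, hsym _ _ hgg hg',
        hadd _ _ _ hg hg hg', hadd _ _ _ hg' hg hg', hsym g' g hg' hg]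
      calc ze A g (f * g * f⁻¹) * ze A g (f * g' * f⁻¹) * (ze A g (f * g' * f⁻¹) * ze A g' (f * g' * f⁻¹))
          = ze A g (f * g * f⁻¹) * (ze A g (f * g' * f⁻¹) * ze A g (f * g' * f⁻¹)) * ze A g' (f * g' * f⁻¹) := by
            simp only [mul_assoc]
        _ = ze A g (f * g * f⁻¹) * ze A g' (f * g' * f⁻¹) := by rw [hzz, mul_one]

theorem ze_add (h : Sys S q) (hno : ∀ A B D, NR S A B → D ∈ S → Cm D A → Cm D B → False)
    (hk : ∀ A M, A ∈ S → Cl S M → A ≤ M → Nat.card M ≤ q ^ 2) (hA : A ∈ S) (l0 : Ln S A M0) (l1 : Ln S A M1)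
    (hne : M0 ≠ M1) (hT : IsPGroup 2 (M0 ⊔ M1 : Subgroup G)) {f g g' : G} (hf : f ∈ M0) (hg : g ∈ M1) (hg' : g' ∈ M1) :
    ze A f (g * g') = ze A f g * ze A f g' :=
  ze_add92 h hno hk hA _ M0 M1 l0 l1 hne hT rfl f g g' hf hg hg'

theorem ze_add' (h : Sys S q) (hno : ∀ A B D, NR S A B → D ∈ S → Cm D A → Cm D B → False)
    (hk : ∀ A M, A ∈ S → Cl S M → A ≤ M → Nat.card M ≤ q ^ 2) (hA : A ∈ S) (l0 : Ln S A M0) (l1 : Ln S A M1)
    (hne : M0 ≠ M1) (hT : IsPGroup 2 (M0 ⊔ M1 : Subgroup G)) {f f' g : G} (hf : f ∈ M0) (hf' : f' ∈ M0) (hg : g ∈ M1) :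
    ze A (f * f') g = ze A f g * ze A f' g := by
  rw [← ze_symm h hno hk hA l0 l1 hne hT (M0.mul_mem hf hf') hg, ← ze_symm h hno hk hA l0 l1 hne hT hf hg,
    ← ze_symm h hno hk hA l0 l1 hne hT hf' hg]
  have hT' : IsPGroup 2 (M1 ⊔ M0 : Subgroup G) := by
    rw [sup_comm]
    exact hT
  exact ze_add h hno hk hA l1 l0 hne.symm hT' hg hf hf'

end Pool.Agent.Helper37.WC
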